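import Mathlib.Probability.Distributions.Gaussian.Multivariate
import Mathlib.Algebra.MvPolynomial.Equiv
import Mathlib.Algebra.MvPolynomial.Funext
import Mathlib.Algebra.MvPolynomial.Monad
import Mathlib.Topology.Algebra.MvPolynomial

/-! # The zero set of a polynomial is null for a nondegenerate Gaussian measure -/

set_option autoImplicit false

namespace Pool.Agent.X112.LF

open MeasureTheory MvPolynomial ProbabilityTheory
open scoped Matrix MatrixOrder Matrix.Norms.L2Operator

lemma zero_null_pi (ν : Measure ℝ) [SigmaFinite ν] [NullSingletonClass ν] : ∀ (n : ℕ)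
    (Q : MvPolynomial (Fin n) ℝ), Q ≠ 0 →
    Measure.pi (fun _ : Fin n => ν) {x | eval x Q = 0} = 0 := by
  intro n
  induction n with
  | zero =>
    intro Q hQ
    have h0 : {x : Fin 0 → ℝ | eval x Q = 0} = ∅ := by
      rw [Set.eq_empty_iff_forall_notMem]
      intro x hx
      apply hQ
      apply MvPolynomial.funext
      intro y
      rw [map_zero, Subsingleton.elim y x]
      exact hx
    rw [h0, measure_empty]
  | succ n ih =>
    intro Q hQ
    obtain ⟨P, hPd⟩ : ∃ P, P = finSuccEquiv ℝ n Q := ⟨_, rfl⟩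
    have hP : P ≠ 0 := by
      rw [hPd]
      exact (map_ne_zero_iff _ (finSuccEquiv ℝ n).injective).2 hQ
    have h1 := ih P.leadingCoeff (Polynomial.leadingCoeff_ne_zero.2 hP)
    have hmp := measurePreserving_piFinSuccAbove (fun _ : Fin (n + 1) => ν) 0
    have hcl : IsClosed {p : ℝ × (Fin n → ℝ) | eval (Fin.cons p.1 p.2 : Fin (n + 1) → ℝ) Q = 0} := by
      refine isClosed_eq ?_ continuous_const
      refine (MvPolynomial.continuous_eval Q).comp ?_
      refine continuous_pi fun i => ?_
      refine Fin.cases ?_ (fun j => ?_) i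
      · simp only [Fin.cons_zero]
        exact continuous_fst
      · simp only [Fin.cons_succ]
        exact (continuous_apply j).comp continuous_snd
    have h2 : {x : Fin (n + 1) → ℝ | eval x Q = 0} =
        (MeasurableEquiv.piFinSuccAbove (fun _ => ℝ) 0) ⁻¹'
          {p : ℝ × (Fin n → ℝ) | eval (Fin.cons p.1 p.2 : Fin (n + 1) → ℝ) Q = 0} := by
      ext x
      simp only [Set.mem_ofPred_eq, Set.mem_preimage]
      have e : (Fin.cons ((MeasurableEquiv.piFinSuccAbove (fun _ => ℝ) 0) x).1
          ((MeasurableEquiv.piFinSuccAbove (fun _ => ℝ) 0) x).2 : Fin (n + 1) → ℝ) = x := by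
        funext i
        refine Fin.cases ?_ (fun j => ?_) i
        · simp [MeasurableEquiv.piFinSuccAbove]
        · simp [MeasurableEquiv.piFinSuccAbove, Fin.insertNthEquiv, Fin.tail]
      rw [e]
    rw [h2, hmp.measure_preimage hcl.measurableSet.nullMeasurableSet, Measure.prod_apply_symm hcl.measurableSet]
    rw [lintegral_eq_zero_iff']
    · have h3 : ∀ᵐ y ∂(Measure.pi fun _ : Fin n => ν), eval y P.leadingCoeff ≠ 0 := by
        rw [ae_iff]
        simpa using h1
      filter_upwards [h3] with y hy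
      have h4 : ((fun x => (x, y)) ⁻¹' {p : ℝ × (Fin n → ℝ) | eval (Fin.cons p.1 p.2 : Fin (n + 1) → ℝ) Q = 0}) =
          {a | Polynomial.eval a (Polynomial.map (eval y) P) = 0} := by
        ext a
        simp only [Set.mem_preimage, Set.mem_ofPred_eq]
        rw [eval_eq_eval_mv_eval', hPd]
      have h5 : Polynomial.map (eval y) P ≠ 0 := by
        intro hc
        apply hy
        have := congrArg (fun q => Polynomial.coeff q P.natDegree) hc
        simpa [Polynomial.coeff_map] using this
      have h6 : ({a | Polynomial.eval a (Polynomial.map (eval y) P) = 0} : Set ℝ).Finite := by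
        refine Set.Finite.subset (Polynomial.map (eval y) P).roots.toFinset.finite_toSet ?_
        intro a ha
        simp only [Finset.mem_coe, Multiset.mem_toFinset]
        exact (Polynomial.mem_roots h5).2 ha
      show ν _ = 0
      rw [h4]
      exact h6.measure_zero ν
    · exact (measurable_measure_prodMk_right hcl.measurableSet).aemeasurable

lemma gauss_null {m : ℕ} {S : Matrix (Fin m) (Fin m) ℝ} (hS : S.PosDef) (Q : MvPolynomial (Fin m) ℝ)
    (hQ : Q ≠ 0) : multivariateGaussian 0 S {x : EuclideanSpace ℝ (Fin m) | eval (fun i => x i) Q = 0} = 0 := by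
  obtain ⟨M, hM⟩ : ∃ M : Matrix (Fin m) (Fin m) ℝ, M = CFC.sqrt S := ⟨_, rfl⟩
  have hMM : M * M = S := by
    rw [hM]
    exact CFC.sqrt_mul_sqrt_self S hS.posSemidef.nonneg
  have hdet : IsUnit S.det := hS.isUnit.map Matrix.detMonoidHom
  obtain ⟨Q', hQ'⟩ : ∃ Q' : MvPolynomial (Fin m) ℝ, Q' = bind₁ (fun i => ∑ j, C (M i j) * X j) Q := ⟨_, rfl⟩
  have hev : ∀ z : Fin m → ℝ, eval z Q' = eval (M *ᵥ z) Q := by
    intro z
    rw [hQ', eval, eval₂Hom_bind₁]
    congr 2
    funext i
    simp [Matrix.mulVec, dotProduct]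
  have hQ'0 : Q' ≠ 0 := by
    intro hc
    apply hQ
    apply MvPolynomial.funext
    intro y
    have h1 := hev (M *ᵥ (S⁻¹ *ᵥ y))
    rw [hc, map_zero, Matrix.mulVec_mulVec, hMM, Matrix.mulVec_mulVec, Matrix.mul_nonsing_inv _ hdet,
      Matrix.one_mulVec] at h1
    rw [map_zero]
    exact h1.symm
  have hcl : IsClosed {x : EuclideanSpace ℝ (Fin m) | eval (fun i => x i) Q = 0} := by
    refine isClosed_eq ((MvPolynomial.continuous_eval Q).comp ?_) continuous_const
    fun_prop
  unfold multivariateGaussian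
  rw [← map_pi_eq_stdGaussian, Measure.map_map (by fun_prop) (by fun_prop),
    Measure.map_apply (by fun_prop) hcl.measurableSet]
  have : NullSingletonClass (gaussianReal 0 1) := nullSingletonClass_gaussianReal one_ne_zero
  have hset : ((fun x => (0 : EuclideanSpace ℝ (Fin m)) + Matrix.toEuclideanCLM (𝕜 := ℝ) (CFC.sqrt S) x) ∘
      WithLp.toLp 2) ⁻¹' {x : EuclideanSpace ℝ (Fin m) | eval (fun i => x i) Q = 0} = {z | eval z Q' = 0} := by
    ext z
    rw [Set.mem_preimage, Set.mem_ofPred_eq, Set.mem_ofPred_eq, hev, ← hM]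
    simp [Matrix.toEuclideanCLM_toLp]
  rw [hset]
  exact zero_null_pi (gaussianReal 0 1) m Q' hQ'0

end Pool.Agent.X112.LF
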