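import Pool.Agent.X112.LF.Joint2
import Pool.Agent.X112.LF.Zn

/-! # Polynomials in the increments are small with small probability -/

set_option autoImplicit false

namespace Pool.Agent.X112.LF

open Complex Filter Topology MeasureTheory Set ProbabilityTheory
open SG (NZ)
open scoped Matrix RealInnerProductSpace

/-- the value at `y` of the polynomial with the coefficients `c` -/
noncomputable def pv {m r : ℕ} (c : (Fin m → Fin (r + 1)) → ℝ) (y : Fin m → ℝ) : ℝ :=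
  ∑ e, c e * ∏ i, y i ^ (e i : ℕ)

lemma pv_cont {m r : ℕ} :
    Continuous (fun p : ((Fin m → Fin (r + 1)) → ℝ) × (Fin m → ℝ) => pv p.1 p.2) := by
  unfold pv
  fun_prop

lemma pv_smul {m r : ℕ} (a : ℝ) (c : (Fin m → Fin (r + 1)) → ℝ) (y : Fin m → ℝ) :
    pv (a • c) y = a * pv c y := by
  unfold pv
  rw [Finset.mul_sum]
  refine Finset.sum_congr rfl fun e _ => ?_
  rw [Pi.smul_apply, smul_eq_mul]
  ring

/-- the polynomial with the coefficients `c` -/
noncomputable def mp {m r : ℕ} (c : (Fin m → Fin (r + 1)) → ℝ) : MvPolynomial (Fin m) ℝ :=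
  ∑ e, MvPolynomial.monomial (Finsupp.equivFunOnFinite.symm (fun i => (e i : ℕ))) (c e)

lemma eval_mp {m r : ℕ} (c : (Fin m → Fin (r + 1)) → ℝ) (y : Fin m → ℝ) :
    MvPolynomial.eval y (mp c) = pv c y := by
  unfold mp pv
  rw [map_sum]
  refine Finset.sum_congr rfl fun e _ => ?_
  rw [MvPolynomial.eval_monomial, Finsupp.prod_fintype _ _ (fun i => pow_zero _)]
  rfl

lemma mp_ne {m r : ℕ} (c : (Fin m → Fin (r + 1)) → ℝ) (hc : c ≠ 0) : mp c ≠ 0 := by
  classical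
  obtain ⟨e, he⟩ : ∃ e, c e ≠ 0 := by
    by_contra h
    push Not at h
    exact hc (funext h)
  intro h0
  apply he
  have h1 := congrArg (MvPolynomial.coeff (Finsupp.equivFunOnFinite.symm (fun i => (e i : ℕ)))) h0
  unfold mp at h1
  rw [MvPolynomial.coeff_sum, MvPolynomial.coeff_zero, Finset.sum_eq_single e] at h1
  · rwa [MvPolynomial.coeff_monomial, if_pos rfl] at h1
  · intro e' _ hne
    rw [MvPolynomial.coeff_monomial, if_neg]
    intro h2
    apply hne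
    have h3 := Finsupp.equivFunOnFinite.symm.injective h2
    funext i
    exact Fin.ext (congrFun h3 i)
  · intro h; exact absurd (Finset.mem_univ e) h

/-- the conditions on a single pattern -/
structure Pt (A : ℕ) (B : ℝ) {m : ℕ} (h K T : ℝ) (k : Fin (m + 1) → ℝ) : Prop where
  hK : h ≤ K
  KA : K ≤ h ^ A
  T1 : 1 ≤ T
  KT : K * Real.log K ≤ B * Real.log T
  gap : ∀ i j, i ≠ j → h ≤ |k i - k j|
  wid : ∀ i j, |k i - k j| ≤ K
  k0 : k 0 = 0
  kn : ∀ i, 0 ≤ k i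

/-- the set where the polynomial is small near the vector -/
def Sm {m r : ℕ} (k : Fin (m + 1) → ℝ) (h T ε : ℝ) (c : (Fin m → Fin (r + 1)) → ℝ) : Set ℝ :=
  {t | t ∈ Icc T (2 * T) ∧ ∃ y : Fin m → ℝ, (∀ p, |xi k h T t p - y p| ≤ ε) ∧ |pv c y| ≤ ε}

theorem small_ball (A : ℕ) (B : ℝ) (hB : 1 ≤ B) (m r : ℕ) (θ : ℝ) (hθ : 0 < θ) :
    ∃ R ε : ℝ, 3 ≤ R ∧ 0 < ε ∧ ∀ (h K T : ℝ) (k : Fin (m + 1) → ℝ), R ≤ h → Pt A B h K T k →
      ∀ c : (Fin m → Fin (r + 1)) → ℝ, (∃ e, 1 ≤ |c e|) → volume.real (Sm k h T ε c) ≤ θ * T := by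
  obtain ⟨A0, hA0, hj⟩ := joint_lim B hB m
  by_contra hcon
  push Not at hcon
  have hch : ∀ j : ℕ, ∃ p : ℝ × ℝ × ℝ × (Fin (m + 1) → ℝ) × ((Fin m → Fin (r + 1)) → ℝ),
      A0 + j ≤ p.1 ∧ Pt A B p.1 p.2.1 p.2.2.1 p.2.2.2.1 ∧ (∃ e, 1 ≤ |p.2.2.2.2 e|) ∧
      θ * p.2.2.1 < volume.real (Sm p.2.2.2.1 p.1 p.2.2.1 (1 / ((j : ℝ) + 1)) p.2.2.2.2) := by
    intro j
    have hj0 : (0 : ℝ) ≤ j := Nat.cast_nonneg j
    obtain ⟨h, K, T, k, h1, h2, c, h3, h4⟩ := hcon (A0 + j) (1 / ((j : ℝ) + 1)) (by linarith) (by positivity)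
    exact ⟨(h, K, T, k, c), h1, h2, h3, h4⟩
  choose p hp using hch
  obtain ⟨h, hh⟩ : ∃ h : ℕ → ℝ, h = fun j => (p j).1 := ⟨_, rfl⟩
  obtain ⟨K, hK⟩ : ∃ K : ℕ → ℝ, K = fun j => (p j).2.1 := ⟨_, rfl⟩
  obtain ⟨T, hT⟩ : ∃ T : ℕ → ℝ, T = fun j => (p j).2.2.1 := ⟨_, rfl⟩
  obtain ⟨k, hk⟩ : ∃ k : ℕ → Fin (m + 1) → ℝ, k = fun j => (p j).2.2.2.1 := ⟨_, rfl⟩
  obtain ⟨c', hc'⟩ : ∃ c' : ℕ → (Fin m → Fin (r + 1)) → ℝ, c' = fun j => (p j).2.2.2.2 := ⟨_, rfl⟩
  have q1 : ∀ j : ℕ, A0 + j ≤ h j := fun j => by rw [hh]; exact (hp j).1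
  have q2 : ∀ j, Pt A B (h j) (K j) (T j) (k j) := fun j => by rw [hh, hK, hT, hk]; exact (hp j).2.1
  have q3 : ∀ j, ∃ e, 1 ≤ |c' j e| := fun j => by rw [hc']; exact (hp j).2.2.1
  have q4 : ∀ j : ℕ, θ * T j < volume.real (Sm (k j) (h j) (T j) (1 / ((j : ℝ) + 1)) (c' j)) := fun j => by
    rw [hh, hT, hk, hc']; exact (hp j).2.2.2
  have hT0 : ∀ j, 0 < T j := fun j => by linarith [(q2 j).T1]
  have hh3 : ∀ j, 3 ≤ h j := fun j => by
    have : (0 : ℝ) ≤ j := Nat.cast_nonneg j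
    linarith [q1 j]
  have hlh : ∀ j, 0 < Real.log (h j) := fun j => Real.log_pos (by linarith [hh3 j])
  -- normalisation
  have hcn : ∀ j, 1 ≤ ‖c' j‖ := fun j => by
    obtain ⟨e, he⟩ := q3 j
    exact he.trans (norm_le_pi_norm (c' j) e)
  obtain ⟨c, hc⟩ : ∃ c : ℕ → (Fin m → Fin (r + 1)) → ℝ, c = fun j => ‖c' j‖⁻¹ • c' j := ⟨_, rfl⟩
  have hc1 : ∀ j, ‖c j‖ = 1 := fun j => by
    have := hcn j
    rw [hc]
    simp only
    rw [norm_smul, norm_inv, norm_norm, inv_mul_cancel₀ (by linarith)]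
  obtain ⟨lam, hlam⟩ : ∃ lam : ℕ → Fin (m + 1) → Fin (m + 1) → ℝ,
    lam = fun j i i' => Real.log |k j i - k j i'| / Real.log (h j) := ⟨_, rfl⟩
  have hlb : ∀ j i i', |lam j i i'| ≤ A := by
    intro j i i'
    rw [hlam]
    simp only
    by_cases hii : i = i'
    · rw [hii, sub_self, abs_zero, Real.log_zero, zero_div, abs_zero]
      exact Nat.cast_nonneg A
    · have g1 := (q2 j).gap i i' hii
      have g2 := ((q2 j).wid i i').trans (q2 j).KA
      have g3 := hh3 j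
      have g4 : 0 ≤ Real.log |k j i - k j i'| := Real.log_nonneg (by linarith)
      rw [abs_of_nonneg (div_nonneg g4 (hlh j).le), div_le_iff₀ (hlh j), ← Real.log_pow]
      exact Real.log_le_log (by linarith) g2
  have hz : ∀ j, (c j, lam j) ∈ Metric.closedBall
      (0 : ((Fin m → Fin (r + 1)) → ℝ) × (Fin (m + 1) → Fin (m + 1) → ℝ)) (max 1 A) := by
    intro j
    rw [mem_closedBall_zero_iff, Prod.norm_def]
    refine max_le ?_ ?_
    · simp only
      rw [hc1]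
      exact le_max_left _ _
    · simp only
      have hA0' : (0 : ℝ) ≤ max 1 (A : ℝ) := le_trans zero_le_one (le_max_left _ _)
      rw [pi_norm_le_iff_of_nonneg hA0']
      intro i
      rw [pi_norm_le_iff_of_nonneg hA0']
      intro i'
      exact (hlb j i i').trans (le_max_right _ _)
  obtain ⟨z, -, φ, hφ, hzl⟩ := (isCompact_closedBall _ _).tendsto_subseq hz
  obtain ⟨cl, hcl⟩ : ∃ cl, cl = z.1 := ⟨_, rfl⟩
  obtain ⟨ll, hll⟩ : ∃ ll, ll = z.2 := ⟨_, rfl⟩
  have r1 : Tendsto (fun j => c (φ j)) atTop (𝓝 cl) := by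
    rw [hcl]
    exact (continuous_fst.tendsto z).comp hzl
  have r2' : Tendsto (fun j => lam (φ j)) atTop (𝓝 ll) := by
    rw [hll]
    exact (continuous_snd.tendsto z).comp hzl
  have r2 : ∀ i i', Tendsto (fun j => Real.log |k (φ j) i - k (φ j) i'| / Real.log (h (φ j))) atTop
      (𝓝 (ll i i')) := by
    intro i i'
    have h1 := (tendsto_pi_nhds.1 ((tendsto_pi_nhds.1 r2') i)) i'
    rw [hlam] at h1
    exact h1
  have hcl1 : ‖cl‖ = 1 := by
    refine tendsto_nhds_unique r1.norm (tendsto_const_nhds.congr fun j => ?_)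
    rw [hc1]
  have hcl0 : cl ≠ 0 := by
    intro h0
    rw [h0, norm_zero] at hcl1
    norm_num at hcl1
  have hφt : Tendsto (fun j => (φ j : ℝ)) atTop atTop := tendsto_natCast_atTop_atTop.comp hφ.tendsto_atTop
  have hpat : Pat B A0 (fun j => h (φ j)) (fun j => K (φ j)) (fun j => T (φ j)) (fun j => k (φ j)) := by
    refine ⟨fun j => ?_, fun j => (q2 _).hK, fun j => (q2 _).T1, ?_, fun j => (q2 _).KT,
      fun j => (q2 _).gap, fun j => (q2 _).wid, fun j => (q2 _).k0, fun j => (q2 _).kn⟩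
    · have : (0 : ℝ) ≤ φ j := Nat.cast_nonneg _
      linarith [q1 (φ j)]
    · refine tendsto_atTop_mono (fun j => ?_) hφt
      linarith [q1 (φ j)]
  obtain ⟨hpd, hchf⟩ := hj _ _ _ _ hpat ll r2
  -- weak convergence
  have hprob : ∀ j, IsProbabilityMeasure (nuT (k (φ j)) (h (φ j)) (T (φ j))) := fun j => nuT_prob _ _ (hT0 _)
  obtain ⟨ν, hν⟩ : ∃ ν : ℕ → ProbabilityMeasure (EuclideanSpace ℝ (Fin m)),
    ν = fun j => ⟨nuT (k (φ j)) (h (φ j)) (T (φ j)), hprob j⟩ := ⟨_, rfl⟩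
  obtain ⟨γ, hγ⟩ : ∃ γ : ProbabilityMeasure (EuclideanSpace ℝ (Fin m)),
    γ = ⟨multivariateGaussian 0 (Cov ll), inferInstance⟩ := ⟨_, rfl⟩
  have hwc : Tendsto ν atTop (𝓝 γ) := by
    rw [ProbabilityMeasure.tendsto_iff_tendsto_charFun]
    intro b
    have h1 := hchf b
    have h2 : charFun (γ : Measure (EuclideanSpace ℝ (Fin m))) b =
        cexp ((-((fun p => b p) ⬝ᵥ Cov ll *ᵥ (fun p => b p)) / 2 : ℝ) : ℂ) := by
      rw [hγ]
      show charFun (multivariateGaussian 0 (Cov ll)) b = _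
      rw [charFun_multivariateGaussian hpd.posSemidef]
      congr 1
      rw [inner_zero_right]
      push_cast
      ring
    rw [h2]
    refine h1.congr fun j => ?_
    rw [hν]
    rfl
  -- the closed sets
  have hnull := gauss_null hpd (mp cl) (mp_ne cl hcl0)
  have hx : Continuous fun x : EuclideanSpace ℝ (Fin m) => pv cl (fun i => x i) := by
    have h1 : Continuous fun x : EuclideanSpace ℝ (Fin m) => (cl, fun i => x i) := by fun_prop
    exact pv_cont.comp h1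
  have hG1 : ∃ n : ℕ, (γ : Measure (EuclideanSpace ℝ (Fin m))) {x | (n : ℝ) ≤ ‖x‖} < ENNReal.ofReal (θ / 3) := by
    have h1 := tendsto_measure_iInter_atTop (μ := (γ : Measure (EuclideanSpace ℝ (Fin m))))
      (s := fun n : ℕ => {x : EuclideanSpace ℝ (Fin m) | (n : ℝ) ≤ ‖x‖})
      (fun n => (isClosed_le continuous_const continuous_norm).measurableSet.nullMeasurableSet)
      (fun a b hab x hx => by
        simp only [mem_ofPred_eq] at hx ⊢
        exact le_trans (by exact_mod_cast hab) hx)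
      ⟨0, measure_ne_top _ _⟩
    have h2 : ⋂ n : ℕ, {x : EuclideanSpace ℝ (Fin m) | (n : ℝ) ≤ ‖x‖} = ∅ := by
      rw [Set.eq_empty_iff_forall_notMem]
      intro x hx
      obtain ⟨n, hn⟩ := exists_nat_gt ‖x‖
      have := mem_iInter.1 hx n
      simp only [mem_ofPred_eq] at this
      linarith
    rw [h2, measure_empty] at h1
    obtain ⟨n, hn⟩ := (h1.eventually (gt_mem_nhds (show (0 : ENNReal) < ENNReal.ofReal (θ / 3) by
      rw [ENNReal.ofReal_pos]; positivity))).exists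
    exact ⟨n, hn⟩
  have hG2 : ∃ n : ℕ, (γ : Measure (EuclideanSpace ℝ (Fin m))) {x | |pv cl (fun i => x i)| ≤ 1 / ((n : ℝ) + 1)} <
      ENNReal.ofReal (θ / 3) := by
    have h1 := tendsto_measure_iInter_atTop (μ := (γ : Measure (EuclideanSpace ℝ (Fin m))))
      (s := fun n : ℕ => {x : EuclideanSpace ℝ (Fin m) | |pv cl (fun i => x i)| ≤ 1 / ((n : ℝ) + 1)})
      (fun n => (isClosed_le hx.abs continuous_const).measurableSet.nullMeasurableSet)
      (fun a b hab x hx => by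
        simp only [mem_ofPred_eq] at hx ⊢
        refine hx.trans (one_div_le_one_div_of_le (by positivity) ?_)
        have : (a : ℝ) ≤ b := by exact_mod_cast hab
        linarith)
      ⟨0, measure_ne_top _ _⟩
    have h2 : ⋂ n : ℕ, {x : EuclideanSpace ℝ (Fin m) | |pv cl (fun i => x i)| ≤ 1 / ((n : ℝ) + 1)} ⊆
        {x : EuclideanSpace ℝ (Fin m) | MvPolynomial.eval (fun i => x i) (mp cl) = 0} := by
      intro x hx
      rw [mem_ofPred_eq, eval_mp]
      by_contra hne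
      have hpos := abs_pos.2 hne
      obtain ⟨n, hn⟩ := exists_nat_one_div_lt hpos
      have := mem_iInter.1 hx n
      simp only [mem_ofPred_eq] at this
      linarith
    have h3 : (γ : Measure (EuclideanSpace ℝ (Fin m)))
        (⋂ n : ℕ, {x : EuclideanSpace ℝ (Fin m) | |pv cl (fun i => x i)| ≤ 1 / ((n : ℝ) + 1)}) = 0 := by
      refine measure_mono_null h2 ?_
      rw [hγ]
      exact hnull
    rw [h3] at h1
    obtain ⟨n, hn⟩ := (h1.eventually (gt_mem_nhds (show (0 : ENNReal) < ENNReal.ofReal (θ / 3) by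
      rw [ENNReal.ofReal_pos]; positivity))).exists
    exact ⟨n, hn⟩
  obtain ⟨n1, hn1⟩ := hG1
  obtain ⟨n2, hn2⟩ := hG2
  obtain ⟨G, hG⟩ : ∃ G : Set (EuclideanSpace ℝ (Fin m)), G = {x | (n1 : ℝ) ≤ ‖x‖} ∪
    {x | |pv cl (fun i => x i)| ≤ 1 / ((n2 : ℝ) + 1)} := ⟨_, rfl⟩
  have hGc : IsClosed G := by
    rw [hG]
    exact (isClosed_le continuous_const continuous_norm).union (isClosed_le hx.abs continuous_const)
  have hγG : (γ : Measure (EuclideanSpace ℝ (Fin m))) G < ENNReal.ofReal θ := by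
    rw [hG]
    refine lt_of_le_of_lt (measure_union_le _ _) ?_
    refine lt_of_lt_of_le (ENNReal.add_lt_add hn1 hn2) ?_
    rw [← ENNReal.ofReal_add (by positivity) (by positivity)]
    exact ENNReal.ofReal_le_ofReal (by linarith)
  have hlim := eventually_lt_of_limsup_lt
    (lt_of_le_of_lt (ProbabilityMeasure.limsup_measure_closed_le_of_tendsto hwc hGc) hγG)
  -- uniform continuity
  have huc := (isCompact_closedBall (0 : ((Fin m → Fin (r + 1)) → ℝ) × (Fin m → ℝ)) ((n1 : ℝ) + 2)).uniformContinuousOn_of_continuous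
    pv_cont.continuousOn
  rw [Metric.uniformContinuousOn_iff] at huc
  obtain ⟨η, hη, huc⟩ := huc (1 / (2 * ((n2 : ℝ) + 1))) (by positivity)
  have e1 : ∀ᶠ j in atTop, dist (c (φ j)) cl < η := (Metric.tendsto_nhds.1 r1) η hη
  have e2 : Tendsto (fun j => 1 / ((φ j : ℝ) + 1)) atTop (𝓝 0) := by
    have : Tendsto (fun j => (φ j : ℝ) + 1) atTop atTop := tendsto_atTop_add_const_right _ _ hφt
    simp only [one_div]
    exact this.inv_tendsto_atTop
  have e3 := e2.eventually (gt_mem_nhds hη)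
  have e4 := e2.eventually (gt_mem_nhds (show (0 : ℝ) < 1 / (2 * ((n2 : ℝ) + 1)) by positivity))
  obtain ⟨j, g1, g2, g3, g4⟩ := (hlim.and (e1.and (e3.and e4))).exists
  have hTj := hT0 (φ j)
  obtain ⟨ε, hε⟩ : ∃ ε : ℝ, ε = 1 / ((φ j : ℝ) + 1) := ⟨_, rfl⟩
  have hε1 : ε ≤ 1 := by
    rw [hε, div_le_one (by positivity)]
    have : (0 : ℝ) ≤ φ j := Nat.cast_nonneg _
    linarith
  have hε0 : 0 < ε := by rw [hε]; positivity
  have hsub : Sm (k (φ j)) (h (φ j)) (T (φ j)) ε (c' (φ j)) ⊆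
      (xi (k (φ j)) (h (φ j)) (T (φ j))) ⁻¹' G ∩ Icc (T (φ j)) (2 * T (φ j)) := by
    rintro t ⟨ht, y, hy1, hy2⟩
    refine ⟨?_, ht⟩
    rw [mem_preimage, hG]
    by_cases hx1 : (n1 : ℝ) ≤ ‖xi (k (φ j)) (h (φ j)) (T (φ j)) t‖
    · left; exact hx1
    right
    push Not at hx1
    rw [mem_ofPred_eq]
    obtain ⟨x', hx'⟩ : ∃ x' : Fin m → ℝ, x' = fun i => xi (k (φ j)) (h (φ j)) (T (φ j)) t i := ⟨_, rfl⟩
    have hn10 : (0 : ℝ) ≤ n1 := Nat.cast_nonneg _
    have b1 : ∀ i, |x' i| ≤ n1 := fun i => by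
      rw [hx']
      exact (PiLp.norm_apply_le (xi (k (φ j)) (h (φ j)) (T (φ j)) t) i).trans hx1.le
    have b2 : ∀ i, |y i| ≤ n1 + 1 := fun i => by
      have h1 := hy1 i
      have h2 := b1 i
      rw [hx'] at h2
      have h3 := abs_le.1 h1
      have h4 := abs_le.1 h2
      rw [abs_le]
      constructor <;> linarith [h3.1, h3.2, h4.1, h4.2]
    have b3 := huc (c (φ j), y) (by
      rw [mem_closedBall_zero_iff, Prod.norm_def]
      refine max_le ?_ ?_
      · simp only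
        rw [hc1]; linarith
      · simp only
        rw [pi_norm_le_iff_of_nonneg (by linarith)]
        intro i
        rw [Real.norm_eq_abs]
        linarith [b2 i]) (cl, x') (by
      rw [mem_closedBall_zero_iff, Prod.norm_def]
      refine max_le ?_ ?_
      · simp only
        rw [hcl1]; linarith
      · simp only
        rw [pi_norm_le_iff_of_nonneg (by linarith)]
        intro i
        rw [Real.norm_eq_abs]
        linarith [b1 i]) (by
      rw [Prod.dist_eq]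
      refine max_lt g2 ?_
      simp only
      rw [dist_pi_lt_iff hη]
      intro i
      rw [Real.dist_eq, abs_sub_comm, hx']
      exact lt_of_le_of_lt (hy1 i) (by rw [hε]; exact g3))
    rw [Real.dist_eq] at b3
    simp only at b3
    have b4 : |pv (c (φ j)) y| ≤ ε := by
      rw [hc]
      simp only
      rw [pv_smul, abs_mul, abs_of_nonneg (by positivity)]
      have h1 : ‖c' (φ j)‖⁻¹ ≤ 1 := inv_le_one_of_one_le₀ (hcn _)
      calc ‖c' (φ j)‖⁻¹ * |pv (c' (φ j)) y| ≤ 1 * |pv (c' (φ j)) y| :=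
            mul_le_mul_of_nonneg_right h1 (abs_nonneg _)
        _ ≤ ε := by rw [one_mul]; exact hy2
    have b5 : ε < 1 / (2 * ((n2 : ℝ) + 1)) := by rw [hε]; exact g4
    have b6 : 1 / (2 * ((n2 : ℝ) + 1)) + 1 / (2 * ((n2 : ℝ) + 1)) = 1 / ((n2 : ℝ) + 1) := by
      field_simp
      norm_num
    have b7 := abs_lt.1 b3
    have b8 := abs_le.1 b4
    rw [← hx', ← b6, abs_le]
    constructor <;> linarith [b7.1, b7.2, b8.1, b8.2]
  have g5 : volume ((xi (k (φ j)) (h (φ j)) (T (φ j))) ⁻¹' G ∩ Icc (T (φ j)) (2 * T (φ j))) <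
      ENNReal.ofReal (θ * T (φ j)) := by
    rw [hν] at g1
    have h1 : nuT (k (φ j)) (h (φ j)) (T (φ j)) G < ENNReal.ofReal θ := g1
    unfold nuT Pm at h1
    rw [Measure.map_apply (xi_meas _ _ _) hGc.measurableSet, Measure.smul_apply, smul_eq_mul,
      Measure.restrict_apply ((xi_meas _ _ _) hGc.measurableSet)] at h1
    have h2 : ENNReal.ofReal (T (φ j)) * ENNReal.ofReal (1 / T (φ j)) = 1 := by
      rw [← ENNReal.ofReal_mul hTj.le, mul_one_div_cancel hTj.ne', ENNReal.ofReal_one]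
    have h3 := ENNReal.mul_lt_mul_right (a := ENNReal.ofReal (T (φ j))) (by
      rw [ne_eq, ENNReal.ofReal_eq_zero, not_le]; exact hTj) ENNReal.ofReal_ne_top h1
    rw [← mul_assoc, h2, one_mul, ← ENNReal.ofReal_mul hTj.le, mul_comm (T (φ j)) θ] at h3
    exact h3
  have g6 := measureReal_mono hsub g5.ne_top
  have g7 : volume.real ((xi (k (φ j)) (h (φ j)) (T (φ j))) ⁻¹' G ∩ Icc (T (φ j)) (2 * T (φ j))) ≤
      θ * T (φ j) := by
    rw [measureReal_def]
    refine (ENNReal.toReal_mono ENNReal.ofReal_ne_top g5.le).trans (le_of_eq ?_)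
    exact ENNReal.toReal_ofReal (by positivity)
  have g8 := q4 (φ j)
  rw [← hε] at g8
  linarith

end Pool.Agent.X112.LF
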