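import Pool.Agent.X112.LF.Poly
import Pool.Agent.X112.LF.SB

/-! # Integer polynomials near the diagonal -/

set_option autoImplicit false

namespace Pool.Agent.X112.LF

open MvPolynomial
open Pool.Agent.Y743.PR (nmon)

lemma cn_mul {f g : Polynomial ℝ} (hf : ∀ n, 0 ≤ f.coeff n) (hg : ∀ n, 0 ≤ g.coeff n) (n : ℕ) :
    0 ≤ (f * g).coeff n := by
  rw [Polynomial.coeff_mul]
  exact Finset.sum_nonneg fun p _ => mul_nonneg (hf _) (hg _)

lemma cn_one (n : ℕ) : 0 ≤ (1 : Polynomial ℝ).coeff n := by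
  rw [Polynomial.coeff_one]
  split_ifs <;> norm_num

lemma cn_pow {f : Polynomial ℝ} (hf : ∀ n, 0 ≤ f.coeff n) (k n : ℕ) : 0 ≤ (f ^ k).coeff n := by
  induction k generalizing n with
  | zero => rw [pow_zero]; exact cn_one n
  | succ k ih => rw [pow_succ]; exact cn_mul ih hf n

lemma cn_prod {ι : Type*} (s : Finset ι) (f : ι → Polynomial ℝ) (hf : ∀ i n, 0 ≤ (f i).coeff n) (n : ℕ) :
    0 ≤ (∏ i ∈ s, f i).coeff n := by
  classical
  induction s using Finset.induction_on generalizing n with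
  | empty => rw [Finset.prod_empty]; exact cn_one n
  | insert a s ha ih => rw [Finset.prod_insert ha]; exact cn_mul (hf a) ih n

lemma cn_le_eval {f : Polynomial ℝ} (hf : ∀ n, 0 ≤ f.coeff n) (n : ℕ) : f.coeff n ≤ f.eval 1 := by
  rw [Polynomial.eval_eq_sum_range]
  simp only [one_pow, mul_one]
  by_cases hn : n ≤ f.natDegree
  · exact Finset.single_le_sum (f := fun i => f.coeff i) (fun i _ => hf i) (Finset.mem_range.2 (by omega))
  · rw [Polynomial.coeff_eq_zero_of_natDegree_lt (by omega)]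
    exact Finset.sum_nonneg fun i _ => hf i

/-- the restriction to a line -/
noncomputable def fd {m : ℕ} (P : MvPolynomial (Fin (m + 1)) ℝ) (δ : Fin m → ℝ) : Polynomial ℝ :=
  ∑ s ∈ P.support, Polynomial.C (P.coeff s) *
    (Polynomial.X ^ (s 0) * ∏ i : Fin m, (Polynomial.X + Polynomial.C (δ i)) ^ (s i.succ))

lemma fd_eval {m : ℕ} (P : MvPolynomial (Fin (m + 1)) ℝ) (δ : Fin m → ℝ) (x : ℝ) :
    (fd P δ).eval x = eval (Fin.cons x (fun i => x + δ i) : Fin (m + 1) → ℝ) P := by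
  unfold fd
  rw [Polynomial.eval_finsetSum, MvPolynomial.eval_eq']
  refine Finset.sum_congr rfl fun s _ => ?_
  rw [Polynomial.eval_mul, Polynomial.eval_C, Polynomial.eval_mul, Polynomial.eval_pow, Polynomial.eval_X,
    Polynomial.eval_prod, Fin.prod_univ_succ]
  simp

lemma fd_coeff {m d : ℕ} {P : MvPolynomial (Fin (m + 1)) ℝ} (hD : P.totalDegree ≤ d) {H : ℝ}
    (hH : ∀ s, |P.coeff s| ≤ H) {G : ℝ} (hG : 0 ≤ G) (δ : Fin m → ℝ) (h0 : ∀ i, 0 ≤ δ i)
    (h1 : ∀ i, δ i ≤ G) (q : ℕ) :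
    |(fd P δ).coeff q| ≤ nmon (m + 1) d * (H * (1 + G) ^ d) := by
  have hH0 : 0 ≤ H := (abs_nonneg _).trans (hH 0)
  unfold fd
  rw [Polynomial.finsetSum_coeff]
  refine (Finset.abs_sum_le_sum_abs _ _).trans ?_
  have h2 : ∀ s ∈ P.support, |(Polynomial.C (P.coeff s) *
      (Polynomial.X ^ (s 0) * ∏ i : Fin m, (Polynomial.X + Polynomial.C (δ i)) ^ (s i.succ))).coeff q| ≤
      H * (1 + G) ^ d := by
    intro s hs
    rw [Polynomial.coeff_C_mul, abs_mul]
    refine mul_le_mul (hH s) ?_ (abs_nonneg _) hH0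
    have hX : ∀ n, 0 ≤ (Polynomial.X : Polynomial ℝ).coeff n := fun n => by
      rw [Polynomial.coeff_X]; split_ifs <;> norm_num
    have hc : ∀ n, 0 ≤ (Polynomial.X ^ (s 0) * ∏ i : Fin m, (Polynomial.X + Polynomial.C (δ i)) ^ (s i.succ)).coeff n := by
      refine cn_mul (cn_pow hX _) (cn_prod _ _ fun i => cn_pow (fun n => ?_) _)
      rw [Polynomial.coeff_add, Polynomial.coeff_C]
      refine add_nonneg (hX n) ?_
      split_ifs
      · exact h0 i
      · exact le_rfl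
    rw [abs_of_nonneg (hc q)]
    refine (cn_le_eval hc q).trans ?_
    rw [Polynomial.eval_mul, Polynomial.eval_pow, Polynomial.eval_X, one_pow, one_mul, Polynomial.eval_prod]
    have h3 : ∀ i ∈ (Finset.univ : Finset (Fin m)),
        Polynomial.eval 1 ((Polynomial.X + Polynomial.C (δ i)) ^ (s i.succ)) ≤ (1 + G) ^ (s i.succ) := by
      intro i _
      rw [Polynomial.eval_pow, Polynomial.eval_add, Polynomial.eval_X, Polynomial.eval_C]
      exact pow_le_pow_left₀ (by linarith [h0 i]) (by linarith [h1 i]) _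
    refine (Finset.prod_le_prod (fun i _ => ?_) h3).trans ?_
    · rw [Polynomial.eval_pow, Polynomial.eval_add, Polynomial.eval_X, Polynomial.eval_C]
      exact pow_nonneg (by linarith [h0 i]) _
    · rw [Finset.prod_pow_eq_pow_sum]
      apply pow_le_pow_right₀ (by linarith)
      have h4 := le_totalDegree (p := P) (s := s) hs
      rw [Finsupp.sum_fintype _ _ (fun _ => rfl), Fin.sum_univ_succ] at h4
      omega
  refine (Finset.sum_le_sum h2).trans ?_
  rw [Finset.sum_const, nsmul_eq_mul]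
  apply mul_le_mul_of_nonneg_right _ (by positivity)
  exact_mod_cast Pool.Agent.Y743.PR.card_support hD

/-- the substitution `X i ↦ X 0 + X i` for `i ≠ 0` -/
noncomputable def shr {R : Type*} [CommRing R] {m : ℕ} (P : MvPolynomial (Fin (m + 1)) R) :
    MvPolynomial (Fin (m + 1)) R :=
  bind₁ (Fin.cons (X 0) (fun i : Fin m => X 0 + X i.succ) : Fin (m + 1) → MvPolynomial (Fin (m + 1)) R) P

lemma shr_eval {m : ℕ} (P : MvPolynomial (Fin (m + 1)) ℝ) (δ : Fin m → ℝ) (x : ℝ) :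
    eval (Fin.cons x δ : Fin (m + 1) → ℝ) (shr P) = eval (Fin.cons x (fun i => x + δ i) : Fin (m + 1) → ℝ) P := by
  unfold shr
  rw [eval, eval₂Hom_bind₁]
  congr 2
  funext i
  refine Fin.cases ?_ (fun j => ?_) i <;> simp

lemma shr_ne {m : ℕ} (P : MvPolynomial (Fin (m + 1)) ℝ) (hP : P ≠ 0) : shr P ≠ 0 := by
  intro h0
  apply hP
  apply MvPolynomial.funext
  intro z
  have h1 := shr_eval P (fun i => z i.succ - z 0) (z 0)
  rw [h0, map_zero] at h1
  rw [map_zero]
  have h2 : (Fin.cons (z 0) (fun i : Fin m => z 0 + (z i.succ - z 0)) : Fin (m + 1) → ℝ) = z := by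
    funext i
    refine Fin.cases ?_ (fun j => ?_) i <;> simp
  rw [h2] at h1
  exact h1.symm

lemma shr_deg {m : ℕ} (P : MvPolynomial (Fin (m + 1)) ℝ) : (shr P).totalDegree ≤ P.totalDegree := by
  unfold shr bind₁
  rw [aeval_def, eval₂_eq']
  refine (totalDegree_finsetSum _ _).trans (Finset.sup_le fun s hs => ?_)
  refine (totalDegree_mul _ _).trans ?_
  rw [algebraMap_eq, totalDegree_C, zero_add]
  refine (totalDegree_finsetProd _ _).trans ?_
  have h4 := le_totalDegree (p := P) (s := s) hs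
  rw [Finsupp.sum_fintype _ _ (fun _ => rfl)] at h4
  refine le_trans (Finset.sum_le_sum fun i _ => ?_) h4
  refine (totalDegree_pow _ _).trans ?_
  have h5 : ((Fin.cons (X 0) (fun i : Fin m => X 0 + X i.succ) : Fin (m + 1) → MvPolynomial (Fin (m + 1)) ℝ) i).totalDegree ≤ 1 := by
    refine Fin.cases ?_ (fun j => ?_) i
    · simp
    · rw [Fin.cons_succ]
      refine (totalDegree_add _ _).trans ?_
      simp
  calc s i * _ ≤ s i * 1 := Nat.mul_le_mul_left _ h5
    _ = s i := mul_one _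

lemma shr_int {m : ℕ} (Q : MvPolynomial (Fin (m + 1)) ℤ) : shr (rp Q) = rp (shr Q) := by
  unfold shr rp
  rw [map_bind₁]
  congr 2
  funext i
  refine Fin.cases ?_ (fun j => ?_) i <;> simp

lemma fd_map {m : ℕ} (P : MvPolynomial (Fin (m + 1)) ℝ) (δ : Fin m → ℝ) :
    Polynomial.map (eval δ) (finSuccEquiv ℝ m (shr P)) = fd P δ := by
  apply Polynomial.funext
  intro x
  rw [← eval_eq_eval_mv_eval', shr_eval, fd_eval]

lemma lead_est {m d : ℕ} (Q : MvPolynomial (Fin (m + 1)) ℤ) (hQ : Q ≠ 0) (hd : Q.totalDegree ≤ d) (H : ℝ)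
    (hH : ∀ s, |((Q.coeff s : ℤ) : ℝ)| ≤ H) {G : ℝ} (hG : 0 ≤ G) :
    ∃ F : MvPolynomial (Fin m) ℝ, F ≠ 0 ∧ F.totalDegree ≤ d ∧ (∀ s, ∃ z : ℤ, F.coeff s = z) ∧
      ∀ x : ℝ, 1 ≤ x → ∀ δ : Fin m → ℝ, (∀ i, 0 ≤ δ i) → (∀ i, δ i ≤ G) →
        |eval δ F| ≤ |eval (Fin.cons x (fun i => x + δ i) : Fin (m + 1) → ℝ) (rp Q)| +
          d * (nmon (m + 1) d * (H * (1 + G) ^ d)) / x := by
  have hP : rp Q ≠ 0 := by
    unfold rp
    intro h0
    apply hQ
    apply map_injective (Int.castRingHom ℝ) (RingHom.injective_int (Int.castRingHom ℝ))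
    rw [h0, map_zero]
  obtain ⟨P, hPd⟩ : ∃ P, P = rp Q := ⟨_, rfl⟩
  have hH' : ∀ s, |P.coeff s| ≤ H := fun s => by rw [hPd, coeff_rp]; exact hH s
  have hdP : P.totalDegree ≤ d := by rw [hPd]; exact (deg_rp Q).trans hd
  obtain ⟨g, hg⟩ : ∃ g, g = finSuccEquiv ℝ m (shr P) := ⟨_, rfl⟩
  have hg0 : g ≠ 0 := by
    rw [hg]
    refine (map_ne_zero_iff _ (finSuccEquiv ℝ m).injective).2 (shr_ne P ?_)
    rw [hPd]; exact hP
  obtain ⟨q, hq⟩ : ∃ q, q = g.natDegree := ⟨_, rfl⟩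
  have hlc : g.coeff q ≠ 0 := by
    rw [hq]
    exact Polynomial.leadingCoeff_ne_zero.2 hg0
  have hqd : (g.coeff q).totalDegree + q ≤ d := by
    have := totalDegree_coeff_finSuccEquiv_add_le (shr P) q (by rw [← hg]; exact hlc)
    rw [← hg] at this
    exact this.trans ((shr_deg P).trans hdP)
  refine ⟨g.coeff q, hlc, by omega, ?_, ?_⟩
  · intro s
    refine ⟨(shr Q).coeff (s.cons q), ?_⟩
    rw [hg, finSuccEquiv_coeff_coeff, hPd, shr_int, coeff_rp]
  · intro x hx δ h0 h1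
    have hx0 : 0 < x := by linarith
    obtain ⟨Bd, hBd⟩ : ∃ Bd : ℝ, Bd = nmon (m + 1) d * (H * (1 + G) ^ d) := ⟨_, rfl⟩
    have hc : ∀ i, |(fd P δ).coeff i| ≤ Bd := fun i => by rw [hBd]; exact fd_coeff hdP hH' hG δ h0 h1 i
    have hBd0 : 0 ≤ Bd := (abs_nonneg _).trans (hc 0)
    have e1 : eval δ (g.coeff q) = (fd P δ).coeff q := by
      rw [← fd_map, Polynomial.coeff_map, hg]
    have hdeg : (fd P δ).natDegree < q + 1 := by
      rw [← fd_map, ← hg, hq]
      exact Nat.lt_succ_of_le (Polynomial.natDegree_map_le)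
    have e2 : eval (Fin.cons x (fun i => x + δ i) : Fin (m + 1) → ℝ) P =
        ∑ i ∈ Finset.range q, (fd P δ).coeff i * x ^ i + (fd P δ).coeff q * x ^ q := by
      rw [← fd_eval, Polynomial.eval_eq_sum_range' hdeg, Finset.sum_range_succ]
    rw [← hPd, e1, e2, ← hBd]
    obtain ⟨S, hS⟩ : ∃ S : ℝ, S = ∑ i ∈ Finset.range q, (fd P δ).coeff i * x ^ i := ⟨_, rfl⟩
    obtain ⟨f, hf⟩ : ∃ f : ℝ, f = (fd P δ).coeff q := ⟨_, rfl⟩
    rw [← hS, ← hf]
    have hxq : 1 ≤ x ^ q := one_le_pow₀ hx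
    have hSb : |S| * x ≤ q * (Bd * x ^ q) := by
      rw [hS, ← abs_of_pos hx0, ← abs_mul, abs_of_pos hx0, Finset.sum_mul]
      refine (Finset.abs_sum_le_sum_abs _ _).trans ?_
      have h2 : ∀ i ∈ Finset.range q, |(fd P δ).coeff i * x ^ i * x| ≤ Bd * x ^ q := by
        intro i hi
        rw [mul_assoc, ← pow_succ, abs_mul, abs_of_pos (pow_pos hx0 _)]
        exact mul_le_mul (hc i) (pow_le_pow_right₀ hx (Finset.mem_range.1 hi)) (by positivity) hBd0
      refine (Finset.sum_le_sum h2).trans (le_of_eq ?_)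
      rw [Finset.sum_const, Finset.card_range, nsmul_eq_mul]
    have hqd' : (q : ℝ) ≤ d := by exact_mod_cast (by omega : q ≤ d)
    have h3 : |f| * x ^ q ≤ |S + f * x ^ q| + |S| := by
      have h4 : f * x ^ q = (S + f * x ^ q) - S := by ring
      calc |f| * x ^ q = |f * x ^ q| := by rw [abs_mul, abs_of_pos (pow_pos hx0 q)]
        _ = |(S + f * x ^ q) - S| := by rw [← h4]
        _ ≤ _ := abs_sub _ _
    obtain ⟨V, hV⟩ : ∃ V : ℝ, V = |S + f * x ^ q| := ⟨_, rfl⟩
    have hV0 : 0 ≤ V := by rw [hV]; exact abs_nonneg _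
    rw [← hV] at h3 ⊢
    have h5 : |f| * x ^ q * x ≤ (V * x + d * Bd) * x ^ q := by
      have h6 : |f| * x ^ q * x ≤ (V + |S|) * x := mul_le_mul_of_nonneg_right h3 hx0.le
      have h7 : V * x ≤ V * x * x ^ q := le_mul_of_one_le_right (by positivity) hxq
      have h8 : (q : ℝ) * (Bd * x ^ q) ≤ d * (Bd * x ^ q) :=
        mul_le_mul_of_nonneg_right hqd' (by positivity)
      nlinarith
    have h9 : |f| * x ≤ V * x + d * Bd := by
      have : |f| * x * x ^ q ≤ (V * x + d * Bd) * x ^ q := by linarith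
      exact le_of_mul_le_mul_right this (by positivity)
    have h10 : V + d * Bd / x = (V * x + d * Bd) / x := by field_simp
    rw [h10, le_div_iff₀ hx0]
    exact h9

lemma pow_exp {d t : ℕ} (ht : t ≤ d) (a b : ℝ) :
    (a + b) ^ t = ∑ j : Fin (d + 1), (t.choose j : ℝ) * a ^ (t - (j : ℕ)) * b ^ (j : ℕ) := by
  rw [add_comm, add_pow, Fin.sum_univ_eq_sum_range (fun j => (t.choose j : ℝ) * a ^ (t - j) * b ^ j)]
  have h1 : ∑ j ∈ Finset.range (t + 1), b ^ j * a ^ (t - j) * (t.choose j : ℝ) =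
      ∑ j ∈ Finset.range (t + 1), (t.choose j : ℝ) * a ^ (t - j) * b ^ j :=
    Finset.sum_congr rfl fun j _ => by ring
  rw [h1]
  refine Finset.sum_subset (fun j hj => ?_) fun j _ hj => ?_
  · rw [Finset.mem_range] at hj ⊢; omega
  · rw [Finset.mem_range, not_lt] at hj
    rw [Nat.choose_eq_zero_of_lt (by omega)]
    simp

lemma shift_pv {m d : ℕ} (F : MvPolynomial (Fin m) ℝ) (hF : F ≠ 0) (hd : F.totalDegree ≤ d)
    (hi : ∀ s, ∃ z : ℤ, F.coeff s = z) (σ : ℝ) (hσ0 : 0 < σ) (hσ1 : σ ≤ 1) (κ : Fin m → ℝ) :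
    ∃ c : (Fin m → Fin (d + 1)) → ℝ, (∃ e, 1 ≤ |c e|) ∧
      ∀ ξ : Fin m → ℝ, σ ^ d * pv c ξ = eval (fun i => σ * (κ i + ξ i)) F := by
  classical
  have hsd : ∀ t ∈ F.support, ∑ i, t i ≤ F.totalDegree := fun t ht => by
    have h4 := le_totalDegree (p := F) (s := t) ht
    rwa [Finsupp.sum_fintype _ _ (fun _ => rfl)] at h4
  have hsi : ∀ t ∈ F.support, ∀ i, t i ≤ d := fun t ht i =>
    ((Finset.single_le_sum (f := fun i => t i) (fun _ _ => Nat.zero_le _) (Finset.mem_univ i)).trans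
      (hsd t ht)).trans hd
  obtain ⟨c, hc⟩ : ∃ c : (Fin m → Fin (d + 1)) → ℝ, c = fun e => (∑ t ∈ F.support, F.coeff t *
    (σ ^ (∑ i, t i) * ∏ i, (((t i).choose (e i) : ℝ) * κ i ^ (t i - (e i : ℕ))))) / σ ^ d := ⟨_, rfl⟩
  have hσd : 0 < σ ^ d := pow_pos hσ0 d
  refine ⟨c, ?_, ?_⟩
  · -- the top coefficient
    obtain ⟨s, hs, hst⟩ : ∃ s ∈ F.support, ∑ i, s i = F.totalDegree := by
      obtain ⟨s, hs, hs'⟩ := Finset.exists_mem_eq_sup F.support (by
        rw [Finset.nonempty_iff_ne_empty, ne_eq, support_eq_empty]; exact hF)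
        (fun s => s.sum fun _ e => e)
      refine ⟨s, hs, ?_⟩
      unfold totalDegree
      rw [hs', Finsupp.sum_fintype _ _ (fun _ => rfl)]
    refine ⟨fun i => ⟨s i, Nat.lt_succ_of_le (hsi s hs i)⟩, ?_⟩
    rw [hc]
    simp only
    rw [Finset.sum_eq_single s]
    · simp only [Nat.choose_self, Nat.cast_one, Nat.sub_self, pow_zero, Finset.prod_const_one,
        mul_one]
      obtain ⟨z, hz⟩ := hi s
      have hz0 : z ≠ 0 := by
        rintro rfl
        rw [mem_support_iff] at hs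
        exact hs (by rw [hz]; simp)
      have h1 : 1 ≤ |F.coeff s| := by
        rw [hz, ← Int.cast_abs]
        exact_mod_cast Int.one_le_abs hz0
      rw [abs_div, abs_of_pos hσd, le_div_iff₀ hσd, abs_mul, abs_of_pos (pow_pos hσ0 _), one_mul]
      have h2 : σ ^ d ≤ σ ^ (∑ i, s i) := by
        apply pow_le_pow_of_le_one hσ0.le hσ1
        rw [hst]; exact hd
      have h3 : 0 < σ ^ (∑ i, s i) := pow_pos hσ0 _
      nlinarith
    · intro t ht hts
      have h1 : ∃ i, t i < s i := by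
        by_contra hcon
        push Not at hcon
        apply hts
        have h2 : ∑ i, t i ≤ ∑ i, s i := by rw [hst]; exact hsd t ht
        have h3 : ∀ i ∈ (Finset.univ : Finset (Fin m)), s i = t i :=
          (Finset.sum_eq_sum_iff_of_le (fun i _ => hcon i)).1
            (le_antisymm (Finset.sum_le_sum fun i _ => hcon i) h2)
        ext i
        exact (h3 i (Finset.mem_univ i)).symm
      obtain ⟨i, hi'⟩ := h1
      rw [Finset.prod_eq_zero (Finset.mem_univ i), mul_zero, mul_zero]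
      rw [Nat.choose_eq_zero_of_lt hi']
      simp
    · intro h; exact absurd hs h
  · intro ξ
    rw [MvPolynomial.eval_eq']
    unfold pv
    rw [Finset.mul_sum]
    have e1 : ∀ t ∈ F.support, F.coeff t * ∏ i, (σ * (κ i + ξ i)) ^ (t i) =
        ∑ e : Fin m → Fin (d + 1), F.coeff t * (σ ^ (∑ i, t i) *
          ∏ i, (((t i).choose (e i) : ℝ) * κ i ^ (t i - (e i : ℕ)))) * ∏ i, ξ i ^ (e i : ℕ) := by
      intro t ht
      have e2 : ∏ i, (σ * (κ i + ξ i)) ^ (t i) = σ ^ (∑ i, t i) * ∏ i, (κ i + ξ i) ^ (t i) := by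
        rw [← Finset.prod_pow_eq_pow_sum, ← Finset.prod_mul_distrib]
        exact Finset.prod_congr rfl fun i _ => mul_pow _ _ _
      have e3 : ∏ i, (κ i + ξ i) ^ (t i) = ∑ e : Fin m → Fin (d + 1),
          ∏ i, (((t i).choose (e i) : ℝ) * κ i ^ (t i - (e i : ℕ)) * ξ i ^ (e i : ℕ)) := by
        have e4 := Finset.prod_univ_sum (fun _ : Fin m => (Finset.univ : Finset (Fin (d + 1))))
          (fun i j => ((t i).choose (j : ℕ) : ℝ) * κ i ^ (t i - (j : ℕ)) * ξ i ^ (j : ℕ))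
        rw [Fintype.piFinset_univ] at e4
        refine Eq.trans ?_ e4
        exact Finset.prod_congr rfl fun i _ => pow_exp (hsi t ht i) _ _
      rw [e2, e3, Finset.mul_sum, Finset.mul_sum]
      refine Finset.sum_congr rfl fun e _ => ?_
      rw [Finset.prod_mul_distrib]
      ring
    rw [Finset.sum_congr rfl e1, Finset.sum_comm]
    refine Finset.sum_congr rfl fun e _ => ?_
    rw [hc]
    simp only
    rw [← Finset.sum_mul, ← mul_assoc, mul_div_cancel₀ _ hσd.ne']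

end Pool.Agent.X112.LF
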