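import Pool.Agent.X112.LF.St
import Pool.Agent.X112.SD.Block

/-! # Linear forms in the ordinates in a dyadic block -/

set_option autoImplicit false

namespace Pool.Agent.X112.LF

open Filter Topology MeasureTheory Set
open SG (ord NZ)
open Pool.Agent.Y743.NC (dev dev_nonneg dev_int var_le unit_count)
open Pool.Agent.Y743.CL (exM big_ev)
open Pool.Agent.X112.SD (bad_small palmG Bd Bd_meas Bd_le pos_est)

lemma Lf_meas {m : ℕ} (a k : Fin (m + 1) → ℝ) (T : ℝ) : Measurable (Lf a k T) := by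
  have h1 : Measurable fun t : ℝ => (NZ t : ℝ) := measurable_from_nat.comp (SG.NZ_mono.measurable)
  unfold Lf
  refine Finset.measurable_sum _ fun i _ => ?_
  exact (h1.comp (measurable_id.add_const _)).const_mul _

theorem block_lf (A m : ℕ) (hA : 1 ≤ A) (H x ε : ℝ) (hH : 0 ≤ H) (hx : 0 < x) (hε : 0 < ε) :
    ∀ᶠ h : ℕ in atTop, ∀ k : Fin (m + 1) → ℕ, k 0 = 0 →
      (∀ i j, i ≠ j → (h : ℝ) ≤ |(k i : ℝ) - k j|) → (∀ i, k i ≤ h ^ A) →
      ∃ T0 : ℝ, 1 ≤ T0 ∧ ∀ T : ℝ, T0 ≤ T → ∀ a : Fin (m + 1) → ℝ, (∀ i, |a i| ≤ H) → ∑ i, a i = 0 →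
      1 ≤ ∑ i, a i ^ 2 → ∀ y : ℝ,
    (((Finset.Ioc (NZ T) (NZ (2 * T))).filter (fun n =>
      |∑ i, a i * ord (n + k i) - y * (2 * Real.pi / Real.log T)| ≤
        x / 2 * Real.sqrt (Real.log h) * (2 * Real.pi / Real.log T))).card : ℝ) ≤
      (48 * x + ε) * (T * Real.log T / (2 * Real.pi)) := by
  classical
  have hpi := Real.pi_pos
  obtain ⟨δ, hδd⟩ : ∃ δ : ℝ, δ = ε / 8 := ⟨_, rfl⟩
  have hδ : 0 < δ := by rw [hδd]; positivity
  obtain ⟨C1, T1, hC1, hT1, hvar⟩ := var_le
  obtain ⟨C3, T3, hC3, hT3, hBd⟩ := Bd_le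
  obtain ⟨M, hM1, hM⟩ := exM C1 δ hδ
  obtain ⟨C2, hC2, huc⟩ := unit_count
  obtain ⟨R0, hR3, hR⟩ := stat_lf 1 H le_rfl hH m x δ hx hδ
  have hM0 : 0 < M := by linarith
  have hA1 : (1 : ℝ) ≤ A := by exact_mod_cast hA
  have hs : Tendsto (fun k : ℕ => Real.sqrt (Real.log k)) atTop atTop :=
    Real.tendsto_sqrt_atTop.comp (Real.tendsto_log_atTop.comp tendsto_natCast_atTop_atTop)
  obtain ⟨m1, hm1⟩ : ∃ m1 : ℝ, m1 = ((m + 1 : ℕ) : ℝ) := ⟨_, rfl⟩
  have hm1p : 1 ≤ m1 := by rw [hm1]; push_cast; linarith [(Nat.cast_nonneg m : (0 : ℝ) ≤ m)]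
  obtain ⟨q, hq⟩ : ∃ q : ℝ, q = x / (4 * (m1 * (H + 1))) := ⟨_, rfl⟩
  have hq0 : 0 < q := by rw [hq]; positivity
  have hqx : m1 * (H + 1) * q = x / 4 := by rw [hq]; field_simp
  filter_upwards [bad_small A q (4 * δ / (m1 + 4)) M C3 hA1 hq0 (by positivity) hM1 hC3,
    hs.eventually_ge_atTop (4 * (m1 * (H + 1)) / x), eventually_ge_atTop 2,
    (tendsto_natCast_atTop_atTop (R := ℝ)).eventually_ge_atTop R0] with h hk1 hk2 hk3 hk4 k hk0 hgap hkA
  obtain ⟨W, hW1, hWk, hMW, hnum⟩ := hk1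
  have hk3' : (2 : ℝ) ≤ h := by exact_mod_cast hk3
  have hW1' : (1 : ℝ) ≤ W := by exact_mod_cast hW1
  set sk := Real.sqrt (Real.log h) with hsk
  have hsk0 : 0 < sk := lt_of_lt_of_le (by positivity) hk2
  obtain ⟨ω, hω⟩ : ∃ ω : ℝ, ω = q * sk := ⟨_, rfl⟩
  have hω0 : 0 < ω := by rw [hω]; positivity
  rw [← hω] at hMW hnum
  obtain ⟨R, hRd⟩ : ∃ R : ℝ, R = (h : ℝ) ^ A := ⟨_, rfl⟩
  have hhR : (h : ℝ) ≤ R := by
    rw [hRd]
    calc (h : ℝ) = (h : ℝ) ^ 1 := (pow_one _).symm
      _ ≤ (h : ℝ) ^ A := pow_le_pow_right₀ (by linarith) hA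
  have hkR : ∀ i, (k i : ℝ) ≤ R := fun i => by rw [hRd]; exact_mod_cast hkA i
  have hk00 : ∀ i, (0 : ℝ) ≤ k i := fun i => Nat.cast_nonneg _
  -- the large parameter
  obtain ⟨Λ, hΛ⟩ : ∃ Λ : ℝ, Λ = R + W + M := ⟨_, rfl⟩
  have hΛ1 : 1 ≤ Λ := by rw [hΛ]; linarith
  have hlog := Real.tendsto_log_atTop
  obtain ⟨T4, hT4⟩ := ((((hlog.eventually_ge_atTop (Λ * Real.log Λ)).and
    (hlog.eventually_ge_atTop (Λ * (2 * Real.pi)))).and
    ((hlog.eventually_ge_atTop (M * Real.log M)).and (eventually_ge_atTop (10 : ℝ))))).exists_forall_of_atTop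
  obtain ⟨T5, hT5, hbig⟩ := big_ev M (2 * C2) δ hδ
  refine ⟨max (max (max T1 T3) (max T4 T5)) 10, le_trans (by norm_num) (le_max_right _ _), ?_⟩
  intro T hT a haH ha0 ha1 y
  have hTT1 : T1 ≤ T := (((le_max_left _ _).trans (le_max_left _ _)).trans (le_max_left _ _)).trans hT
  have hTT3 : T3 ≤ T := (((le_max_right _ _).trans (le_max_left _ _)).trans (le_max_left _ _)).trans hT
  have hTT4 : T4 ≤ T := (((le_max_left _ _).trans (le_max_right _ _)).trans (le_max_left _ _)).trans hT
  have hTT5 : T5 ≤ T := (((le_max_right _ _).trans (le_max_right _ _)).trans (le_max_left _ _)).trans hT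
  obtain ⟨⟨g1, g2⟩, g3, hT10⟩ := hT4 T hTT4
  obtain ⟨-, -, g4, -⟩ := hbig T hTT5
  have hL0 : 0 < Real.log T := Real.log_pos (by linarith)
  set u : ℝ := 2 * Real.pi / Real.log T with hu
  have hu0 : 0 < u := by positivity
  have hΛu : Λ * u ≤ 1 := by
    rw [hu, ← mul_div_assoc, div_le_one hL0]
    exact g2
  have hxu : ∀ y : ℝ, |y| ≤ Λ → |y| * u ≤ 1 := fun y hy =>
    (mul_le_mul_of_nonneg_right hy hu0.le).trans hΛu
  have hR1 : 1 ≤ R := by linarith
  have hMu : M * u ≤ 1 := by
    refine le_trans (mul_le_mul_of_nonneg_right ?_ hu0.le) hΛu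
    rw [hΛ]; linarith
  -- the sets
  set Uj : Fin (m + 1) → Set ℝ := fun j => (⋃ i ∈ Finset.Icc (-(W : ℤ)) W, Bd T (k j + i) (k j) ω) ∪
    (Bd T (k j + W) 0 (W / 2) ∪ Bd T (k j - W) 0 (W / 2)) with hUj
  set y' : ℝ := 2 * ∑ i, a i * k i - y with hy'
  set D : Set ℝ := {t | t ∈ Icc T (2 * T) ∧ |Lf a (fun i => (k i : ℝ)) T t - y'| ≤ x * sk} with hD
  set U : Set ℝ := (⋃ j, Uj j) ∪ (Bd T M 0 ω ∪ D) with hU
  have hDm : MeasurableSet D := measurableSet_Icc.inter
    (measurableSet_le (((Lf_meas _ _ _).sub_const _).abs) measurable_const)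
  have hUjm : ∀ j, MeasurableSet (Uj j) := fun j =>
    (Finset.measurableSet_biUnion _ fun i _ => Bd_meas _ _ _ _).union ((Bd_meas _ _ _ _).union (Bd_meas _ _ _ _))
  have hUm : MeasurableSet U :=
    (MeasurableSet.iUnion fun j => hUjm j).union ((Bd_meas _ _ _ _).union hDm)
  -- the measures
  have m1' : ∀ j, ∀ i ∈ Finset.Icc (-(W : ℤ)) W, volume.real (Bd T (k j + i) (k j) ω) ≤
      T * ((C3 + Real.log (1 + W)) / ω ^ 2) := by
    intro j i hi
    rw [Finset.mem_Icc] at hi
    have hiW : |(i : ℝ)| ≤ W := by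
      rw [abs_le]
      exact ⟨by exact_mod_cast hi.1, by exact_mod_cast hi.2⟩
    have hj0 := hk00 j
    have hjb := hkR j
    have hi' := abs_le.1 hiW
    apply hBd T hTT3 _ _ _ _ hω0 hW1'
    · rw [add_sub_cancel_left]; exact hiW
    · refine le_trans ?_ g1
      have hWΛ : (W : ℝ) ≤ Λ := by rw [hΛ]; linarith
      exact mul_le_mul hWΛ (Real.log_le_log (by linarith) hWΛ) (Real.log_nonneg hW1') (by linarith)
    · apply hxu
      rw [abs_le, hΛ]
      constructor <;> linarith
    · apply hxu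
      rw [abs_le, hΛ]
      constructor <;> linarith
  have hlogR : Real.log (1 + (R + W)) ≤ 2 + A * Real.log h := by
    have h1 : 1 + (R + W) ≤ 4 * (h : ℝ) ^ A := by rw [← hRd]; linarith
    have h2 : Real.log (1 + (R + W)) ≤ Real.log (4 * (h : ℝ) ^ A) :=
      Real.log_le_log (by linarith) h1
    rw [Real.log_mul (by norm_num) (by positivity), Real.log_pow] at h2
    have h3 : Real.log 4 ≤ 2 := by
      have : (4 : ℝ) = 2 ^ 2 := by norm_num
      rw [this, Real.log_pow]
      have := Real.log_two_lt_d9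
      push_cast
      linarith
    linarith
  have m2 : ∀ j, ∀ e : ℝ, |e| ≤ W → volume.real (Bd T (k j + e) 0 (W / 2)) ≤
      T * ((C3 + (2 + A * Real.log h)) / (W / 2) ^ 2) := by
    intro j e he
    have he' := abs_le.1 he
    have hj0 := hk00 j
    have hjb := hkR j
    have h1 := hBd T hTT3 (k j + e) 0 (W / 2) (R + W) (by linarith) (by linarith)
      (by rw [sub_zero, abs_le]; constructor <;> linarith)
      (by
        refine le_trans ?_ g1
        have hWΛ : R + W ≤ Λ := by rw [hΛ]; linarith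
        exact mul_le_mul hWΛ (Real.log_le_log (by linarith) hWΛ) (Real.log_nonneg (by linarith)) (by linarith))
      (by apply hxu; rw [abs_le, hΛ]; constructor <;> linarith)
      (by rw [abs_zero, zero_mul]; norm_num)
    refine h1.trans ?_
    apply mul_le_mul_of_nonneg_left _ (by linarith)
    apply div_le_div_of_nonneg_right _ (by positivity)
    linarith
  have m3 : volume.real (Bd T M 0 ω) ≤ T * ((C3 + Real.log (1 + M)) / ω ^ 2) := by
    apply hBd T hTT3 _ _ _ _ hω0 hM1
    · rw [sub_zero, abs_of_pos hM0]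
    · exact g3
    · apply hxu; rw [abs_of_pos hM0, hΛ]; linarith
    · rw [abs_zero, zero_mul]; norm_num
  have m4 : volume.real D ≤ (48 * x + δ) * T := by
    refine hR h R T a (fun i => (k i : ℝ)) hk4 hhR (by linarith) ?_ hgap ?_ (by simp [hk0]) hk00 haH ha0 ha1 y'
    · rw [one_mul]
      refine le_trans ?_ g1
      have hWΛ : R ≤ Λ := by rw [hΛ]; linarith
      exact mul_le_mul hWΛ (Real.log_le_log (by linarith) hWΛ) (Real.log_nonneg (by linarith)) (by linarith)
    · intro i j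
      have a1 := hk00 i
      have a2 := hkR i
      have a3 := hk00 j
      have a4 := hkR j
      rw [abs_le]
      constructor <;> linarith
  have mU : volume.real U ≤ (48 * x + 2 * δ) * T := by
    have a1 : ∀ j, volume.real (Uj j) ≤ (2 * W + 1) * (T * ((C3 + Real.log (1 + W)) / ω ^ 2)) +
        2 * (T * ((C3 + (2 + A * Real.log h)) / (W / 2) ^ 2)) := by
      intro j
      have b1 := measureReal_union_le (μ := volume) (⋃ i ∈ Finset.Icc (-(W : ℤ)) W, Bd T (k j + i) (k j) ω)
        (Bd T (k j + W) 0 (W / 2) ∪ Bd T (k j - W) 0 (W / 2))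
      have b2 := measureReal_union_le (μ := volume) (Bd T (k j + W) 0 (W / 2)) (Bd T (k j - W) 0 (W / 2))
      have b3 := measureReal_biUnion_finset_le (μ := volume) (Finset.Icc (-(W : ℤ)) W)
        (fun i => Bd T (k j + i) (k j) ω)
      have b4 : ∑ i ∈ Finset.Icc (-(W : ℤ)) W, volume.real (Bd T (k j + i) (k j) ω) ≤
          (2 * W + 1) * (T * ((C3 + Real.log (1 + W)) / ω ^ 2)) := by
        refine (Finset.sum_le_sum (m1' j)).trans (le_of_eq ?_)
        rw [Finset.sum_const, Int.card_Icc, nsmul_eq_mul]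
        congr 1
        have : ((W : ℤ) + 1 - -(W : ℤ)).toNat = 2 * W + 1 := by omega
        rw [this]
        push_cast
        ring
      have b5 := m2 j W (by rw [abs_of_nonneg (by linarith)])
      have b6 := m2 j (-W) (by rw [abs_neg, abs_of_nonneg (by linarith)])
      rw [← sub_eq_add_neg] at b6
      linarith
    have a2 := measureReal_union_le (μ := volume) (⋃ j, Uj j) (Bd T M 0 ω ∪ D)
    have a3 := measureReal_union_le (μ := volume) (Bd T M 0 ω) D
    have a4 := measureReal_iUnion_fintype_le (μ := volume) Uj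
    have hT0 : 0 ≤ T := by linarith
    have hlk : 0 ≤ Real.log h := Real.log_nonneg (by linarith)
    have hlW : 0 ≤ Real.log (1 + (W : ℝ)) := Real.log_nonneg (by linarith)
    have hlM : 0 ≤ Real.log (1 + M) := Real.log_nonneg (by linarith)
    obtain ⟨Y0, hY0d⟩ : ∃ Y0 : ℝ, Y0 = (2 * W + 1) * ((C3 + Real.log (1 + W)) / ω ^ 2) +
        2 * ((C3 + (2 + A * Real.log h)) / (W / 2) ^ 2) := ⟨_, rfl⟩
    have hY00 : 0 ≤ Y0 := by rw [hY0d]; positivity
    obtain ⟨Z0, hZ0d⟩ : ∃ Z0 : ℝ, Z0 = (C3 + Real.log (1 + M)) / ω ^ 2 := ⟨_, rfl⟩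
    have hZ00 : 0 ≤ Z0 := by rw [hZ0d]; positivity
    rw [← hY0d, ← hZ0d] at hnum
    rw [← hZ0d] at m3
    have a1' : ∀ j ∈ (Finset.univ : Finset (Fin (m + 1))), volume.real (Uj j) ≤ T * Y0 := by
      intro j _
      refine (a1 j).trans (le_of_eq ?_)
      rw [hY0d]; ring
    have a5 : ∑ j, volume.real (Uj j) ≤ m1 * (T * Y0) := by
      refine (Finset.sum_le_sum a1').trans (le_of_eq ?_)
      rw [Finset.sum_const, Finset.card_univ, Fintype.card_fin, nsmul_eq_mul, hm1]
    have a6 : m1 * Y0 + Z0 ≤ δ := by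
      have h1 : (m1 + 4) * (4 * Y0 + Z0) ≤ 4 * δ := by
        rw [le_div_iff₀ (by positivity)] at hnum
        linarith
      nlinarith [mul_nonneg (by linarith : (0 : ℝ) ≤ m1) hZ00]
    have a7 : m1 * (T * Y0) + T * Z0 ≤ δ * T := by
      have := mul_le_mul_of_nonneg_left a6 hT0
      linarith
    rw [hU]
    linarith
  -- the zeros
  have hlM : 0 ≤ Real.log (1 + M) := Real.log_nonneg (by linarith)
  set s : ℝ := Real.sqrt (C1 + Real.log (1 + M)) with hsd
  have hs0 : 0 < s := Real.sqrt_pos.2 (by linarith)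
  have hs2 : s ^ 2 = C1 + Real.log (1 + M) := Real.sq_sqrt (by linarith)
  set F := (Finset.Ioc (NZ T) (NZ (2 * T))).filter (fun n =>
      |∑ i, a i * ord (n + k i) - y * u| ≤ x / 2 * sk * u) with hF
  set S := F.filter (fun n => T + 2 ≤ ord n ∧ ord n ≤ 2 * T - 1) with hS
  have hmem : ∀ n ∈ F, NZ T < n ∧ n ≤ NZ (2 * T) ∧
      |∑ i, a i * ord (n + k i) - y * u| ≤ x / 2 * sk * u := by
    intro n hn
    rw [hF, Finset.mem_filter, Finset.mem_Ioc] at hn
    exact ⟨hn.1.1, hn.1.2, hn.2⟩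
  have hpalm := palmG (T := T) (M := M) (s := s) (by linarith) hM0 hs0 S U hUm
    (fun n hn => by have := (hmem n (Finset.mem_filter.1 hn).1).1; omega)
    (fun n hn => by
      have := (Finset.mem_filter.1 hn).2.1
      rw [← hu]
      linarith)
    (fun n hn => by have := (Finset.mem_filter.1 hn).2.2; linarith)
    (by
      intro n hn t ht1 ht2
      rw [← hu] at ht1
      obtain ⟨hnF, hn1, hn2⟩ := Finset.mem_filter.1 hn
      obtain ⟨b1, b2, b3⟩ := hmem n hnF
      have hn0 : 1 ≤ n := by omega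
      have htI : t ∈ Icc (T + 1) (2 * T - 1) := ⟨by linarith, by linarith⟩
      by_contra hcon
      rw [hU, mem_union, mem_union, not_or, not_or] at hcon
      obtain ⟨n1, n2, n3⟩ := hcon
      simp only [mem_iUnion, not_exists] at n1
      have hBdn : ∀ y y' z : ℝ, t ∉ Bd T y y' z →
          |(NZ (t + y * u) : ℝ) - NZ (t + y' * u) - (y - y')| ≤ z := by
        intro y y' z hh
        by_contra hc
        push Not at hc
        exact hh ⟨htI, hc⟩
      have p0 := hBdn _ _ _ n2
      rw [zero_mul, add_zero, sub_zero] at p0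
      have pj : ∀ j, |(ord (n + k j) - t) / u - k j - (n + k j - NZ (t + k j * u))| ≤ ω + 1 := by
        intro j
        have q0 := n1 j
        simp only [hUj, mem_union, not_or, mem_iUnion, not_exists] at q0
        obtain ⟨q1, q2, q3⟩ := q0
        refine pos_est (M := M) (W := W) hu0 hn0 ht2 ht1 ?_ ?_ ?_ ?_ hMW
        · exact (abs_le.1 p0).2
        · have := hBdn _ _ _ q2
          rwa [zero_mul, add_zero, sub_zero] at this
        · have := hBdn _ _ _ q3
          rwa [zero_mul, add_zero, sub_zero] at this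
        · intro i hi1 hi2
          have := hBdn _ _ _ (q1 i (Finset.mem_Icc.2 ⟨hi1, hi2⟩))
          rwa [add_sub_cancel_left] at this
      apply n3
      rw [hD]
      refine ⟨⟨by linarith [htI.1], by linarith [htI.2]⟩, ?_⟩
      -- the sum of the errors
      have hes : |∑ j, a j * ((ord (n + k j) - t) / u - k j - (n + k j - NZ (t + k j * u)))| ≤
          m1 * (H * (ω + 1)) := by
        refine (Finset.abs_sum_le_sum_abs _ _).trans ?_
        have c1 : ∀ j ∈ (Finset.univ : Finset (Fin (m + 1))),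
            |a j * ((ord (n + k j) - t) / u - k j - (n + k j - NZ (t + k j * u)))| ≤ H * (ω + 1) := by
          intro j _
          rw [abs_mul]
          exact mul_le_mul (haH j) (pj j) (abs_nonneg _) hH
        refine (Finset.sum_le_sum c1).trans (le_of_eq ?_)
        rw [Finset.sum_const, Finset.card_univ, Fintype.card_fin, nsmul_eq_mul, hm1]
      have hid : ∑ j, a j * ((ord (n + k j) - t) / u - k j - (n + k j - NZ (t + k j * u))) =
          (∑ j, a j * ord (n + k j)) / u - 2 * ∑ j, a j * k j + Lf a (fun i => (k i : ℝ)) T t := by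
        have c2 : ∀ j, a j * ((ord (n + k j) - t) / u - k j - (n + k j - NZ (t + k j * u))) =
            a j * ord (n + k j) / u - a j * (t / u + n) - 2 * (a j * k j) + a j * NZ (t + k j * u) := by
          intro j
          ring
        simp only [c2, Finset.sum_add_distrib, Finset.sum_sub_distrib, ← Finset.sum_mul, ha0, zero_mul,
          sub_zero, ← Finset.mul_sum, ← Finset.sum_div]
        unfold Lf
        rw [← hu]
      rw [hid] at hes
      have b4 : |(∑ i, a i * ord (n + k i)) / u - y| ≤ x / 2 * sk := by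
        have e : (∑ i, a i * ord (n + k i)) / u - y = (∑ i, a i * ord (n + k i) - y * u) / u := by
          field_simp
        rw [e, abs_div, abs_of_pos hu0, div_le_iff₀ hu0]
        exact b3
      have hfin : m1 * (H * (ω + 1)) ≤ x / 2 * sk := by
        have h1 : 4 * (m1 * (H + 1)) ≤ x * sk := by
          have := mul_le_mul_of_nonneg_left hk2 hx.le
          rwa [mul_div_cancel₀ _ hx.ne'] at this
        have h2 : m1 * (H * ω) ≤ x / 4 * sk := by
          have h3 : m1 * (H * ω) ≤ m1 * ((H + 1) * ω) := by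
            gcongr
            linarith
          have h4 : m1 * ((H + 1) * ω) = x / 4 * sk := by
            rw [hω, ← hqx]; ring
          linarith
        have h5 : m1 * H ≤ m1 * (H + 1) := by nlinarith
        nlinarith
      have c3 := abs_le.1 hes
      have c4 := abs_le.1 b4
      rw [hy', abs_le]
      constructor <;> linarith [c3.1, c3.2, c4.1, c4.2])
  rw [← hu] at hpalm
  have hdev := hvar T hTT1 M hM0 g3
  have hdev2 : (1 / s) * ∫ t in Icc T (2 * T), dev T M t ≤ s * T := by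
    calc (1 / s) * ∫ t in Icc T (2 * T), dev T M t ≤ (1 / s) * (T * s ^ 2) := by
          rw [hs2]; exact mul_le_mul_of_nonneg_left hdev (by positivity)
      _ = s * T := by field_simp
  have hUT : volume.real (U ∩ Icc T (2 * T)) ≤ (48 * x + 2 * δ) * T := by
    refine le_trans (measureReal_mono inter_subset_left ?_) mU
    have hsubU : U ⊆ Icc T (2 * T) := by
      rintro t (ht | ht | ht)
      · simp only [mem_iUnion] at ht
        obtain ⟨j, ht⟩ := ht
        have hI : ∀ y y' z : ℝ, t ∈ Bd T y y' z → t ∈ Icc T (2 * T) := fun y y' z h =>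
          ⟨by linarith [h.1.1], by linarith [h.1.2]⟩
        rcases ht with ht | ht | ht
        · simp only [mem_iUnion] at ht
          obtain ⟨i, hi, ht⟩ := ht
          exact hI _ _ _ ht
        · exact hI _ _ _ ht
        · exact hI _ _ _ ht
      · exact ⟨by linarith [ht.1.1], by linarith [ht.1.2]⟩
      · exact ht.1
    exact ne_top_of_le_ne_top (by rw [Real.volume_Icc]; exact ENNReal.ofReal_ne_top) (measure_mono hsubU)
  have hS1 : M * u * S.card ≤ M * ((48 * x + 2 * δ) * T) + δ * M * T := by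
    have a1 : M * volume.real (U ∩ Icc T (2 * T)) ≤ M * ((48 * x + 2 * δ) * T) :=
      mul_le_mul_of_nonneg_left hUT hM0.le
    have a2 : s * T ≤ δ * M * T := mul_le_mul_of_nonneg_right hM (by linarith)
    linarith
  have hS2 : (S.card : ℝ) ≤ T * Real.log T / (2 * Real.pi) * (48 * x + 3 * δ) := by
    have a1 : u * S.card ≤ (48 * x + 3 * δ) * T := by
      have : M * (u * S.card) ≤ M * ((48 * x + 3 * δ) * T) := by linarith
      exact le_of_mul_le_mul_left this hM0
    have a2 : T * Real.log T / (2 * Real.pi) * (48 * x + 3 * δ) = ((48 * x + 3 * δ) * T) / u := by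
      rw [hu]; field_simp
    rw [a2, le_div_iff₀ hu0]
    linarith
  have hrest : ((F.filter (fun n => ¬ (T + 2 ≤ ord n ∧ ord n ≤ 2 * T - 1))).card : ℝ) ≤
      2 * (2 * C2 * Real.log (2 * T)) := by
    have hsub : F.filter (fun n => ¬ (T + 2 ≤ ord n ∧ ord n ≤ 2 * T - 1)) ⊆
        (Finset.Ioc (NZ T) (NZ (T + 1)) ∪ Finset.Ioc (NZ (T + 1)) (NZ (T + 1 + 1))) ∪
        Finset.Ioc (NZ (2 * T - 1)) (NZ (2 * T - 1 + 1)) := by
      intro n hn
      rw [Finset.mem_filter] at hn
      obtain ⟨b1, b2⟩ := hn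
      obtain ⟨a1, a2, a3⟩ := hmem n b1
      rw [Finset.mem_union, Finset.mem_union, Finset.mem_Ioc, Finset.mem_Ioc, Finset.mem_Ioc]
      by_cases b3 : T + 2 ≤ ord n
      · right
        have b4 : ¬ (ord n ≤ 2 * T - 1) := fun hc => b2 ⟨b3, hc⟩
        push Not at b4
        have e : 2 * T - 1 + 1 = 2 * T := by ring
        rw [e]
        refine ⟨?_, a2⟩
        by_contra hcon
        push Not at hcon
        have := (SG.ord_le_iff (by omega) _).mpr hcon
        linarith
      · left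
        push Not at b3
        by_cases b5 : n ≤ NZ (T + 1)
        · left; exact ⟨a1, b5⟩
        · right
          refine ⟨by omega, (SG.ord_le_iff (by omega) _).mp ?_⟩
          linarith
    have h1 := ((Finset.card_le_card hsub).trans (Finset.card_union_le _ _)).trans
      (Nat.add_le_add_right (Finset.card_union_le _ _) _)
    rw [Nat.card_Ioc, Nat.card_Ioc, Nat.card_Ioc] at h1
    have hmono : NZ T ≤ NZ (T + 1) := SG.NZ_mono (by linarith)
    have hmono1 : NZ (T + 1) ≤ NZ (T + 1 + 1) := SG.NZ_mono (by linarith)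
    have hmono2 : NZ (2 * T - 1) ≤ NZ (2 * T - 1 + 1) := SG.NZ_mono (by linarith)
    have h2 : ((F.filter (fun n => ¬ (T + 2 ≤ ord n ∧ ord n ≤ 2 * T - 1))).card : ℝ) ≤
        ((NZ (T + 1) - NZ T : ℕ) : ℝ) + ((NZ (T + 1 + 1) - NZ (T + 1) : ℕ) : ℝ) +
        ((NZ (2 * T - 1 + 1) - NZ (2 * T - 1) : ℕ) : ℝ) := by
      exact_mod_cast h1
    rw [Nat.cast_sub hmono, Nat.cast_sub hmono1, Nat.cast_sub hmono2] at h2
    have h3 := huc T (by linarith)
    have h3' := huc (T + 1) (by linarith)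
    have h4 := huc (2 * T - 1) (by linarith)
    have a1 : Real.log T ≤ Real.log (2 * T) := Real.log_le_log (by linarith) (by linarith)
    have a2 : C2 * Real.log T ≤ C2 * Real.log (2 * T) := mul_le_mul_of_nonneg_left a1 hC2.le
    have a1' : Real.log (T + 1) ≤ Real.log (2 * T) := Real.log_le_log (by linarith) (by linarith)
    have a2' : C2 * Real.log (T + 1) ≤ C2 * Real.log (2 * T) := mul_le_mul_of_nonneg_left a1' hC2.le
    have a3 : Real.log (2 * T - 1) ≤ Real.log (2 * T) := Real.log_le_log (by linarith) (by linarith)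
    have a4 : C2 * Real.log (2 * T - 1) ≤ C2 * Real.log (2 * T) := mul_le_mul_of_nonneg_left a3 hC2.le
    have a5 : 0 ≤ C2 * Real.log (2 * T) := mul_nonneg hC2.le (Real.log_nonneg (by linarith))
    linarith
  have hsplit := Finset.card_filter_add_card_filter_not (s := F)
    (fun n => T + 2 ≤ ord n ∧ ord n ≤ 2 * T - 1)
  have hsplit' : (F.card : ℝ) = S.card +
      ((F.filter (fun n => ¬ (T + 2 ≤ ord n ∧ ord n ≤ 2 * T - 1))).card : ℝ) := by
    exact_mod_cast hsplit.symm
  have hTL : 0 ≤ T * Real.log T / (2 * Real.pi) := by positivity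
  rw [hsplit']
  have : T * Real.log T / (2 * Real.pi) * (48 * x + 3 * δ) + δ * (T * Real.log T / (2 * Real.pi)) ≤
      (48 * x + ε) * (T * Real.log T / (2 * Real.pi)) := by
    have e : T * Real.log T / (2 * Real.pi) * (48 * x + 3 * δ) + δ * (T * Real.log T / (2 * Real.pi)) =
      (48 * x + 4 * δ) * (T * Real.log T / (2 * Real.pi)) := by ring
    rw [e]
    apply mul_le_mul_of_nonneg_right _ hTL
    rw [hδd]; linarith
  linarith

end Pool.Agent.X112.LF
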