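import Pool.Agent.X112.LF.St

/-! # Characteristic functions of prime polynomials -/

set_option autoImplicit false

namespace Pool.Agent.X112.LF

open Complex Filter Topology MeasureTheory Set
open Pool.Agent.Y743.CL
open SG (NZ)

theorem char_w (T A B : ℕ → ℝ) (X : ℕ → ℕ) (c : ℕ → ℕ → ℝ) (w : ℕ → ℕ → ℂ) (hw : ∀ j, CM (w j))
    (hw1 : ∀ j, ∀ n : ℕ, n ≠ 0 → ‖w j n‖ = 1) {M : ℝ} (hM : ∀ j p, c j p ^ 2 ≤ M)
    (hT : Tendsto T atTop atTop) (hT0 : ∀ j, 0 < T j) (hAB : ∀ j, A j ≤ B j)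
    (hlen : Tendsto (fun j => (B j - A j) / T j) atTop (𝓝 1)) (hX1 : ∀ j, 1 ≤ X j)
    (hX : ∀ m : ℕ, ∀ᶠ j in atTop, ((X j ^ m : ℕ) : ℝ) ≤ Real.sqrt (T j))
    (Lg : ℕ → ℝ) (hL0 : ∀ j, 0 < Lg j) (hLt : Tendsto Lg atTop atTop) (v : ℝ) (hv : 0 < v)
    (hV : Tendsto (fun j => VS (c j) (X j) / Lg j) atTop (𝓝 v)) :
    Tendsto (fun j => ((1 / T j : ℝ) : ℂ) * ∫ t in (A j)..(B j),
      cexp (I * (((Gw (c j) (w j) (X j) t).re / Real.sqrt (Lg j) : ℝ) : ℂ))) atTop
      (𝓝 (cexp ((-(v / 4) : ℝ) : ℂ))) := by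
  have hVt : Tendsto (fun j => VS (c j) (X j)) atTop atTop := by
    have h1 : Tendsto (fun j => VS (c j) (X j) / Lg j * Lg j) atTop atTop := hV.pos_mul_atTop hv hLt
    refine h1.congr fun j => ?_
    rw [div_mul_cancel₀ _ (hL0 j).ne']
  set μ : ℕ → Measure ℝ := fun j => ENNReal.ofReal (1 / T j) • volume.restrict (Set.Ioc (A j) (B j)) with hμ
  set f : ℕ → ℝ → ℂ := fun j t => Gw (c j) (w j) (X j) t / (Real.sqrt (v * Lg j) : ℂ) with hf
  have hfc : ∀ j, Continuous (f j) := fun j => by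
    simp only [hf]
    exact (Gw_cont _ _ _).div_const _
  have hfin : ∀ j, IsFiniteMeasure (μ j) := fun j => by
    simp only [hμ]
    refine ⟨?_⟩
    rw [Measure.smul_apply, smul_eq_mul, Measure.restrict_apply_univ, Real.volume_Ioc]
    exact ENNReal.mul_lt_top ENNReal.ofReal_lt_top ENNReal.ofReal_lt_top
  have hint : ∀ (j : ℕ) (g : ℝ → ℂ), ∫ x, g x ∂(μ j) = ((1 / T j : ℝ) : ℂ) * ∫ t in (A j)..(B j), g t := by
    intro j g
    simp only [hμ]
    rw [integral_smul_measure, ENNReal.toReal_ofReal (by have := hT0 j; positivity),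
      intervalIntegral.integral_of_le (hAB j)]
    simp
  have hHy : Pool.Agent.Y586.SW.Hy μ f 1 := by
    refine ⟨zero_le_one, hfin, fun j => (hfc j).measurable, fun j k => ?_, fun k l => ?_⟩
    · have h1 : IntegrableOn (fun x => ‖f j x‖ ^ k) (Set.Ioc (A j) (B j)) volume :=
        (((hfc j).norm.pow k).integrableOn_Icc).mono_set Set.Ioc_subset_Icc_self
      simp only [hμ]
      exact h1.smul_measure ENNReal.ofReal_ne_top
    · have h1 := mom_limw T A B X c w hw hw1 hM hT hAB hlen hX1 hX hVt k l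
      have hrat : Tendsto (fun j => (((Real.sqrt (VS (c j) (X j)) / Real.sqrt (v * Lg j)) ^ (k + l) : ℝ) : ℂ))
          atTop (𝓝 ((1 : ℝ) : ℂ)) := by
        refine (Complex.continuous_ofReal.tendsto _).comp ?_
        have h2 : Tendsto (fun j => Real.sqrt (VS (c j) (X j) / Lg j / v) ^ (k + l)) atTop
            (𝓝 (Real.sqrt (v / v) ^ (k + l))) :=
          (((Real.continuous_sqrt.tendsto _).comp (hV.div_const v)).pow (k + l))
        rw [div_self hv.ne', Real.sqrt_one, one_pow] at h2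
        refine h2.congr fun j => ?_
        rw [← Real.sqrt_div (VS_nonneg _ _)]
        congr 2
        rw [div_div, mul_comm (Lg j)]
      have h3 := hrat.mul h1
      have e : (if k = l then (k.factorial : ℂ) * ((1 : ℝ) : ℂ) else 0) =
          ((1 : ℝ) : ℂ) * (if k = l then (k.factorial : ℂ) else 0) := by
        split_ifs <;> simp
      rw [e]
      refine h3.congr' ?_
      filter_upwards [hVt.eventually_gt_atTop 0] with j hj
      rw [hint]
      have e2 : ∀ t, f j t ^ k * (starRingEnd ℂ) (f j t) ^ l =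
          ((1 / Real.sqrt (v * Lg j) ^ (k + l) : ℝ) : ℂ) *
          (Gw (c j) (w j) (X j) t ^ k * (starRingEnd ℂ) (Gw (c j) (w j) (X j) t) ^ l) := by
        intro t
        simp only [hf]
        rw [map_div₀, Complex.conj_ofReal, div_pow, div_pow, pow_add]
        push_cast
        ring
      simp only [e2]
      rw [intervalIntegral.integral_const_mul]
      have hs : Real.sqrt (VS (c j) (X j)) ≠ 0 := (Real.sqrt_pos.2 hj).ne'
      have e3 : (((Real.sqrt (VS (c j) (X j)) / Real.sqrt (v * Lg j)) ^ (k + l) : ℝ) : ℂ) *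
          (((1 / T j) * (1 / Real.sqrt (VS (c j) (X j)) ^ (k + l)) : ℝ) : ℂ) =
          ((1 / T j : ℝ) : ℂ) * ((1 / Real.sqrt (v * Lg j) ^ (k + l) : ℝ) : ℂ) := by
        rw [← Complex.ofReal_mul, ← Complex.ofReal_mul]
        congr 1
        rw [div_pow]
        field_simp
      rw [← mul_assoc, ← mul_assoc, e3]
  have h := Pool.Agent.Y586.SW.char_lim hHy (Real.sqrt (v / 2))
  have e1 : (((1 : ℝ) : ℂ)) * cexp ((-(Real.sqrt (v / 2)) ^ 2 / 2 : ℝ) : ℂ) = cexp ((-(v / 4) : ℝ) : ℂ) := by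
    rw [Real.sq_sqrt (by positivity)]
    push_cast
    rw [one_mul]
    congr 1
    ring
  have e1' : ((1 : ℝ) : ℂ) * cexp ((-(Real.sqrt (v / 2) ^ 2) / 2 : ℝ) : ℂ) = cexp ((-(v / 4) : ℝ) : ℂ) := e1
  rw [e1'] at h
  refine h.congr fun j => ?_
  rw [hint]
  congr 1
  refine intervalIntegral.integral_congr fun t _ => ?_
  congr 2
  congr 1
  unfold Pool.Agent.Y586.SW.X
  simp only [hf]
  rw [Complex.div_ofReal_re, Real.sqrt_mul hv.le]
  have h2 : Real.sqrt v ≠ 0 := (Real.sqrt_pos.2 hv).ne'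
  have h3 : Real.sqrt (Lg j) ≠ 0 := (Real.sqrt_pos.2 (hL0 j)).ne'
  have h4 : Real.sqrt (v / 2) * Real.sqrt 2 = Real.sqrt v := by
    rw [← Real.sqrt_mul (by positivity)]
    congr 1
    ring
  rw [← mul_assoc, h4]
  field_simp

/-- the variance is large, from the statement on single windows -/
lemma V_low_of {B lam C T0 : ℝ} (hlam : 16 ≤ lam) (hC : 0 < C) (hT0 : 10 ≤ T0)
    (hcomb : ∀ T : ℝ, T0 ≤ T → ∀ a : ℝ, lam ≤ a → a * Real.log a ≤ B * Real.log T →
    ∀ κ : ℝ, 0 < κ → κ ≤ 1 / 8 → 8 ≤ κ * Real.log T →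
    |VS (rc (Real.log T / lam) (2 * Real.pi * a / Real.log T)) (XK κ T) -
      2 / Real.pi ^ 2 * Real.log a| ≤ C * (1 + Real.log (1 / κ))) (H : ℝ) (hH : 0 ≤ H) (m : ℕ) :
    ∀ T : ℝ, T0 ≤ T → ∀ (h K : ℝ) (a k : Fin (m + 1) → ℝ), lam ≤ h → h ≤ K →
      K * Real.log K ≤ B * Real.log T → (∀ i j, i ≠ j → h ≤ |k i - k j|) → (∀ i j, |k i - k j| ≤ K) →
      (∀ i, |a i| ≤ H) → ∑ i, a i = 0 → 1 ≤ ∑ i, a i ^ 2 →
    ∀ κ : ℝ, 0 < κ → κ ≤ 1 / 8 → 8 ≤ κ * Real.log T →
    1 / Real.pi ^ 2 * Real.log h - (1 / Real.pi ^ 2 * Real.log lam + ((m + 1 : ℕ) : ℝ) ^ 2 * H ^ 2 * C + 1) *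
      (1 + Real.log (1 / κ)) ≤
      VS (dc (Real.log T / lam) a (fun i => 2 * Real.pi * k i / Real.log T)) (XK κ T) := by
  have hpi := Real.pi_pos
  have hll : 0 ≤ Real.log lam := Real.log_nonneg (by linarith)
  have hlam0 : 0 < lam := by linarith
  intro T hT h K a k hh hhK hKB hk1 hk2 haH ha0 ha1 κ hκ hκ8 hκT
  have hL : 0 < Real.log T := Real.log_pos (by linarith)
  have hlogκ : 0 ≤ Real.log (1 / κ) := by
    apply Real.log_nonneg
    rw [le_div_iff₀ hκ]
    linarith
  set e := 1 + Real.log (1 / κ) with he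
  have he1 : 1 ≤ e := by linarith
  set l := Real.log T / lam with hl
  set X := XK κ T with hX
  set W : ℝ → ℝ := fun x => VS (rc l (2 * Real.pi * x / Real.log T)) X with hW
  have hW0 : W 0 = 0 := by
    simp only [hW]
    have e1 : 2 * Real.pi * 0 / Real.log T = 0 := by ring
    rw [e1]
    unfold VS
    refine Finset.sum_eq_zero fun p _ => ?_
    rw [rc_zero]
    ring
  have hh0 : 0 < h := by linarith
  have key : ∀ x : ℝ, lam ≤ x → x ≤ K → |W x - 2 / Real.pi ^ 2 * Real.log x| ≤ C * e := by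
    intro x h1 h2
    refine (hcomb T hT x h1 ?_ κ hκ hκ8 hκT)
    refine le_trans ?_ hKB
    have h3 : 0 ≤ Real.log x := Real.log_nonneg (by linarith)
    exact mul_le_mul h2 (Real.log_le_log (by linarith) h2) h3 (by linarith)
  have hVW : ∀ k : Fin (m + 1) → ℝ, VS (dc l a (fun i => 2 * Real.pi * k i / Real.log T)) X =
      -(1 / 2) * ∑ i, ∑ j, a i * a j * W |k i - k j| := by
    intro k
    rw [VS_dc l a _ ha0]
    congr 1
    refine Finset.sum_congr rfl fun i _ => Finset.sum_congr rfl fun j _ => ?_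
    simp only [hW]
    have e1 : |2 * Real.pi * k i / Real.log T - 2 * Real.pi * k j / Real.log T| =
        2 * Real.pi * |k i - k j| / Real.log T := by
      have : 2 * Real.pi * k i / Real.log T - 2 * Real.pi * k j / Real.log T =
        2 * Real.pi / Real.log T * (k i - k j) := by ring
      rw [this, abs_mul, abs_of_pos (by positivity)]
      ring
    rw [e1]
  have h1 := hVW k
  have h2 := hVW (fun i => lam / h * k i)
  have h3 := VS_nonneg (dc l a (fun i => 2 * Real.pi * (lam / h * k i) / Real.log T)) X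
  rw [h2] at h3
  set c0 := 2 / Real.pi ^ 2 * (Real.log h - Real.log lam) with hc0
  have hdel : ∀ i j, |W |k i - k j| - W |lam / h * k i - lam / h * k j| - (if i = j then 0 else c0)| ≤
      2 * (C * e) := by
    intro i j
    have hsc : |lam / h * k i - lam / h * k j| = lam / h * |k i - k j| := by
      rw [← mul_sub, abs_mul, abs_of_pos (by positivity)]
    rw [hsc]
    by_cases hij : i = j
    · subst hij
      rw [if_pos rfl, sub_self, abs_zero, mul_zero, hW0]
      simp
      positivity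
    · rw [if_neg hij]
      have g1 := hk1 i j hij
      have g2 := hk2 i j
      have g3 : lam ≤ lam / h * |k i - k j| := by
        rw [div_mul_eq_mul_div, le_div_iff₀ hh0]
        exact mul_le_mul_of_nonneg_left g1 hlam0.le
      have g4 : lam / h * |k i - k j| ≤ K := by
        have : lam / h ≤ 1 := by rw [div_le_one hh0]; exact hh
        calc lam / h * |k i - k j| ≤ 1 * |k i - k j| := mul_le_mul_of_nonneg_right this (abs_nonneg _)
          _ ≤ K := by rw [one_mul]; exact g2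
      have k1 := abs_le.1 (key _ (hh.trans g1) g2)
      have k2 := abs_le.1 (key _ g3 g4)
      have g5 : 0 < |k i - k j| := by linarith
      have g6 : Real.log (lam / h * |k i - k j|) = Real.log lam - Real.log h + Real.log |k i - k j| := by
        rw [Real.log_mul (by positivity) g5.ne', Real.log_div hlam0.ne' hh0.ne']
      rw [g6] at k2
      have g7 : 2 / Real.pi ^ 2 * (Real.log lam - Real.log h + Real.log |k i - k j|) =
        2 / Real.pi ^ 2 * Real.log |k i - k j| - c0 := by rw [hc0]; ring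
      rw [g7] at k2
      rw [abs_le]
      constructor <;> linarith [k1.1, k1.2, k2.1, k2.2]
  -- the sums
  have hsum1 : ∑ i, ∑ j, a i * a j * (if i = j then 0 else c0) = -(c0 * ∑ i, a i ^ 2) := by
    have e1 : ∀ i j, a i * a j * (if i = j then 0 else c0) = c0 * (a i * a j) -
        (if i = j then c0 * (a i * a j) else 0) := by
      intro i j
      split_ifs <;> ring
    simp only [e1, Finset.sum_sub_distrib, Finset.sum_ite_eq, Finset.mem_univ, if_true, ← Finset.mul_sum, ha0]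
    have e2 : ∑ i, a i * a i = ∑ i, a i ^ 2 := Finset.sum_congr rfl fun i _ => (sq (a i)).symm
    simp only [mul_zero, Finset.sum_const_zero]
    rw [e2]
    ring
  have hsum2 : |∑ i, ∑ j, a i * a j * (W |k i - k j| - W |lam / h * k i - lam / h * k j| -
      (if i = j then 0 else c0))| ≤ ((m + 1 : ℕ) : ℝ) ^ 2 * H ^ 2 * (2 * (C * e)) := by
    refine (Finset.abs_sum_le_sum_abs _ _).trans ?_
    have h4 : ∀ i ∈ (Finset.univ : Finset (Fin (m + 1))), |∑ j, a i * a j * (W |k i - k j| -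
        W |lam / h * k i - lam / h * k j| - (if i = j then 0 else c0))| ≤
        ((m + 1 : ℕ) : ℝ) * (H ^ 2 * (2 * (C * e))) := by
      intro i _
      refine (Finset.abs_sum_le_sum_abs _ _).trans ?_
      have h5 : ∀ j ∈ (Finset.univ : Finset (Fin (m + 1))), |a i * a j * (W |k i - k j| -
        W |lam / h * k i - lam / h * k j| - (if i = j then 0 else c0))| ≤ H ^ 2 * (2 * (C * e)) := by
        intro j _
        rw [abs_mul, abs_mul]
        have h6 : |a i| * |a j| ≤ H ^ 2 := by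
          rw [sq]
          exact mul_le_mul (haH i) (haH j) (abs_nonneg _) hH
        exact mul_le_mul h6 (hdel i j) (abs_nonneg _) (sq_nonneg _)
      refine (Finset.sum_le_sum h5).trans (le_of_eq ?_)
      rw [Finset.sum_const, Finset.card_univ, Fintype.card_fin, nsmul_eq_mul]
    refine (Finset.sum_le_sum h4).trans (le_of_eq ?_)
    rw [Finset.sum_const, Finset.card_univ, Fintype.card_fin, nsmul_eq_mul]
    ring
  have hsum3 : ∑ i, ∑ j, a i * a j * W |k i - k j| =
      ∑ i, ∑ j, a i * a j * W |lam / h * k i - lam / h * k j| +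
      ∑ i, ∑ j, a i * a j * (if i = j then 0 else c0) +
      ∑ i, ∑ j, a i * a j * (W |k i - k j| - W |lam / h * k i - lam / h * k j| -
      (if i = j then 0 else c0)) := by
    simp only [← Finset.sum_add_distrib]
    refine Finset.sum_congr rfl fun i _ => Finset.sum_congr rfl fun j _ => by ring
  rw [h1, hsum3, hsum1]
  have h7 := abs_le.1 hsum2
  have h8 : Real.log lam ≤ Real.log h := Real.log_le_log hlam0 hh
  have h9 : 0 ≤ c0 := by
    rw [hc0]
    have : 0 ≤ Real.log h - Real.log lam := by linarith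
    positivity
  have h10 : c0 ≤ c0 * ∑ i, a i ^ 2 := by nlinarith
  have h11 : 1 / 2 * c0 = 1 / Real.pi ^ 2 * Real.log h - 1 / Real.pi ^ 2 * Real.log lam := by
    rw [hc0]; ring
  have h12 : 1 / Real.pi ^ 2 * Real.log lam ≤ 1 / Real.pi ^ 2 * Real.log lam * e := by
    have : 0 ≤ 1 / Real.pi ^ 2 * Real.log lam := by positivity
    nlinarith
  have h13 : 0 ≤ -(1 / 2) * ∑ i, ∑ j, a i * a j * W |lam / h * k i - lam / h * k j| := h3
  nlinarith [h7.1, h7.2]

end Pool.Agent.X112.LF
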