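import Pool.Agent.X112.LF.Blk
import Pool.Agent.X112.GS.Poly

/-! # Linear forms in the ordinates at almost all places -/

set_option autoImplicit false

namespace Pool.Agent.X112.LF

open Filter Finset
open SG (ord NZ)
open Pool.Agent.X112.GS (yy dyadicU inc few_wide gap_close)

/-- the admissible tuples of index differences -/
def Tup {m : ℕ} (A h : ℕ) (k : Fin (m + 1) → ℕ) : Prop :=
  k 0 = 0 ∧ (∀ i j, i ≠ j → (h : ℝ) ≤ |(k i : ℝ) - k j|) ∧ ∀ i, k i ≤ h ^ A

theorem lin_fin (A m : ℕ) (hA : 1 ≤ A) (H θ : ℝ) (hH : 0 ≤ H) (hθ : 0 < θ) : ∃ κ : ℝ, 0 < κ ∧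
    ∀ᶠ h : ℕ in atTop, ∀ k : Fin (m + 1) → ℕ, Tup A h k → ∀ᶠ N : ℕ in atTop,
      ∀ a : Fin (m + 1) → ℝ, (∀ i, |a i| ≤ H) → ∑ i, a i = 0 → 1 ≤ ∑ i, a i ^ 2 → ∀ c : ℝ,
      (((Icc 1 N).filter (fun n => |∑ i, a i * ord (n + k i) - c| * Real.log (ord n) ≤
        κ * Real.sqrt (Real.log h))).card : ℝ) ≤ θ * N := by
  classical
  have hpi := Real.pi_pos
  obtain ⟨x, hxd⟩ : ∃ x : ℝ, x = θ / (17 * 49) := ⟨_, rfl⟩
  have hx : 0 < x := by rw [hxd]; positivity
  refine ⟨Real.pi * x, by positivity, ?_⟩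
  filter_upwards [block_lf A m hA H x x hH hx hx] with h hh k hk
  obtain ⟨hk0, hk1, hk2⟩ := hk
  obtain ⟨T0, hT0, hT⟩ := hh k hk0 hk1 hk2
  filter_upwards [dyadicU (49 * x) (max T0 2) (by positivity) (hT0.trans (le_max_left _ _))] with N hN
  intro a ha1 ha2 ha3 c
  have h2 := hN (fun n => |∑ i, a i * ord (n + k i) - c| * Real.log (ord n) ≤
        Real.pi * x * Real.sqrt (Real.log h)) inferInstance (fun T hTT => by
    have hT1 : T0 ≤ T := (le_max_left _ _).trans hTT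
    have hT2 : 2 ≤ T := (le_max_right _ _).trans hTT
    have hL : 0 < Real.log T := Real.log_pos (by linarith)
    have g1 := hT T hT1 a ha1 ha2 ha3 (c / (2 * Real.pi / Real.log T))
    have hu : 0 < 2 * Real.pi / Real.log T := by positivity
    rw [div_mul_cancel₀ _ hu.ne'] at g1
    have hsub : (Finset.Ioc (NZ T) (NZ (2 * T))).filter (fun n =>
        |∑ i, a i * ord (n + k i) - c| * Real.log (ord n) ≤ Real.pi * x * Real.sqrt (Real.log h)) ⊆
        (Finset.Ioc (NZ T) (NZ (2 * T))).filter (fun n =>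
          |∑ i, a i * ord (n + k i) - c| ≤ x / 2 * Real.sqrt (Real.log h) * (2 * Real.pi / Real.log T)) := by
      intro n hn
      rw [Finset.mem_filter] at hn ⊢
      obtain ⟨hn1, hn2⟩ := hn
      refine ⟨hn1, ?_⟩
      obtain ⟨hn3, hn4⟩ := Finset.mem_Ioc.1 hn1
      have hn0 : 1 ≤ n := by omega
      have hordT : T ≤ ord n := by
        by_contra hcon
        push Not at hcon
        have := (SG.ord_le_iff hn0 T).mp hcon.le
        omega
      have hl : Real.log T ≤ Real.log (ord n) := Real.log_le_log (by linarith) hordT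
      have e : x / 2 * Real.sqrt (Real.log h) * (2 * Real.pi / Real.log T) =
        Real.pi * x * Real.sqrt (Real.log h) / Real.log T := by ring
      rw [e, le_div_iff₀ hL]
      exact (mul_le_mul_of_nonneg_left hl (abs_nonneg _)).trans hn2
    have hcard : (((Finset.Ioc (NZ T) (NZ (2 * T))).filter (fun n =>
        |∑ i, a i * ord (n + k i) - c| * Real.log (ord n) ≤
          Real.pi * x * Real.sqrt (Real.log h))).card : ℝ) ≤
        (((Finset.Ioc (NZ T) (NZ (2 * T))).filter (fun n =>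
          |∑ i, a i * ord (n + k i) - c| ≤
            x / 2 * Real.sqrt (Real.log h) * (2 * Real.pi / Real.log T))).card : ℝ) := by
      exact_mod_cast Finset.card_le_card hsub
    refine hcard.trans (le_trans ?_ (le_of_eq (show (48 * x + x) * (T * Real.log T / (2 * Real.pi)) =
      49 * x * (T * Real.log T / (2 * Real.pi)) by ring)))
    refine le_trans (le_of_eq ?_) g1
    congr!)
  refine le_trans (le_of_eq ?_) (h2.trans (le_of_eq ?_))
  · congr!
  · rw [hxd]; ring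

/-- integer linear forms -/
theorem lin_int (A m H : ℕ) (hA : 1 ≤ A) (θ : ℝ) (hθ : 0 < θ) : ∃ κ : ℝ, 0 < κ ∧
    ∀ᶠ h : ℕ in atTop, ∀ k : Fin (m + 1) → ℕ, Tup A h k → ∀ᶠ N : ℕ in atTop,
      ({n : ℕ | 1 ≤ n ∧ n ≤ N ∧ ∃ a : Fin (m + 1) → ℤ, a ≠ 0 ∧ (∀ i, |a i| ≤ H) ∧
        |∑ i, (a i : ℝ) * ord (n + k i)| * Real.log (ord n) ≤ κ * Real.sqrt (Real.log h)}.ncard : ℝ) ≤
      θ * N := by
  classical
  obtain ⟨V, hV⟩ : ∃ V : Finset (Fin (m + 1) → ℤ), V =
    (Fintype.piFinset (fun _ => Finset.Icc (-(H : ℤ)) H)) := ⟨_, rfl⟩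
  obtain ⟨V0, hV0⟩ : ∃ V0 : Finset (Fin (m + 1) → ℤ), V0 = V.filter (fun a => a ≠ 0 ∧ ∑ i, a i = 0) := ⟨_, rfl⟩
  have hVc : (0 : ℝ) ≤ V0.card := Nat.cast_nonneg _
  obtain ⟨κ, hκ, hκh⟩ := lin_fin A m hA H (θ / (4 * (V0.card + 1))) (Nat.cast_nonneg _) (by positivity)
  refine ⟨κ, hκ, ?_⟩
  filter_upwards [hκh] with h hh k hk
  have hhk := hh k hk
  -- wide windows
  obtain ⟨L, hL⟩ : ∃ L : ℕ, L = h ^ A := ⟨_, rfl⟩
  obtain ⟨K, hK, hwide⟩ := few_wide (θ / 4) (by positivity) L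
  obtain ⟨n1, hn11, hn1⟩ := gap_close K 1 hK one_pos L
  have hord : Tendsto ord atTop atTop := Pool.Agent.Y743.LR.ord_tendsto
  obtain ⟨n2, hn2⟩ := (hord.eventually_ge_atTop
    (Real.exp 1 + κ * Real.sqrt (Real.log h) + (m + 1 : ℕ) * (H * L) + 1)).exists_forall_of_atTop
  have hbig : ∀ᶠ N : ℕ in atTop, ((n1 + n2 : ℕ) : ℝ) ≤ θ / 4 * N :=
    (tendsto_natCast_atTop_atTop.const_mul_atTop (show (0 : ℝ) < θ / 4 by positivity)).eventually_ge_atTop _
  filter_upwards [hhk, hwide, hbig] with N h1 h2 h3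
  have hsub : {n : ℕ | 1 ≤ n ∧ n ≤ N ∧ ∃ a : Fin (m + 1) → ℤ, a ≠ 0 ∧ (∀ i, |a i| ≤ H) ∧
        |∑ i, (a i : ℝ) * ord (n + k i)| * Real.log (ord n) ≤ κ * Real.sqrt (Real.log h)} ⊆
      (((V0.biUnion fun a => (Icc 1 N).filter (fun n => |∑ i, (a i : ℝ) * ord (n + k i) - 0| * Real.log (ord n) ≤
        κ * Real.sqrt (Real.log h))) ∪
        ((Icc 1 N).filter (fun n => ¬ ∀ l < L, |inc yy (n + l)| ≤ K) ∪ Icc 1 (n1 + n2)) : Finset ℕ) : Set ℕ) := by
    rintro n ⟨hn1', hn2', a, ha0, haH, hsm⟩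
    rw [Finset.coe_union, Finset.coe_union, Set.mem_union, Set.mem_union]
    by_contra hcon
    rw [not_or, not_or] at hcon
    obtain ⟨c1, c2, c3⟩ := hcon
    have hnI : n ∈ Icc 1 N := Finset.mem_Icc.2 ⟨hn1', hn2'⟩
    have hnn : n1 + n2 ≤ n := by
      by_contra hc
      exact c3 (by rw [Finset.mem_coe]; exact Finset.mem_Icc.mpr ⟨hn1', by omega⟩)
    have hw : ∀ l < L, |inc yy (n + l)| ≤ K := by
      by_contra hc
      exact c2 (by rw [Finset.mem_coe]; exact Finset.mem_filter.mpr ⟨hnI, hc⟩)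
    have haV : a ∈ V := by
      rw [hV, Fintype.mem_piFinset]
      intro i
      exact Finset.mem_Icc.2 (abs_le.1 (haH i))
    by_cases hs : ∑ i, a i = 0
    · apply c1
      rw [Finset.mem_coe, Finset.mem_biUnion]
      refine ⟨a, by rw [hV0]; exact Finset.mem_filter.2 ⟨haV, ha0, hs⟩, ?_⟩
      rw [Finset.mem_filter, sub_zero]
      exact ⟨hnI, hsm⟩
    · -- the sum of the coefficients does not vanish
      obtain ⟨hn3, hcl⟩ := hn1 n (by omega)
      obtain ⟨hpos, -⟩ := hcl hw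
      have hx := hn2 n (by omega)
      have hLb : (0 : ℝ) ≤ L := Nat.cast_nonneg _
      have hs1 : (1 : ℝ) ≤ |∑ i, (a i : ℝ)| := by
        have : (1 : ℤ) ≤ |∑ i, a i| := Int.one_le_abs hs
        have h5 : ((1 : ℤ) : ℝ) ≤ ((|∑ i, a i| : ℤ) : ℝ) := by exact_mod_cast this
        push_cast at h5
        exact h5
      have hsum : ∑ i, (a i : ℝ) * ord (n + k i) = (∑ i, (a i : ℝ)) * ord n +
          ∑ i, (a i : ℝ) * (ord (n + k i) - ord n) := by
        rw [Finset.sum_mul, ← Finset.sum_add_distrib]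
        exact Finset.sum_congr rfl fun i _ => by ring
      have hb : |∑ i, (a i : ℝ) * (ord (n + k i) - ord n)| ≤ (m + 1 : ℕ) * (H * L) := by
        refine (Finset.abs_sum_le_sum_abs _ _).trans ?_
        have h6 : ∀ i ∈ (Finset.univ : Finset (Fin (m + 1))), |(a i : ℝ) * (ord (n + k i) - ord n)| ≤ H * L := by
          intro i _
          rw [abs_mul]
          have h7 : |(a i : ℝ)| ≤ H := by
            have := haH i
            have h8 : ((|a i| : ℤ) : ℝ) ≤ ((H : ℤ) : ℝ) := by exact_mod_cast this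
            push_cast at h8
            exact h8
          obtain ⟨p1, p2⟩ := hpos (k i) (by rw [hL]; exact hk.2.2 i)
          have h9 : |ord (n + k i) - ord n| ≤ L := by
            rw [abs_of_nonneg (by linarith)]
            have : (k i : ℝ) ≤ L := by rw [hL]; exact_mod_cast hk.2.2 i
            linarith
          exact mul_le_mul h7 h9 (abs_nonneg _) (Nat.cast_nonneg _)
        refine (Finset.sum_le_sum h6).trans (le_of_eq ?_)
        rw [Finset.sum_const, Finset.card_univ, Fintype.card_fin, nsmul_eq_mul]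
      have hsq : 0 ≤ Real.sqrt (Real.log h) := Real.sqrt_nonneg _
      have hks : 0 ≤ κ * Real.sqrt (Real.log h) := by positivity
      have hmH : (0 : ℝ) ≤ (m + 1 : ℕ) * (H * L) := by positivity
      have hx0 : 0 < ord n := by linarith [Real.exp_pos 1]
      have hl1 : 1 ≤ Real.log (ord n) := by
        rw [Real.le_log_iff_exp_le hx0]
        linarith
      have hbig2 : ord n - (m + 1 : ℕ) * (H * L) ≤ |∑ i, (a i : ℝ) * ord (n + k i)| := by
        rw [hsum]
        have q1 := abs_sub_abs_le_abs_sub ((∑ i, (a i : ℝ)) * ord n)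
          (-(∑ i, (a i : ℝ) * (ord (n + k i) - ord n)))
        rw [sub_neg_eq_add, abs_neg, abs_mul, abs_of_pos hx0] at q1
        nlinarith
      have q2 : |∑ i, (a i : ℝ) * ord (n + k i)| ≤ κ * Real.sqrt (Real.log h) := by
        refine le_trans ?_ hsm
        exact le_mul_of_one_le_right (abs_nonneg _) hl1
      linarith [Real.exp_pos 1]
  have h4 : ({n : ℕ | 1 ≤ n ∧ n ≤ N ∧ ∃ a : Fin (m + 1) → ℤ, a ≠ 0 ∧ (∀ i, |a i| ≤ H) ∧
        |∑ i, (a i : ℝ) * ord (n + k i)| * Real.log (ord n) ≤ κ * Real.sqrt (Real.log h)}.ncard : ℝ) ≤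
      (((V0.biUnion fun a => (Icc 1 N).filter (fun n => |∑ i, (a i : ℝ) * ord (n + k i) - 0| * Real.log (ord n) ≤
        κ * Real.sqrt (Real.log h))) ∪
        ((Icc 1 N).filter (fun n => ¬ ∀ l < L, |inc yy (n + l)| ≤ K) ∪ Icc 1 (n1 + n2)) : Finset ℕ).card : ℝ) := by
    have := Set.ncard_le_ncard hsub (Finset.finite_toSet _)
    rw [Set.ncard_coe_finset] at this
    exact_mod_cast this
  refine h4.trans ?_
  have h5 : (((V0.biUnion fun a => (Icc 1 N).filter (fun n => |∑ i, (a i : ℝ) * ord (n + k i) - 0| * Real.log (ord n) ≤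
        κ * Real.sqrt (Real.log h))) ∪
        ((Icc 1 N).filter (fun n => ¬ ∀ l < L, |inc yy (n + l)| ≤ K) ∪ Icc 1 (n1 + n2)) : Finset ℕ).card : ℝ) ≤
      ∑ a ∈ V0, (((Icc 1 N).filter (fun n => |∑ i, (a i : ℝ) * ord (n + k i) - 0| * Real.log (ord n) ≤
        κ * Real.sqrt (Real.log h))).card : ℝ) +
      ((((Icc 1 N).filter (fun n => ¬ ∀ l < L, |inc yy (n + l)| ≤ K)).card : ℝ) + ((n1 + n2 : ℕ) : ℝ)) := by
    have e1 := (Finset.card_union_le (V0.biUnion fun a => (Icc 1 N).filter (fun n =>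
      |∑ i, (a i : ℝ) * ord (n + k i) - 0| * Real.log (ord n) ≤ κ * Real.sqrt (Real.log h)))
      ((Icc 1 N).filter (fun n => ¬ ∀ l < L, |inc yy (n + l)| ≤ K) ∪ Icc 1 (n1 + n2)))
    have e2 := Finset.card_biUnion_le (s := V0) (t := fun a => (Icc 1 N).filter (fun n =>
      |∑ i, (a i : ℝ) * ord (n + k i) - 0| * Real.log (ord n) ≤ κ * Real.sqrt (Real.log h)))
    have e3 := Finset.card_union_le ((Icc 1 N).filter (fun n => ¬ ∀ l < L, |inc yy (n + l)| ≤ K))
      (Icc 1 (n1 + n2))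
    rw [Nat.card_Icc, Nat.add_sub_cancel] at e3
    have e4 := e1.trans (Nat.add_le_add e2 e3)
    exact_mod_cast e4
  have h6 : ∑ a ∈ V0, (((Icc 1 N).filter (fun n => |∑ i, (a i : ℝ) * ord (n + k i) - 0| * Real.log (ord n) ≤
        κ * Real.sqrt (Real.log h))).card : ℝ) ≤ θ / 4 * N := by
    have h7 : ∀ a ∈ V0, (((Icc 1 N).filter (fun n => |∑ i, (a i : ℝ) * ord (n + k i) - 0| * Real.log (ord n) ≤
        κ * Real.sqrt (Real.log h))).card : ℝ) ≤ θ / (4 * (V0.card + 1)) * N := by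
      intro a ha
      rw [hV0, Finset.mem_filter, hV, Fintype.mem_piFinset] at ha
      obtain ⟨ha1, ha2, ha3⟩ := ha
      refine le_trans (le_of_eq ?_) (h1 (fun i => (a i : ℝ)) (fun i => ?_) ?_ ?_ 0)
      · congr!
      · have := Finset.mem_Icc.1 (ha1 i)
        have h8 : |a i| ≤ (H : ℤ) := abs_le.2 this
        have h9 : ((|a i| : ℤ) : ℝ) ≤ ((H : ℤ) : ℝ) := by exact_mod_cast h8
        push_cast at h9
        exact h9
      · exact_mod_cast ha3
      · obtain ⟨i, hi⟩ : ∃ i, a i ≠ 0 := by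
          by_contra hc
          push Not at hc
          exact ha2 (funext hc)
        have h8 : (1 : ℝ) ≤ (a i : ℝ) ^ 2 := by
          have : (1 : ℤ) ≤ a i ^ 2 := by
            have := Int.one_le_abs hi
            nlinarith [sq_abs (a i), abs_nonneg (a i)]
          exact_mod_cast this
        exact h8.trans (Finset.single_le_sum (f := fun i => (a i : ℝ) ^ 2) (fun j _ => sq_nonneg _)
          (Finset.mem_univ i))
    refine (Finset.sum_le_sum h7).trans ?_
    rw [Finset.sum_const, nsmul_eq_mul]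
    have h8 : (V0.card : ℝ) * (θ / (4 * (V0.card + 1)) * N) = θ / 4 * N * (V0.card / (V0.card + 1)) := by
      field_simp
    rw [h8]
    apply mul_le_of_le_one_right (by positivity)
    rw [div_le_one (by positivity)]
    linarith
  have h2' : ((((Icc 1 N).filter (fun n => ¬ ∀ l < L, |inc yy (n + l)| ≤ K)).card : ℝ)) ≤ θ / 4 * N := by
    refine le_trans (le_of_eq ?_) h2
    congr!
  have hN0 : (0 : ℝ) ≤ θ * N := by positivity
  linarith

end Pool.Agent.X112.LF
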