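import Pool.Agent.X112.LF.Ind

/-! # All polynomials of bounded degree and height at once -/

set_option autoImplicit false

namespace Pool.Agent.X112.LF

open Filter MeasureTheory Set
open SG (ord NZ)

lemma hgt_finite (m d H : ℕ) :
    {Q : MvPolynomial (Fin (m + 1)) ℤ | Q.totalDegree ≤ d ∧ ∀ s, |Q.coeff s| ≤ H}.Finite := by
  classical
  have hf : (Set.range (fun c : (Fin (m + 1) → Fin (d + 1)) → Set.Icc (-(H : ℤ)) H =>
      ∑ e, MvPolynomial.monomial (Finsupp.equivFunOnFinite.symm (fun i => (e i : ℕ))) (c e : ℤ))).Finite :=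
    Set.finite_range _
  refine hf.subset ?_
  rintro Q ⟨hd, hH⟩
  refine ⟨fun e => ⟨Q.coeff (Finsupp.equivFunOnFinite.symm (fun i => (e i : ℕ))), abs_le.1 (hH _)⟩, ?_⟩
  ext s
  simp only
  rw [MvPolynomial.coeff_sum]
  by_cases hs : ∀ i, s i < d + 1
  · rw [Finset.sum_eq_single (fun i => (⟨s i, hs i⟩ : Fin (d + 1)))]
    · have e1 : Finsupp.equivFunOnFinite.symm (fun i => s i) = s := by
        ext i; simp
      simp only
      rw [e1, MvPolynomial.coeff_monomial, if_pos rfl]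
    · intro e _ hne
      rw [MvPolynomial.coeff_monomial, if_neg]
      intro h2
      apply hne
      funext i
      apply Fin.ext
      have h3 := DFunLike.congr_fun h2 i
      simpa using h3
    · intro h; exact absurd (Finset.mem_univ _) h
  · push Not at hs
    obtain ⟨i, hi⟩ := hs
    rw [Finset.sum_eq_zero]
    · by_contra hne
      have h1 : s ∈ Q.support := by
        rw [MvPolynomial.mem_support_iff]
        exact fun h => hne h.symm
      have h4 := MvPolynomial.le_totalDegree (p := Q) (s := s) h1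
      rw [Finsupp.sum_fintype _ _ (fun _ => rfl)] at h4
      have h5 : s i ≤ ∑ i, s i :=
        Finset.single_le_sum (f := fun i => s i) (fun _ _ => Nat.zero_le _) (Finset.mem_univ i)
      omega
    · intro e _
      rw [MvPolynomial.coeff_monomial, if_neg]
      intro h2
      have h3 : ((e i : Fin (d + 1)) : ℕ) = s i := DFunLike.congr_fun h2 i
      have h4 := (e i).2
      omega

theorem ind_hgt (A m d H : ℕ) (hA : 1 ≤ A) (θ : ℝ) (hθ : 0 < θ) : ∃ ε : ℝ, 0 < ε ∧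
    ∀ᶠ h : ℕ in atTop, ∀ k : Fin (m + 1) → ℕ, Tup A h k → ∀ᶠ N : ℕ in atTop,
      ({n : ℕ | 1 ≤ n ∧ n ≤ N ∧ ∃ Q : MvPolynomial (Fin (m + 1)) ℤ, Q ≠ 0 ∧ Q.totalDegree ≤ d ∧
        (∀ s, |Q.coeff s| ≤ H) ∧
        |MvPolynomial.eval (fun i => ord (n + k i)) (rp Q)| * Real.log (ord n) ^ d ≤
        ε * Real.sqrt (Real.log h) ^ d}.ncard : ℝ) ≤ θ * N := by
  classical
  obtain ⟨S, hS⟩ : ∃ S : Finset (MvPolynomial (Fin (m + 1)) ℤ),
    S = ((hgt_finite m d H).toFinset).filter (fun Q => Q ≠ 0) := ⟨_, rfl⟩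
  obtain ⟨ε, hε, hb⟩ := ind_fin A m d S.card hA θ hθ
  refine ⟨ε, hε, ?_⟩
  filter_upwards [hb] with h hh k hk
  have hgrow : ∀ᶠ N : ℕ in atTop, (H : ℝ) ≤ (N : ℝ) ^ (1 / 2 : ℝ) :=
    ((tendsto_rpow_atTop (by norm_num : (0 : ℝ) < 1 / 2)).comp tendsto_natCast_atTop_atTop).eventually_ge_atTop _
  filter_upwards [hh k hk (1 / 2) (by norm_num), hgrow] with N hN hHN
  have h1 := hN S le_rfl (fun Q hQ => by
    rw [hS, Finset.mem_filter, Set.Finite.mem_toFinset] at hQ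
    refine ⟨hQ.2, hQ.1.1, fun s => le_trans ?_ hHN⟩
    have := hQ.1.2 s
    exact_mod_cast this)
  refine le_trans ?_ h1
  have hfin : {n : ℕ | 1 ≤ n ∧ n ≤ N ∧ ∃ Q ∈ S,
        |MvPolynomial.eval (fun i => ord (n + k i)) (rp Q)| * Real.log (ord n) ^ d ≤
        ε * Real.sqrt (Real.log h) ^ d}.Finite :=
    (Finset.Icc 1 N).finite_toSet.subset fun n hn => Finset.mem_coe.2 (Finset.mem_Icc.2 ⟨hn.1, hn.2.1⟩)
  have h2 := Set.ncard_le_ncard (s := {n : ℕ | 1 ≤ n ∧ n ≤ N ∧ ∃ Q : MvPolynomial (Fin (m + 1)) ℤ, Q ≠ 0 ∧ Q.totalDegree ≤ d ∧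
        (∀ s, |Q.coeff s| ≤ H) ∧
        |MvPolynomial.eval (fun i => ord (n + k i)) (rp Q)| * Real.log (ord n) ^ d ≤
        ε * Real.sqrt (Real.log h) ^ d}) (by
    rintro n ⟨a1, a2, Q, a3, a4, a5, a6⟩
    refine ⟨a1, a2, Q, ?_, a6⟩
    rw [hS, Finset.mem_filter, Set.Finite.mem_toFinset]
    exact ⟨⟨a4, a5⟩, a3⟩) hfin
  exact_mod_cast h2

end Pool.Agent.X112.LF
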