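import Pool.Agent.X112.LF.Ind

/-! # Real algebraic hypersurfaces and the gaps -/

set_option autoImplicit false

namespace Pool.Agent.X112.LF

open Filter MeasureTheory Set
open SG (ord NZ)
open Pool.Agent.X112.GS (dyadicU)

theorem block_near (A m r : ℕ) (hA : 1 ≤ A) (θ : ℝ) (hθ : 0 < θ) : ∃ ε : ℝ, 0 < ε ∧
    ∀ᶠ h : ℕ in atTop, ∀ k : Fin (m + 1) → ℕ, Tup A h k → ∃ T0 : ℝ, 1 ≤ T0 ∧ ∀ T : ℝ, T0 ≤ T →
      ∀ c : (Fin m → Fin (r + 1)) → ℝ, (∃ e, 1 ≤ |c e|) → ∀ F : Finset ℕ,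
      F ⊆ Finset.Ioc (NZ T) (NZ (2 * T)) →
      (∀ n ∈ F, ∃ y : Fin m → ℝ, (∀ p, |vec T h k n p - y p| ≤ ε) ∧ |pv c y| ≤ ε) →
      (F.card : ℝ) ≤ θ * (T * Real.log T / (2 * Real.pi)) := by
  have hpi := Real.pi_pos
  obtain ⟨R, ε, hR3, hε, hsb⟩ := small_ball A 1 le_rfl m r (θ / 2) (by positivity)
  refine ⟨ε / 2, by positivity, ?_⟩
  filter_upwards [block_gen A m hA (ε / 2) (θ / 2) (by positivity) (by positivity), eventually_ge_atTop 3,
    (tendsto_natCast_atTop_atTop (R := ℝ)).eventually_ge_atTop R] with h hb hh3 hhR k hk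
  obtain ⟨hk0, hk1, hk2⟩ := hk
  obtain ⟨T1, hT1, hT⟩ := hb k hk0 hk2
  have hh3' : (3 : ℝ) ≤ h := by exact_mod_cast hh3
  have hlh : 0 < Real.log h := Real.log_pos (by linarith)
  have hsh : 0 < Real.sqrt (Real.log h) := Real.sqrt_pos.2 hlh
  obtain ⟨K, hK⟩ : ∃ K : ℝ, K = (h : ℝ) ^ A := ⟨_, rfl⟩
  have hhK : (h : ℝ) ≤ K := by
    rw [hK]
    calc (h : ℝ) = (h : ℝ) ^ 1 := (pow_one _).symm
      _ ≤ (h : ℝ) ^ A := pow_le_pow_right₀ (by linarith) hA
  have hkK : ∀ i, (k i : ℝ) ≤ K := fun i => by rw [hK]; exact_mod_cast hk2 i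
  have hk00 : ∀ i, (0 : ℝ) ≤ k i := fun i => Nat.cast_nonneg _
  obtain ⟨T2, hT2⟩ := ((Real.tendsto_log_atTop.eventually_ge_atTop (K * Real.log K)).and
    (eventually_ge_atTop (2 : ℝ))).exists_forall_of_atTop
  refine ⟨max T1 T2, hT1.trans (le_max_left _ _), ?_⟩
  intro T hTT c hc F hF hFs
  have hTT1 : T1 ≤ T := (le_max_left _ _).trans hTT
  obtain ⟨g1, g2⟩ := hT2 T ((le_max_right _ _).trans hTT)
  have hL : 0 < Real.log T := Real.log_pos (by linarith)
  obtain ⟨k', hk'⟩ : ∃ k' : Fin (m + 1) → ℝ, k' = fun i => (k i : ℝ) := ⟨_, rfl⟩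
  have hpt : Pt A 1 (h : ℝ) K T k' := by
    refine ⟨hhK, hK.le, by linarith, by linarith, ?_, ?_, ?_, ?_⟩
    · rw [hk']; exact hk1
    · intro i j
      rw [hk']
      have a1 := hk00 i
      have a2 := hkK i
      have a3 := hk00 j
      have a4 := hkK j
      rw [abs_le]
      constructor <;> linarith
    · rw [hk']; simp [hk0]
    · rw [hk']; exact hk00
  have hsm := hsb h K T k' hhR hpt c hc
  obtain ⟨D, hD⟩ : ∃ D : Set ℝ, D = toMeasurable volume (Sm k' h T ε c) ∩ Icc T (2 * T) := ⟨_, rfl⟩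
  have hDm : MeasurableSet D := by
    rw [hD]; exact (measurableSet_toMeasurable _ _).inter measurableSet_Icc
  have hSfin : volume (Sm k' h T ε c) ≠ ⊤ := by
    refine ne_top_of_le_ne_top ?_ (measure_mono (show Sm k' h T ε c ⊆ Icc T (2 * T) from fun t ht => ht.1))
    rw [Real.volume_Icc]
    exact ENNReal.ofReal_ne_top
  have hDv : volume.real D ≤ θ / 2 * T := by
    refine le_trans ?_ hsm
    rw [measureReal_def, measureReal_def]
    refine ENNReal.toReal_mono hSfin ?_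
    rw [← measure_toMeasurable (Sm k' h T ε c), hD]
    exact measure_mono inter_subset_left
  have h1 := hT T hTT1 F D hDm (by rw [hD]; exact inter_subset_right) hF (by
    intro n hn t ht hcl
    obtain ⟨y, hy1, hy2⟩ := hFs n hn
    rw [hD]
    refine ⟨subset_toMeasurable _ _ ⟨ht, y, fun p => ?_, hy2.trans (by linarith)⟩, ht⟩
    have h2 := hcl p.succ
    have h3 : xi k' h T t p - vec T h k n p = -((ord (n + k p.succ) - ord n) / (2 * Real.pi / Real.log T) -
        k p.succ + ((NZ (t + k p.succ * (2 * Real.pi / Real.log T)) : ℝ) - NZ t - k p.succ)) /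
        Real.sqrt (Real.log h) := by
      unfold xi vec
      rw [hk']
      simp only
      ring
    have h4 : |xi k' h T t p - vec T h k n p| ≤ ε / 2 := by
      rw [h3, abs_div, abs_neg, abs_of_pos hsh, div_le_iff₀ hsh]
      exact h2
    have h5 := abs_le.1 h4
    have h6 := abs_le.1 (hy1 p)
    rw [abs_le]
    constructor <;> linarith [h5.1, h5.2, h6.1, h6.2])
  refine h1.trans ?_
  have h4 : (volume.real D + θ / 2 * T) * (Real.log T / (2 * Real.pi)) ≤
      (θ * T) * (Real.log T / (2 * Real.pi)) := by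
    apply mul_le_mul_of_nonneg_right _ (by positivity)
    linarith
  refine h4.trans (le_of_eq ?_)
  ring

open MvPolynomial in
lemma shift_nz {m d : ℕ} (F : MvPolynomial (Fin m) ℝ) (hF : F ≠ 0) (hd : F.totalDegree ≤ d)
    (σ : ℝ) (hσ0 : 0 < σ) (κ : Fin m → ℝ) :
    ∃ (c : (Fin m → Fin (d + 1)) → ℝ) (w : ℝ), (∃ e, 1 ≤ |c e|) ∧
      ∀ ξ : Fin m → ℝ, pv c ξ = w * eval (fun i => σ * (κ i + ξ i)) F := by
  classical
  have hsd : ∀ t ∈ F.support, ∑ i, t i ≤ F.totalDegree := fun t ht => by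
    have h4 := le_totalDegree (p := F) (s := t) ht
    rwa [Finsupp.sum_fintype _ _ (fun _ => rfl)] at h4
  have hsi : ∀ t ∈ F.support, ∀ i, t i ≤ d := fun t ht i =>
    ((Finset.single_le_sum (f := fun i => t i) (fun _ _ => Nat.zero_le _) (Finset.mem_univ i)).trans
      (hsd t ht)).trans hd
  obtain ⟨c, hc⟩ : ∃ c : (Fin m → Fin (d + 1)) → ℝ, c = fun e => ∑ t ∈ F.support, F.coeff t *
    (σ ^ (∑ i, t i) * ∏ i, (((t i).choose (e i) : ℝ) * κ i ^ (t i - (e i : ℕ)))) := ⟨_, rfl⟩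
  -- the top coefficient
  have htop : ∃ e, c e ≠ 0 := by
    obtain ⟨s, hs, hst⟩ : ∃ s ∈ F.support, ∑ i, s i = F.totalDegree := by
      obtain ⟨s, hs, hs'⟩ := Finset.exists_mem_eq_sup F.support (by
        rw [Finset.nonempty_iff_ne_empty, ne_eq, support_eq_empty]; exact hF)
        (fun s => s.sum fun _ e => e)
      refine ⟨s, hs, ?_⟩
      unfold totalDegree
      rw [hs', Finsupp.sum_fintype _ _ (fun _ => rfl)]
    refine ⟨fun i => ⟨s i, Nat.lt_succ_of_le (hsi s hs i)⟩, ?_⟩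
    rw [hc]
    simp only
    rw [Finset.sum_eq_single s]
    · simp only [Nat.choose_self, Nat.cast_one, Nat.sub_self, pow_zero, Finset.prod_const_one,
        mul_one]
      exact mul_ne_zero (mem_support_iff.1 hs) (pow_pos hσ0 _).ne'
    · intro t ht hts
      have h1 : ∃ i, t i < s i := by
        by_contra hcon
        push Not at hcon
        apply hts
        have h2 : ∑ i, t i ≤ ∑ i, s i := by rw [hst]; exact hsd t ht
        have h3 : ∀ i ∈ (Finset.univ : Finset (Fin m)), s i = t i :=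
          (Finset.sum_eq_sum_iff_of_le (fun i _ => hcon i)).1
            (le_antisymm (Finset.sum_le_sum fun i _ => hcon i) h2)
        ext i
        exact (h3 i (Finset.mem_univ i)).symm
      obtain ⟨i, hi'⟩ := h1
      rw [Finset.prod_eq_zero (Finset.mem_univ i), mul_zero, mul_zero]
      rw [Nat.choose_eq_zero_of_lt hi']
      simp
    · intro h; exact absurd hs h
  have hev : ∀ ξ : Fin m → ℝ, pv c ξ = eval (fun i => σ * (κ i + ξ i)) F := by
    intro ξ
    rw [MvPolynomial.eval_eq']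
    unfold pv
    have e1 : ∀ t ∈ F.support, F.coeff t * ∏ i, (σ * (κ i + ξ i)) ^ (t i) =
        ∑ e : Fin m → Fin (d + 1), F.coeff t * (σ ^ (∑ i, t i) *
          ∏ i, (((t i).choose (e i) : ℝ) * κ i ^ (t i - (e i : ℕ)))) * ∏ i, ξ i ^ (e i : ℕ) := by
      intro t ht
      have e2 : ∏ i, (σ * (κ i + ξ i)) ^ (t i) = σ ^ (∑ i, t i) * ∏ i, (κ i + ξ i) ^ (t i) := by
        rw [← Finset.prod_pow_eq_pow_sum, ← Finset.prod_mul_distrib]
        exact Finset.prod_congr rfl fun i _ => mul_pow _ _ _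
      have e3 : ∏ i, (κ i + ξ i) ^ (t i) = ∑ e : Fin m → Fin (d + 1),
          ∏ i, (((t i).choose (e i) : ℝ) * κ i ^ (t i - (e i : ℕ)) * ξ i ^ (e i : ℕ)) := by
        have e4 := Finset.prod_univ_sum (fun _ : Fin m => (Finset.univ : Finset (Fin (d + 1))))
          (fun i j => ((t i).choose (j : ℕ) : ℝ) * κ i ^ (t i - (j : ℕ)) * ξ i ^ (j : ℕ))
        rw [Fintype.piFinset_univ] at e4
        refine Eq.trans ?_ e4
        exact Finset.prod_congr rfl fun i _ => pow_exp (hsi t ht i) _ _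
      rw [e2, e3, Finset.mul_sum, Finset.mul_sum]
      refine Finset.sum_congr rfl fun e _ => ?_
      rw [Finset.prod_mul_distrib]
      ring
    rw [Finset.sum_congr rfl e1, Finset.sum_comm]
    refine Finset.sum_congr rfl fun e _ => ?_
    rw [hc]
    simp only
    rw [← Finset.sum_mul]
  obtain ⟨e, he⟩ := htop
  refine ⟨(|c e|)⁻¹ • c, (|c e|)⁻¹, ⟨e, ?_⟩, fun ξ => ?_⟩
  · rw [Pi.smul_apply, smul_eq_mul, abs_mul, abs_inv, abs_abs, inv_mul_cancel₀ (abs_pos.2 he).ne']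
  · rw [pv_smul, hev]

theorem hyp_fin (A m d : ℕ) (hA : 1 ≤ A) (θ : ℝ) (hθ : 0 < θ) : ∃ ε : ℝ, 0 < ε ∧
    ∀ᶠ h : ℕ in atTop, ∀ k : Fin (m + 1) → ℕ, Tup A h k → ∀ᶠ N : ℕ in atTop,
      ∀ G : MvPolynomial (Fin m) ℝ, G ≠ 0 → G.totalDegree ≤ d →
      ({n : ℕ | 1 ≤ n ∧ n ≤ N ∧ ∃ y : Fin m → ℝ, MvPolynomial.eval y G = 0 ∧
        ∀ i : Fin m, |ord (n + k i.succ) - ord n - y i| * Real.log (ord n) ≤
          ε * Real.sqrt (Real.log h)}.ncard : ℝ) ≤ θ * N := by
  classical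
  have hpi := Real.pi_pos
  have hpi3 := Real.pi_gt_three
  obtain ⟨ε0, hε0, hb⟩ := block_near A m d hA (θ / 17) (by positivity)
  refine ⟨ε0, hε0, ?_⟩
  filter_upwards [hb, eventually_ge_atTop 3] with h hh hh3 k hk
  obtain ⟨T0, hT0, hT⟩ := hh k hk
  have hh3' : (3 : ℝ) ≤ h := by exact_mod_cast hh3
  have hlh : 0 < Real.log h := Real.log_pos (by linarith)
  obtain ⟨sh, hsh⟩ : ∃ sh : ℝ, sh = Real.sqrt (Real.log h) := ⟨_, rfl⟩
  have hsh0 : 0 < sh := by rw [hsh]; exact Real.sqrt_pos.2 hlh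
  rw [← hsh]
  filter_upwards [dyadicU (θ / 17) (max T0 2) (by positivity) (hT0.trans (le_max_left _ _))] with N hN G hG hGd
  obtain ⟨S, hS⟩ : ∃ S : ℕ → Prop, S = fun n => ∃ y : Fin m → ℝ, MvPolynomial.eval y G = 0 ∧
        ∀ i : Fin m, |ord (n + k i.succ) - ord n - y i| * Real.log (ord n) ≤ ε0 * sh := ⟨_, rfl⟩
  have hmain := hN S (Classical.decPred S) (by
    intro T hTT
    have hTT0 : T0 ≤ T := (le_max_left _ _).trans hTT
    have hT2 : 2 ≤ T := (le_max_right _ _).trans hTT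
    have hLT : 0 < Real.log T := Real.log_pos (by linarith)
    obtain ⟨σ, hσ⟩ : ∃ σ : ℝ, σ = 2 * Real.pi / Real.log T * sh := ⟨_, rfl⟩
    have hσ0 : 0 < σ := by rw [hσ]; positivity
    obtain ⟨c, w, hc, hpv⟩ := shift_nz G hG hGd σ hσ0 (fun i => (k i.succ : ℝ) / sh)
    refine hT T hTT0 c hc _ (Finset.filter_subset _ _) ?_
    intro n hn
    rw [Finset.mem_filter, Finset.mem_Ioc] at hn
    obtain ⟨⟨a1, a2⟩, a3⟩ := hn
    rw [hS] at a3
    obtain ⟨y, hy1, hy2⟩ := a3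
    have hn0 : 1 ≤ n := by omega
    have hxT : T ≤ ord n := by
      by_contra hcon
      push Not at hcon
      have := (SG.ord_le_iff hn0 T).mp hcon.le
      omega
    have hlx : Real.log T ≤ Real.log (ord n) := Real.log_le_log (by linarith) hxT
    refine ⟨fun i => y i / σ - (k i.succ : ℝ) / sh, fun p => ?_, ?_⟩
    · have e1 : vec T h k n p - (y p / σ - (k p.succ : ℝ) / sh) =
          (ord (n + k p.succ) - ord n - y p) / σ := by
        unfold vec
        rw [hσ, ← hsh]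
        field_simp
        ring
      rw [e1, abs_div, abs_of_pos hσ0, div_le_iff₀ hσ0]
      have h2 := hy2 p
      have h3 : |ord (n + k p.succ) - ord n - y p| * Real.log T ≤ ε0 * sh :=
        (mul_le_mul_of_nonneg_left hlx (abs_nonneg _)).trans h2
      have h4 : |ord (n + k p.succ) - ord n - y p| ≤ ε0 * sh / Real.log T := by
        rw [le_div_iff₀ hLT]; exact h3
      refine h4.trans ?_
      rw [hσ]
      have h5 : ε0 * (2 * Real.pi / Real.log T * sh) = 2 * Real.pi * (ε0 * sh / Real.log T) := by ring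
      rw [h5]
      have h6 : 0 ≤ ε0 * sh / Real.log T := by positivity
      nlinarith
    · rw [hpv]
      have e2 : (fun i => σ * ((k i.succ : ℝ) / sh + (y i / σ - (k i.succ : ℝ) / sh))) = y := by
        funext i
        field_simp
        ring
      rw [e2, hy1, mul_zero, abs_zero]
      exact hε0.le)
  have hsub : {n : ℕ | 1 ≤ n ∧ n ≤ N ∧ ∃ y : Fin m → ℝ, MvPolynomial.eval y G = 0 ∧
        ∀ i : Fin m, |ord (n + k i.succ) - ord n - y i| * Real.log (ord n) ≤ ε0 * sh} ⊆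
      ((@Finset.filter ℕ S (Classical.decPred S) (Finset.Icc 1 N) : Finset ℕ) : Set ℕ) := by
    rintro n ⟨hn1', hn2', hsm⟩
    rw [Finset.mem_coe, Finset.mem_filter]
    refine ⟨Finset.mem_Icc.2 ⟨hn1', hn2'⟩, ?_⟩
    rw [hS]
    exact hsm
  have h4 := Set.ncard_le_ncard hsub (Finset.finite_toSet _)
  rw [Set.ncard_coe_finset] at h4
  have h5 : (({n : ℕ | 1 ≤ n ∧ n ≤ N ∧ ∃ y : Fin m → ℝ, MvPolynomial.eval y G = 0 ∧
        ∀ i : Fin m, |ord (n + k i.succ) - ord n - y i| * Real.log (ord n) ≤ ε0 * sh}.ncard : ℕ) : ℝ) ≤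
      ((@Finset.filter ℕ S (Classical.decPred S) (Finset.Icc 1 N)).card : ℝ) := by
    exact_mod_cast h4
  refine h5.trans (hmain.trans (le_of_eq ?_))
  ring

end Pool.Agent.X112.LF
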