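import Pool.Agent.X112.LF.Alg
import Pool.Agent.X112.LF.Blk2

/-! # Integer polynomials in well spaced ordinates at almost all places -/

set_option autoImplicit false

namespace Pool.Agent.X112.LF

open Filter MeasureTheory Set
open SG (ord NZ)
open Pool.Agent.X112.GS (yy dyadicU inc few_wide gap_close)
open Pool.Agent.Y743.PR (nmon big)

/-- the normalised vector of the ordinates -/
noncomputable def vec {m : ℕ} (T : ℝ) (h : ℕ) (k : Fin (m + 1) → ℕ) (n : ℕ) : Fin m → ℝ :=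
  fun p => ((ord (n + k p.succ) - ord n) / (2 * Real.pi / Real.log T) - k p.succ) / Real.sqrt (Real.log h)

theorem block_pv (A m r : ℕ) (hA : 1 ≤ A) (θ : ℝ) (hθ : 0 < θ) : ∃ ε : ℝ, 0 < ε ∧
    ∀ᶠ h : ℕ in atTop, ∀ k : Fin (m + 1) → ℕ, Tup A h k → ∃ T0 : ℝ, 1 ≤ T0 ∧ ∀ T : ℝ, T0 ≤ T →
      ∀ c : (Fin m → Fin (r + 1)) → ℝ, (∃ e, 1 ≤ |c e|) → ∀ F : Finset ℕ,
      F ⊆ Finset.Ioc (NZ T) (NZ (2 * T)) → (∀ n ∈ F, |pv c (vec T h k n)| ≤ ε) →
      (F.card : ℝ) ≤ θ * (T * Real.log T / (2 * Real.pi)) := by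
  have hpi := Real.pi_pos
  obtain ⟨R, ε, hR3, hε, hsb⟩ := small_ball A 1 le_rfl m r (θ / 2) (by positivity)
  refine ⟨ε, hε, ?_⟩
  filter_upwards [block_gen A m hA ε (θ / 2) hε (by positivity), eventually_ge_atTop 3,
    (tendsto_natCast_atTop_atTop (R := ℝ)).eventually_ge_atTop R] with h hb hh3 hhR k hk
  obtain ⟨hk0, hk1, hk2⟩ := hk
  obtain ⟨T1, hT1, hT⟩ := hb k hk0 hk2
  have hh3' : (3 : ℝ) ≤ h := by exact_mod_cast hh3
  have hlh : 0 < Real.log h := Real.log_pos (by linarith)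
  have hsh : 0 < Real.sqrt (Real.log h) := Real.sqrt_pos.2 hlh
  obtain ⟨K, hK⟩ : ∃ K : ℝ, K = (h : ℝ) ^ A := ⟨_, rfl⟩
  have hhK : (h : ℝ) ≤ K := by
    rw [hK]
    calc (h : ℝ) = (h : ℝ) ^ 1 := (pow_one _).symm
      _ ≤ (h : ℝ) ^ A := pow_le_pow_right₀ (by linarith) hA
  have hkK : ∀ i, (k i : ℝ) ≤ K := fun i => by rw [hK]; exact_mod_cast hk2 i
  have hk00 : ∀ i, (0 : ℝ) ≤ k i := fun i => Nat.cast_nonneg _
  obtain ⟨T2, hT2⟩ := ((Real.tendsto_log_atTop.eventually_ge_atTop (K * Real.log K)).and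
    (eventually_ge_atTop (2 : ℝ))).exists_forall_of_atTop
  refine ⟨max T1 T2, hT1.trans (le_max_left _ _), ?_⟩
  intro T hTT c hc F hF hFs
  have hTT1 : T1 ≤ T := (le_max_left _ _).trans hTT
  obtain ⟨g1, g2⟩ := hT2 T ((le_max_right _ _).trans hTT)
  have hL : 0 < Real.log T := Real.log_pos (by linarith)
  obtain ⟨k', hk'⟩ : ∃ k' : Fin (m + 1) → ℝ, k' = fun i => (k i : ℝ) := ⟨_, rfl⟩
  have hpt : Pt A 1 (h : ℝ) K T k' := by
    refine ⟨hhK, hK.le, by linarith, by linarith, ?_, ?_, ?_, ?_⟩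
    · rw [hk']; exact hk1
    · intro i j
      rw [hk']
      have a1 := hk00 i
      have a2 := hkK i
      have a3 := hk00 j
      have a4 := hkK j
      rw [abs_le]
      constructor <;> linarith
    · rw [hk']; simp [hk0]
    · rw [hk']; exact hk00
  have hsm := hsb h K T k' hhR hpt c hc
  obtain ⟨D, hD⟩ : ∃ D : Set ℝ, D = toMeasurable volume (Sm k' h T ε c) ∩ Icc T (2 * T) := ⟨_, rfl⟩
  have hDm : MeasurableSet D := by
    rw [hD]; exact (measurableSet_toMeasurable _ _).inter measurableSet_Icc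
  have hSfin : volume (Sm k' h T ε c) ≠ ⊤ := by
    refine ne_top_of_le_ne_top ?_ (measure_mono (show Sm k' h T ε c ⊆ Icc T (2 * T) from fun t ht => ht.1))
    rw [Real.volume_Icc]
    exact ENNReal.ofReal_ne_top
  have hDv : volume.real D ≤ θ / 2 * T := by
    refine le_trans ?_ hsm
    rw [measureReal_def, measureReal_def]
    refine ENNReal.toReal_mono hSfin ?_
    rw [← measure_toMeasurable (Sm k' h T ε c), hD]
    exact measure_mono inter_subset_left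
  have h1 := hT T hTT1 F D hDm (by rw [hD]; exact inter_subset_right) hF (by
    intro n hn t ht hcl
    rw [hD]
    refine ⟨subset_toMeasurable _ _ ⟨ht, vec T h k n, fun p => ?_, hFs n hn⟩, ht⟩
    have h2 := hcl p.succ
    have h3 : xi k' h T t p - vec T h k n p = -((ord (n + k p.succ) - ord n) / (2 * Real.pi / Real.log T) -
        k p.succ + ((NZ (t + k p.succ * (2 * Real.pi / Real.log T)) : ℝ) - NZ t - k p.succ)) /
        Real.sqrt (Real.log h) := by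
      unfold xi vec
      rw [hk']
      simp only
      ring
    rw [h3, abs_div, abs_neg, abs_of_pos hsh, div_le_iff₀ hsh]
    exact h2)
  refine h1.trans ?_
  have h4 : (volume.real D + θ / 2 * T) * (Real.log T / (2 * Real.pi)) ≤
      (θ * T) * (Real.log T / (2 * Real.pi)) := by
    apply mul_le_mul_of_nonneg_right _ (by positivity)
    linarith
  refine h4.trans (le_of_eq ?_)
  ring

/-- growth with a power of the logarithm -/
lemma grow_pow (d : ℕ) (ϑ C : ℝ) (hϑ : ϑ < 1) (hϑ0 : 0 ≤ ϑ) :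
    ∀ᶠ n : ℕ in atTop, C * (n : ℝ) ^ ϑ * Real.log (ord n) ^ d ≤ ord n := by
  have h1 : ∀ᶠ x : ℝ in atTop, |C| * x ^ ϑ ≤ x ^ ((1 + ϑ) / 2) := by
    have h2 : Tendsto (fun x : ℝ => x ^ ((1 - ϑ) / 2)) atTop atTop := tendsto_rpow_atTop (by linarith)
    filter_upwards [h2.eventually_ge_atTop |C|, eventually_gt_atTop 0] with x hx hx0
    calc |C| * x ^ ϑ ≤ x ^ ((1 - ϑ) / 2) * x ^ ϑ := mul_le_mul_of_nonneg_right hx (by positivity)
      _ = x ^ ((1 + ϑ) / 2) := by rw [← Real.rpow_add hx0]; congr 1; ring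
  have hord : Tendsto ord atTop atTop := Pool.Agent.Y743.LR.ord_tendsto
  obtain ⟨η, hη⟩ : ∃ η : ℝ, η = (1 - ϑ) / 4 := ⟨_, rfl⟩
  have hη0 : 0 < η := by rw [hη]; linarith
  -- `log^d x ≤ x^η`
  have h3 : ∀ᶠ x : ℝ in atTop, Real.log x ^ d ≤ x ^ η := by
    have h4 := (isLittleO_log_rpow_rpow_atTop (d : ℝ) hη0).bound (c := 1) one_pos
    filter_upwards [h4, eventually_gt_atTop 1] with x hx hx1
    have h0 := Real.log_nonneg hx1.le
    rw [one_mul, Real.rpow_natCast, Real.norm_of_nonneg (pow_nonneg h0 _),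
      Real.norm_of_nonneg (Real.rpow_nonneg (by linarith) _)] at hx
    exact hx
  filter_upwards [tendsto_natCast_atTop_atTop.eventually h1,
    big (θ := (3 + ϑ) / 4) (by linarith) (by linarith), hord.eventually h3,
    hord.eventually_ge_atTop (Real.exp 1), eventually_ge_atTop 1] with n h2 h4 h5 h6 h7
  have hn1 : (1 : ℝ) ≤ n := by exact_mod_cast h7
  have hx0 : 0 < ord n := lt_of_lt_of_le (Real.exp_pos 1) h6
  have hl1 : 1 ≤ Real.log (ord n) := by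
    rw [Real.le_log_iff_exp_le hx0]
    exact h6
  have hx1 : 1 ≤ ord n := by linarith [Real.exp_one_gt_d9]
  have hld : 0 ≤ Real.log (ord n) ^ d := by positivity
  obtain ⟨τ, hτ⟩ : ∃ τ : ℝ, τ = (3 + ϑ) / 4 := ⟨_, rfl⟩
  have hτ0 : 0 < τ := by rw [hτ]; linarith
  rw [← hτ] at h4
  have a1 : (n : ℝ) ^ τ ≤ ord n := by
    refine le_trans ?_ h4
    exact le_mul_of_one_le_right (by positivity) hl1
  have a2 : (n : ℝ) ^ ((1 + ϑ) / 2) ≤ ord n ^ ((1 + ϑ) / (2 * τ)) := by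
    have e : (n : ℝ) ^ ((1 + ϑ) / 2) = ((n : ℝ) ^ τ) ^ ((1 + ϑ) / (2 * τ)) := by
      rw [← Real.rpow_mul (by positivity)]
      congr 1
      field_simp
    rw [e]
    exact Real.rpow_le_rpow (by positivity) a1 (by positivity)
  have a3 : C * (n : ℝ) ^ ϑ ≤ (n : ℝ) ^ ((1 + ϑ) / 2) := by
    refine le_trans ?_ h2
    exact mul_le_mul_of_nonneg_right (le_abs_self C) (by positivity)
  have h5' : Real.log (ord n) ^ d ≤ ord n ^ η := h5
  calc C * (n : ℝ) ^ ϑ * Real.log (ord n) ^ d ≤ ord n ^ ((1 + ϑ) / (2 * τ)) * ord n ^ η :=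
        mul_le_mul (a3.trans a2) h5' hld (by positivity)
    _ = ord n ^ ((1 + ϑ) / (2 * τ) + η) := (Real.rpow_add hx0 _ _).symm
    _ ≤ ord n ^ (1 : ℝ) := by
        apply Real.rpow_le_rpow_of_exponent_le hx1
        rw [hτ, hη]
        have h8 : 0 < 3 + ϑ := by linarith
        have h9 : (1 + ϑ) / (2 * ((3 + ϑ) / 4)) = 1 - (1 - ϑ) / (3 + ϑ) := by
          field_simp
          ring
        have h10 : (1 - ϑ) / 4 ≤ (1 - ϑ) / (3 + ϑ) := by
          apply div_le_div_of_nonneg_left (by linarith) h8 (by linarith)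
        rw [h9]
        linarith
    _ = ord n := Real.rpow_one _

theorem ind_one (A m d : ℕ) (hA : 1 ≤ A) (θ : ℝ) (hθ : 0 < θ) : ∃ ε : ℝ, 0 < ε ∧
    ∀ᶠ h : ℕ in atTop, ∀ k : Fin (m + 1) → ℕ, Tup A h k → ∀ ϑ : ℝ, ϑ < 1 →
      ∀ᶠ N : ℕ in atTop, ∀ Q : MvPolynomial (Fin (m + 1)) ℤ, Q ≠ 0 → Q.totalDegree ≤ d →
      (∀ s, |((Q.coeff s : ℤ) : ℝ)| ≤ (N : ℝ) ^ ϑ) →
      ({n : ℕ | 1 ≤ n ∧ n ≤ N ∧ |MvPolynomial.eval (fun i => ord (n + k i)) (rp Q)| * Real.log (ord n) ^ d ≤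
        ε * Real.sqrt (Real.log h) ^ d}.ncard : ℝ) ≤ θ * N := by
  classical
  have hpi := Real.pi_pos
  have hpi3 := Real.pi_gt_three
  obtain ⟨ε0, hε0, hb⟩ := block_pv A m d hA (θ / 34) (by positivity)
  refine ⟨ε0 / 2, by positivity, ?_⟩
  filter_upwards [hb, eventually_ge_atTop 3] with h hh hh3 k hk ϑ0 hϑ0
  obtain ⟨T0, hT0, hT⟩ := hh k hk
  have hh3' : (3 : ℝ) ≤ h := by exact_mod_cast hh3
  have hlh : 1 ≤ Real.log h := by
    rw [Real.le_log_iff_exp_le (by linarith)]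
    linarith [Real.exp_one_lt_d9]
  have hsq1 : 1 ≤ Real.sqrt (Real.log h) := by
    rw [show (1 : ℝ) = Real.sqrt 1 by simp]
    exact Real.sqrt_le_sqrt hlh
  obtain ⟨sh, hsh⟩ : ∃ sh : ℝ, sh = Real.sqrt (Real.log h) := ⟨_, rfl⟩
  rw [← hsh] at hsq1
  have hsh0 : 0 < sh := by linarith
  obtain ⟨ϑ, hϑd⟩ : ∃ ϑ : ℝ, ϑ = max ϑ0 0 := ⟨_, rfl⟩
  have hϑ00 : 0 ≤ ϑ := by rw [hϑd]; exact le_max_right _ _
  have hϑ1 : ϑ < 1 := by rw [hϑd]; exact max_lt hϑ0 one_pos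
  have hϑϑ : ϑ0 ≤ ϑ := by rw [hϑd]; exact le_max_left _ _
  -- wide windows
  obtain ⟨L, hL⟩ : ∃ L : ℕ, L = h ^ A := ⟨_, rfl⟩
  obtain ⟨K, hK, hwide⟩ := few_wide (θ / 8) (by positivity) L
  obtain ⟨n1, hn11, hn1⟩ := gap_close K 1 hK one_pos L
  have hord : Tendsto ord atTop atTop := Pool.Agent.Y743.LR.ord_tendsto
  -- the constants
  obtain ⟨Bc, hBc⟩ : ∃ Bc : ℝ, Bc = d * (nmon (m + 1) d * (1 + (L : ℝ)) ^ d) := ⟨_, rfl⟩
  have hBc0 : 0 ≤ Bc := by rw [hBc]; positivity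
  obtain ⟨δ, hδ⟩ : ∃ δ : ℝ, δ = min (θ / 16) 1 := ⟨_, rfl⟩
  have hδ0 : 0 < δ := by rw [hδ]; positivity
  have hδ1 : δ ≤ 1 := by rw [hδ]; exact min_le_right _ _
  have hδθ : δ ≤ θ / 16 := by rw [hδ]; exact min_le_left _ _
  obtain ⟨n2, hn2⟩ := ((grow_pow d ϑ (Bc * (1 / δ) * (2 / ε0)) hϑ1 hϑ00).and
    (hord.eventually_ge_atTop (Real.exp 1))).exists_forall_of_atTop
  have hbig : ∀ᶠ N : ℕ in atTop, ((n1 + n2 : ℕ) : ℝ) ≤ θ / 16 * N :=
    (tendsto_natCast_atTop_atTop.const_mul_atTop (show (0 : ℝ) < θ / 16 by positivity)).eventually_ge_atTop _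
  obtain ⟨T1, hT1⟩ := ((Real.tendsto_log_atTop.eventually_ge_atTop (2 * Real.pi * sh)).and
    (eventually_ge_atTop (2 : ℝ))).exists_forall_of_atTop
  filter_upwards [dyadicU (θ / 34) (max T0 T1) (by positivity) (hT0.trans (le_max_left _ _)), hwide, hbig,
    eventually_ge_atTop 1] with N hN h2 h3 hN1 Q hQ0 hQd hQH
  have hN1' : (1 : ℝ) ≤ N := by exact_mod_cast hN1
  have hQc : ∀ s, |((Q.coeff s : ℤ) : ℝ)| ≤ (N : ℝ) ^ ϑ := fun s =>
    (hQH s).trans (Real.rpow_le_rpow_of_exponent_le hN1' hϑϑ)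
  obtain ⟨F0, hF0, hF0d, hF0i, hF0e⟩ := lead_est Q hQ0 hQd _ hQc (G := (L : ℝ)) (Nat.cast_nonneg _)
  obtain ⟨P, hP⟩ : ∃ P, P = rp Q := ⟨_, rfl⟩
  rw [← hP] at hF0e ⊢
  obtain ⟨S, hS⟩ : ∃ S : ℕ → Prop, S = fun n => (n1 + n2 ≤ n ∧ δ * N ≤ n ∧ ∀ l < L, |inc yy (n + l)| ≤ K) ∧
    |MvPolynomial.eval (fun i => ord (n + k i)) P| * Real.log (ord n) ^ d ≤ ε0 / 2 * sh ^ d := ⟨_, rfl⟩
  have hmain := hN S (Classical.decPred S) (by
    intro T hTT
    have hTT0 : T0 ≤ T := (le_max_left _ _).trans hTT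
    obtain ⟨g1, g2⟩ := hT1 T ((le_max_right _ _).trans hTT)
    have hLT : 0 < Real.log T := Real.log_pos (by linarith)
    obtain ⟨σ, hσ⟩ : ∃ σ : ℝ, σ = 2 * Real.pi / Real.log T * sh := ⟨_, rfl⟩
    have hσ0 : 0 < σ := by rw [hσ]; positivity
    have hσ1 : σ ≤ 1 := by
      rw [hσ, div_mul_eq_mul_div, div_le_one hLT]
      exact g1
    obtain ⟨c, hc, hpv⟩ := shift_pv F0 hF0 hF0d hF0i σ hσ0 hσ1 (fun i => (k i.succ : ℝ) / sh)
    refine hT T hTT0 c hc _ (Finset.filter_subset _ _) ?_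
    intro n hn
    rw [Finset.mem_filter, Finset.mem_Ioc] at hn
    obtain ⟨⟨a1, a2⟩, a3⟩ := hn
    rw [hS] at a3
    obtain ⟨⟨a4, a5, a6⟩, a7⟩ := a3
    have hn0 : 1 ≤ n := by omega
    have hxT : T ≤ ord n := by
      by_contra hcon
      push Not at hcon
      have := (SG.ord_le_iff hn0 T).mp hcon.le
      omega
    obtain ⟨hn3, hcl⟩ := hn1 n (by omega)
    obtain ⟨hpos, -⟩ := hcl a6
    obtain ⟨hgrow, hx⟩ := hn2 n (by omega)
    have hx0 : 0 < ord n := by linarith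
    have hx1 : 1 ≤ ord n := by linarith
    have hlx : Real.log T ≤ Real.log (ord n) := Real.log_le_log (by linarith) hxT
    have hlx0 : 0 < Real.log (ord n) := by linarith
    obtain ⟨dl, hdl⟩ : ∃ dl : Fin m → ℝ, dl = fun i => ord (n + k i.succ) - ord n := ⟨_, rfl⟩
    have hdl0 : ∀ i, 0 ≤ dl i := fun i => by
      have := (hpos (k i.succ) (by rw [hL]; exact hk.2.2 _)).1
      rw [hdl]
      linarith
    have hdl1 : ∀ i, dl i ≤ L := fun i => by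
      have h1 := (hpos (k i.succ) (by rw [hL]; exact hk.2.2 _)).2
      have h2 : (k i.succ : ℝ) ≤ L := by rw [hL]; exact_mod_cast hk.2.2 i.succ
      rw [hdl]
      simp only
      linarith
    have b1 := hF0e (ord n) hx1 dl hdl0 hdl1
    have e1 : (Fin.cons (ord n) (fun i => ord n + dl i) : Fin (m + 1) → ℝ) = fun i => ord (n + k i) := by
      funext i
      refine Fin.cases ?_ (fun j => ?_) i
      · rw [Fin.cons_zero, hk.1, add_zero]
      · rw [Fin.cons_succ, hdl]; ring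
    rw [e1] at b1
    have e2 : (fun i => σ * ((k i.succ : ℝ) / sh + vec T h k n i)) = dl := by
      funext i
      unfold vec
      rw [hσ, hdl, ← hsh]
      field_simp
      ring
    have b2 := hpv (vec T h k n)
    rw [e2] at b2
    have hσd : 0 < σ ^ d := pow_pos hσ0 d
    have hNϑ : (N : ℝ) ^ ϑ ≤ 1 / δ * (n : ℝ) ^ ϑ := by
      have q1 : (N : ℝ) ≤ 1 / δ * n := by
        rw [div_mul_eq_mul_div, one_mul, le_div_iff₀ hδ0]
        linarith
      have q2 : 1 ≤ 1 / δ := by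
        rw [le_div_iff₀ hδ0]
        linarith
      calc (N : ℝ) ^ ϑ ≤ (1 / δ * n) ^ ϑ := Real.rpow_le_rpow (Nat.cast_nonneg _) q1 hϑ00
        _ = (1 / δ) ^ ϑ * (n : ℝ) ^ ϑ := Real.mul_rpow (by positivity) (Nat.cast_nonneg _)
        _ ≤ (1 / δ) ^ (1 : ℝ) * (n : ℝ) ^ ϑ := by
            apply mul_le_mul_of_nonneg_right _ (by positivity)
            exact Real.rpow_le_rpow_of_exponent_le q2 hϑ1.le
        _ = _ := by rw [Real.rpow_one]
    obtain ⟨V, hV⟩ : ∃ V : ℝ, V = |MvPolynomial.eval (fun i => ord (n + k i)) P| := ⟨_, rfl⟩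
    rw [← hV] at b1 a7
    have hld : 0 < Real.log (ord n) ^ d := pow_pos hlx0 d
    have b3 : d * (nmon (m + 1) d * ((N : ℝ) ^ ϑ * (1 + (L : ℝ)) ^ d)) / ord n * Real.log (ord n) ^ d ≤ ε0 / 2 := by
      have q1 : Bc * (N : ℝ) ^ ϑ * Real.log (ord n) ^ d ≤ ε0 / 2 * ord n := by
        have q2 : Bc * (N : ℝ) ^ ϑ * Real.log (ord n) ^ d ≤
            ε0 / 2 * (Bc * (1 / δ) * (2 / ε0) * (n : ℝ) ^ ϑ * Real.log (ord n) ^ d) := by
          have q3 : ε0 / 2 * (Bc * (1 / δ) * (2 / ε0) * (n : ℝ) ^ ϑ * Real.log (ord n) ^ d) =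
            Bc * (1 / δ * (n : ℝ) ^ ϑ) * Real.log (ord n) ^ d := by field_simp
          rw [q3]
          exact mul_le_mul_of_nonneg_right (mul_le_mul_of_nonneg_left hNϑ hBc0) hld.le
        exact q2.trans (mul_le_mul_of_nonneg_left hgrow (by positivity))
      rw [div_mul_eq_mul_div, div_le_iff₀ hx0]
      refine le_trans (le_of_eq ?_) q1
      rw [hBc]; ring
    -- the conclusion
    have b4 : σ ^ d * |pv c (vec T h k n)| ≤ V + d * (nmon (m + 1) d * ((N : ℝ) ^ ϑ * (1 + (L : ℝ)) ^ d)) / ord n := by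
      rw [← abs_of_pos hσd, ← abs_mul, b2]
      exact b1
    have b5 : σ ^ d * |pv c (vec T h k n)| * Real.log (ord n) ^ d ≤ ε0 * sh ^ d := by
      have q1 : 1 ≤ sh ^ d := one_le_pow₀ hsq1
      have q2 := mul_le_mul_of_nonneg_right b4 hld.le
      rw [add_mul] at q2
      nlinarith
    have b6 : sh ^ d ≤ σ ^ d * Real.log (ord n) ^ d := by
      rw [← mul_pow]
      apply pow_le_pow_left₀ hsh0.le
      rw [hσ]
      have q1 : 2 * Real.pi / Real.log T * sh * Real.log (ord n) =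
        sh * (2 * Real.pi * (Real.log (ord n) / Real.log T)) := by field_simp
      rw [q1]
      have q2 : 1 ≤ Real.log (ord n) / Real.log T := by
        rw [le_div_iff₀ hLT, one_mul]; exact hlx
      apply le_mul_of_one_le_right hsh0.le
      nlinarith
    have b7 : sh ^ d * |pv c (vec T h k n)| ≤ sh ^ d * ε0 := by
      calc sh ^ d * |pv c (vec T h k n)| ≤ σ ^ d * Real.log (ord n) ^ d * |pv c (vec T h k n)| :=
            mul_le_mul_of_nonneg_right b6 (abs_nonneg _)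
        _ = σ ^ d * |pv c (vec T h k n)| * Real.log (ord n) ^ d := by ring
        _ ≤ ε0 * sh ^ d := b5
        _ = sh ^ d * ε0 := mul_comm _ _
    exact le_of_mul_le_mul_left b7 (pow_pos hsh0 d))
  rw [← hsh]
  have hsub : {n : ℕ | 1 ≤ n ∧ n ≤ N ∧ |MvPolynomial.eval (fun i => ord (n + k i)) P| * Real.log (ord n) ^ d ≤
        ε0 / 2 * sh ^ d} ⊆
      (((@Finset.filter ℕ S (Classical.decPred S) (Finset.Icc 1 N)) ∪
        (((Finset.Icc 1 N).filter (fun n => ¬ ∀ l < L, |inc yy (n + l)| ≤ K) ∪ Finset.Icc 1 (n1 + n2)) ∪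
          Finset.Icc 1 ⌊δ * N⌋₊) : Finset ℕ) : Set ℕ) := by
    rintro n ⟨hn1', hn2', hsm⟩
    rw [Finset.mem_coe, Finset.mem_union, Finset.mem_union, Finset.mem_union]
    by_contra hcon
    rw [not_or, not_or, not_or] at hcon
    obtain ⟨c1, ⟨c2, c3⟩, c4⟩ := hcon
    have hnI : n ∈ Finset.Icc 1 N := Finset.mem_Icc.2 ⟨hn1', hn2'⟩
    apply c1
    rw [Finset.mem_filter]
    refine ⟨hnI, ?_⟩
    rw [hS]
    refine ⟨⟨?_, ?_, ?_⟩, hsm⟩
    · by_contra hc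
      exact c3 (Finset.mem_Icc.mpr ⟨hn1', by omega⟩)
    · by_contra hc
      push Not at hc
      exact c4 (Finset.mem_Icc.mpr ⟨hn1', Nat.le_floor hc.le⟩)
    · by_contra hc
      exact c2 (Finset.mem_filter.mpr ⟨hnI, hc⟩)
  have h4 := Set.ncard_le_ncard hsub (Finset.finite_toSet _)
  rw [Set.ncard_coe_finset] at h4
  have h5 := (Finset.card_union_le (@Finset.filter ℕ S (Classical.decPred S) (Finset.Icc 1 N))
    (((Finset.Icc 1 N).filter (fun n => ¬ ∀ l < L, |inc yy (n + l)| ≤ K) ∪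
      Finset.Icc 1 (n1 + n2)) ∪ Finset.Icc 1 ⌊δ * N⌋₊))
  have h6 := Finset.card_union_le ((Finset.Icc 1 N).filter (fun n => ¬ ∀ l < L, |inc yy (n + l)| ≤ K) ∪
      Finset.Icc 1 (n1 + n2)) (Finset.Icc 1 ⌊δ * N⌋₊)
  have h7 := Finset.card_union_le ((Finset.Icc 1 N).filter (fun n => ¬ ∀ l < L, |inc yy (n + l)| ≤ K))
      (Finset.Icc 1 (n1 + n2))
  rw [Nat.card_Icc, Nat.add_sub_cancel] at h6 h7
  have h8 := h4.trans (h5.trans (Nat.add_le_add_left (h6.trans (Nat.add_le_add_right h7 _)) _))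
  have h9 : (({n : ℕ | 1 ≤ n ∧ n ≤ N ∧ |MvPolynomial.eval (fun i => ord (n + k i)) P| * Real.log (ord n) ^ d ≤
        ε0 / 2 * sh ^ d}.ncard : ℕ) : ℝ) ≤
      ((@Finset.filter ℕ S (Classical.decPred S) (Finset.Icc 1 N)).card : ℝ) +
      ((((Finset.Icc 1 N).filter (fun n => ¬ ∀ l < L, |inc yy (n + l)| ≤ K)).card : ℝ) +
      ((n1 + n2 : ℕ) : ℝ) + (⌊δ * N⌋₊ : ℝ)) := by
    exact_mod_cast h8
  have h2' : ((((Finset.Icc 1 N).filter (fun n => ¬ ∀ l < L, |inc yy (n + l)| ≤ K)).card : ℝ)) ≤ θ / 8 * N := by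
    refine le_trans (le_of_eq ?_) h2
    congr!
  have h16 : (⌊δ * N⌋₊ : ℝ) ≤ θ / 16 * N :=
    (Nat.floor_le (by positivity)).trans (mul_le_mul_of_nonneg_right hδθ (Nat.cast_nonneg _))
  have hN0 : (0 : ℝ) ≤ θ * N := by positivity
  linarith

/-- finitely many polynomials at once -/
theorem ind_fin (A m d J : ℕ) (hA : 1 ≤ A) (θ : ℝ) (hθ : 0 < θ) : ∃ ε : ℝ, 0 < ε ∧
    ∀ᶠ h : ℕ in atTop, ∀ k : Fin (m + 1) → ℕ, Tup A h k → ∀ ϑ : ℝ, ϑ < 1 →
      ∀ᶠ N : ℕ in atTop, ∀ S : Finset (MvPolynomial (Fin (m + 1)) ℤ), S.card ≤ J →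
      (∀ Q ∈ S, Q ≠ 0 ∧ Q.totalDegree ≤ d ∧ ∀ s, |((Q.coeff s : ℤ) : ℝ)| ≤ (N : ℝ) ^ ϑ) →
      ({n : ℕ | 1 ≤ n ∧ n ≤ N ∧ ∃ Q ∈ S,
        |MvPolynomial.eval (fun i => ord (n + k i)) (rp Q)| * Real.log (ord n) ^ d ≤
        ε * Real.sqrt (Real.log h) ^ d}.ncard : ℝ) ≤ θ * N := by
  classical
  obtain ⟨ε, hε, hb⟩ := ind_one A m d hA (θ / (J + 1)) (by positivity)
  refine ⟨ε, hε, ?_⟩
  filter_upwards [hb] with h hh k hk ϑ hϑ
  filter_upwards [hh k hk ϑ hϑ] with N hN S hSJ hS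
  obtain ⟨E, hE⟩ : ∃ E : MvPolynomial (Fin (m + 1)) ℤ → Set ℕ, E = fun Q => {n : ℕ | 1 ≤ n ∧ n ≤ N ∧
        |MvPolynomial.eval (fun i => ord (n + k i)) (rp Q)| * Real.log (ord n) ^ d ≤
        ε * Real.sqrt (Real.log h) ^ d} := ⟨_, rfl⟩
  have hEf : ∀ Q, (E Q).Finite := fun Q => by
    rw [hE]
    exact (Finset.Icc 1 N).finite_toSet.subset fun n hn => Finset.mem_coe.2 (Finset.mem_Icc.2 ⟨hn.1, hn.2.1⟩)
  have h1 : {n : ℕ | 1 ≤ n ∧ n ≤ N ∧ ∃ Q ∈ S,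
        |MvPolynomial.eval (fun i => ord (n + k i)) (rp Q)| * Real.log (ord n) ^ d ≤
        ε * Real.sqrt (Real.log h) ^ d} ⊆ ((S.biUnion fun Q => (hEf Q).toFinset : Finset ℕ) : Set ℕ) := by
    rintro n ⟨h1, h2, Q, hQ, h3⟩
    rw [Finset.mem_coe, Finset.mem_biUnion]
    refine ⟨Q, hQ, ?_⟩
    rw [Set.Finite.mem_toFinset, hE]
    exact ⟨h1, h2, h3⟩
  have h2 := Set.ncard_le_ncard h1 (Finset.finite_toSet _)
  rw [Set.ncard_coe_finset] at h2
  have h3 := h2.trans Finset.card_biUnion_le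
  have h4 : (({n : ℕ | 1 ≤ n ∧ n ≤ N ∧ ∃ Q ∈ S,
        |MvPolynomial.eval (fun i => ord (n + k i)) (rp Q)| * Real.log (ord n) ^ d ≤
        ε * Real.sqrt (Real.log h) ^ d}.ncard : ℕ) : ℝ) ≤ ∑ Q ∈ S, ((hEf Q).toFinset.card : ℝ) := by
    exact_mod_cast h3
  refine h4.trans ?_
  have h5 : ∀ Q ∈ S, ((hEf Q).toFinset.card : ℝ) ≤ θ / (J + 1) * N := by
    intro Q hQ
    obtain ⟨q1, q2, q3⟩ := hS Q hQ
    have := hN Q q1 q2 q3
    rw [← Set.ncard_eq_toFinset_card _ (hEf Q), hE]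
    exact this
  refine (Finset.sum_le_sum h5).trans ?_
  rw [Finset.sum_const, nsmul_eq_mul]
  have h6 : (S.card : ℝ) ≤ J + 1 := by
    have : (S.card : ℝ) ≤ J := by exact_mod_cast hSJ
    linarith
  calc (S.card : ℝ) * (θ / (J + 1) * N) ≤ (J + 1) * (θ / (J + 1) * N) :=
        mul_le_mul_of_nonneg_right h6 (by positivity)
    _ = θ * N := by field_simp

end Pool.Agent.X112.LF
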