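import Pool.Agent.X112.LF.Chr
import Mathlib.Probability.Distributions.Gaussian.Multivariate
import Mathlib.MeasureTheory.Measure.LevyConvergence

/-! # The joint central limit theorem for several windows -/

set_option autoImplicit false

namespace Pool.Agent.X112.LF

open Complex Filter Topology MeasureTheory Set ProbabilityTheory
open Pool.Agent.Y743.CL
open SG (NZ)
open scoped Matrix RealInnerProductSpace

/-- the vector of the normalised deviations of the windows -/
noncomputable def xi {m : ℕ} (k : Fin (m + 1) → ℝ) (h T t : ℝ) : EuclideanSpace ℝ (Fin m) :=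
  WithLp.toLp 2 (fun i : Fin m =>
    -((NZ (t + k i.succ * (2 * Real.pi / Real.log T)) : ℝ) - NZ t - k i.succ) / Real.sqrt (Real.log h))

/-- the uniform distribution on the dyadic interval -/
noncomputable def Pm (T : ℝ) : Measure ℝ := ENNReal.ofReal (1 / T) • volume.restrict (Icc T (2 * T))

lemma Pm_prob {T : ℝ} (hT : 0 < T) : IsProbabilityMeasure (Pm T) := by
  refine ⟨?_⟩
  unfold Pm
  rw [Measure.smul_apply, smul_eq_mul, Measure.restrict_apply_univ, Real.volume_Icc,
    ← ENNReal.ofReal_mul (by positivity)]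
  have e : 1 / T * (2 * T - T) = 1 := by field_simp; ring
  rw [e, ENNReal.ofReal_one]

lemma xi_meas {m : ℕ} (k : Fin (m + 1) → ℝ) (h T : ℝ) : Measurable (xi k h T) := by
  have h1 : Measurable fun t : ℝ => (NZ t : ℝ) := measurable_from_nat.comp (SG.NZ_mono.measurable)
  unfold xi
  refine (WithLp.measurable_toLp 2 _).comp ?_
  refine measurable_pi_lambda _ fun i => ?_
  have h2 : Measurable fun t : ℝ => (NZ (t + k i.succ * (2 * Real.pi / Real.log T)) : ℝ) :=
    h1.comp (measurable_id.add_const _)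
  exact (((h2.sub h1).sub_const _).neg).div_const _

/-- the law of the vector -/
noncomputable def nuT {m : ℕ} (k : Fin (m + 1) → ℝ) (h T : ℝ) : Measure (EuclideanSpace ℝ (Fin m)) :=
  (Pm T).map (xi k h T)

lemma nuT_prob {m : ℕ} (k : Fin (m + 1) → ℝ) (h : ℝ) {T : ℝ} (hT : 0 < T) :
    IsProbabilityMeasure (nuT k h T) := by
  have := Pm_prob hT
  exact Measure.isProbabilityMeasure_map (xi_meas k h T).aemeasurable

/-- the covariance matrix -/
noncomputable def Cov {m : ℕ} (lam : Fin (m + 1) → Fin (m + 1) → ℝ) : Matrix (Fin m) (Fin m) ℝ :=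
  Matrix.of fun p q => (lam 0 p.succ + lam 0 q.succ - lam p.succ q.succ) / (2 * Real.pi ^ 2)

/-- the limit of the normalised variance -/
noncomputable def qf {m : ℕ} (lam : Fin (m + 1) → Fin (m + 1) → ℝ) (a : Fin (m + 1) → ℝ) : ℝ :=
  -(1 / Real.pi ^ 2) * ∑ i, ∑ j, a i * a j * lam i j

/-- the linear form of a vector -/
def af {m : ℕ} (b : Fin m → ℝ) : Fin (m + 1) → ℝ := Fin.cons (-∑ p, b p) b

lemma af_sum {m : ℕ} (b : Fin m → ℝ) : ∑ i, af b i = 0 := by
  rw [Fin.sum_univ_succ]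
  simp [af]

lemma af_sq {m : ℕ} (b : Fin m → ℝ) : ∑ p, b p ^ 2 ≤ ∑ i, af b i ^ 2 := by
  rw [Fin.sum_univ_succ]
  simp only [af, Fin.cons_zero, Fin.cons_succ]
  nlinarith [sq_nonneg (-∑ p, b p)]

lemma qf_af {m : ℕ} {lam : Fin (m + 1) → Fin (m + 1) → ℝ} (hs : ∀ i j, lam i j = lam j i)
    (h0 : ∀ i, lam i i = 0) (b : Fin m → ℝ) :
    qf lam (af b) = 2 * (b ⬝ᵥ Cov lam *ᵥ b) := by
  have e1 : b ⬝ᵥ Cov lam *ᵥ b = (∑ p, ∑ q, b p * b q * (lam 0 p.succ + lam 0 q.succ - lam p.succ q.succ)) /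
      (2 * Real.pi ^ 2) := by
    simp only [dotProduct, Matrix.mulVec, Cov, Matrix.of_apply]
    rw [Finset.sum_div]
    refine Finset.sum_congr rfl fun p _ => ?_
    rw [Finset.mul_sum, Finset.sum_div]
    refine Finset.sum_congr rfl fun q _ => ?_
    ring
  have e2 : ∑ i, ∑ j, af b i * af b j * lam i j = -(∑ p, ∑ q, b p * b q *
      (lam 0 p.succ + lam 0 q.succ - lam p.succ q.succ)) := by
    rw [Fin.sum_univ_succ]
    simp only [Fin.sum_univ_succ (f := fun j => af b 0 * af b j * lam 0 j)]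
    have e3 : ∀ p : Fin m, ∑ j, af b p.succ * af b j * lam p.succ j =
        b p * (-∑ q, b q) * lam p.succ 0 + ∑ q : Fin m, b p * b q * lam p.succ q.succ := by
      intro p
      rw [Fin.sum_univ_succ]
      simp [af]
    simp only [e3]
    simp only [af, Fin.cons_zero, Fin.cons_succ, h0 0, mul_zero, zero_add]
    rw [Finset.sum_add_distrib]
    obtain ⟨sb, hsb⟩ : ∃ sb : ℝ, sb = ∑ q, b q := ⟨_, rfl⟩
    have e6 : ∀ g : Fin m → ℝ, ∑ p : Fin m, ∑ q : Fin m, b p * b q * g p = sb * ∑ p : Fin m, b p * g p := by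
      intro g
      rw [Finset.mul_sum]
      refine Finset.sum_congr rfl fun p _ => ?_
      rw [hsb, Finset.sum_mul]
      exact Finset.sum_congr rfl fun q _ => by ring
    have e6' : ∀ g : Fin m → ℝ, ∑ p : Fin m, ∑ q : Fin m, b p * b q * g q = sb * ∑ p : Fin m, b p * g p := by
      intro g
      rw [Finset.sum_comm, ← e6]
      exact Finset.sum_congr rfl fun p _ => Finset.sum_congr rfl fun q _ => by ring
    rw [← hsb]
    have e4 : ∑ p : Fin m, -sb * b p * lam 0 p.succ = -(sb * ∑ p : Fin m, b p * lam 0 p.succ) := by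
      rw [Finset.mul_sum, ← Finset.sum_neg_distrib]
      exact Finset.sum_congr rfl fun p _ => by ring
    have e5 : ∑ p : Fin m, b p * -sb * lam p.succ 0 = -(sb * ∑ p : Fin m, b p * lam 0 p.succ) := by
      rw [Finset.mul_sum, ← Finset.sum_neg_distrib]
      exact Finset.sum_congr rfl fun p _ => by rw [hs p.succ 0]; ring
    have e7 : ∑ p, ∑ q, b p * b q * (lam 0 p.succ + lam 0 q.succ - lam p.succ q.succ) =
        ∑ p, ∑ q, b p * b q * lam 0 p.succ + ∑ p, ∑ q, b p * b q * lam 0 q.succ -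
        ∑ p : Fin m, ∑ q : Fin m, b p * b q * lam p.succ q.succ := by
      simp only [← Finset.sum_add_distrib, ← Finset.sum_sub_distrib]
      refine Finset.sum_congr rfl fun p _ => Finset.sum_congr rfl fun q _ => by ring
    rw [e4, e5, e7, e6 (fun p => lam 0 p.succ), e6' (fun p => lam 0 p.succ)]
    ring
  unfold qf
  rw [e1, e2]
  have := Real.pi_pos
  field_simp

/-- the increments as a linear form -/
lemma Lf_af {m : ℕ} (b : Fin m → ℝ) (k : Fin (m + 1) → ℝ) (hk : k 0 = 0) (T t : ℝ) :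
    Lf (af b) k T t - ∑ i, af b i * k i =
      ∑ p : Fin m, b p * ((NZ (t + k p.succ * (2 * Real.pi / Real.log T)) : ℝ) - NZ t - k p.succ) := by
  unfold Lf
  rw [Fin.sum_univ_succ, Fin.sum_univ_succ]
  simp only [af, Fin.cons_zero, Fin.cons_succ, hk, zero_mul, add_zero, mul_zero, zero_add]
  have e : ∑ p : Fin m, b p * ((NZ (t + k p.succ * (2 * Real.pi / Real.log T)) : ℝ) - NZ t - k p.succ) =
      ∑ p : Fin m, b p * (NZ (t + k p.succ * (2 * Real.pi / Real.log T)) : ℝ) - (∑ p, b p) * NZ t -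
      ∑ p : Fin m, b p * k p.succ := by
    rw [Finset.sum_mul, ← Finset.sum_sub_distrib, ← Finset.sum_sub_distrib]
    exact Finset.sum_congr rfl fun p _ => by ring
  rw [e]
  ring

lemma xi_inner {m : ℕ} (b : EuclideanSpace ℝ (Fin m)) (k : Fin (m + 1) → ℝ) (hk : k 0 = 0) (h T t : ℝ) :
    ⟪xi k h T t, b⟫ = -(Lf (af (fun p => b p)) k T t - ∑ i, af (fun p => b p) i * k i) /
      Real.sqrt (Real.log h) := by
  rw [Lf_af _ _ hk, PiLp.inner_apply]
  unfold xi
  simp only
  rw [neg_div, Finset.sum_div, ← Finset.sum_neg_distrib]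
  refine Finset.sum_congr rfl fun p _ => ?_
  simp only [RCLike.inner_apply, conj_trivial]
  ring

/-- the characteristic function of the law -/
lemma char_nuT {m : ℕ} (b : EuclideanSpace ℝ (Fin m)) (k : Fin (m + 1) → ℝ) (h : ℝ) {T : ℝ} (hT : 0 < T) :
    charFun (nuT k h T) b = ((1 / T : ℝ) : ℂ) * ∫ t in Ioc T (2 * T), cexp (I * ((⟪xi k h T t, b⟫ : ℝ) : ℂ)) := by
  rw [charFun_apply]
  unfold nuT
  rw [integral_map (xi_meas k h T).aemeasurable]
  · unfold Pm
    rw [integral_smul_measure, ENNReal.toReal_ofReal (by positivity), integral_Icc_eq_integral_Ioc,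
      Complex.real_smul]
    congr 2
    funext t
    rw [mul_comm]
  · refine Continuous.aestronglyMeasurable ?_
    fun_prop

lemma exp_lip (x y : ℝ) : ‖cexp (I * (x : ℂ)) - cexp (I * (y : ℂ))‖ ≤ |x - y| := by
  have e : cexp (I * (x : ℂ)) - cexp (I * (y : ℂ)) = cexp (I * (y : ℂ)) * (cexp (I * ((x - y : ℝ) : ℂ)) - 1) := by
    rw [mul_sub, ← Complex.exp_add, mul_one]
    congr 2
    push_cast
    ring
  rw [e, norm_mul]
  have h1 : ‖cexp (I * (y : ℂ))‖ = 1 := by
    rw [mul_comm, Complex.norm_exp_ofReal_mul_I]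
  rw [h1, one_mul]
  exact Real.norm_exp_I_mul_ofReal_sub_one_le

lemma exp_one_norm (x : ℝ) : ‖cexp (I * (x : ℂ))‖ = 1 := by
  rw [mul_comm, Complex.norm_exp_ofReal_mul_I]

end Pool.Agent.X112.LF
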