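import Pool.Agent.X112.LF.Joint

/-! # The joint central limit theorem for several windows: the limit -/

set_option autoImplicit false

namespace Pool.Agent.X112.LF

open Complex Filter Topology MeasureTheory Set ProbabilityTheory
open Pool.Agent.Y743.CL
open SG (NZ)
open scoped Matrix RealInnerProductSpace

/-- the conditions on a sequence of patterns -/
structure Pat (B A0 : ℝ) {m : ℕ} (h K T : ℕ → ℝ) (k : ℕ → Fin (m + 1) → ℝ) : Prop where
  A0h : ∀ j, A0 ≤ h j
  hK : ∀ j, h j ≤ K j
  T1 : ∀ j, 1 ≤ T j
  ht : Tendsto h atTop atTop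
  KT : ∀ j, K j * Real.log (K j) ≤ B * Real.log (T j)
  gap : ∀ n i j, i ≠ j → h n ≤ |k n i - k n j|
  wid : ∀ n i j, |k n i - k n j| ≤ K n
  k0 : ∀ n, k n 0 = 0
  kn : ∀ n i, 0 ≤ k n i

theorem joint_lim (B : ℝ) (hB : 1 ≤ B) (m : ℕ) : ∃ A0 : ℝ, 3 ≤ A0 ∧
    ∀ (h K T : ℕ → ℝ) (k : ℕ → Fin (m + 1) → ℝ), Pat B A0 h K T k →
    ∀ lam : Fin (m + 1) → Fin (m + 1) → ℝ,
    (∀ i i', Tendsto (fun j => Real.log |k j i - k j i'| / Real.log (h j)) atTop (𝓝 (lam i i'))) →
    (Cov lam).PosDef ∧ ∀ b : EuclideanSpace ℝ (Fin m),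
      Tendsto (fun j => charFun (nuT (k j) (h j) (T j)) b) atTop
        (𝓝 (cexp ((-((fun p => b p) ⬝ᵥ Cov lam *ᵥ (fun p => b p)) / 2 : ℝ) : ℂ))) := by
  obtain ⟨lam0, C, T0, hlam, hC, hT0, hcomb⟩ := comb B hB
  have hev : ∀ᶠ T : ℝ in atTop, 2 * Real.log T + 14 ≤ 1 * T / 2 := by
    have h1 : (fun T : ℝ => 2 * Real.log T + 14) =o[atTop] fun T : ℝ => T :=
      (Real.isLittleO_log_id_atTop.const_mul_left 2).add (Asymptotics.isLittleO_const_id_atTop _)
    have h2 := h1.bound (c := 1 / 2) (by norm_num)
    filter_upwards [h2, eventually_ge_atTop 1] with T hT hT1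
    rw [Real.norm_of_nonneg (by linarith : (0 : ℝ) ≤ T)] at hT
    have := (le_abs_self _).trans hT
    linarith
  obtain ⟨T3, hT3⟩ := hev.exists_forall_of_atTop
  have hpi := Real.pi_pos
  refine ⟨max (max lam0 3) (max (B * (Real.log (max T0 T3))) (72 * B)),
    (le_max_right _ _).trans (le_max_left _ _), ?_⟩
  rintro h K T k ⟨ha, hab, hT1, hat, haT, hk1, hk2, hk3, hk4⟩ lam hlim
  -- the basic facts
  have f1 : ∀ j, lam0 ≤ h j := fun j => ((le_max_left _ _).trans (le_max_left _ _)).trans (ha j)
  have f2 : ∀ j, 3 ≤ h j := fun j => ((le_max_right _ _).trans (le_max_left _ _)).trans (ha j)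
  have f3 : ∀ j, B * Real.log (max T0 T3) ≤ h j := fun j =>
    ((le_max_left _ _).trans (le_max_right _ _)).trans (ha j)
  have f4 : ∀ j, 72 * B ≤ h j := fun j =>
    ((le_max_right _ _).trans (le_max_right _ _)).trans (ha j)
  have f5 : ∀ j, 1 ≤ Real.log (h j) := fun j => by
    rw [Real.le_log_iff_exp_le (by linarith [f2 j])]
    linarith [Real.exp_one_lt_d9, f2 j]
  have haT' : ∀ j, h j * Real.log (h j) ≤ B * Real.log (T j) := fun j => by
    refine le_trans ?_ (haT j)
    have h1 := f2 j
    have h2 := hab j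
    have h3 : Real.log (h j) ≤ Real.log (K j) := Real.log_le_log (by linarith) (by linarith)
    exact mul_le_mul (by linarith) h3 (by linarith [f5 j]) (by linarith)
  have f6 : ∀ j, h j / B ≤ Real.log (T j) := fun j => by
    rw [div_le_iff₀ (by linarith)]
    have := haT' j
    have h1 : h j * 1 ≤ h j * Real.log (h j) :=
      mul_le_mul_of_nonneg_left (f5 j) (by linarith [f2 j])
    linarith
  have f6' : ∀ j, Real.log (max T0 T3) ≤ Real.log (T j) := fun j => by
    refine le_trans ?_ (f6 j)
    rw [le_div_iff₀ (by linarith)]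
    linarith [f3 j]
  have f7 : ∀ j, max T0 T3 ≤ T j := fun j => by
    have h0 : 0 < max T0 T3 := lt_of_lt_of_le (by linarith) (le_max_left T0 T3)
    rw [← Real.log_le_log_iff h0 (by linarith [hT1 j])]
    exact f6' j
  have f8 : ∀ j, T0 ≤ T j := fun j => (le_max_left _ _).trans (f7 j)
  have f9 : ∀ j, 2 * Real.log (T j) + 14 ≤ T j / 2 := fun j => by
    have := hT3 (T j) ((le_max_right _ _).trans (f7 j))
    linarith
  have f10 : ∀ j, 0 < T j := fun j => by linarith [hT1 j]
  have f11 : ∀ j, 0 < Real.log (T j) := fun j => Real.log_pos (by linarith [f8 j])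
  have hTt : Tendsto T atTop atTop := by
    refine tendsto_atTop_mono (fun j => ?_) (hat.atTop_div_const (by linarith : 0 < B))
    have h1 := Real.log_le_sub_one_of_pos (f10 j)
    linarith [f6 j]
  have hLt : Tendsto (fun j => Real.log (h j)) atTop atTop := Real.tendsto_log_atTop.comp hat
  -- the parameters
  set κ : ℕ → ℝ := fun j => 1 / (8 + Real.log (h j)) with hκ
  have k1 : ∀ j, 0 < κ j := fun j => by
    have := f5 j
    simp only [hκ]; positivity
  have k2 : ∀ j, κ j ≤ 1 / 8 := fun j => by
    have := f5 j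
    simp only [hκ]
    exact one_div_le_one_div_of_le (by norm_num) (by linarith)
  have k3 : ∀ j, 8 ≤ κ j * Real.log (T j) := fun j => by
    have h1 := f5 j
    have h2 := haT' j
    simp only [hκ]
    rw [div_mul_eq_mul_div, one_mul, le_div_iff₀ (by linarith)]
    have h3 : 8 * (8 + Real.log (h j)) ≤ 72 * Real.log (h j) := by linarith
    have h4 : 72 * B * Real.log (h j) ≤ h j * Real.log (h j) :=
      mul_le_mul_of_nonneg_right (f4 j) (by linarith)
    have h5 : B * (72 * Real.log (h j)) ≤ B * Real.log (T j) := by linarith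
    have h6 := le_of_mul_le_mul_left h5 (by linarith : 0 < B)
    linarith
  have k4 : ∀ j, Real.log (1 / κ j) = Real.log (8 + Real.log (h j)) := fun j => by
    simp only [hκ]; rw [one_div_one_div]
  set L : ℕ → ℝ := fun j => Real.log (T j) with hL
  set s : ℕ → Fin (m + 1) → ℝ := fun j i => 2 * Real.pi * k j i / Real.log (T j) with hs
  set X : ℕ → ℕ := fun j => XK (κ j) (T j) with hX
  have hkK : ∀ j i, k j i ≤ K j := fun j i => by
    have := hk2 j i 0
    rw [hk3, sub_zero] at this
    exact (le_abs_self _).trans this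
  set q : ℕ → ℝ := fun j => (1 + Real.log (8 + Real.log (h j))) / Real.log (h j) with hq
  have hq0 : Tendsto q atTop (𝓝 0) := small_log.comp hLt
  have hq1 : ∀ j, 0 ≤ q j := fun j => by
    simp only [hq]
    have h5 := f5 j
    have : 0 ≤ Real.log (8 + Real.log (h j)) := Real.log_nonneg (by linarith)
    positivity
  have hlh : ∀ j, 0 < Real.log (h j) := fun j => by linarith [f5 j]
  -- the single windows
  set W : ℕ → ℝ → ℝ := fun j x => VS (rc (Real.log (T j) / lam0) (2 * Real.pi * x / Real.log (T j))) (X j) with hW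
  have hW0 : ∀ j, W j 0 = 0 := fun j => by
    simp only [hW]
    have e1 : 2 * Real.pi * 0 / Real.log (T j) = 0 := by ring
    rw [e1]
    unfold VS
    refine Finset.sum_eq_zero fun p _ => ?_
    rw [rc_zero]
    ring
  have hsym : ∀ i i', lam i i' = lam i' i := fun i i' => by
    refine tendsto_nhds_unique (hlim i i') ((hlim i' i).congr fun j => ?_)
    rw [abs_sub_comm]
  have hdiag : ∀ i, lam i i = 0 := fun i => by
    refine tendsto_nhds_unique (hlim i i) (tendsto_const_nhds.congr fun j => ?_)
    simp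
  have hWl : ∀ i i', Tendsto (fun j => W j |k j i - k j i'| / Real.log (h j)) atTop
      (𝓝 (2 / Real.pi ^ 2 * lam i i')) := by
    intro i i'
    by_cases hii : i = i'
    · subst hii
      rw [hdiag, mul_zero]
      refine tendsto_const_nhds.congr fun j => ?_
      rw [sub_self, abs_zero, hW0, zero_div]
    · have h1 := (hlim i i').const_mul (2 / Real.pi ^ 2)
      have h2 : Tendsto (fun j => W j |k j i - k j i'| / Real.log (h j) -
          2 / Real.pi ^ 2 * (Real.log |k j i - k j i'| / Real.log (h j))) atTop (𝓝 0) := by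
        refine squeeze_zero_norm (fun j => ?_) (by simpa using hq0.const_mul C)
        have g1 := hk1 j i i' hii
        have g2 := hk2 j i i'
        have g3 : 1 ≤ |k j i - k j i'| := by linarith [f2 j]
        have h3 := (hcomb (T j) (f8 j) |k j i - k j i'| ((f1 j).trans g1) (by
          refine le_trans ?_ (haT j)
          exact mul_le_mul g2 (Real.log_le_log (by linarith) g2) (Real.log_nonneg g3)
            (by linarith [f2 j, hab j])) (κ j) (k1 j) (k2 j) (k3 j)).2.2
        rw [k4] at h3
        have h4 : W j |k j i - k j i'| / Real.log (h j) -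
          2 / Real.pi ^ 2 * (Real.log |k j i - k j i'| / Real.log (h j)) =
          (W j |k j i - k j i'| - 2 / Real.pi ^ 2 * Real.log |k j i - k j i'|) / Real.log (h j) := by ring
        rw [h4, Real.norm_eq_abs, abs_div, abs_of_pos (hlh j), div_le_iff₀ (hlh j)]
        refine h3.trans (le_of_eq ?_)
        simp only [hq]
        have := (hlh j).ne'
        field_simp
      have h3 := h2.add h1
      rw [zero_add] at h3
      refine h3.congr fun j => ?_
      ring
  -- the variances
  have hVl : ∀ a : Fin (m + 1) → ℝ, ∑ i, a i = 0 →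
      Tendsto (fun j => VS (dc (Real.log (T j) / lam0) a (s j)) (X j) / Real.log (h j)) atTop (𝓝 (qf lam a)) := by
    intro a ha0
    have e : ∀ j, VS (dc (Real.log (T j) / lam0) a (s j)) (X j) / Real.log (h j) =
        -(1 / 2) * ∑ i, ∑ i', a i * a i' * (W j |k j i - k j i'| / Real.log (h j)) := by
      intro j
      rw [VS_dc _ a _ ha0, mul_div_assoc, Finset.sum_div]
      congr 1
      refine Finset.sum_congr rfl fun i _ => ?_
      rw [Finset.sum_div]
      refine Finset.sum_congr rfl fun i' _ => ?_
      simp only [hW, hs]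
      have e1 : |2 * Real.pi * k j i / Real.log (T j) - 2 * Real.pi * k j i' / Real.log (T j)| =
          2 * Real.pi * |k j i - k j i'| / Real.log (T j) := by
        have : 2 * Real.pi * k j i / Real.log (T j) - 2 * Real.pi * k j i' / Real.log (T j) =
          2 * Real.pi / Real.log (T j) * (k j i - k j i') := by ring
        have hf := f11 j
        rw [this, abs_mul, abs_of_pos (by positivity)]
        ring
      rw [e1, mul_div_assoc]
    simp only [e]
    have h1 : Tendsto (fun j => -(1 / 2) * ∑ i, ∑ i', a i * a i' * (W j |k j i - k j i'| / Real.log (h j))) atTop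
        (𝓝 (-(1 / 2) * ∑ i, ∑ i', a i * a i' * (2 / Real.pi ^ 2 * lam i i'))) :=
      (tendsto_finsetSum _ fun i _ => tendsto_finsetSum _ fun i' _ => (hWl i i').const_mul _).const_mul _
    have e2 : -(1 / 2) * ∑ i, ∑ i', a i * a i' * (2 / Real.pi ^ 2 * lam i i') = qf lam a := by
      unfold qf
      rw [Finset.mul_sum, Finset.mul_sum]
      refine Finset.sum_congr rfl fun i _ => ?_
      rw [Finset.mul_sum, Finset.mul_sum]
      refine Finset.sum_congr rfl fun i' _ => ?_
      ring
    rw [e2] at h1
    exact h1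
  -- the lower bound
  have hlow : ∀ a : Fin (m + 1) → ℝ, (∀ i, |a i| ≤ 1) → ∑ i, a i = 0 → 1 ≤ ∑ i, a i ^ 2 →
      1 / Real.pi ^ 2 ≤ qf lam a := by
    intro a ha1 ha0 ha2
    obtain ⟨C', hC'⟩ : ∃ C' : ℝ, C' = 1 / Real.pi ^ 2 * Real.log lam0 + ((m + 1 : ℕ) : ℝ) ^ 2 * 1 ^ 2 * C + 1 :=
      ⟨_, rfl⟩
    have h1 : Tendsto (fun j => 1 / Real.pi ^ 2 - C' * q j) atTop (𝓝 (1 / Real.pi ^ 2 - C' * 0)) :=
      tendsto_const_nhds.sub (hq0.const_mul C')
    rw [mul_zero, sub_zero] at h1
    refine le_of_tendsto_of_tendsto' h1 (hVl a ha0) fun j => ?_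
    have h2 := V_low_of hlam hC hT0 (fun T hT a ha haL κ hκ hκ8 hκT => (hcomb T hT a ha haL κ hκ hκ8 hκT).2.2)
      1 zero_le_one m (T j) (f8 j) (h j) (K j) a (k j) (f1 j) (hab j) (haT j) (hk1 j) (hk2 j) ha1 ha0 ha2
      (κ j) (k1 j) (k2 j) (k3 j)
    rw [k4, ← hC'] at h2
    rw [le_div_iff₀ (hlh j)]
    refine le_trans (le_of_eq ?_) h2
    simp only [hq]
    have := (hlh j).ne'
    field_simp
  have hpos : ∀ b : Fin m → ℝ, b ≠ 0 → 0 < qf lam (af b) := by
    intro b hb
    obtain ⟨p, hp⟩ : ∃ p, b p ≠ 0 := by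
      by_contra hc
      push Not at hc
      exact hb (funext hc)
    obtain ⟨S2, hS2⟩ : ∃ S2 : ℝ, S2 = ∑ i, af b i ^ 2 := ⟨_, rfl⟩
    have hS0 : 0 < S2 := by
      rw [hS2]
      refine lt_of_lt_of_le ?_ (af_sq b)
      exact lt_of_lt_of_le (by positivity : 0 < b p ^ 2)
        (Finset.single_le_sum (f := fun p => b p ^ 2) (fun _ _ => sq_nonneg _) (Finset.mem_univ p))
    have hsq : 0 < Real.sqrt S2 := Real.sqrt_pos.2 hS0
    have h1 := hlow (fun i => af b i / Real.sqrt S2) (fun i => by
      rw [abs_div, abs_of_pos hsq, div_le_one hsq, ← Real.sqrt_sq_eq_abs]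
      apply Real.sqrt_le_sqrt
      rw [hS2]
      exact Finset.single_le_sum (f := fun i => af b i ^ 2) (fun _ _ => sq_nonneg _) (Finset.mem_univ i))
      (by rw [← Finset.sum_div, af_sum, zero_div])
      (by
        have : ∑ i, (af b i / Real.sqrt S2) ^ 2 = 1 := by
          simp only [div_pow, Real.sq_sqrt hS0.le]
          rw [← Finset.sum_div, ← hS2, div_self hS0.ne']
        rw [this])
    have h2 : qf lam (fun i => af b i / Real.sqrt S2) = qf lam (af b) / S2 := by
      unfold qf
      rw [mul_div_assoc, Finset.sum_div]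
      congr 1
      refine Finset.sum_congr rfl fun i _ => ?_
      rw [Finset.sum_div]
      refine Finset.sum_congr rfl fun i' _ => ?_
      have h3 : Real.sqrt S2 * Real.sqrt S2 = S2 := Real.mul_self_sqrt hS0.le
      have h4 : af b i / Real.sqrt S2 * (af b i' / Real.sqrt S2) = af b i * af b i' / S2 := by
        rw [div_mul_div_comm, h3]
      rw [h4]
      ring
    rw [h2, le_div_iff₀ hS0] at h1
    exact lt_of_lt_of_le (by positivity) h1
  refine ⟨?_, ?_⟩
  · -- positive definite
    refine Matrix.PosDef.of_dotProduct_mulVec_pos ?_ fun b hb => ?_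
    · refine Matrix.IsHermitian.ext fun p q => ?_
      simp only [Cov, Matrix.of_apply, star_trivial]
      rw [hsym q.succ p.succ]
      ring
    · have h1 := hpos b hb
      rw [qf_af hsym hdiag] at h1
      rw [star_trivial]
      linarith
  · intro b
    have hbexp : ((-((fun p => b p) ⬝ᵥ Cov lam *ᵥ (fun p => b p)) / 2 : ℝ) : ℂ) =
        ((-(qf lam (af (fun p => b p)) / 4) : ℝ) : ℂ) := by
      rw [qf_af hsym hdiag]
      congr 1
      ring
    rw [hbexp]
    by_cases hb : (fun p => b p) = (0 : Fin m → ℝ)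
    · have hb0 : b = 0 := by
        ext p
        exact congrFun hb p
      have h1 : qf lam (af (fun p => b p)) = 0 := by
        rw [hb]
        unfold qf af
        have : ∀ i : Fin (m + 1), (Fin.cons (-∑ p : Fin m, (0 : Fin m → ℝ) p) (0 : Fin m → ℝ) : Fin (m + 1) → ℝ) i = 0 := by
          intro i
          refine Fin.cases ?_ (fun p => ?_) i
          · simp
          · simp
        simp only [this]
        simp
      rw [h1]
      refine tendsto_const_nhds.congr fun j => ?_
      have := nuT_prob (k j) (h j) (f10 j)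
      rw [hb0, charFun_zero]
      simp
    obtain ⟨a, ha⟩ : ∃ a : Fin (m + 1) → ℝ, a = af (fun p => b p) := ⟨_, rfl⟩
    have ha0 : ∑ i, a i = 0 := by rw [ha]; exact af_sum _
    obtain ⟨H, hH⟩ : ∃ H : ℝ, H = ∑ i, |a i| := ⟨_, rfl⟩
    have hHa : ∀ i, |a i| ≤ H := fun i => by
      rw [hH]
      exact Finset.single_le_sum (f := fun i => |a i|) (fun _ _ => abs_nonneg _) (Finset.mem_univ i)
    have hH0 : 0 ≤ H := (abs_nonneg _).trans (hHa 0)
    have hv : 0 < qf lam a := by rw [ha]; exact hpos _ hb
    rw [← ha]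
    set c : ℕ → ℕ → ℝ := fun j => dc (Real.log (T j) / lam0) a (s j) with hc
    set w : ℕ → ℕ → ℂ := fun j => wn (ph (Real.log (T j) / lam0) a (s j)) with hw
    have hmain := char_w T (fun j => T j + L j) (fun j => 2 * T j - L j - 7) X c w
      (fun j => wn_cm _) (fun j n _ => wn_norm (ph_norm _ _ _) n)
      (M := (((m + 1 : ℕ) : ℝ) * H) ^ 2 + 1) (fun j p => dc_bd (div_pos (f11 j) (by linarith)) _ _ hHa p)
      hTt f10
      (fun j => by
        have h1 := f9 j
        simp only [hL]; linarith [f10 j])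
      (by
        have h0 : Tendsto (fun j => (7 : ℝ) / T j) atTop (𝓝 0) := tendsto_const_nhds.div_atTop hTt
        have h1 : Tendsto (fun j => 1 - (2 * (Real.log (T j) / T j ^ (1:ℝ)) + 7 / T j)) atTop
            (𝓝 (1 - (2 * 0 + 0))) := by
          refine tendsto_const_nhds.sub (Tendsto.add ?_ h0)
          exact ((isLittleO_log_rpow_atTop (by norm_num : (0:ℝ) < 1)).tendsto_div_nhds_zero.comp hTt).const_mul 2
        rw [mul_zero, add_zero, sub_zero] at h1
        refine h1.congr fun j => ?_
        have := (f10 j).ne'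
        rw [Real.rpow_one]
        simp only [hL]
        field_simp
        ring)
      (fun j => by
        simp only [hX]
        unfold XK
        apply Nat.le_floor
        push_cast
        exact Real.one_le_rpow (hT1 j) (k1 j).le)
      (fun m => by
        filter_upwards [hLt.eventually_ge_atTop (2 * (m : ℝ))] with j hj
        have h1 : ((X j ^ m : ℕ) : ℝ) ≤ (T j ^ κ j) ^ m := by
          push_cast
          exact pow_le_pow_left₀ (Nat.cast_nonneg _) (Nat.floor_le (by have := f10 j; positivity)) m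
        refine h1.trans ?_
        rw [← Real.rpow_natCast, ← Real.rpow_mul (f10 j).le, Real.sqrt_eq_rpow]
        apply Real.rpow_le_rpow_of_exponent_le (hT1 j)
        simp only [hκ]
        rw [div_mul_eq_mul_div, one_mul, div_le_iff₀ (by linarith [f5 j])]
        linarith)
      (fun j => Real.log (h j)) hlh hLt (qf lam a) hv (hVl a ha0)
    -- the difference
    have hdiff : Tendsto (fun j => charFun (nuT (k j) (h j) (T j)) b -
        ((1 / T j : ℝ) : ℂ) * ∫ t in (T j + L j)..(2 * T j - L j - 7),
          cexp (I * (((Gw (c j) (w j) (X j) t).re / Real.sqrt (Real.log (h j)) : ℝ) : ℂ))) atTop (𝓝 0) := by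
      rw [tendsto_zero_iff_norm_tendsto_zero]
      refine tendsto_order.2 ⟨fun y hy => Eventually.of_forall fun j => lt_of_lt_of_le hy (norm_nonneg _),
        fun ε hε => ?_⟩
      obtain ⟨η, hη⟩ : ∃ η : ℝ, η = ε / (2 * (H + 1)) := ⟨_, rfl⟩
      have hη0 : 0 < η := by rw [hη]; positivity
      have hηH : H * (η / 2) ≤ ε / 4 := by
        rw [hη]
        have h1 : (H + 1) * (ε / (2 * (H + 1)) / 2) = ε / 4 := by field_simp; ring
        nlinarith [show 0 < ε / (2 * (H + 1)) / 2 by positivity]
      have e4 : ∀ᶠ j in atTop, H * (C * q j / (2 * η)) ≤ ε / 4 := by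
        have h1 := ((hq0.const_mul C).div_const (2 * η)).const_mul H
        rw [mul_zero, zero_div, mul_zero] at h1
        exact h1.eventually_le_const (by positivity)
      have e5 : ∀ᶠ j in atTop, (2 * L j + 7) / T j ≤ ε / 4 := by
        have h1 : Tendsto (fun j => 2 * (Real.log (T j) / T j ^ (1:ℝ)) + 7 / T j) atTop
            (𝓝 (2 * 0 + 0)) := by
          refine Tendsto.add ?_ (tendsto_const_nhds.div_atTop hTt)
          exact ((isLittleO_log_rpow_atTop (by norm_num : (0:ℝ) < 1)).tendsto_div_nhds_zero.comp hTt).const_mul 2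
        rw [mul_zero, add_zero] at h1
        filter_upwards [h1.eventually_le_const (show (0 : ℝ) < ε / 4 by positivity)] with j hj
        refine le_trans (le_of_eq ?_) hj
        have := (f10 j).ne'
        rw [Real.rpow_one]
        simp only [hL]
        field_simp
      filter_upwards [e4, e5] with j g4 g5
      have hTj := f10 j
      have hLj : 0 < L j := f11 j
      have hsL : 0 < Real.sqrt (Real.log (h j)) := Real.sqrt_pos.2 (hlh j)
      have hAB : T j + L j ≤ 2 * T j - L j - 7 := by
        have := f9 j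
        simp only [hL]; linarith
      rw [char_nuT b (k j) (h j) hTj, intervalIntegral.integral_of_le hAB, ← mul_sub, norm_mul,
        Complex.norm_real, Real.norm_eq_abs, abs_of_pos (by positivity)]
      set I1 : Set ℝ := Ioc (T j) (2 * T j) with hI1
      set I0 : Set ℝ := Ioc (T j + L j) (2 * T j - L j - 7) with hI0
      have hI01 : I0 ⊆ I1 := by
        rw [hI0, hI1]
        exact Ioc_subset_Ioc (by linarith) (by linarith)
      have hI0v : volume I0 ≠ ⊤ := by rw [hI0, Real.volume_Ioc]; exact ENNReal.ofReal_ne_top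
      have hI1v : volume I1 ≠ ⊤ := by rw [hI1, Real.volume_Ioc]; exact ENNReal.ofReal_ne_top
      set Φ : ℝ → ℝ := fun t => ⟪xi (k j) (h j) (T j) t, b⟫ with hΦ
      set Ψ : ℝ → ℝ := fun t => (Gw (c j) (w j) (X j) t).re / Real.sqrt (Real.log (h j)) with hΨ
      have hΦm : Measurable Φ := by
        simp only [hΦ]
        exact ((by fun_prop : Measurable (fun x : EuclideanSpace ℝ (Fin m) => (⟪x, b⟫ : ℝ)))).comp (xi_meas _ _ _)
      have hΨm : Measurable Ψ := (Complex.measurable_re.comp (Gw_cont _ _ _).measurable).div_const _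
      have hgi : ∀ (Θ : ℝ → ℝ) (hΘ : Measurable Θ) (S : Set ℝ), volume S ≠ ⊤ →
          IntegrableOn (fun t => cexp (I * ((Θ t : ℝ) : ℂ))) S := by
        intro Θ hΘ S hS
        refine Measure.integrableOn_of_bounded (M := 1) hS ?_ ?_
        · have : Measurable (fun t => cexp (I * ((Θ t : ℝ) : ℂ))) :=
            Complex.measurable_exp.comp ((Complex.measurable_ofReal.comp hΘ).const_mul I)
          exact this.aestronglyMeasurable
        · exact Eventually.of_forall fun t => (exp_one_norm _).le
      have hint : (∫ t in I1, cexp (I * ((Φ t : ℝ) : ℂ))) - ∫ t in I0, cexp (I * ((Ψ t : ℝ) : ℂ)) =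
          (∫ t in I1 \ I0, cexp (I * ((Φ t : ℝ) : ℂ))) +
          ∫ t in I0, (cexp (I * ((Φ t : ℝ) : ℂ)) - cexp (I * ((Ψ t : ℝ) : ℂ))) := by
        rw [integral_sub (hgi Φ hΦm I0 hI0v) (hgi Ψ hΨm I0 hI0v),
          setIntegral_sdiff (show MeasurableSet I0 from measurableSet_Ioc) (hgi Φ hΦm I1 hI1v) hI01]
        ring
      have b1 : ‖∫ t in I1 \ I0, cexp (I * ((Φ t : ℝ) : ℂ))‖ ≤ 2 * L j + 7 := by
        have c1 : volume (I1 \ I0) < ⊤ := lt_of_le_of_lt (measure_mono sdiff_subset) (lt_top_iff_ne_top.2 hI1v)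
        refine (norm_setIntegral_le_of_norm_le_const (C := 1) c1 fun t _ => (exp_one_norm _).le).trans ?_
        rw [one_mul, measureReal_sdiff hI01 (show MeasurableSet I0 from measurableSet_Ioc) hI1v, hI1, hI0, Real.volume_real_Ioc_of_le (by linarith),
          Real.volume_real_Ioc_of_le (by linarith)]
        linarith
      have hcb : ∀ i : Fin (m + 1), IntegrableOn (fun t => er lam0 (κ j) (T j) (k j i) t ^ 2) I0 ∧
          ∫ t in I0, er lam0 (κ j) (T j) (k j i) t ^ 2 ≤ C * (1 + Real.log (8 + Real.log (h j))) * T j := by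
        intro i
        have c0 : 0 ≤ Real.log (8 + Real.log (h j)) := Real.log_nonneg (by linarith [f5 j])
        by_cases hi : i = 0
        · subst hi
          rw [hk3]
          simp only [er_zero]
          refine ⟨?_, ?_⟩
          · simp
          · simp only [ne_eq, OfNat.ofNat_ne_zero, not_false_eq_true, zero_pow, integral_zero]
            positivity
        · have c1 := hcomb (T j) (f8 j) (k j i) (by
            have := hk1 j i 0 hi
            rw [hk3, sub_zero, abs_of_nonneg (hk4 j i)] at this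
            linarith [f1 j]) (by
            have h0 := hk1 j i 0 hi
            rw [hk3, sub_zero, abs_of_nonneg (hk4 j i)] at h0
            have h1 : 1 ≤ k j i := by linarith [f2 j]
            refine le_trans ?_ (haT j)
            exact mul_le_mul (hkK j i) (Real.log_le_log (by linarith) (hkK j i)) (Real.log_nonneg h1)
              (by linarith [f2 j, hab j])) (κ j) (k1 j) (k2 j) (k3 j)
          obtain ⟨ci, cb, _⟩ := c1
          rw [k4] at cb
          have hAB' : T j + Real.log (T j) ≤ 2 * T j - Real.log (T j) - 7 := hAB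
          rw [intervalIntegrable_iff_integrableOn_Ioc_of_le hAB'] at ci
          rw [intervalIntegral.integral_of_le hAB'] at cb
          exact ⟨ci, cb⟩
      have b2 : ∀ t, ‖cexp (I * ((Φ t : ℝ) : ℂ)) - cexp (I * ((Ψ t : ℝ) : ℂ))‖ ≤
          ∑ i, |a i| * (η / 2 + er lam0 (κ j) (T j) (k j i) t ^ 2 / (2 * η * Real.log (h j))) := by
        intro t
        refine (exp_lip _ _).trans ?_
        have c1 : Φ t - Ψ t = -(∑ i, a i * er lam0 (κ j) (T j) (k j i) t) / Real.sqrt (Real.log (h j)) := by
          simp only [hΦ, hΨ]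
          rw [xi_inner b (k j) (hk3 j), ← ha, Lf_eq lam0 (κ j) a (k j) ha0]
          simp only [hc, hw, hs, hX]
          rw [← sub_div]
          congr 1
          ring
        rw [c1, abs_div, abs_neg, abs_of_pos hsL, div_le_iff₀ hsL, Finset.sum_mul]
        refine (Finset.abs_sum_le_sum_abs _ _).trans (Finset.sum_le_sum fun i _ => ?_)
        rw [abs_mul, mul_assoc]
        refine mul_le_mul_of_nonneg_left ?_ (abs_nonneg _)
        have c2 : Real.log (h j) = Real.sqrt (Real.log (h j)) ^ 2 := (Real.sq_sqrt (hlh j).le).symm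
        have c3 : er lam0 (κ j) (T j) (k j i) t ^ 2 = |er lam0 (κ j) (T j) (k j i) t| ^ 2 := (sq_abs _).symm
        rw [c3]
        nth_rewrite 1 [c2]
        set r := Real.sqrt (Real.log (h j)) with hr
        set z := |er lam0 (κ j) (T j) (k j i) t| with hz
        have c4 : (η / 2 + z ^ 2 / (2 * η * r ^ 2)) * r - z = (η * r - z) ^ 2 / (2 * η * r) := by
          field_simp
          ring
        have c5 : 0 ≤ (η * r - z) ^ 2 / (2 * η * r) := by positivity
        linarith
      have b3 : IntegrableOn (fun t => ∑ i, |a i| * (η / 2 + er lam0 (κ j) (T j) (k j i) t ^ 2 /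
          (2 * η * Real.log (h j)))) I0 := by
        refine integrable_finsetSum _ fun i _ => ?_
        refine Integrable.const_mul ?_ _
        refine Integrable.add ?_ ((hcb i).1.div_const _)
        exact integrableOn_const hI0v
      have b4 : ∫ t in I0, ∑ i, |a i| * (η / 2 + er lam0 (κ j) (T j) (k j i) t ^ 2 /
          (2 * η * Real.log (h j))) ≤ (ε / 4 + ε / 4) * T j := by
        have c0 : ∀ i ∈ (Finset.univ : Finset (Fin (m + 1))), Integrable (fun t => |a i| * (η / 2 + er lam0 (κ j) (T j) (k j i) t ^ 2 /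
          (2 * η * Real.log (h j)))) (volume.restrict I0) := by
          intro i _
          refine Integrable.const_mul ?_ _
          refine Integrable.add ?_ ((hcb i).1.div_const _)
          exact integrableOn_const hI0v
        rw [integral_finsetSum _ c0]
        have c1 : ∀ i ∈ (Finset.univ : Finset (Fin (m + 1))),
            ∫ t in I0, |a i| * (η / 2 + er lam0 (κ j) (T j) (k j i) t ^ 2 / (2 * η * Real.log (h j))) ≤
            |a i| * ((η / 2) * T j + C * q j / (2 * η) * T j) := by
          intro i _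
          rw [integral_const_mul]
          refine mul_le_mul_of_nonneg_left ?_ (abs_nonneg _)
          have c3 : Integrable (fun _ : ℝ => η / 2) (volume.restrict I0) := integrableOn_const hI0v
          rw [integral_add c3 ((hcb i).1.div_const _)]
          refine add_le_add ?_ ?_
          · rw [setIntegral_const, smul_eq_mul, hI0, Real.volume_real_Ioc_of_le hAB, mul_comm]
            refine mul_le_mul_of_nonneg_left ?_ (by positivity)
            linarith
          · have c2 := (hcb i).2
            have c4 : ∫ t in I0, er lam0 (κ j) (T j) (k j i) t ^ 2 / (2 * η * Real.log (h j)) =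
              (∫ t in I0, er lam0 (κ j) (T j) (k j i) t ^ 2) / (2 * η * Real.log (h j)) := integral_div _ _
            rw [c4, div_le_iff₀ (by have := hlh j; positivity)]
            refine c2.trans (le_of_eq ?_)
            simp only [hq]
            have := (hlh j).ne'
            field_simp
        refine (Finset.sum_le_sum c1).trans ?_
        rw [← Finset.sum_mul, ← hH]
        have c2 : H * ((η / 2) * T j + C * q j / (2 * η) * T j) =
          (H * (η / 2) + H * (C * q j / (2 * η))) * T j := by ring
        rw [c2]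
        exact mul_le_mul_of_nonneg_right (add_le_add hηH g4) hTj.le
      have b5 : ‖∫ t in I0, (cexp (I * ((Φ t : ℝ) : ℂ)) - cexp (I * ((Ψ t : ℝ) : ℂ)))‖ ≤
          (ε / 4 + ε / 4) * T j := by
        refine (norm_integral_le_of_norm_le b3 (Eventually.of_forall b2)).trans b4
      have b6 : 2 * L j + 7 ≤ ε / 4 * T j := by rwa [div_le_iff₀ hTj] at g5
      have b7 : ‖(∫ t in I1, cexp (I * ((Φ t : ℝ) : ℂ))) - ∫ t in I0, cexp (I * ((Ψ t : ℝ) : ℂ))‖ ≤
          3 / 4 * ε * T j := by
        rw [hint]
        refine (norm_add_le _ _).trans ?_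
        linarith
      have b8 : 1 / T j * ‖(∫ t in I1, cexp (I * ((Φ t : ℝ) : ℂ))) - ∫ t in I0, cexp (I * ((Ψ t : ℝ) : ℂ))‖ ≤
          1 / T j * (3 / 4 * ε * T j) := mul_le_mul_of_nonneg_left b7 (by positivity)
      refine lt_of_le_of_lt b8 ?_
      have b9 : 1 / T j * (3 / 4 * ε * T j) = 3 / 4 * ε := by field_simp
      rw [b9]
      linarith
    have h2 := hdiff.add hmain
    rw [zero_add] at h2
    refine h2.congr fun j => ?_
    ring

end Pool.Agent.X112.LF
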