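import Pool.Agent.X112.LF.SB

/-! # The law of the counts in a dyadic interval, for fixed sets with null boundary -/

set_option autoImplicit false

namespace Pool.Agent.X112.LF

open MeasureTheory ProbabilityTheory Filter Topology Set Complex
open SG (ord NZ)
open scoped Matrix MatrixOrder Matrix.Norms.L2Operator RealInnerProductSpace

lemma pi_ac {ν μ : Measure ℝ} [SigmaFinite ν] [SigmaFinite μ] (h : ν ≪ μ) : ∀ n : ℕ,
    Measure.pi (fun _ : Fin n => ν) ≪ Measure.pi (fun _ : Fin n => μ) := by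
  intro n
  induction n with
  | zero =>
    refine Measure.AbsolutelyContinuous.mk fun s _ hs => ?_
    have h1 : s = ∅ ∨ s = univ := by
      rcases s.eq_empty_or_nonempty with h | ⟨x, hx⟩
      · exact Or.inl h
      · right
        rw [eq_univ_iff_forall]
        intro y
        rwa [Subsingleton.elim y x]
    rcases h1 with rfl | rfl
    · exact measure_empty
    · rw [Measure.pi_univ] at hs
      simp at hs
  | succ n ih =>
    have h1 := (measurePreserving_piFinSuccAbove (fun _ : Fin (n + 1) => ν) 0).symm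
    have h2 := (measurePreserving_piFinSuccAbove (fun _ : Fin (n + 1) => μ) 0).symm
    rw [← h1.map_eq, ← h2.map_eq]
    exact (h.prod ih).map (MeasurableEquiv.measurable _)

lemma gauss_ac {m : ℕ} {S : Matrix (Fin m) (Fin m) ℝ} (hS : S.PosDef) :
    multivariateGaussian 0 S ≪ (volume : Measure (EuclideanSpace ℝ (Fin m))) := by
  obtain ⟨M, hM⟩ : ∃ M : Matrix (Fin m) (Fin m) ℝ, M = CFC.sqrt S := ⟨_, rfl⟩
  have hMM : M * M = S := by
    rw [hM]
    exact CFC.sqrt_mul_sqrt_self S hS.posSemidef.nonneg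
  have hdet : IsUnit S.det := hS.isUnit.map Matrix.detMonoidHom
  have hdetM : M.det ≠ 0 := by
    intro h0
    rw [← hMM, Matrix.det_mul, h0, mul_zero] at hdet
    simp at hdet
  have hstd : stdGaussian (EuclideanSpace ℝ (Fin m)) ≪ volume := by
    rw [← map_pi_eq_stdGaussian, ← (PiLp.volume_preserving_toLp (Fin m)).map_eq]
    exact (pi_ac (gaussianReal_absolutelyContinuous 0 one_ne_zero) m).map (by fun_prop)
  unfold multivariateGaussian
  have hmap : (fun x => (0 : EuclideanSpace ℝ (Fin m)) + Matrix.toEuclideanCLM (𝕜 := ℝ) (CFC.sqrt S) x) =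
      fun x => (Matrix.toEuclideanCLM (𝕜 := ℝ) M : EuclideanSpace ℝ (Fin m) →L[ℝ] EuclideanSpace ℝ (Fin m)) x := by
    funext x
    rw [zero_add, hM]
  rw [hmap]
  refine Measure.AbsolutelyContinuous.mk fun s hs h0 => ?_
  rw [Measure.map_apply (by fun_prop) hs]
  apply hstd
  obtain ⟨L, hL⟩ : ∃ L : EuclideanSpace ℝ (Fin m) →ₗ[ℝ] EuclideanSpace ℝ (Fin m),
    L = (Matrix.toEuclideanCLM (𝕜 := ℝ) M : EuclideanSpace ℝ (Fin m) →L[ℝ] EuclideanSpace ℝ (Fin m)).toLinearMap :=
    ⟨_, rfl⟩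
  have hLdet : LinearMap.det L ≠ 0 := by
    obtain ⟨L', hL'⟩ : ∃ L' : EuclideanSpace ℝ (Fin m) →ₗ[ℝ] EuclideanSpace ℝ (Fin m),
      L' = (Matrix.toEuclideanCLM (𝕜 := ℝ) M⁻¹ : EuclideanSpace ℝ (Fin m) →L[ℝ]
        EuclideanSpace ℝ (Fin m)).toLinearMap := ⟨_, rfl⟩
    have h1 : L ∘ₗ L' = LinearMap.id := by
      have h2 : Matrix.toEuclideanCLM (𝕜 := ℝ) M * Matrix.toEuclideanCLM (𝕜 := ℝ) M⁻¹ =
          (1 : EuclideanSpace ℝ (Fin m) →L[ℝ] EuclideanSpace ℝ (Fin m)) := by
        rw [← map_mul, Matrix.mul_nonsing_inv _ (isUnit_iff_ne_zero.2 hdetM), map_one]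
      rw [hL, hL']
      ext1 x
      exact congrArg (fun f : EuclideanSpace ℝ (Fin m) →L[ℝ] EuclideanSpace ℝ (Fin m) => f x) h2
    intro h0
    have h3 := congrArg LinearMap.det h1
    rw [LinearMap.det_comp, h0, zero_mul, LinearMap.det_id] at h3
    exact zero_ne_one h3
  have h1 := Measure.addHaar_preimage_linearMap (volume : Measure (EuclideanSpace ℝ (Fin m))) hLdet s
  rw [h0, mul_zero] at h1
  rw [hL] at h1
  exact h1

/-- the exponents of the distances -/
noncomputable def lamk {m : ℕ} (h : ℝ) (k : Fin (m + 1) → ℝ) (i j : Fin (m + 1)) : ℝ :=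
  Real.log |k i - k j| / Real.log h

lemma Cov_cont {m : ℕ} : Continuous (fun lam : Fin (m + 1) → Fin (m + 1) → ℝ => Cov lam) := by
  unfold Cov
  refine continuous_matrix fun p q => ?_
  simp only [Matrix.of_apply]
  fun_prop

/-- convergence of Gaussian laws -/
lemma gauss_tendsto {m : ℕ} (S : ℕ → Matrix (Fin m) (Fin m) ℝ) (S0 : Matrix (Fin m) (Fin m) ℝ)
    (hS : ∀ j, (S j).PosSemidef) (hS0 : S0.PosDef) (hlim : Tendsto S atTop (𝓝 S0))
    (B : Set (EuclideanSpace ℝ (Fin m))) (hB : volume (frontier B) = 0) :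
    Tendsto (fun j => (multivariateGaussian 0 (S j)).real B) atTop
      (𝓝 ((multivariateGaussian 0 S0).real B)) := by
  obtain ⟨ν, hν⟩ : ∃ ν : ℕ → ProbabilityMeasure (EuclideanSpace ℝ (Fin m)),
    ν = fun j => ⟨multivariateGaussian 0 (S j), inferInstance⟩ := ⟨_, rfl⟩
  obtain ⟨γ, hγ⟩ : ∃ γ : ProbabilityMeasure (EuclideanSpace ℝ (Fin m)),
    γ = ⟨multivariateGaussian 0 S0, inferInstance⟩ := ⟨_, rfl⟩
  have hwc : Tendsto ν atTop (𝓝 γ) := by
    rw [ProbabilityMeasure.tendsto_iff_tendsto_charFun]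
    intro b
    have h2 : charFun (γ : Measure (EuclideanSpace ℝ (Fin m))) b =
        cexp ((-((fun p => b p) ⬝ᵥ S0 *ᵥ (fun p => b p)) / 2 : ℝ) : ℂ) := by
      rw [hγ]
      show charFun (multivariateGaussian 0 S0) b = _
      rw [charFun_multivariateGaussian hS0.posSemidef]
      congr 1
      rw [inner_zero_right]
      push_cast
      ring
    have h3 : ∀ j, charFun (ν j : Measure (EuclideanSpace ℝ (Fin m))) b =
        cexp ((-((fun p => b p) ⬝ᵥ S j *ᵥ (fun p => b p)) / 2 : ℝ) : ℂ) := by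
      intro j
      rw [hν]
      show charFun (multivariateGaussian 0 (S j)) b = _
      rw [charFun_multivariateGaussian (hS j)]
      congr 1
      rw [inner_zero_right]
      push_cast
      ring
    rw [h2]
    have h4 : Continuous fun M : Matrix (Fin m) (Fin m) ℝ =>
        cexp ((-((fun p => b p) ⬝ᵥ M *ᵥ (fun p => b p)) / 2 : ℝ) : ℂ) := by
      fun_prop
    refine ((h4.tendsto S0).comp hlim).congr fun j => ?_
    rw [h3]
    rfl
  have h5 := ProbabilityMeasure.tendsto_measure_of_null_frontier_of_tendsto' hwc (E := B) (by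
    rw [hγ]
    exact gauss_ac hS0 hB)
  have h6 := (ENNReal.tendsto_toReal (measure_ne_top (γ : Measure (EuclideanSpace ℝ (Fin m))) B)).comp h5
  rw [hγ] at h6
  refine h6.congr fun j => ?_
  rw [hν]
  rfl

end Pool.Agent.X112.LF
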