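import Pool.Agent.X112.LF.Law

/-! # The law of the counts in a dyadic interval, continued -/

set_option autoImplicit false

namespace Pool.Agent.X112.LF

open MeasureTheory ProbabilityTheory Filter Topology Set Complex
open SG (ord NZ)
open scoped Matrix MatrixOrder Matrix.Norms.L2Operator RealInnerProductSpace

lemma posdef_ev {m : ℕ} (S : ℕ → Matrix (Fin m) (Fin m) ℝ) (S0 : Matrix (Fin m) (Fin m) ℝ)
    (hS : ∀ j, (S j).IsHermitian) (hS0 : S0.PosDef) (hlim : Tendsto S atTop (𝓝 S0)) :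
    ∀ᶠ j in atTop, (S j).PosDef := by
  have hc : Continuous fun p : Matrix (Fin m) (Fin m) ℝ × (Fin m → ℝ) => p.2 ⬝ᵥ p.1 *ᵥ p.2 := by
    fun_prop
  have h1 : ∀ᶠ M in 𝓝 S0, ∀ x ∈ Metric.sphere (0 : Fin m → ℝ) 1, 0 < x ⬝ᵥ M *ᵥ x := by
    refine (isCompact_sphere (0 : Fin m → ℝ) 1).eventually_forall_of_forall_eventually
      (P := fun M x => 0 < x ⬝ᵥ M *ᵥ x) fun x hx => ?_
    have hx0 : x ≠ 0 := by
      rintro rfl
      simp at hx
    have h2 : 0 < x ⬝ᵥ S0 *ᵥ x := by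
      have := hS0.dotProduct_mulVec_pos hx0
      simpa using this
    exact (hc.tendsto (S0, x)).eventually (lt_mem_nhds h2)
  filter_upwards [hlim.eventually h1] with j hj
  refine Matrix.PosDef.of_dotProduct_mulVec_pos (hS j) fun x hx => ?_
  have hn : 0 < ‖x‖ := norm_pos_iff.2 hx
  have h3 := hj (‖x‖⁻¹ • x) (by
    rw [mem_sphere_zero_iff_norm, norm_smul, norm_inv, norm_norm, inv_mul_cancel₀ hn.ne'])
  rw [Matrix.mulVec_smul, smul_dotProduct, dotProduct_smul, smul_eq_mul, smul_eq_mul] at h3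
  have h4 : 0 < ‖x‖⁻¹ := inv_pos.2 hn
  have h5 := (mul_pos_iff_of_pos_left h4).1 h3
  have h6 := (mul_pos_iff_of_pos_left h4).1 h5
  simpa using h6

lemma Cov_herm {m : ℕ} {lam : Fin (m + 1) → Fin (m + 1) → ℝ} (hs : ∀ i j, lam i j = lam j i) :
    (Cov lam).IsHermitian := by
  unfold Matrix.IsHermitian
  ext p q
  simp only [Matrix.conjTranspose_apply, Cov, Matrix.of_apply, star_trivial]
  rw [hs p.succ q.succ]
  ring

lemma lamk_symm {m : ℕ} (h : ℝ) (k : Fin (m + 1) → ℝ) (i j : Fin (m + 1)) : lamk h k i j = lamk h k j i := by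
  unfold lamk
  rw [abs_sub_comm]

/-- the times where the normalised vector of the counts is near the set -/
def Nr {m : ℕ} (k : Fin (m + 1) → ℝ) (h T δ : ℝ) (B : Set (EuclideanSpace ℝ (Fin m))) : Set ℝ :=
  {t | t ∈ Icc T (2 * T) ∧ ∃ y ∈ B, ∀ p, |xi k h T t p - y p| ≤ δ}

theorem law_t (A : ℕ) (Bc : ℝ) (hBc : 1 ≤ Bc) (m : ℕ) (B : Set (EuclideanSpace ℝ (Fin m)))
    (hBf : volume (frontier B) = 0) (ε : ℝ) (hε : 0 < ε) :
    ∃ R δ : ℝ, 3 ≤ R ∧ 0 < δ ∧ ∀ (h K T : ℝ) (k : Fin (m + 1) → ℝ), R ≤ h → Pt A Bc h K T k →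
      (Cov (lamk h k)).PosDef ∧
      volume.real (Nr k h T δ B) ≤ ((multivariateGaussian 0 (Cov (lamk h k))).real B + ε) * T := by
  obtain ⟨A0, hA0, hj⟩ := joint_lim Bc hBc m
  by_contra hcon
  push Not at hcon
  have hch : ∀ j : ℕ, ∃ p : ℝ × ℝ × ℝ × (Fin (m + 1) → ℝ),
      A0 + j ≤ p.1 ∧ Pt A Bc p.1 p.2.1 p.2.2.1 p.2.2.2 ∧ ((Cov (lamk p.1 p.2.2.2)).PosDef →
      ((multivariateGaussian 0 (Cov (lamk p.1 p.2.2.2))).real B + ε) * p.2.2.1 <
        volume.real (Nr p.2.2.2 p.1 p.2.2.1 (1 / ((j : ℝ) + 1)) B)) := by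
    intro j
    have hj0 : (0 : ℝ) ≤ j := Nat.cast_nonneg j
    obtain ⟨h, K, T, k, h1, h2, h3⟩ := hcon (A0 + j) (1 / ((j : ℝ) + 1)) (by linarith) (by positivity)
    exact ⟨(h, K, T, k), h1, h2, h3⟩
  choose p hp using hch
  obtain ⟨h, hh⟩ : ∃ h : ℕ → ℝ, h = fun j => (p j).1 := ⟨_, rfl⟩
  obtain ⟨K, hK⟩ : ∃ K : ℕ → ℝ, K = fun j => (p j).2.1 := ⟨_, rfl⟩
  obtain ⟨T, hT⟩ : ∃ T : ℕ → ℝ, T = fun j => (p j).2.2.1 := ⟨_, rfl⟩
  obtain ⟨k, hk⟩ : ∃ k : ℕ → Fin (m + 1) → ℝ, k = fun j => (p j).2.2.2 := ⟨_, rfl⟩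
  have q1 : ∀ j : ℕ, A0 + j ≤ h j := fun j => by rw [hh]; exact (hp j).1
  have q2 : ∀ j, Pt A Bc (h j) (K j) (T j) (k j) := fun j => by rw [hh, hK, hT, hk]; exact (hp j).2.1
  have q4 : ∀ j : ℕ, (Cov (lamk (h j) (k j))).PosDef →
      ((multivariateGaussian 0 (Cov (lamk (h j) (k j)))).real B + ε) * T j <
      volume.real (Nr (k j) (h j) (T j) (1 / ((j : ℝ) + 1)) B) := fun j => by
    rw [hh, hT, hk]; exact (hp j).2.2
  have hT0 : ∀ j, 0 < T j := fun j => by linarith [(q2 j).T1]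
  have hh3 : ∀ j, 3 ≤ h j := fun j => by
    have : (0 : ℝ) ≤ j := Nat.cast_nonneg j
    linarith [q1 j]
  have hlh : ∀ j, 0 < Real.log (h j) := fun j => Real.log_pos (by linarith [hh3 j])
  obtain ⟨lam, hlam⟩ : ∃ lam : ℕ → Fin (m + 1) → Fin (m + 1) → ℝ,
    lam = fun j => lamk (h j) (k j) := ⟨_, rfl⟩
  have hlb : ∀ j i i', |lam j i i'| ≤ A := by
    intro j i i'
    rw [hlam]
    simp only [lamk]
    by_cases hii : i = i'
    · rw [hii, sub_self, abs_zero, Real.log_zero, zero_div, abs_zero]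
      exact Nat.cast_nonneg A
    · have g1 := (q2 j).gap i i' hii
      have g2 := ((q2 j).wid i i').trans (q2 j).KA
      have g3 := hh3 j
      have g4 : 0 ≤ Real.log |k j i - k j i'| := Real.log_nonneg (by linarith)
      rw [abs_of_nonneg (div_nonneg g4 (hlh j).le), div_le_iff₀ (hlh j), ← Real.log_pow]
      exact Real.log_le_log (by linarith) g2
  have hz : ∀ j, lam j ∈ Metric.closedBall (0 : Fin (m + 1) → Fin (m + 1) → ℝ) (A : ℝ) := by
    intro j
    have hA0' : (0 : ℝ) ≤ (A : ℝ) := Nat.cast_nonneg _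
    rw [mem_closedBall_zero_iff, pi_norm_le_iff_of_nonneg hA0']
    intro i
    rw [pi_norm_le_iff_of_nonneg hA0']
    intro i'
    exact hlb j i i'
  obtain ⟨ll, -, φ, hφ, r2'⟩ := (isCompact_closedBall _ _).tendsto_subseq hz
  have r2 : ∀ i i', Tendsto (fun j => Real.log |k (φ j) i - k (φ j) i'| / Real.log (h (φ j))) atTop
      (𝓝 (ll i i')) := by
    intro i i'
    have h1 := (tendsto_pi_nhds.1 ((tendsto_pi_nhds.1 r2') i)) i'
    rw [hlam] at h1
    exact h1
  have hφt : Tendsto (fun j => (φ j : ℝ)) atTop atTop := tendsto_natCast_atTop_atTop.comp hφ.tendsto_atTop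
  have hpat : Pat Bc A0 (fun j => h (φ j)) (fun j => K (φ j)) (fun j => T (φ j)) (fun j => k (φ j)) := by
    refine ⟨fun j => ?_, fun j => (q2 _).hK, fun j => (q2 _).T1, ?_, fun j => (q2 _).KT,
      fun j => (q2 _).gap, fun j => (q2 _).wid, fun j => (q2 _).k0, fun j => (q2 _).kn⟩
    · have : (0 : ℝ) ≤ φ j := Nat.cast_nonneg _
      linarith [q1 (φ j)]
    · refine tendsto_atTop_mono (fun j => ?_) hφt
      linarith [q1 (φ j)]
  obtain ⟨hpd, hchf⟩ := hj _ _ _ _ hpat ll r2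
  -- weak convergence
  have hprob : ∀ j, IsProbabilityMeasure (nuT (k (φ j)) (h (φ j)) (T (φ j))) := fun j => nuT_prob _ _ (hT0 _)
  obtain ⟨ν, hν⟩ : ∃ ν : ℕ → ProbabilityMeasure (EuclideanSpace ℝ (Fin m)),
    ν = fun j => ⟨nuT (k (φ j)) (h (φ j)) (T (φ j)), hprob j⟩ := ⟨_, rfl⟩
  obtain ⟨γ, hγ⟩ : ∃ γ : ProbabilityMeasure (EuclideanSpace ℝ (Fin m)),
    γ = ⟨multivariateGaussian 0 (Cov ll), inferInstance⟩ := ⟨_, rfl⟩
  have hwc : Tendsto ν atTop (𝓝 γ) := by
    rw [ProbabilityMeasure.tendsto_iff_tendsto_charFun]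
    intro b
    have h1 := hchf b
    have h2 : charFun (γ : Measure (EuclideanSpace ℝ (Fin m))) b =
        cexp ((-((fun p => b p) ⬝ᵥ Cov ll *ᵥ (fun p => b p)) / 2 : ℝ) : ℂ) := by
      rw [hγ]
      show charFun (multivariateGaussian 0 (Cov ll)) b = _
      rw [charFun_multivariateGaussian hpd.posSemidef]
      congr 1
      rw [inner_zero_right]
      push_cast
      ring
    rw [h2]
    refine h1.congr fun j => ?_
    rw [hν]
    rfl
  -- the matrices
  have hCl : Tendsto (fun j => Cov (lam (φ j))) atTop (𝓝 (Cov ll)) := (Cov_cont.tendsto ll).comp r2'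
  have hpe := posdef_ev (fun j => Cov (lam (φ j))) (Cov ll) (fun j => Cov_herm (by
    rw [hlam]; exact lamk_symm _ _)) hpd hCl
  -- Gaussian masses
  have hpe' : ∃ j0 : ℕ, ∀ j, j0 ≤ j → (Cov (lam (φ j))).PosDef := eventually_atTop.1 hpe
  obtain ⟨j0, hj0⟩ := hpe'
  have hgt := gauss_tendsto (fun j => Cov (lam (φ (j + j0)))) (Cov ll)
    (fun j => (hj0 (j + j0) (by omega)).posSemidef) hpd (hCl.comp (tendsto_add_atTop_nat j0)) B hBf
  -- the thickening
  have hfr : (γ : Measure (EuclideanSpace ℝ (Fin m))) (frontier B) = 0 := by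
    rw [hγ]; exact gauss_ac hpd hBf
  have hcl : (γ : Measure (EuclideanSpace ℝ (Fin m))) (closure B) =
      (γ : Measure (EuclideanSpace ℝ (Fin m))) B := closure_ae_eq_of_null_frontier hfr |> measure_congr
  have hth := tendsto_measure_cthickening (μ := (γ : Measure (EuclideanSpace ℝ (Fin m)))) (s := B)
    ⟨1, one_pos, measure_ne_top _ _⟩
  rw [hcl] at hth
  have hB0 : ENNReal.ofReal ((γ : Measure (EuclideanSpace ℝ (Fin m))).real B + ε / 4) >
      (γ : Measure (EuclideanSpace ℝ (Fin m))) B := by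
    have h1 : (γ : Measure (EuclideanSpace ℝ (Fin m))) B =
        ENNReal.ofReal ((γ : Measure (EuclideanSpace ℝ (Fin m))).real B) := by
      rw [measureReal_def, ENNReal.ofReal_toReal (measure_ne_top _ _)]
    rw [h1]
    refine (ENNReal.ofReal_lt_ofReal_iff (by positivity)).2 (by linarith)
  obtain ⟨η, hη1, hη0⟩ : ∃ η : ℝ, (γ : Measure (EuclideanSpace ℝ (Fin m))) (Metric.cthickening η B) <
      ENNReal.ofReal ((γ : Measure (EuclideanSpace ℝ (Fin m))).real B + ε / 4) ∧ 0 < η := by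
    have h1 := hth.eventually (gt_mem_nhds hB0)
    have h2 : ∀ᶠ η : ℝ in 𝓝[>] 0, (γ : Measure (EuclideanSpace ℝ (Fin m))) (Metric.cthickening η B) <
      ENNReal.ofReal ((γ : Measure (EuclideanSpace ℝ (Fin m))).real B + ε / 4) := h1.filter_mono nhdsWithin_le_nhds
    exact (h2.and self_mem_nhdsWithin).exists
  have hlim := eventually_lt_of_limsup_lt
    (lt_of_le_of_lt (ProbabilityMeasure.limsup_measure_closed_le_of_tendsto hwc
      (Metric.isClosed_cthickening (δ := η) (E := B))) hη1)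
  have e2 : Tendsto (fun j => 1 / ((φ j : ℝ) + 1)) atTop (𝓝 0) := by
    have : Tendsto (fun j => (φ j : ℝ) + 1) atTop atTop := tendsto_atTop_add_const_right _ _ hφt
    simp only [one_div]
    exact this.inv_tendsto_atTop
  have e3 := e2.eventually (gt_mem_nhds (show (0 : ℝ) < η / (m + 1) by positivity))
  have e5 : ∀ᶠ j in atTop, (γ : Measure (EuclideanSpace ℝ (Fin m))).real B - ε / 4 <
      (multivariateGaussian 0 (Cov (lam (φ j)))).real B := by
    have h1 : (γ : Measure (EuclideanSpace ℝ (Fin m))).real B - ε / 4 <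
        (multivariateGaussian 0 (Cov ll)).real B := by
      rw [hγ]
      show (multivariateGaussian 0 (Cov ll)).real B - ε / 4 < _
      linarith
    have h2 := hgt.eventually (lt_mem_nhds h1)
    rw [eventually_atTop] at h2 ⊢
    obtain ⟨b, hb⟩ := h2
    refine ⟨b + j0, fun j hj => ?_⟩
    have := hb (j - j0) (by omega)
    rwa [Nat.sub_add_cancel (by omega)] at this
  obtain ⟨j, g1, g3, g4, g5⟩ := (hlim.and (e3.and (hpe.and e5))).exists
  have hTj := hT0 (φ j)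
  have hsub : Nr (k (φ j)) (h (φ j)) (T (φ j)) (1 / ((φ j : ℝ) + 1)) B ⊆
      (xi (k (φ j)) (h (φ j)) (T (φ j))) ⁻¹' (Metric.cthickening η B) ∩ Icc (T (φ j)) (2 * T (φ j)) := by
    rintro t ⟨ht, y, hy1, hy2⟩
    refine ⟨?_, ht⟩
    rw [mem_preimage]
    refine Metric.mem_cthickening_of_dist_le _ y _ _ hy1 ?_
    rw [EuclideanSpace.dist_eq]
    have h1 : ∑ i, dist ((xi (k (φ j)) (h (φ j)) (T (φ j)) t).ofLp i) (y.ofLp i) ^ 2 ≤ η ^ 2 := by
      calc ∑ i, dist ((xi (k (φ j)) (h (φ j)) (T (φ j)) t).ofLp i) (y.ofLp i) ^ 2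
          ≤ ∑ _i : Fin m, (η / (m + 1)) ^ 2 := by
            refine Finset.sum_le_sum fun i _ => ?_
            apply pow_le_pow_left₀ dist_nonneg
            rw [Real.dist_eq]
            exact (hy2 i).trans g3.le
        _ = m * (η / (m + 1)) ^ 2 := by rw [Finset.sum_const, Finset.card_univ, Fintype.card_fin, nsmul_eq_mul]
        _ ≤ η ^ 2 := by
            rw [div_pow, mul_div_assoc', div_le_iff₀ (by positivity)]
            have hm : (0 : ℝ) ≤ m := Nat.cast_nonneg _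
            nlinarith [sq_nonneg η, mul_nonneg hm (sq_nonneg η), mul_nonneg (mul_nonneg hm hm) (sq_nonneg η)]
    calc Real.sqrt (∑ i, dist ((xi (k (φ j)) (h (φ j)) (T (φ j)) t).ofLp i) (y.ofLp i) ^ 2)
        ≤ Real.sqrt (η ^ 2) := Real.sqrt_le_sqrt h1
      _ = η := Real.sqrt_sq hη0.le
  have hmc : MeasurableSet (Metric.cthickening η B) := Metric.isClosed_cthickening.measurableSet
  have g6 : volume ((xi (k (φ j)) (h (φ j)) (T (φ j))) ⁻¹' (Metric.cthickening η B) ∩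
      Icc (T (φ j)) (2 * T (φ j))) <
      ENNReal.ofReal (((γ : Measure (EuclideanSpace ℝ (Fin m))).real B + ε / 4) * T (φ j)) := by
    rw [hν] at g1
    have h1 : nuT (k (φ j)) (h (φ j)) (T (φ j)) (Metric.cthickening η B) <
      ENNReal.ofReal ((γ : Measure (EuclideanSpace ℝ (Fin m))).real B + ε / 4) := g1
    unfold nuT Pm at h1
    rw [Measure.map_apply (xi_meas _ _ _) hmc, Measure.smul_apply, smul_eq_mul,
      Measure.restrict_apply ((xi_meas _ _ _) hmc)] at h1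
    have h2 : ENNReal.ofReal (T (φ j)) * ENNReal.ofReal (1 / T (φ j)) = 1 := by
      rw [← ENNReal.ofReal_mul hTj.le, mul_one_div_cancel hTj.ne', ENNReal.ofReal_one]
    have h3 := ENNReal.mul_lt_mul_right (a := ENNReal.ofReal (T (φ j))) (by
      rw [ne_eq, ENNReal.ofReal_eq_zero, not_le]; exact hTj) ENNReal.ofReal_ne_top h1
    rw [← mul_assoc, h2, one_mul, ← ENNReal.ofReal_mul hTj.le,
      mul_comm (T (φ j)) ((γ : Measure (EuclideanSpace ℝ (Fin m))).real B + ε / 4)] at h3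
    exact h3
  have g7 := measureReal_mono hsub g6.ne_top
  have g8 : volume.real ((xi (k (φ j)) (h (φ j)) (T (φ j))) ⁻¹' (Metric.cthickening η B) ∩
      Icc (T (φ j)) (2 * T (φ j))) ≤
      ((γ : Measure (EuclideanSpace ℝ (Fin m))).real B + ε / 4) * T (φ j) := by
    rw [measureReal_def]
    refine (ENNReal.toReal_mono ENNReal.ofReal_ne_top g6.le).trans (le_of_eq ?_)
    refine ENNReal.toReal_ofReal (mul_nonneg ?_ hTj.le)
    have : 0 ≤ (γ : Measure (EuclideanSpace ℝ (Fin m))).real B := measureReal_nonneg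
    linarith
  have g9 := q4 (φ j) (by rw [hlam] at g4; exact g4)
  rw [hlam] at g5
  simp only at g5
  have g10 : ((γ : Measure (EuclideanSpace ℝ (Fin m))).real B + ε / 4) * T (φ j) ≤
      ((multivariateGaussian 0 (Cov (lamk (h (φ j)) (k (φ j))))).real B + ε) * T (φ j) :=
    mul_le_mul_of_nonneg_right (by linarith) hTj.le
  linarith

end Pool.Agent.X112.LF
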