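import Pool.Agent.X112.LF.Law2
import Pool.Agent.X112.LF.Ind
import Pool.Agent.X112.GS.Dy

/-! # The joint law of the displacements at the zeros -/

set_option autoImplicit false

namespace Pool.Agent.X112.LF

open MeasureTheory ProbabilityTheory Filter Topology Set
open SG (ord NZ)
open Pool.Agent.X112.GS (yy inc few_wide gap_close dyadic_sharp)
open scoped Matrix MatrixOrder Matrix.Norms.L2Operator

/-- the Gaussian law belonging to the pattern -/
noncomputable def GK {m : ℕ} (h : ℕ) (k : Fin (m + 1) → ℕ) : Measure (EuclideanSpace ℝ (Fin m)) :=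
  multivariateGaussian 0 (Cov (lamk (h : ℝ) (fun i => (k i : ℝ))))

instance {m : ℕ} (h : ℕ) (k : Fin (m + 1) → ℕ) : IsProbabilityMeasure (GK h k) := by
  unfold GK; infer_instance

/-- the normalised displacements at the zeros -/
noncomputable def dv {m : ℕ} (h : ℕ) (k : Fin (m + 1) → ℕ) (n : ℕ) : EuclideanSpace ℝ (Fin m) :=
  WithLp.toLp 2 fun p =>
    ((ord (n + k p.succ) - ord n) * Real.log (ord n) / (2 * Real.pi) - k p.succ) / Real.sqrt (Real.log h)

theorem block_law (A m : ℕ) (hA : 1 ≤ A) (B : Set (EuclideanSpace ℝ (Fin m)))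
    (hBf : volume (frontier B) = 0) (ε : ℝ) (hε : 0 < ε) : ∃ δ : ℝ, 0 < δ ∧
    ∀ᶠ h : ℕ in atTop, ∀ k : Fin (m + 1) → ℕ, Tup A h k →
      (Cov (lamk (h : ℝ) (fun i => (k i : ℝ)))).PosDef ∧ ∃ T0 : ℝ, 1 ≤ T0 ∧ ∀ T : ℝ, T0 ≤ T →
      ∀ F : Finset ℕ, F ⊆ Finset.Ioc (NZ T) (NZ (2 * T)) →
      (∀ n ∈ F, ∃ y ∈ B, ∀ p, |vec T h k n p - y p| ≤ δ) →
      (F.card : ℝ) ≤ ((GK h k).real B + ε) * (T * Real.log T / (2 * Real.pi)) := by
  have hpi := Real.pi_pos
  obtain ⟨R, δ, hR3, hδ, hsb⟩ := law_t A 1 le_rfl m B hBf (ε / 2) (by positivity)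
  refine ⟨δ / 2, by positivity, ?_⟩
  filter_upwards [block_gen A m hA (δ / 2) (ε / 2) (by positivity) (by positivity), eventually_ge_atTop 3,
    (tendsto_natCast_atTop_atTop (R := ℝ)).eventually_ge_atTop R] with h hb hh3 hhR k hk
  obtain ⟨hk0, hk1, hk2⟩ := hk
  obtain ⟨T1, hT1, hT⟩ := hb k hk0 hk2
  have hh3' : (3 : ℝ) ≤ h := by exact_mod_cast hh3
  have hlh : 0 < Real.log h := Real.log_pos (by linarith)
  have hsh : 0 < Real.sqrt (Real.log h) := Real.sqrt_pos.2 hlh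
  obtain ⟨K, hK⟩ : ∃ K : ℝ, K = (h : ℝ) ^ A := ⟨_, rfl⟩
  have hhK : (h : ℝ) ≤ K := by
    rw [hK]
    calc (h : ℝ) = (h : ℝ) ^ 1 := (pow_one _).symm
      _ ≤ (h : ℝ) ^ A := pow_le_pow_right₀ (by linarith) hA
  have hkK : ∀ i, (k i : ℝ) ≤ K := fun i => by rw [hK]; exact_mod_cast hk2 i
  have hk00 : ∀ i, (0 : ℝ) ≤ k i := fun i => Nat.cast_nonneg _
  obtain ⟨T2, hT2⟩ := ((Real.tendsto_log_atTop.eventually_ge_atTop (K * Real.log K)).and
    (eventually_ge_atTop (2 : ℝ))).exists_forall_of_atTop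
  obtain ⟨k', hk'⟩ : ∃ k' : Fin (m + 1) → ℝ, k' = fun i => (k i : ℝ) := ⟨_, rfl⟩
  have hpt : ∀ T : ℝ, T2 ≤ T → Pt A 1 (h : ℝ) K T k' := by
    intro T hTT
    obtain ⟨g1, g2⟩ := hT2 T hTT
    refine ⟨hhK, hK.le, by linarith, by linarith, ?_, ?_, ?_, ?_⟩
    · rw [hk']; exact hk1
    · intro i j
      rw [hk']
      have a1 := hk00 i
      have a2 := hkK i
      have a3 := hk00 j
      have a4 := hkK j
      rw [abs_le]
      constructor <;> linarith
    · rw [hk']; simp [hk0]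
    · rw [hk']; exact hk00
  refine ⟨by rw [← hk']; exact (hsb h K T2 k' hhR (hpt T2 le_rfl)).1, ?_⟩
  refine ⟨max T1 T2, hT1.trans (le_max_left _ _), ?_⟩
  intro T hTT F hF hFs
  have hTT1 : T1 ≤ T := (le_max_left _ _).trans hTT
  have hTT2 : T2 ≤ T := (le_max_right _ _).trans hTT
  obtain ⟨g1, g2⟩ := hT2 T hTT2
  have hL : 0 < Real.log T := Real.log_pos (by linarith)
  have hsm := (hsb h K T k' hhR (hpt T hTT2)).2
  obtain ⟨D, hD⟩ : ∃ D : Set ℝ, D = toMeasurable volume (Nr k' h T δ B) ∩ Icc T (2 * T) := ⟨_, rfl⟩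
  have hDm : MeasurableSet D := by
    rw [hD]; exact (measurableSet_toMeasurable _ _).inter measurableSet_Icc
  have hSfin : volume (Nr k' h T δ B) ≠ ⊤ := by
    refine ne_top_of_le_ne_top ?_ (measure_mono (show Nr k' h T δ B ⊆ Icc T (2 * T) from fun t ht => ht.1))
    rw [Real.volume_Icc]
    exact ENNReal.ofReal_ne_top
  have hDv : volume.real D ≤ ((GK h k).real B + ε / 2) * T := by
    have hGK : (GK h k).real B = (multivariateGaussian 0 (Cov (lamk (h : ℝ) k'))).real B := by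
      unfold GK; rw [hk']
    rw [hGK]
    refine le_trans ?_ hsm
    rw [measureReal_def, measureReal_def]
    refine ENNReal.toReal_mono hSfin ?_
    rw [← measure_toMeasurable (Nr k' h T δ B), hD]
    exact measure_mono inter_subset_left
  have h1 := hT T hTT1 F D hDm (by rw [hD]; exact inter_subset_right) hF (by
    intro n hn t ht hcl
    rw [hD]
    obtain ⟨y, hy, hyd⟩ := hFs n hn
    refine ⟨subset_toMeasurable _ _ ⟨ht, y, hy, fun p => ?_⟩, ht⟩
    have h2 := hcl p.succ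
    have h3 : xi k' h T t p - vec T h k n p = -((ord (n + k p.succ) - ord n) / (2 * Real.pi / Real.log T) -
        k p.succ + ((NZ (t + k p.succ * (2 * Real.pi / Real.log T)) : ℝ) - NZ t - k p.succ)) /
        Real.sqrt (Real.log h) := by
      unfold xi vec
      rw [hk']
      simp only
      ring
    have h4 : |xi k' h T t p - vec T h k n p| ≤ δ / 2 := by
      rw [h3, abs_div, abs_neg, abs_of_pos hsh, div_le_iff₀ hsh]
      exact h2
    have h5 := abs_add_le (xi k' h T t p - vec T h k n p) (vec T h k n p - y p)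
    rw [sub_add_sub_cancel] at h5
    linarith [hyd p])
  refine h1.trans ?_
  have h4 : (volume.real D + ε / 2 * T) * (Real.log T / (2 * Real.pi)) ≤
      (((GK h k).real B + ε) * T) * (Real.log T / (2 * Real.pi)) := by
    apply mul_le_mul_of_nonneg_right _ (by positivity)
    linarith
  refine h4.trans (le_of_eq ?_)
  ring

theorem ind_upper (A m : ℕ) (hA : 1 ≤ A) (B : Set (EuclideanSpace ℝ (Fin m)))
    (hBf : volume (frontier B) = 0) (ε : ℝ) (hε : 0 < ε) :
    ∀ᶠ h : ℕ in atTop, ∀ k : Fin (m + 1) → ℕ, Tup A h k →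
      (Cov (lamk (h : ℝ) (fun i => (k i : ℝ)))).PosDef ∧ ∀ᶠ N : ℕ in atTop,
      ({n : ℕ | 1 ≤ n ∧ n ≤ N ∧ dv h k n ∈ B}.ncard : ℝ) ≤ ((GK h k).real B + ε) * N := by
  classical
  have hpi := Real.pi_pos
  obtain ⟨δ, hδ, hb⟩ := block_law A m hA B hBf (ε / 2) (by positivity)
  filter_upwards [hb, eventually_ge_atTop 3] with h hh hh3 k hk
  obtain ⟨hpd, T0, hT0, hT⟩ := hh k hk
  refine ⟨hpd, ?_⟩
  have hh3' : (3 : ℝ) ≤ h := by exact_mod_cast hh3
  have hlh : 1 ≤ Real.log h := by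
    rw [Real.le_log_iff_exp_le (by linarith)]
    linarith [Real.exp_one_lt_d9]
  have hsq1 : 1 ≤ Real.sqrt (Real.log h) := by
    rw [show (1 : ℝ) = Real.sqrt 1 by simp]
    exact Real.sqrt_le_sqrt hlh
  obtain ⟨L, hL⟩ : ∃ L : ℕ, L = h ^ A := ⟨_, rfl⟩
  obtain ⟨K, hK, hwide⟩ := few_wide (ε / 8) (by positivity) L
  obtain ⟨n1, hn11, hn1⟩ := gap_close K 1 hK one_pos L
  have hord : Tendsto ord atTop atTop := Pool.Agent.Y743.LR.ord_tendsto
  have hlog : Tendsto (fun n => Real.log (ord n)) atTop atTop := Real.tendsto_log_atTop.comp hord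
  obtain ⟨n2, hn2⟩ := ((hlog.eventually_ge_atTop (L * (2 * Real.pi * (K + 1)) / δ)).and
    (hlog.eventually_gt_atTop 0)).exists_forall_of_atTop
  have hbig : ∀ᶠ N : ℕ in atTop, ((n1 + n2 : ℕ) : ℝ) ≤ ε / 8 * N :=
    (tendsto_natCast_atTop_atTop.const_mul_atTop (show (0 : ℝ) < ε / 8 by positivity)).eventually_ge_atTop _
  obtain ⟨P, hP⟩ : ∃ P : ℕ → Prop, P = fun n => (n1 + n2 ≤ n ∧ ∀ l < L, |inc yy (n + l)| ≤ K) ∧
    dv h k n ∈ B := ⟨_, rfl⟩
  have hG0 : 0 ≤ (GK h k).real B := measureReal_nonneg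
  have hmain := dyadic_sharp P ((GK h k).real B + ε / 2) T0 (by positivity) hT0 (by
    intro T hTT
    have hT1 : 1 ≤ T := hT0.trans hTT
    refine hT T hTT _ (Finset.filter_subset _ _) ?_
    intro n hn
    rw [Finset.mem_filter, Finset.mem_Ioc] at hn
    obtain ⟨⟨a1, a2⟩, a3⟩ := hn
    rw [hP] at a3
    obtain ⟨⟨a4, a5⟩, a6⟩ := a3
    have hn0 : 1 ≤ n := by omega
    have hxT : T ≤ ord n := by
      by_contra hcon
      push Not at hcon
      have := (SG.ord_le_iff hn0 T).mp hcon.le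
      omega
    have hxT2 : ord n ≤ 2 * T := (SG.ord_le_iff hn0 (2 * T)).mpr a2
    obtain ⟨hn3, hcl⟩ := hn1 n (by omega)
    obtain ⟨hpos, hcl2⟩ := hcl a5
    obtain ⟨hgrow, hlpos⟩ := hn2 n (by omega)
    refine ⟨dv h k n, a6, fun p => ?_⟩
    obtain ⟨q, hq⟩ : ∃ q : ℕ, q = k p.succ := ⟨_, rfl⟩
    have hqL : q ≤ L := by rw [hq, hL]; exact hk.2.2 _
    -- the length of the window
    have hlen : ∀ j, j ≤ L → (ord (n + j) - ord n) * (Real.log (ord n) / (2 * Real.pi)) ≤ j * (K + 1) := by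
      intro j
      induction j with
      | zero => intro _; simp
      | succ j ih =>
        intro hj
        have b1 := ih (by omega)
        have b2 := (abs_le.1 (hcl2 0 (by omega) j (by omega) (by omega))).2
        have b3 := (abs_le.1 (a5 j (by omega))).2
        rw [add_zero] at b2
        rw [← add_assoc]
        push_cast
        have b4 : (ord (n + j + 1) - ord n) * (Real.log (ord n) / (2 * Real.pi)) =
          (ord (n + j) - ord n) * (Real.log (ord n) / (2 * Real.pi)) +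
          (ord (n + j + 1) - ord (n + j)) * Real.log (ord n) / (2 * Real.pi) := by ring
        rw [b4]
        linarith
    have c1 := hlen q hqL
    have c2 : (q : ℝ) ≤ L := by exact_mod_cast hqL
    have c3 : 0 ≤ ord (n + q) - ord n := by linarith [(hpos q hqL).1]
    have c4 : ord (n + q) - ord n ≤ δ := by
      have d1 : (q : ℝ) * (K + 1) ≤ L * (K + 1) := mul_le_mul_of_nonneg_right c2 (by linarith)
      rw [div_le_iff₀ hδ] at hgrow
      have d2 : (ord (n + q) - ord n) * Real.log (ord n) ≤ L * (2 * Real.pi * (K + 1)) := by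
        have d3 := c1.trans d1
        rw [mul_div_assoc', div_le_iff₀ (by positivity)] at d3
        linarith
      by_contra hcon
      push Not at hcon
      nlinarith
    have e1 : 0 ≤ Real.log (ord n) - Real.log T := by
      have := Real.log_le_log (by linarith : 0 < T) hxT
      linarith
    have e2 : Real.log (ord n) - Real.log T ≤ 1 := by
      have h1 := Real.log_le_log (by linarith : 0 < ord n) hxT2
      rw [Real.log_mul (by norm_num) (by linarith)] at h1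
      linarith [Real.log_two_lt_d9]
    have e3 : vec T h k n p - dv h k n p = -((ord (n + q) - ord n) *
        (Real.log (ord n) - Real.log T) / (2 * Real.pi)) / Real.sqrt (Real.log h) := by
      have ev : vec T h k n p = ((ord (n + q) - ord n) / (2 * Real.pi / Real.log T) - q) /
          Real.sqrt (Real.log h) := by unfold vec; rw [hq]
      have ed : dv h k n p = ((ord (n + q) - ord n) * Real.log (ord n) / (2 * Real.pi) - q) /
          Real.sqrt (Real.log h) := by unfold dv; rw [hq]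
      rw [ev, ed, div_div_eq_mul_div]
      ring
    rw [e3, abs_div, abs_neg, abs_of_nonneg (by positivity), abs_of_pos (by linarith : 0 < Real.sqrt (Real.log h)),
      div_le_iff₀ (by linarith)]
    have e4 : (ord (n + q) - ord n) * (Real.log (ord n) - Real.log T) / (2 * Real.pi) ≤ δ := by
      rw [div_le_iff₀ (by positivity)]
      have f1 : (ord (n + q) - ord n) * (Real.log (ord n) - Real.log T) ≤ δ * 1 :=
        mul_le_mul c4 e2 e1 hδ.le
      nlinarith [Real.pi_gt_three]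
    nlinarith) (ε / 8) (by positivity)
  filter_upwards [hmain, hwide, hbig] with N h1 h2 h3
  have hsub : {n : ℕ | 1 ≤ n ∧ n ≤ N ∧ dv h k n ∈ B} ⊆
      (((Finset.Icc 1 N).filter P ∪
        ((Finset.Icc 1 N).filter (fun n => ¬ ∀ l < L, |inc yy (n + l)| ≤ K) ∪ Finset.Icc 1 (n1 + n2)) :
          Finset ℕ) : Set ℕ) := by
    rintro n ⟨hn1', hn2', hsm⟩
    rw [Finset.mem_coe, Finset.mem_union, Finset.mem_union]
    by_contra hcon
    rw [not_or, not_or] at hcon
    obtain ⟨c1, c2, c3⟩ := hcon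
    have hnI : n ∈ Finset.Icc 1 N := Finset.mem_Icc.2 ⟨hn1', hn2'⟩
    apply c1
    rw [Finset.mem_filter]
    refine ⟨hnI, ?_⟩
    rw [hP]
    refine ⟨⟨?_, ?_⟩, hsm⟩
    · by_contra hc
      exact c3 (Finset.mem_Icc.mpr ⟨hn1', by omega⟩)
    · by_contra hc
      exact c2 (Finset.mem_filter.mpr ⟨hnI, hc⟩)
  have h4 := Set.ncard_le_ncard hsub (Finset.finite_toSet _)
  rw [Set.ncard_coe_finset] at h4
  have h5 := Finset.card_union_le ((Finset.Icc 1 N).filter P)
    ((Finset.Icc 1 N).filter (fun n => ¬ ∀ l < L, |inc yy (n + l)| ≤ K) ∪ Finset.Icc 1 (n1 + n2))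
  have h6 := Finset.card_union_le ((Finset.Icc 1 N).filter (fun n => ¬ ∀ l < L, |inc yy (n + l)| ≤ K))
      (Finset.Icc 1 (n1 + n2))
  rw [Nat.card_Icc, Nat.add_sub_cancel] at h6
  have h8 := h4.trans (h5.trans (Nat.add_le_add_left h6 _))
  have h9 : (({n : ℕ | 1 ≤ n ∧ n ≤ N ∧ dv h k n ∈ B}.ncard : ℕ) : ℝ) ≤
      (((Finset.Icc 1 N).filter P).card : ℝ) +
      ((((Finset.Icc 1 N).filter (fun n => ¬ ∀ l < L, |inc yy (n + l)| ≤ K)).card : ℝ) +
      ((n1 + n2 : ℕ) : ℝ)) := by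
    exact_mod_cast h8
  have h2' : ((((Finset.Icc 1 N).filter (fun n => ¬ ∀ l < L, |inc yy (n + l)| ≤ K)).card : ℝ)) ≤ ε / 8 * N := by
    refine le_trans (le_of_eq ?_) h2
    congr!
  have hN0 : (0 : ℝ) ≤ ε * N := by positivity
  nlinarith

theorem ind_law (A m : ℕ) (hA : 1 ≤ A) (B : Set (EuclideanSpace ℝ (Fin m)))
    (hBf : volume (frontier B) = 0) (ε : ℝ) (hε : 0 < ε) :
    ∀ᶠ h : ℕ in atTop, ∀ k : Fin (m + 1) → ℕ, Tup A h k →
      (Cov (lamk (h : ℝ) (fun i => (k i : ℝ)))).PosDef ∧ ∀ᶠ N : ℕ in atTop,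
      |({n : ℕ | 1 ≤ n ∧ n ≤ N ∧ dv h k n ∈ B}.ncard : ℝ) - (GK h k).real B * N| ≤ ε * N := by
  filter_upwards [ind_upper A m hA B hBf ε hε, ind_upper A m hA Bᶜ (by rwa [frontier_compl]) ε hε]
    with h h1 h2 k hk
  obtain ⟨hpd, g1⟩ := h1 k hk
  obtain ⟨-, g2⟩ := h2 k hk
  refine ⟨hpd, ?_⟩
  have hcompl : (GK h k).real B + (GK h k).real Bᶜ = 1 := by
    have hfr : GK h k (frontier B) = 0 := by
      unfold GK
      exact gauss_ac hpd hBf
    have hnm : NullMeasurableSet B (GK h k) :=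
      (isClosed_closure (s := B)).measurableSet.nullMeasurableSet.congr (closure_ae_eq_of_null_frontier hfr)
    have := measure_add_measure_compl₀ hnm
    rw [measure_univ] at this
    rw [measureReal_def, measureReal_def, ← ENNReal.toReal_add (measure_ne_top _ _) (measure_ne_top _ _), this]
    rfl
  filter_upwards [g1, g2] with N a1 a2
  have hun : {n : ℕ | 1 ≤ n ∧ n ≤ N ∧ dv h k n ∈ B} ∪ {n : ℕ | 1 ≤ n ∧ n ≤ N ∧ dv h k n ∈ Bᶜ} =
      ((Finset.Icc 1 N : Finset ℕ) : Set ℕ) := by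
    ext n
    simp only [mem_union, mem_ofPred_eq, mem_compl_iff, Finset.coe_Icc, mem_Icc]
    tauto
  have hfin1 : {n : ℕ | 1 ≤ n ∧ n ≤ N ∧ dv h k n ∈ B}.Finite :=
    (Finset.finite_toSet (Finset.Icc 1 N)).subset (by rw [← hun]; exact subset_union_left)
  have hfin2 : {n : ℕ | 1 ≤ n ∧ n ≤ N ∧ dv h k n ∈ Bᶜ}.Finite :=
    (Finset.finite_toSet (Finset.Icc 1 N)).subset (by rw [← hun]; exact subset_union_right)
  have hc := Set.ncard_union_eq (s := {n : ℕ | 1 ≤ n ∧ n ≤ N ∧ dv h k n ∈ B})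
    (t := {n : ℕ | 1 ≤ n ∧ n ≤ N ∧ dv h k n ∈ Bᶜ}) (by
      rw [Set.disjoint_left]
      rintro n ⟨_, _, hb⟩ ⟨_, _, hb'⟩
      exact hb' hb) hfin1 hfin2
  rw [hun, Set.ncard_coe_finset, Nat.card_Icc, Nat.add_sub_cancel] at hc
  have hc' : (N : ℝ) = ({n : ℕ | 1 ≤ n ∧ n ≤ N ∧ dv h k n ∈ B}.ncard : ℝ) +
      ({n : ℕ | 1 ≤ n ∧ n ≤ N ∧ dv h k n ∈ Bᶜ}.ncard : ℝ) := by exact_mod_cast hc
  have e : (GK h k).real Bᶜ = 1 - (GK h k).real B := by linarith
  rw [e] at a2
  rw [abs_le]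
  constructor
  · nlinarith
  · linarith

end Pool.Agent.X112.LF
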