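import Pool.Agent.X112.LF.Law3
import Mathlib.Analysis.Convex.Measure

/-! # All orderings are equally frequent -/

set_option autoImplicit false

namespace Pool.Agent.X112.LF

open MeasureTheory ProbabilityTheory Filter Topology Set Complex
open SG (ord NZ)
open scoped Matrix MatrixOrder Matrix.Norms.L2Operator RealInnerProductSpace

/-- the vectors `y` for which `0, y_1, ..., y_m` are in the order given by the permutation -/
def BS {m : ℕ} (σ : Equiv.Perm (Fin (m + 1))) : Set (EuclideanSpace ℝ (Fin m)) :=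
  {y | StrictMono fun i => (Fin.cons 0 (fun p => y p) : Fin (m + 1) → ℝ) (σ i)}

/-- the ordered vectors -/
def AS {m : ℕ} (σ : Equiv.Perm (Fin (m + 1))) : Set (EuclideanSpace ℝ (Fin (m + 1))) :=
  {g | StrictMono fun i => g (σ i)}

lemma cons_add {m : ℕ} (y z : Fin m → ℝ) (a b : ℝ) (i : Fin (m + 1)) :
    (Fin.cons 0 (fun p => a * y p + b * z p) : Fin (m + 1) → ℝ) i =
      a * (Fin.cons 0 y : Fin (m + 1) → ℝ) i + b * (Fin.cons 0 z : Fin (m + 1) → ℝ) i := by
  refine Fin.cases ?_ (fun p => ?_) i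
  · simp
  · simp

lemma BS_null {m : ℕ} (σ : Equiv.Perm (Fin (m + 1))) : volume (frontier (BS σ)) = 0 := by
  apply Convex.addHaar_frontier
  intro y hy z hz a b ha hb hab i j hij
  have h1 := hy hij
  have h2 := hz hij
  simp only at h1 h2
  have e : (fun p => (a • y + b • z) p) = fun p => a * y p + b * z p := by
    funext p
    simp
  simp only
  rw [e, cons_add, cons_add]
  rcases ha.eq_or_lt with h0 | h0
  · have : b = 1 := by linarith
    rw [← h0, this]
    simpa using h2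
  · have h3 : a * (Fin.cons 0 (fun p => y p) : Fin (m + 1) → ℝ) (σ i) <
        a * (Fin.cons 0 (fun p => y p) : Fin (m + 1) → ℝ) (σ j) := mul_lt_mul_of_pos_left h1 h0
    have h4 : b * (Fin.cons 0 (fun p => z p) : Fin (m + 1) → ℝ) (σ i) ≤
        b * (Fin.cons 0 (fun p => z p) : Fin (m + 1) → ℝ) (σ j) := mul_le_mul_of_nonneg_left h2.le hb
    linarith

lemma AS_open {m : ℕ} (σ : Equiv.Perm (Fin (m + 1))) : IsOpen (AS σ) := by
  have h1 : AS σ = ⋂ i : Fin (m + 1), ⋂ j : Fin (m + 1), {g : EuclideanSpace ℝ (Fin (m + 1)) |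
      i < j → g (σ i) < g (σ j)} := by
    ext g
    simp only [AS, mem_ofPred_eq, mem_iInter]
    exact ⟨fun h i j hij => h hij, fun h i j hij => h i j hij⟩
  rw [h1]
  refine isOpen_iInter_of_finite fun i => isOpen_iInter_of_finite fun j => ?_
  by_cases hij : i < j
  · have : {g : EuclideanSpace ℝ (Fin (m + 1)) | i < j → g (σ i) < g (σ j)} = {g | g (σ i) < g (σ j)} := by
      ext g; simp [hij]
    rw [this]
    exact isOpen_lt (by fun_prop) (by fun_prop)
  · have : {g : EuclideanSpace ℝ (Fin (m + 1)) | i < j → g (σ i) < g (σ j)} = univ := by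
      ext g; simp [hij]
    rw [this]
    exact isOpen_univ

/-- exchangeability -/
lemma AS_eq {m : ℕ} (σ : Equiv.Perm (Fin (m + 1))) :
    (stdGaussian (EuclideanSpace ℝ (Fin (m + 1)))) (AS σ) =
      (stdGaussian (EuclideanSpace ℝ (Fin (m + 1)))) (AS (1 : Equiv.Perm (Fin (m + 1)))) := by
  have h1 := stdGaussian_map (LinearIsometryEquiv.piLpCongrLeft 2 ℝ ℝ σ.symm)
  conv_rhs => rw [← h1]
  rw [Measure.map_apply (by fun_prop) (AS_open _).measurableSet]
  congr 1

lemma AS_disj {m : ℕ} {σ τ : Equiv.Perm (Fin (m + 1))} (h : σ ≠ τ) : Disjoint (AS σ) (AS τ) := by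
  rw [Set.disjoint_left]
  intro g hσ hτ
  apply h
  have h1 : (fun i => g (σ i)) = fun i => g (τ i) := by
    refine (StrictMono.range_inj hσ hτ).1 ?_
    rw [show (fun i => g (σ i)) = (fun i => g i) ∘ σ from rfl, show (fun i => g (τ i)) = (fun i => g i) ∘ τ from rfl,
      EquivLike.range_comp, EquivLike.range_comp]
  have hinj : Function.Injective fun i => g i := by
    intro i j hij
    have h2 := StrictMono.injective hσ (a₁ := σ.symm i) (a₂ := σ.symm j) (by simpa using hij)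
    exact σ.symm.injective h2
  ext i
  have := hinj (congrFun h1 i)
  rw [this]

lemma AS_cover {m : ℕ} (g : EuclideanSpace ℝ (Fin (m + 1))) (hg : Function.Injective fun i => g i) :
    ∃ σ : Equiv.Perm (Fin (m + 1)), g ∈ AS σ := by
  refine ⟨Tuple.sort (fun i => g i), ?_⟩
  have h1 := Tuple.monotone_sort (fun i => g i)
  have h2 : Function.Injective ((fun i => g i) ∘ Tuple.sort (fun i => g i)) :=
    hg.comp (Tuple.sort (fun i => g i)).injective
  exact h1.strictMono_of_injective h2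

lemma inj_ae {m : ℕ} : (stdGaussian (EuclideanSpace ℝ (Fin (m + 1))))
    {g | ¬ Function.Injective fun i => g i} = 0 := by
  have h1 : {g : EuclideanSpace ℝ (Fin (m + 1)) | ¬ Function.Injective fun i => g i} ⊆
      ⋃ p : {p : Fin (m + 1) × Fin (m + 1) // p.1 ≠ p.2},
        {x : EuclideanSpace ℝ (Fin (m + 1)) | MvPolynomial.eval (fun i => x i)
          (MvPolynomial.X p.1.1 - MvPolynomial.X p.1.2 : MvPolynomial (Fin (m + 1)) ℝ) = 0} := by
    intro g hg
    rw [mem_ofPred_eq, Function.Injective] at hg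
    push Not at hg
    obtain ⟨i, j, hij, hne⟩ := hg
    rw [mem_iUnion]
    refine ⟨⟨(i, j), hne⟩, ?_⟩
    simp only [mem_ofPred_eq, map_sub, MvPolynomial.eval_X]
    exact sub_eq_zero.2 hij
  refine measure_mono_null h1 (measure_iUnion_null fun p => ?_)
  rw [← multivariateGaussian_zero_one]
  refine gauss_null Matrix.PosDef.one _ ?_
  intro h0
  have h2 := sub_eq_zero.1 h0
  exact p.2 (MvPolynomial.X_injective h2)

lemma AS_val {m : ℕ} (σ : Equiv.Perm (Fin (m + 1))) :
    (stdGaussian (EuclideanSpace ℝ (Fin (m + 1)))).real (AS σ) = 1 / ((m + 1).factorial : ℝ) := by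
  obtain ⟨μ, hμ⟩ : ∃ μ, μ = stdGaussian (EuclideanSpace ℝ (Fin (m + 1))) := ⟨_, rfl⟩
  have hp : IsProbabilityMeasure μ := by rw [hμ]; infer_instance
  have h1 : μ (⋃ τ : Equiv.Perm (Fin (m + 1)), AS τ) = 1 := by
    have h2 : (⋃ τ : Equiv.Perm (Fin (m + 1)), AS τ)ᶜ ⊆ {g | ¬ Function.Injective fun i => g i} := by
      intro g hg hinj
      obtain ⟨τ, hτ⟩ := AS_cover g hinj
      exact hg (mem_iUnion.2 ⟨τ, hτ⟩)
    have h3 : μ (⋃ τ : Equiv.Perm (Fin (m + 1)), AS τ)ᶜ = 0 := by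
      rw [hμ]
      exact measure_mono_null h2 inj_ae
    exact (prob_compl_eq_zero_iff (MeasurableSet.iUnion fun τ => (AS_open τ).measurableSet)).1 h3
  rw [measure_iUnion (fun a b hab => AS_disj hab) (fun τ => (AS_open τ).measurableSet), tsum_fintype] at h1
  have h4 : ∀ τ : Equiv.Perm (Fin (m + 1)), μ (AS τ) = μ (AS σ) := fun τ => by
    rw [hμ, AS_eq τ, AS_eq σ]
  rw [Finset.sum_congr rfl (fun τ _ => h4 τ), Finset.sum_const, Finset.card_univ, Fintype.card_perm,
    Fintype.card_fin, nsmul_eq_mul] at h1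
  rw [← hμ, measureReal_def]
  have h5 := congrArg ENNReal.toReal h1
  rw [ENNReal.toReal_mul, ENNReal.toReal_natCast, ENNReal.toReal_one] at h5
  rw [eq_div_iff (by positivity), mul_comm]
  exact h5

/-- the exponents of a pattern with one scale -/
def lam1 {m : ℕ} (i j : Fin (m + 1)) : ℝ := if i = j then 0 else 1

lemma Cov1_quad {m : ℕ} (b : Fin m → ℝ) :
    b ⬝ᵥ Cov lam1 *ᵥ b = ((∑ p, b p) ^ 2 + ∑ p, b p ^ 2) / (2 * Real.pi ^ 2) := by
  have h1 : ∀ p q : Fin m, Cov lam1 p q = (1 + if p = q then 1 else 0) / (2 * Real.pi ^ 2) := by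
    intro p q
    unfold Cov lam1
    simp only [Matrix.of_apply, (Fin.succ_ne_zero p).symm, (Fin.succ_ne_zero q).symm, if_false,
      Fin.succ_inj]
    split_ifs <;> ring
  simp only [dotProduct, Matrix.mulVec, h1]
  have h2 : ∀ p, b p * ∑ q, (1 + if p = q then 1 else 0) / (2 * Real.pi ^ 2) * b q =
      (b p * (∑ q, b q) + b p ^ 2) / (2 * Real.pi ^ 2) := by
    intro p
    have h3 : ∑ q, (1 + if p = q then 1 else 0) / (2 * Real.pi ^ 2) * b q =
        (∑ q, b q + b p) / (2 * Real.pi ^ 2) := by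
      rw [add_div, Finset.sum_div]
      have h4 : b p / (2 * Real.pi ^ 2) = ∑ q, (if p = q then b q / (2 * Real.pi ^ 2) else 0) := by
        rw [Finset.sum_ite_eq]
        simp
      rw [h4, ← Finset.sum_add_distrib]
      refine Finset.sum_congr rfl fun q _ => ?_
      split_ifs <;> ring
    rw [h3]
    ring
  rw [Finset.sum_congr rfl (fun p _ => h2 p), ← Finset.sum_div, Finset.sum_add_distrib, ← Finset.sum_mul]
  ring

lemma Cov1_pd {m : ℕ} : (Cov (lam1 (m := m))).PosDef := by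
  refine Matrix.PosDef.of_dotProduct_mulVec_pos ?_ fun b hb => ?_
  · refine Cov_herm fun i j => ?_
    unfold lam1
    by_cases h : i = j
    · rw [if_pos h, if_pos h.symm]
    · rw [if_neg h, if_neg (Ne.symm h)]
  · rw [star_trivial, Cov1_quad]
    have h1 : 0 < ∑ p, b p ^ 2 := by
      obtain ⟨p, hp⟩ := Function.ne_iff.1 hb
      have hp' : b p ≠ 0 := hp
      exact Finset.sum_pos' (fun q _ => sq_nonneg _) ⟨p, Finset.mem_univ _, by positivity⟩
    have hpi := Real.pi_pos
    positivity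

/-- the linear map -/
noncomputable def LM {m : ℕ} (a : ℝ) : EuclideanSpace ℝ (Fin (m + 1)) → EuclideanSpace ℝ (Fin m) :=
  fun g => WithLp.toLp 2 fun p => a * (g p.succ - g 0)

lemma LM_meas {m : ℕ} (a : ℝ) : Measurable (LM (m := m) a) := by
  have : Continuous (LM (m := m) a) := by
    unfold LM
    fun_prop
  exact this.measurable

lemma LM_inner {m : ℕ} (a : ℝ) (g : EuclideanSpace ℝ (Fin (m + 1))) (b : EuclideanSpace ℝ (Fin m)) :
    ⟪LM a g, b⟫ = ⟪g, (WithLp.toLp 2 (Fin.cons (-a * ∑ p, b p) (fun p => a * b p) : Fin (m + 1) → ℝ) :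
      EuclideanSpace ℝ (Fin (m + 1)))⟫ := by
  rw [PiLp.inner_apply, PiLp.inner_apply, Fin.sum_univ_succ]
  simp only [LM, RCLike.inner_apply, conj_trivial, Fin.cons_zero, Fin.cons_succ]
  have h1 : ∀ p : Fin m, b p * (a * (g p.succ - g 0)) = a * b p * g p.succ - a * g 0 * b p := fun p => by ring
  rw [Finset.sum_congr rfl (fun p _ => h1 p), Finset.sum_sub_distrib, ← Finset.mul_sum]
  ring

lemma G1_eq {m : ℕ} : multivariateGaussian 0 (Cov (lam1 (m := m))) =
    (stdGaussian (EuclideanSpace ℝ (Fin (m + 1)))).map (LM (1 / Real.sqrt (2 * Real.pi ^ 2))) := by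
  have hpi := Real.pi_pos
  obtain ⟨a, ha⟩ : ∃ a : ℝ, a = 1 / Real.sqrt (2 * Real.pi ^ 2) := ⟨_, rfl⟩
  have ha2 : a ^ 2 = 1 / (2 * Real.pi ^ 2) := by
    rw [ha, div_pow, Real.sq_sqrt (by positivity), one_pow]
  rw [← ha]
  have hp : IsProbabilityMeasure ((stdGaussian (EuclideanSpace ℝ (Fin (m + 1)))).map (LM (m := m) a)) :=
    Measure.isProbabilityMeasure_map (LM_meas a).aemeasurable
  apply Measure.ext_of_charFun
  funext b
  rw [charFun_multivariateGaussian Cov1_pd.posSemidef]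
  rw [charFun_apply, integral_map (LM_meas a).aemeasurable (Continuous.aestronglyMeasurable (by fun_prop))]
  obtain ⟨w, hw⟩ : ∃ w : EuclideanSpace ℝ (Fin (m + 1)),
    w = WithLp.toLp 2 (Fin.cons (-a * ∑ p, b p) (fun p => a * b p) : Fin (m + 1) → ℝ) := ⟨_, rfl⟩
  have h1 : ∀ g : EuclideanSpace ℝ (Fin (m + 1)), cexp ((⟪LM a g, b⟫ : ℝ) * I) = cexp ((⟪g, w⟫ : ℝ) * I) := by
    intro g
    rw [LM_inner, hw]
  rw [integral_congr_ae (Filter.Eventually.of_forall h1)]
  have h2 : ∫ g, cexp ((⟪g, w⟫ : ℝ) * I) ∂(stdGaussian (EuclideanSpace ℝ (Fin (m + 1)))) =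
      charFun (stdGaussian (EuclideanSpace ℝ (Fin (m + 1)))) w := by
    rw [charFun_apply]
  rw [h2, charFun_stdGaussian]
  congr 1
  have h3 : ‖w‖ ^ 2 = (∑ p, b p) ^ 2 / (2 * Real.pi ^ 2) + (∑ p, b p ^ 2) / (2 * Real.pi ^ 2) := by
    rw [EuclideanSpace.real_norm_sq_eq, Fin.sum_univ_succ, hw]
    simp only [Fin.cons_zero, Fin.cons_succ]
    have h4 : ∀ p : Fin m, (a * b p) ^ 2 = a ^ 2 * b p ^ 2 := fun p => by ring
    rw [Finset.sum_congr rfl (fun p _ => h4 p), ← Finset.mul_sum, ha2]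
    rw [mul_pow, neg_sq, ha2]
    ring
  have h5 : (b.ofLp ⬝ᵥ Cov lam1 *ᵥ b.ofLp) = ‖w‖ ^ 2 := by
    rw [Cov1_quad, h3]
    ring
  rw [inner_zero_right, h5]
  push_cast
  ring

lemma G1_val {m : ℕ} (σ : Equiv.Perm (Fin (m + 1))) :
    (multivariateGaussian 0 (Cov (lam1 (m := m)))).real (BS σ) = 1 / ((m + 1).factorial : ℝ) := by
  have hpi := Real.pi_pos
  obtain ⟨a, ha⟩ : ∃ a : ℝ, a = 1 / Real.sqrt (2 * Real.pi ^ 2) := ⟨_, rfl⟩
  have ha0 : 0 < a := by rw [ha]; positivity
  have hBm : NullMeasurableSet (BS σ) ((stdGaussian (EuclideanSpace ℝ (Fin (m + 1)))).map (LM (m := m) a)) := by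
    have hfr : multivariateGaussian 0 (Cov (lam1 (m := m))) (frontier (BS σ)) = 0 := gauss_ac Cov1_pd (BS_null σ)
    rw [G1_eq, ← ha] at hfr
    exact (isClosed_closure (s := BS σ)).measurableSet.nullMeasurableSet.congr (closure_ae_eq_of_null_frontier hfr)
  rw [G1_eq, ← AS_val σ, ← ha, measureReal_def, measureReal_def,
    Measure.map_apply₀ (LM_meas a).aemeasurable hBm]
  congr 2
  ext g
  simp only [mem_preimage, BS, AS, mem_ofPred_eq]
  have h1 : ∀ i : Fin (m + 1), (Fin.cons 0 (fun p => (LM a g) p) : Fin (m + 1) → ℝ) i = a * (g i - g 0) := by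
    intro i
    refine Fin.cases ?_ (fun p => ?_) i
    · simp
    · simp [LM]
  simp only [h1]
  constructor
  · intro h i j hij
    have := h hij
    simp only at this ⊢
    have := lt_of_mul_lt_mul_left this ha0.le
    linarith
  · intro h i j hij
    have := h hij
    simp only at this ⊢
    exact mul_lt_mul_of_pos_left (by linarith) ha0

/-- patterns with one scale -/
def One {m : ℕ} (A h : ℕ) (k : Fin (m + 1) → ℕ) : Prop :=
  k 0 = 0 ∧ (∀ i j, i ≠ j → (h : ℝ) ≤ |(k i : ℝ) - k j|) ∧ ∀ i, k i ≤ A * h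

/-- the displacements -/
noncomputable def dD {m : ℕ} (k : Fin (m + 1) → ℕ) (n : ℕ) (i : Fin (m + 1)) : ℝ :=
  (ord (n + k i) - ord n) * Real.log (ord n) / (2 * Real.pi) - k i

theorem order_law (A m : ℕ) (hA : 1 ≤ A) (ε : ℝ) (hε : 0 < ε) :
    ∀ᶠ h : ℕ in atTop, ∀ k : Fin (m + 1) → ℕ, One A h k → ∀ᶠ N : ℕ in atTop,
      ∀ σ : Equiv.Perm (Fin (m + 1)),
      |({n : ℕ | 1 ≤ n ∧ n ≤ N ∧ StrictMono fun i => dD k n (σ i)}.ncard : ℝ) -
        N / ((m + 1).factorial : ℝ)| ≤ ε * N := by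
  have hall : ∀ᶠ h : ℕ in atTop, ∀ k : Fin (m + 1) → ℕ, Tup 2 h k → ∀ σ : Equiv.Perm (Fin (m + 1)),
      (Cov (lamk (h : ℝ) (fun i => (k i : ℝ)))).PosDef ∧ ∀ᶠ N : ℕ in atTop,
      |({n : ℕ | 1 ≤ n ∧ n ≤ N ∧ dv h k n ∈ BS σ}.ncard : ℝ) - (GK h k).real (BS σ) * N| ≤ ε / 2 * N := by
    have h1 : ∀ σ : Equiv.Perm (Fin (m + 1)), ∀ᶠ h : ℕ in atTop, ∀ k : Fin (m + 1) → ℕ, Tup 2 h k →
      (Cov (lamk (h : ℝ) (fun i => (k i : ℝ)))).PosDef ∧ ∀ᶠ N : ℕ in atTop,
      |({n : ℕ | 1 ≤ n ∧ n ≤ N ∧ dv h k n ∈ BS σ}.ncard : ℝ) - (GK h k).real (BS σ) * N| ≤ ε / 2 * N :=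
      fun σ => ind_law 2 m (by norm_num) (BS σ) (BS_null σ) (ε / 2) (by positivity)
    filter_upwards [eventually_all.2 h1] with h hh k hk σ
    exact hh σ k hk
  have hG : ∀ᶠ h : ℕ in atTop, ∀ k : Fin (m + 1) → ℕ, One A h k → ∀ σ : Equiv.Perm (Fin (m + 1)),
      |(GK h k).real (BS σ) - 1 / ((m + 1).factorial : ℝ)| ≤ ε / 2 := by
    by_contra hcon
    rw [not_eventually] at hcon
    obtain ⟨h0, hh0⟩ := eventually_atTop.1 hall
    have hch : ∀ j : ℕ, ∃ p : ℕ × (Fin (m + 1) → ℕ) × Equiv.Perm (Fin (m + 1)), h0 + 3 + A + j ≤ p.1 ∧ One A p.1 p.2.1 ∧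
        ε / 2 < |(GK p.1 p.2.1).real (BS p.2.2) - 1 / ((m + 1).factorial : ℝ)| := by
      intro j
      obtain ⟨h, h2, h3⟩ := (hcon.and_eventually (eventually_ge_atTop (h0 + 3 + A + j))).exists
      push Not at h2
      obtain ⟨k, hk, σ, hσ⟩ := h2
      exact ⟨(h, k, σ), h3, hk, hσ⟩
    choose p hp using hch
    -- a permutation which occurs infinitely often
    obtain ⟨σ, hσ⟩ : ∃ σ : Equiv.Perm (Fin (m + 1)), {j : ℕ | (p j).2.2 = σ}.Infinite := by
      by_contra hc
      push Not at hc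
      have h1 : (⋃ σ : Equiv.Perm (Fin (m + 1)), {j : ℕ | (p j).2.2 = σ}).Finite :=
        Set.finite_iUnion fun σ => hc σ
      have h2 : (⋃ σ : Equiv.Perm (Fin (m + 1)), {j : ℕ | (p j).2.2 = σ}) = univ := by
        ext j; simp
      rw [h2] at h1
      exact Set.infinite_univ h1
    obtain ⟨φ, hφ, hφσ⟩ : ∃ φ : ℕ → ℕ, StrictMono φ ∧ ∀ j, (p (φ j)).2.2 = σ :=
      ⟨Nat.nth (fun j => (p j).2.2 = σ), Nat.nth_strictMono hσ, fun j => Nat.nth_mem_of_infinite hσ j⟩
    obtain ⟨h, hh⟩ : ∃ h : ℕ → ℕ, h = fun j => (p (φ j)).1 := ⟨_, rfl⟩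
    obtain ⟨k, hk⟩ : ∃ k : ℕ → Fin (m + 1) → ℕ, k = fun j => (p (φ j)).2.1 := ⟨_, rfl⟩
    have q1 : ∀ j, h0 + 3 + A + j ≤ h j := fun j => by
      have h1 := (hp (φ j)).1
      have h2 := hφ.id_le j
      simp only [id] at h2
      rw [hh]
      simp only
      omega
    have q2 : ∀ j, One A (h j) (k j) := fun j => by rw [hh, hk]; exact (hp (φ j)).2.1
    have q3 : ∀ j, ε / 2 < |(GK (h j) (k j)).real (BS σ) - 1 / ((m + 1).factorial : ℝ)| := fun j => by
      have := (hp (φ j)).2.2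
      rw [hφσ] at this
      rw [hh, hk]
      exact this
    have q4 : ∀ j, Tup 2 (h j) (k j) := fun j => by
      obtain ⟨a1, a2, a3⟩ := q2 j
      refine ⟨a1, a2, fun i => (a3 i).trans ?_⟩
      rw [pow_two]
      exact Nat.mul_le_mul_right _ (by have := q1 j; omega)
    have hpd : ∀ j, (Cov (lamk (h j : ℝ) (fun i => (k j i : ℝ)))).PosSemidef := fun j =>
      ((hh0 (h j) (by have := q1 j; omega) (k j) (q4 j) 1).1).posSemidef
    have hht : Tendsto (fun j => (h j : ℝ)) atTop atTop := by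
      refine tendsto_natCast_atTop_atTop.comp (tendsto_atTop_mono (fun j => ?_) tendsto_id)
      have := q1 j
      simp only [id]
      omega
    have hlt : Tendsto (fun j => Real.log (h j)) atTop atTop := Real.tendsto_log_atTop.comp hht
    have hlim : Tendsto (fun j => lamk (h j : ℝ) (fun i => (k j i : ℝ))) atTop (𝓝 lam1) := by
      rw [tendsto_pi_nhds]
      intro i
      rw [tendsto_pi_nhds]
      intro i'
      by_cases hii : i = i'
      · rw [hii]
        have : ∀ j, lamk (h j : ℝ) (fun i => (k j i : ℝ)) i' i' = lam1 i' i' := fun j => by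
          unfold lamk lam1
          simp
        simp only [this]
        exact tendsto_const_nhds
      · have e1 : (lam1 i i' : ℝ) = 1 := if_neg hii
        rw [e1]
        have h3 : ∀ j, 3 ≤ (h j : ℝ) := fun j => by
          have := q1 j
          have h4 : 3 ≤ h j := by omega
          exact_mod_cast h4
        have hl0 : ∀ j, 0 < Real.log (h j) := fun j => Real.log_pos (by linarith [h3 j])
        have hA1 : (1 : ℝ) ≤ A := by exact_mod_cast hA
        refine tendsto_of_tendsto_of_tendsto_of_le_of_le' (g := fun _ => (1 : ℝ))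
          (h := fun j => 1 + Real.log A / Real.log (h j)) tendsto_const_nhds ?_ ?_ ?_
        · have := (tendsto_const_nhds (x := Real.log A)).div_atTop hlt
          have h5 := this.const_add 1
          rw [add_zero] at h5
          exact h5
        · refine Filter.Eventually.of_forall fun j => ?_
          unfold lamk
          rw [le_div_iff₀ (hl0 j), one_mul]
          exact Real.log_le_log (by linarith [h3 j]) ((q2 j).2.1 i i' hii)
        · refine Filter.Eventually.of_forall fun j => ?_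
          have b1 : |(k j i : ℝ) - k j i'| ≤ A * h j := by
            have c1 : (k j i : ℝ) ≤ A * h j := by exact_mod_cast (q2 j).2.2 i
            have c2 : (k j i' : ℝ) ≤ A * h j := by exact_mod_cast (q2 j).2.2 i'
            have c3 : (0 : ℝ) ≤ k j i := Nat.cast_nonneg _
            have c4 : (0 : ℝ) ≤ k j i' := Nat.cast_nonneg _
            rw [abs_le]
            constructor <;> linarith
          have b2 : (h j : ℝ) ≤ |(k j i : ℝ) - k j i'| := (q2 j).2.1 i i' hii
          unfold lamk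
          rw [div_le_iff₀ (hl0 j), add_mul, one_mul, div_mul_cancel₀ _ (hl0 j).ne']
          have e7 : Real.log (A * h j) = Real.log A + Real.log (h j) :=
            Real.log_mul (by linarith) (by linarith [h3 j])
          have e8 := Real.log_le_log (by linarith [h3 j]) b1
          show Real.log |(k j i : ℝ) - k j i'| ≤ _
          linarith
    have hgt := gauss_tendsto (fun j => Cov (lamk (h j : ℝ) (fun i => (k j i : ℝ)))) (Cov lam1) hpd Cov1_pd
      ((Cov_cont.tendsto lam1).comp hlim) (BS σ) (BS_null σ)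
    rw [G1_val] at hgt
    have h6 := (Metric.tendsto_nhds.1 hgt) (ε / 2) (by positivity)
    obtain ⟨j, hj⟩ := h6.exists
    rw [Real.dist_eq] at hj
    exact absurd hj (not_lt.2 (q3 j).le)
  filter_upwards [hall, hG, eventually_ge_atTop (A + 3)] with h g1 g2 hhA k hk
  have hk2 : Tup 2 h k := by
    obtain ⟨a1, a2, a3⟩ := hk
    refine ⟨a1, a2, fun i => (a3 i).trans ?_⟩
    rw [pow_two]
    exact Nat.mul_le_mul_right _ (by omega)
  have hh3 : (3 : ℝ) ≤ h := by
    have : 3 ≤ h := by omega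
    exact_mod_cast this
  have hsh : 0 < Real.sqrt (Real.log h) := Real.sqrt_pos.2 (Real.log_pos (by linarith))
  have hev : ∀ σ : Equiv.Perm (Fin (m + 1)), ∀ᶠ N : ℕ in atTop,
      |({n : ℕ | 1 ≤ n ∧ n ≤ N ∧ dv h k n ∈ BS σ}.ncard : ℝ) - (GK h k).real (BS σ) * N| ≤ ε / 2 * N :=
    fun σ => (g1 k hk2 σ).2
  filter_upwards [eventually_all.2 hev] with N hN σ
  have hset : {n : ℕ | 1 ≤ n ∧ n ≤ N ∧ StrictMono fun i => dD k n (σ i)} =
      {n : ℕ | 1 ≤ n ∧ n ≤ N ∧ dv h k n ∈ BS σ} := by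
    ext n
    simp only [mem_ofPred_eq, BS]
    have e1 : ∀ i : Fin (m + 1), (Fin.cons 0 (fun p => (dv h k n) p) : Fin (m + 1) → ℝ) i =
        dD k n i / Real.sqrt (Real.log h) := by
      intro i
      refine Fin.cases ?_ (fun p => ?_) i
      · simp [dD, hk.1]
      · simp [dv, dD]
    simp only [e1]
    refine and_congr_right fun _ => and_congr_right fun _ => ?_
    constructor
    · intro hs i j hij
      exact div_lt_div_of_pos_right (hs hij) hsh
    · intro hs i j hij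
      have := hs hij
      simp only at this
      exact (div_lt_div_iff_of_pos_right hsh).1 this
  rw [hset]
  have h1 := hN σ
  have h2 := g2 k hk σ
  have hN0 : (0 : ℝ) ≤ N := Nat.cast_nonneg _
  have h3 : |(GK h k).real (BS σ) * N - N / ((m + 1).factorial : ℝ)| ≤ ε / 2 * N := by
    have e : (GK h k).real (BS σ) * N - N / ((m + 1).factorial : ℝ) =
        ((GK h k).real (BS σ) - 1 / ((m + 1).factorial : ℝ)) * N := by ring
    rw [e, abs_mul, abs_of_nonneg hN0]
    exact mul_le_mul_of_nonneg_right h2 hN0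
  have h4 := abs_add_le (({n : ℕ | 1 ≤ n ∧ n ≤ N ∧ dv h k n ∈ BS σ}.ncard : ℝ) - (GK h k).real (BS σ) * N)
    ((GK h k).real (BS σ) * N - N / ((m + 1).factorial : ℝ))
  rw [sub_add_sub_cancel] at h4
  linarith

end Pool.Agent.X112.LF
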