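import Pool.Agent.X112.LF.Fin
import Pool.Agent.X112.GS.Poly2

/-! # Polynomials in well spaced ordinates at almost all places -/

set_option autoImplicit false

namespace Pool.Agent.X112.LF

open Filter Finset
open SG (ord NZ)
open Pool.Agent.X112.GS (yy inc few_wide gap_close)
open Pool.Agent.Y743.PR (nmon grad lead near_diag euler grad_eq big)

/-- the integer polynomial as a real polynomial -/
noncomputable def rp {m : ℕ} (Q : MvPolynomial (Fin (m + 1)) ℤ) : MvPolynomial (Fin (m + 1)) ℝ :=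
  MvPolynomial.map (Int.castRingHom ℝ) Q

lemma coeff_rp {m : ℕ} (Q : MvPolynomial (Fin (m + 1)) ℤ) (s : Fin (m + 1) →₀ ℕ) :
    (rp Q).coeff s = ((Q.coeff s : ℤ) : ℝ) := by
  unfold rp
  rw [MvPolynomial.coeff_map]
  simp

lemma deg_rp {m : ℕ} (Q : MvPolynomial (Fin (m + 1)) ℤ) : (rp Q).totalDegree ≤ Q.totalDegree := by
  unfold MvPolynomial.totalDegree
  exact Finset.sup_mono (MvPolynomial.support_map_subset _ _)

lemma lead_int {m : ℕ} (d : ℕ) (Q : MvPolynomial (Fin (m + 1)) ℤ) : ∃ z : ℤ, lead d (rp Q) = z := by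
  refine ⟨∑ s ∈ (rp Q).support with (∑ j, s j) = d, Q.coeff s, ?_⟩
  unfold lead
  push_cast
  exact Finset.sum_congr rfl fun s _ => coeff_rp Q s

lemma grad_int {m : ℕ} (d : ℕ) (Q : MvPolynomial (Fin (m + 1)) ℤ) (j : Fin (m + 1)) :
    ∃ z : ℤ, grad d (rp Q) j = z := by
  refine ⟨∑ s ∈ (rp Q).support with (∑ j, s j) = d, Q.coeff s * s j, ?_⟩
  rw [grad_eq]
  push_cast
  exact Finset.sum_congr rfl fun s _ => by rw [coeff_rp Q s]

lemma lead_le {m d : ℕ} {P : MvPolynomial (Fin (m + 1)) ℝ} {D : ℕ} (hD : P.totalDegree ≤ D) {H : ℝ}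
    (hH : ∀ s, |P.coeff s| ≤ H) : |lead d P| ≤ nmon (m + 1) D * H := by
  have hH0 : 0 ≤ H := (abs_nonneg _).trans (hH 0)
  unfold lead
  refine (Finset.abs_sum_le_sum_abs _ _).trans ?_
  refine (Finset.sum_le_sum fun s _ => hH s).trans ?_
  rw [Finset.sum_const, nsmul_eq_mul]
  apply mul_le_mul_of_nonneg_right _ hH0
  have h1 := Finset.card_le_card (Finset.filter_subset (fun s : Fin (m + 1) →₀ ℕ => (∑ j, s j) = d) P.support)
  exact_mod_cast h1.trans (Pool.Agent.Y743.PR.card_support hD)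

lemma grad_le {m d : ℕ} {P : MvPolynomial (Fin (m + 1)) ℝ} (hD : P.totalDegree ≤ d) {H : ℝ}
    (hH : ∀ s, |P.coeff s| ≤ H) (j : Fin (m + 1)) : |grad d P j| ≤ nmon (m + 1) d * (H * d) := by
  have hH0 : 0 ≤ H := (abs_nonneg _).trans (hH 0)
  rw [grad_eq]
  refine (Finset.abs_sum_le_sum_abs _ _).trans ?_
  have h2 : ∀ s ∈ P.support.filter (fun s : Fin (m + 1) →₀ ℕ => (∑ j, s j) = d),
      |P.coeff s * (s j : ℝ)| ≤ H * d := by
    intro s hs
    rw [Finset.mem_filter] at hs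
    rw [abs_mul, Nat.abs_cast]
    have h3 : s j ≤ d := by
      rw [← hs.2]
      exact Finset.single_le_sum (f := fun j => s j) (fun _ _ => Nat.zero_le _) (Finset.mem_univ j)
    exact mul_le_mul (hH s) (by exact_mod_cast h3) (Nat.cast_nonneg _) hH0
  refine (Finset.sum_le_sum h2).trans ?_
  rw [Finset.sum_const, nsmul_eq_mul]
  apply mul_le_mul_of_nonneg_right _ (by positivity)
  have h1 := Finset.card_le_card (Finset.filter_subset (fun s : Fin (m + 1) →₀ ℕ => (∑ j, s j) = d) P.support)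
  exact_mod_cast h1.trans (Pool.Agent.Y743.PR.card_support hD)

/-- growth -/
lemma grow (ϑ C : ℝ) (hϑ : ϑ < 1) (hϑ0 : 0 ≤ ϑ) :
    ∀ᶠ n : ℕ in atTop, C * (n : ℝ) ^ ϑ * Real.log (ord n) ≤ ord n := by
  have h1 : ∀ᶠ x : ℝ in atTop, C * x ^ ϑ ≤ x ^ ((1 + ϑ) / 2) := by
    have h2 : Tendsto (fun x : ℝ => x ^ ((1 - ϑ) / 2)) atTop atTop := tendsto_rpow_atTop (by linarith)
    filter_upwards [h2.eventually_ge_atTop C, eventually_gt_atTop 0] with x hx hx0
    calc C * x ^ ϑ ≤ x ^ ((1 - ϑ) / 2) * x ^ ϑ := mul_le_mul_of_nonneg_right hx (by positivity)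
      _ = x ^ ((1 + ϑ) / 2) := by rw [← Real.rpow_add hx0]; congr 1; ring
  have hord : Tendsto ord atTop atTop := Pool.Agent.Y743.LR.ord_tendsto
  filter_upwards [tendsto_natCast_atTop_atTop.eventually h1, big (θ := (1 + ϑ) / 2) (by linarith) (by linarith),
    hord.eventually_ge_atTop 1] with n h2 h3 h4
  refine le_trans ?_ h3
  exact mul_le_mul_of_nonneg_right h2 (Real.log_nonneg h4)

theorem poly_fin (A m : ℕ) (hA : 1 ≤ A) (θ : ℝ) (hθ : 0 < θ) : ∃ κ : ℝ, 0 < κ ∧
    ∀ᶠ h : ℕ in atTop, ∀ k : Fin (m + 1) → ℕ, Tup A h k → ∀ d : ℕ, 1 ≤ d → ∀ ϑ : ℝ, ϑ < 1 →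
      ∀ᶠ N : ℕ in atTop, ∀ (Q : MvPolynomial (Fin (m + 1)) ℤ) (j : Fin (m + 1)), Q.totalDegree ≤ d →
      (∀ s, |((Q.coeff s : ℤ) : ℝ)| ≤ (N : ℝ) ^ ϑ) → grad d (rp Q) j ≠ 0 →
      ({n : ℕ | 1 ≤ n ∧ n ≤ N ∧ |MvPolynomial.eval (fun i => ord (n + k i)) (rp Q)| * Real.log (ord n) ≤
        κ * |grad d (rp Q) j| * Real.sqrt (Real.log h) * ord n ^ (d - 1)}.ncard : ℝ) ≤ θ * N := by
  classical
  obtain ⟨κ0, hκ0, hκh⟩ := lin_fin A m hA 1 (θ / 4) zero_le_one (by positivity)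
  refine ⟨κ0 / 2, by positivity, ?_⟩
  filter_upwards [hκh, eventually_ge_atTop 3] with h hh hh3 k hk d hd ϑ0 hϑ0
  have hhk := hh k hk
  have hh3' : (3 : ℝ) ≤ h := by exact_mod_cast hh3
  have hlh : 1 ≤ Real.log h := by
    rw [Real.le_log_iff_exp_le (by linarith)]
    linarith [Real.exp_one_lt_d9]
  have hsq1 : 1 ≤ Real.sqrt (Real.log h) := by
    rw [show (1 : ℝ) = Real.sqrt 1 by simp]
    exact Real.sqrt_le_sqrt hlh
  obtain ⟨sh, hsh⟩ : ∃ sh : ℝ, sh = Real.sqrt (Real.log h) := ⟨_, rfl⟩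
  rw [← hsh] at hsq1
  obtain ⟨ϑ, hϑd⟩ : ∃ ϑ : ℝ, ϑ = max ϑ0 0 := ⟨_, rfl⟩
  have hϑ00 : 0 ≤ ϑ := by rw [hϑd]; exact le_max_right _ _
  have hϑ1 : ϑ < 1 := by rw [hϑd]; exact max_lt hϑ0 one_pos
  have hϑϑ : ϑ0 ≤ ϑ := by rw [hϑd]; exact le_max_left _ _
  -- wide windows
  obtain ⟨L, hL⟩ : ∃ L : ℕ, L = h ^ A := ⟨_, rfl⟩
  obtain ⟨K, hK, hwide⟩ := few_wide (θ / 4) (by positivity) L
  obtain ⟨n1, hn11, hn1⟩ := gap_close K 1 hK one_pos L
  have hord : Tendsto ord atTop atTop := Pool.Agent.Y743.LR.ord_tendsto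
  have hd1 : (1 : ℝ) ≤ d := by exact_mod_cast hd
  -- the constants
  obtain ⟨B, hB⟩ : ∃ B : ℝ, B = nmon (m + 1) d * (3 * d ^ 2 * (1 + L) ^ 2) := ⟨_, rfl⟩
  have hB0 : 0 ≤ B := by rw [hB]; positivity
  obtain ⟨B2, hB2⟩ : ∃ B2 : ℝ, B2 = (m + 1 : ℕ) * ((nmon (m + 1) d : ℝ) * d * L) + nmon (m + 1) d +
    κ0 * sh * (nmon (m + 1) d * d) := ⟨_, rfl⟩
  have hB20 : 0 ≤ B2 := by rw [hB2]; positivity
  obtain ⟨δ, hδ⟩ : ∃ δ : ℝ, δ = min (θ / 8) 1 := ⟨_, rfl⟩
  have hδ0 : 0 < δ := by rw [hδ]; positivity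
  have hδ1 : δ ≤ 1 := by rw [hδ]; exact min_le_right _ _
  have hδθ : δ ≤ θ / 8 := by rw [hδ]; exact min_le_left _ _
  obtain ⟨n2, hn2⟩ := ((grow ϑ ((B + B + B2) * (1 / δ) * (2 / κ0 + 2)) hϑ1 hϑ00).and
    (hord.eventually_ge_atTop (Real.exp 1 + d * L + 1))).exists_forall_of_atTop
  have hbig : ∀ᶠ N : ℕ in atTop, ((n1 + n2 : ℕ) : ℝ) ≤ θ / 8 * N :=
    (tendsto_natCast_atTop_atTop.const_mul_atTop (show (0 : ℝ) < θ / 8 by positivity)).eventually_ge_atTop _
  filter_upwards [hhk, hwide, hbig, eventually_ge_atTop 1] with N h1 h2 h3 hN1 Q j hQ hQH hgr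
  have hN1' : (1 : ℝ) ≤ N := by exact_mod_cast hN1
  obtain ⟨P, hP⟩ : ∃ P, P = rp Q := ⟨_, rfl⟩
  have hPd : P.totalDegree ≤ d := by rw [hP]; exact (deg_rp Q).trans hQ
  have hPc : ∀ s, |P.coeff s| ≤ (N : ℝ) ^ ϑ := fun s => by
    rw [hP, coeff_rp]
    exact (hQH s).trans (Real.rpow_le_rpow_of_exponent_le hN1' hϑϑ)
  obtain ⟨j0, -, hj0⟩ := Finset.exists_max_image Finset.univ (fun j => |grad d P j|) ⟨j, Finset.mem_univ j⟩
  obtain ⟨G, hG⟩ : ∃ G : ℝ, G = |grad d P j0| := ⟨_, rfl⟩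
  have hGj : |grad d P j| ≤ G := by rw [hG]; exact hj0 j (Finset.mem_univ j)
  have hG1 : 1 ≤ G := by
    obtain ⟨z, hz⟩ := grad_int d Q j
    rw [← hP] at hz
    have hz0 : z ≠ 0 := by
      rintro rfl
      rw [← hP] at hgr
      exact hgr (by rw [hz]; simp)
    refine le_trans ?_ hGj
    rw [hz, ← Int.cast_abs]
    exact_mod_cast Int.one_le_abs hz0
  have hG0 : 0 < G := by linarith
  rw [← hP]
  have hsub : {n : ℕ | 1 ≤ n ∧ n ≤ N ∧ |MvPolynomial.eval (fun i => ord (n + k i)) P| * Real.log (ord n) ≤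
        κ0 / 2 * |grad d P j| * Real.sqrt (Real.log h) * ord n ^ (d - 1)} ⊆
      ((((Icc 1 N).filter (fun n => lead d P = 0 ∧ |∑ i, (grad d P i / G) * ord (n + k i) -
        (-(lead (d - 1) P / G))| * Real.log (ord n) ≤ κ0 * Real.sqrt (Real.log h))) ∪
        (((Icc 1 N).filter (fun n => ¬ ∀ l < L, |inc yy (n + l)| ≤ K) ∪ Icc 1 (n1 + n2)) ∪
          Icc 1 ⌊δ * N⌋₊) : Finset ℕ) : Set ℕ) := by
    rintro n ⟨hn1', hn2', hsm⟩
    rw [Finset.mem_coe, Finset.mem_union, Finset.mem_union, Finset.mem_union]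
    by_contra hcon
    rw [not_or, not_or, not_or] at hcon
    obtain ⟨c1, ⟨c2, c3⟩, c4⟩ := hcon
    have hnI : n ∈ Icc 1 N := Finset.mem_Icc.2 ⟨hn1', hn2'⟩
    have hnn : n1 + n2 ≤ n := by
      by_contra hc
      exact c3 (Finset.mem_Icc.mpr ⟨hn1', by omega⟩)
    have hnδ : δ * N ≤ n := by
      by_contra hc
      push Not at hc
      exact c4 (Finset.mem_Icc.mpr ⟨hn1', Nat.le_floor hc.le⟩)
    have hw : ∀ l < L, |inc yy (n + l)| ≤ K := by
      by_contra hc
      exact c2 (Finset.mem_filter.mpr ⟨hnI, hc⟩)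
    obtain ⟨hn3, hcl⟩ := hn1 n (by omega)
    obtain ⟨hpos, -⟩ := hcl hw
    obtain ⟨hgrow, hx⟩ := hn2 n (by omega)
    have hLb : (0 : ℝ) ≤ L := Nat.cast_nonneg _
    have hx0 : 0 < ord n := by nlinarith [Real.exp_pos 1]
    have hdL : (0 : ℝ) ≤ d * L := by positivity
    have hl1 : 1 ≤ Real.log (ord n) := by
      rw [Real.le_log_iff_exp_le hx0]
      linarith
    have hx1 : 1 ≤ ord n := by linarith [Real.exp_pos 1]
    have hkl : ∀ i, ord n ≤ ord (n + k i) ∧ ord (n + k i) ≤ ord n + L := by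
      intro i
      obtain ⟨p1, p2⟩ := hpos (k i) (by rw [hL]; exact hk.2.2 i)
      have : (k i : ℝ) ≤ L := by rw [hL]; exact_mod_cast hk.2.2 i
      exact ⟨p1, by linarith⟩
    have hnear := near_diag hd hPd (fun i => ord (n + k i) - ord n) hPc hx1 hLb
      (fun i => by linarith [(hkl i).1]) (fun i => by linarith [(hkl i).2]) (by linarith [Real.exp_pos 1])
    have e1 : (fun i => ord n + (ord (n + k i) - ord n)) = fun i => ord (n + k i) := by
      funext i; ring
    rw [e1] at hnear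
    obtain ⟨V, hV⟩ : ∃ V : ℝ, V = MvPolynomial.eval (fun i => ord (n + k i)) P := ⟨_, rfl⟩
    obtain ⟨W, hW⟩ : ∃ W : ℝ, W = ord n * lead d P + ∑ i, grad d P i * (ord (n + k i) - ord n) +
      lead (d - 1) P := ⟨_, rfl⟩
    rw [← hV] at hsm
    rw [← hV, ← hW] at hnear
    have hxm : 0 < ord n ^ (d - 1) := pow_pos hx0 _
    have hNϑ : (N : ℝ) ^ ϑ ≤ 1 / δ * (n : ℝ) ^ ϑ := by
      have q1 : (N : ℝ) ≤ 1 / δ * n := by
        rw [div_mul_eq_mul_div, one_mul, le_div_iff₀ hδ0]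
        linarith
      have q2 : 1 ≤ 1 / δ := by
        rw [le_div_iff₀ hδ0]
        linarith
      calc (N : ℝ) ^ ϑ ≤ (1 / δ * n) ^ ϑ := Real.rpow_le_rpow (Nat.cast_nonneg _) q1 hϑ00
        _ = (1 / δ) ^ ϑ * (n : ℝ) ^ ϑ := Real.mul_rpow (by positivity) (Nat.cast_nonneg _)
        _ ≤ (1 / δ) ^ (1 : ℝ) * (n : ℝ) ^ ϑ := by
            apply mul_le_mul_of_nonneg_right _ (by positivity)
            exact Real.rpow_le_rpow_of_exponent_le q2 hϑ1.le
        _ = _ := by rw [Real.rpow_one]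
    have hNϑ0 : 0 ≤ (N : ℝ) ^ ϑ := by positivity
    have hNϑ1 : 1 ≤ (N : ℝ) ^ ϑ := Real.one_le_rpow hN1' hϑ00
    have hgrow' : (B + B + B2) * (2 / κ0 + 2) * (N : ℝ) ^ ϑ * Real.log (ord n) ≤ ord n := by
      refine le_trans ?_ hgrow
      apply mul_le_mul_of_nonneg_right _ (by linarith)
      have : (B + B + B2) * (2 / κ0 + 2) * (N : ℝ) ^ ϑ ≤ (B + B + B2) * (2 / κ0 + 2) * (1 / δ * (n : ℝ) ^ ϑ) :=
        mul_le_mul_of_nonneg_left hNϑ (by positivity)
      refine this.trans (le_of_eq ?_)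
      ring
    -- the error
    have herr : |V - ord n ^ (d - 1) * W| * ord n ≤ B * (N : ℝ) ^ ϑ * ord n ^ (d - 1) := by
      refine hnear.trans (le_of_eq ?_)
      rw [hB]; ring
    have hlogx : 0 < Real.log (ord n) := by linarith
    have herr2 : |V - ord n ^ (d - 1) * W| * Real.log (ord n) ≤ κ0 / 2 * ord n ^ (d - 1) := by
      have q3 : B * (N : ℝ) ^ ϑ * Real.log (ord n) ≤ κ0 / 2 * ord n := by
        have q4 : B * (2 / κ0) * (N : ℝ) ^ ϑ * Real.log (ord n) ≤ ord n := by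
          refine le_trans ?_ hgrow'
          have : B * (2 / κ0) ≤ (B + B + B2) * (2 / κ0 + 2) := by
            have z1 : 0 ≤ B * (2 / κ0) := by positivity
            have z2 : 0 ≤ B2 * (2 / κ0) := by positivity
            nlinarith
          exact mul_le_mul_of_nonneg_right (mul_le_mul_of_nonneg_right this hNϑ0) hlogx.le
        have q5 : B * (N : ℝ) ^ ϑ * Real.log (ord n) =
            κ0 / 2 * (B * (2 / κ0) * (N : ℝ) ^ ϑ * Real.log (ord n)) := by field_simp
        rw [q5]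
        exact mul_le_mul_of_nonneg_left q4 (by positivity)
      have q6 : |V - ord n ^ (d - 1) * W| * Real.log (ord n) * ord n ≤ κ0 / 2 * ord n ^ (d - 1) * ord n := by
        calc |V - ord n ^ (d - 1) * W| * Real.log (ord n) * ord n =
            |V - ord n ^ (d - 1) * W| * ord n * Real.log (ord n) := by ring
          _ ≤ B * (N : ℝ) ^ ϑ * ord n ^ (d - 1) * Real.log (ord n) :=
              mul_le_mul_of_nonneg_right herr hlogx.le
          _ = B * (N : ℝ) ^ ϑ * Real.log (ord n) * ord n ^ (d - 1) := by ring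
          _ ≤ κ0 / 2 * ord n * ord n ^ (d - 1) := mul_le_mul_of_nonneg_right q3 hxm.le
          _ = κ0 / 2 * ord n ^ (d - 1) * ord n := by ring
      exact le_of_mul_le_mul_right q6 hx0
    -- the value
    have hval : |W| * Real.log (ord n) ≤ κ0 * G * sh := by
      have q1 : |ord n ^ (d - 1) * W| ≤ |V - ord n ^ (d - 1) * W| + |V| := by
        have := abs_sub_abs_le_abs_sub (ord n ^ (d - 1) * W) V
        rw [abs_sub_comm] at this
        linarith
      rw [abs_mul, abs_of_pos hxm] at q1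
      have q2 : ord n ^ (d - 1) * (|W| * Real.log (ord n)) ≤ ord n ^ (d - 1) * (κ0 * G * sh) := by
        have q3 : |V| * Real.log (ord n) ≤ κ0 / 2 * G * sh * ord n ^ (d - 1) := by
          refine hsm.trans ?_
          rw [← hsh]
          gcongr
        have q4 : κ0 / 2 * ord n ^ (d - 1) ≤ κ0 / 2 * (G * sh) * ord n ^ (d - 1) := by
          have z1 : 1 ≤ G * sh := by nlinarith
          have z2 : 0 ≤ κ0 / 2 * ord n ^ (d - 1) := by positivity
          nlinarith
        calc ord n ^ (d - 1) * (|W| * Real.log (ord n)) = (ord n ^ (d - 1) * |W|) * Real.log (ord n) := by ring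
          _ ≤ (|V - ord n ^ (d - 1) * W| + |V|) * Real.log (ord n) :=
              mul_le_mul_of_nonneg_right q1 hlogx.le
          _ ≤ ord n ^ (d - 1) * (κ0 * G * sh) := by linarith
      exact le_of_mul_le_mul_left q2 hxm
    by_cases hlead : lead d P = 0
    · apply c1
      rw [Finset.mem_filter]
      refine ⟨hnI, hlead, ?_⟩
      have hsum0 : ∑ i, grad d P i = 0 := by rw [euler, hlead, mul_zero]
      have e2 : ∑ i, (grad d P i / G) * ord (n + k i) - (-(lead (d - 1) P / G)) = W / G := by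
        rw [hW, hlead]
        have e3 : ∑ i, grad d P i * (ord (n + k i) - ord n) = ∑ i, grad d P i * ord (n + k i) := by
          have : ∑ i, grad d P i * (ord (n + k i) - ord n) = ∑ i, grad d P i * ord (n + k i) -
              (∑ i, grad d P i) * ord n := by
            rw [Finset.sum_mul, ← Finset.sum_sub_distrib]
            exact Finset.sum_congr rfl fun i _ => by ring
          rw [this, hsum0]; ring
        rw [e3]
        have e4 : ∑ i, (grad d P i / G) * ord (n + k i) = (∑ i, grad d P i * ord (n + k i)) / G := by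
          rw [Finset.sum_div]
          exact Finset.sum_congr rfl fun i _ => by ring
        rw [e4]
        ring
      rw [e2, abs_div, abs_of_pos hG0, div_mul_eq_mul_div, div_le_iff₀ hG0, ← hsh]
      linarith
    · exfalso
      obtain ⟨z, hz⟩ := lead_int d Q
      rw [← hP] at hz
      have hz0 : z ≠ 0 := by
        rintro rfl
        exact hlead (by rw [hz]; simp)
      have hl1' : 1 ≤ |lead d P| := by
        rw [hz, ← Int.cast_abs]
        exact_mod_cast Int.one_le_abs hz0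
      have hGb : G ≤ nmon (m + 1) d * ((N : ℝ) ^ ϑ * d) := by rw [hG]; exact grad_le hPd hPc j0
      have hsumb : |∑ i, grad d P i * (ord (n + k i) - ord n)| ≤
          (m + 1 : ℕ) * ((nmon (m + 1) d : ℝ) * d * L) * (N : ℝ) ^ ϑ := by
        refine (Finset.abs_sum_le_sum_abs _ _).trans ?_
        have h6 : ∀ i ∈ (Finset.univ : Finset (Fin (m + 1))), |grad d P i * (ord (n + k i) - ord n)| ≤
            nmon (m + 1) d * ((N : ℝ) ^ ϑ * d) * L := by
          intro i _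
          rw [abs_mul]
          refine mul_le_mul (grad_le hPd hPc i) ?_ (abs_nonneg _) (by positivity)
          rw [abs_of_nonneg (by linarith [(hkl i).1])]
          linarith [(hkl i).2]
        refine (Finset.sum_le_sum h6).trans (le_of_eq ?_)
        rw [Finset.sum_const, Finset.card_univ, Fintype.card_fin, nsmul_eq_mul]
        ring
      have hld := lead_le (d := d - 1) hPd hPc
      have hWb : ord n - ((m + 1 : ℕ) * ((nmon (m + 1) d : ℝ) * d * L) * (N : ℝ) ^ ϑ +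
          nmon (m + 1) d * (N : ℝ) ^ ϑ) ≤ |W| := by
        have r1 : |ord n * lead d P| ≤ |W| + (|∑ i, grad d P i * (ord (n + k i) - ord n)| + |lead (d - 1) P|) := by
          have e5 : ord n * lead d P = W - (∑ i, grad d P i * (ord (n + k i) - ord n) + lead (d - 1) P) := by
            rw [hW]; ring
          rw [e5]
          refine (abs_sub _ _).trans ?_
          gcongr
          exact abs_add_le _ _
        rw [abs_mul, abs_of_pos hx0] at r1
        nlinarith
      have r2 : |W| ≤ κ0 * sh * (nmon (m + 1) d * d) * (N : ℝ) ^ ϑ := by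
        have r3 : |W| ≤ κ0 * G * sh := le_trans (le_mul_of_one_le_right (abs_nonneg _) hl1) hval
        have r4 : κ0 * G * sh ≤ κ0 * (nmon (m + 1) d * ((N : ℝ) ^ ϑ * d)) * sh := by gcongr
        refine r3.trans (r4.trans (le_of_eq ?_))
        ring
      have r5 : ord n ≤ B2 * (N : ℝ) ^ ϑ := by
        rw [hB2]
        linarith
      have r6 : 2 * (B2 * (N : ℝ) ^ ϑ) ≤ ord n := by
        refine le_trans ?_ hgrow'
        have z1 : 2 * B2 ≤ (B + B + B2) * (2 / κ0 + 2) := by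
          have z2 : 0 ≤ (B + B + B2) * (2 / κ0) := by positivity
          nlinarith
        have z3 : 2 * B2 * (N : ℝ) ^ ϑ ≤ (B + B + B2) * (2 / κ0 + 2) * (N : ℝ) ^ ϑ :=
          mul_le_mul_of_nonneg_right z1 hNϑ0
        have z4 : 0 ≤ (B + B + B2) * (2 / κ0 + 2) * (N : ℝ) ^ ϑ := by positivity
        nlinarith
      linarith
  have h4 := Set.ncard_le_ncard hsub (Finset.finite_toSet _)
  rw [Set.ncard_coe_finset] at h4
  have h5 := (Finset.card_union_le ((Icc 1 N).filter (fun n => lead d P = 0 ∧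
    |∑ i, (grad d P i / G) * ord (n + k i) - (-(lead (d - 1) P / G))| * Real.log (ord n) ≤
      κ0 * Real.sqrt (Real.log h))) (((Icc 1 N).filter (fun n => ¬ ∀ l < L, |inc yy (n + l)| ≤ K) ∪
      Icc 1 (n1 + n2)) ∪ Icc 1 ⌊δ * N⌋₊))
  have h6 := Finset.card_union_le ((Icc 1 N).filter (fun n => ¬ ∀ l < L, |inc yy (n + l)| ≤ K) ∪
      Icc 1 (n1 + n2)) (Icc 1 ⌊δ * N⌋₊)
  have h7 := Finset.card_union_le ((Icc 1 N).filter (fun n => ¬ ∀ l < L, |inc yy (n + l)| ≤ K))
      (Icc 1 (n1 + n2))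
  rw [Nat.card_Icc, Nat.add_sub_cancel] at h6 h7
  have h8 := h4.trans (h5.trans (Nat.add_le_add_left (h6.trans (Nat.add_le_add_right h7 _)) _))
  have h9 : (({n : ℕ | 1 ≤ n ∧ n ≤ N ∧ |MvPolynomial.eval (fun i => ord (n + k i)) P| * Real.log (ord n) ≤
        κ0 / 2 * |grad d P j| * Real.sqrt (Real.log h) * ord n ^ (d - 1)}.ncard : ℕ) : ℝ) ≤
      (((Icc 1 N).filter (fun n => lead d P = 0 ∧
    |∑ i, (grad d P i / G) * ord (n + k i) - (-(lead (d - 1) P / G))| * Real.log (ord n) ≤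
      κ0 * Real.sqrt (Real.log h))).card : ℝ) + ((((Icc 1 N).filter (fun n => ¬ ∀ l < L, |inc yy (n + l)| ≤ K)).card : ℝ) +
      ((n1 + n2 : ℕ) : ℝ) + (⌊δ * N⌋₊ : ℝ)) := by
    exact_mod_cast h8
  have h10 : (((Icc 1 N).filter (fun n => lead d P = 0 ∧
    |∑ i, (grad d P i / G) * ord (n + k i) - (-(lead (d - 1) P / G))| * Real.log (ord n) ≤
      κ0 * Real.sqrt (Real.log h))).card : ℝ) ≤ θ / 4 * N := by
    by_cases hlead : lead d P = 0
    · have hsum0 : ∑ i, grad d P i = 0 := by rw [euler, hlead, mul_zero]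
      have h11 := h1 (fun i => grad d P i / G) (fun i => by
        rw [abs_div, abs_of_pos hG0, div_le_one hG0, hG]
        exact hj0 i (Finset.mem_univ i)) (by rw [← Finset.sum_div, hsum0, zero_div]) (by
        have h12 : (1 : ℝ) ≤ (grad d P j0 / G) ^ 2 := by
          rw [div_pow, ← sq_abs (grad d P j0), ← hG, div_self (by positivity)]
        exact h12.trans (Finset.single_le_sum (f := fun i => (grad d P i / G) ^ 2) (fun _ _ => sq_nonneg _)
          (Finset.mem_univ j0))) (-(lead (d - 1) P / G))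
      refine le_trans ?_ h11
      have h13 : (Icc 1 N).filter (fun n => lead d P = 0 ∧
          |∑ i, (grad d P i / G) * ord (n + k i) - (-(lead (d - 1) P / G))| * Real.log (ord n) ≤
          κ0 * Real.sqrt (Real.log h)) ⊆ (Icc 1 N).filter (fun n =>
          |∑ i, (grad d P i / G) * ord (n + k i) - (-(lead (d - 1) P / G))| * Real.log (ord n) ≤
          κ0 * Real.sqrt (Real.log h)) := by
        intro n hn
        rw [Finset.mem_filter] at hn ⊢
        exact ⟨hn.1, hn.2.2⟩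
      have h14 : (((Icc 1 N).filter (fun n => lead d P = 0 ∧
          |∑ i, (grad d P i / G) * ord (n + k i) - (-(lead (d - 1) P / G))| * Real.log (ord n) ≤
          κ0 * Real.sqrt (Real.log h))).card : ℝ) ≤ (((Icc 1 N).filter (fun n =>
          |∑ i, (grad d P i / G) * ord (n + k i) - (-(lead (d - 1) P / G))| * Real.log (ord n) ≤
          κ0 * Real.sqrt (Real.log h))).card : ℝ) := by
        exact_mod_cast Finset.card_le_card h13
      refine h14.trans (le_of_eq ?_)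
      congr!
    · have h13 : (Icc 1 N).filter (fun n => lead d P = 0 ∧
          |∑ i, (grad d P i / G) * ord (n + k i) - (-(lead (d - 1) P / G))| * Real.log (ord n) ≤
          κ0 * Real.sqrt (Real.log h)) = ∅ := by
        rw [Finset.filter_eq_empty_iff]
        rintro n _ ⟨h15, _⟩
        exact hlead h15
      rw [h13, Finset.card_empty, Nat.cast_zero]
      positivity
  have h2' : ((((Icc 1 N).filter (fun n => ¬ ∀ l < L, |inc yy (n + l)| ≤ K)).card : ℝ)) ≤ θ / 4 * N := by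
    refine le_trans (le_of_eq ?_) h2
    congr!
  have h16 : (⌊δ * N⌋₊ : ℝ) ≤ θ / 8 * N :=
    (Nat.floor_le (by positivity)).trans (mul_le_mul_of_nonneg_right hδθ (Nat.cast_nonneg _))
  have hN0 : (0 : ℝ) ≤ θ * N := by positivity
  linarith

end Pool.Agent.X112.LF
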