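import Pool.Agent.X112.LF.Va
import Pool.Agent.X112.SD.St

/-! # Linear forms in the counting function at several places -/

set_option autoImplicit false

namespace Pool.Agent.X112.LF

open Complex Filter Topology MeasureTheory Set
open Pool.Agent.Y743.CL
open SG (NZ)

/-- the linear form in the values of the counting function -/
noncomputable def Lf {m : ℕ} (a k : Fin (m + 1) → ℝ) (T t : ℝ) : ℝ :=
  ∑ i, a i * (NZ (t + k i * (2 * Real.pi / Real.log T)) : ℝ)

lemma er_zero (lam κ T t : ℝ) : er lam κ T 0 t = 0 := by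
  unfold er
  have e : 2 * Real.pi * 0 / Real.log T = 0 := by ring
  rw [e]
  have h1 : ∀ X s, G (rc (Real.log T / lam) 0) X s = 0 := by
    intro X s
    unfold G Pool.Agent.Y41.SW.DP
    refine Finset.sum_eq_zero fun n _ => ?_
    rw [pr_apply, rc_zero]
    simp
  rw [h1]
  simp

lemma Lf_eq {m : ℕ} (lam κ : ℝ) (a k : Fin (m + 1) → ℝ) (ha : ∑ i, a i = 0) (T t : ℝ) :
    Lf a k T t = ∑ i, a i * k i + ∑ i, a i * er lam κ T (k i) t -
      (Gw (dc (Real.log T / lam) a (fun i => 2 * Real.pi * k i / Real.log T))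
        (wn (ph (Real.log T / lam) a (fun i => 2 * Real.pi * k i / Real.log T))) (XK κ T) t).re := by
  rw [← G_comb, Complex.re_sum]
  have e : ∀ i, a i * er lam κ T (k i) t = a i * (NZ (t + k i * (2 * Real.pi / Real.log T)) : ℝ) -
      a i * NZ t - a i * k i + ((a i : ℂ) * G (rc (Real.log T / lam) (2 * Real.pi * k i / Real.log T))
        (XK κ T) (t + 2 * Real.pi * k i / Real.log T / 2)).re := by
    intro i
    unfold er
    rw [Complex.re_ofReal_mul]
    have e1 : t + 2 * Real.pi * k i / Real.log T = t + k i * (2 * Real.pi / Real.log T) := by ring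
    rw [e1]
    ring
  simp only [e, Finset.sum_add_distrib, Finset.sum_sub_distrib, ← Finset.sum_mul, ha]
  unfold Lf
  ring

/-- the variance is large -/
lemma V_lowL (B H : ℝ) (hB : 1 ≤ B) (hH : 0 ≤ H) (m : ℕ) : ∃ lam C C' T0 : ℝ, 16 ≤ lam ∧ 0 < C ∧ 0 < C' ∧
    10 ≤ T0 ∧
    (∀ T : ℝ, T0 ≤ T → ∀ a : ℝ, lam ≤ a → a * Real.log a ≤ B * Real.log T →
    ∀ κ : ℝ, 0 < κ → κ ≤ 1 / 8 → 8 ≤ κ * Real.log T →
    IntervalIntegrable (fun t => er lam κ T a t ^ 2) volume (T + Real.log T) (2 * T - Real.log T - 7) ∧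
    ∫ t in (T + Real.log T)..(2 * T - Real.log T - 7), er lam κ T a t ^ 2 ≤
      C * (1 + Real.log (1 / κ)) * T) ∧
    (∀ T : ℝ, T0 ≤ T → ∀ (h K : ℝ) (a k : Fin (m + 1) → ℝ), lam ≤ h → h ≤ K →
      K * Real.log K ≤ B * Real.log T → (∀ i j, i ≠ j → h ≤ |k i - k j|) → (∀ i j, |k i - k j| ≤ K) →
      (∀ i, |a i| ≤ H) → ∑ i, a i = 0 → 1 ≤ ∑ i, a i ^ 2 →
    ∀ κ : ℝ, 0 < κ → κ ≤ 1 / 8 → 8 ≤ κ * Real.log T →
    1 / Real.pi ^ 2 * Real.log h - C' * (1 + Real.log (1 / κ)) ≤
      VS (dc (Real.log T / lam) a (fun i => 2 * Real.pi * k i / Real.log T)) (XK κ T)) := by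
  obtain ⟨lam, C, T0, hlam, hC, hT0, hcomb⟩ := comb B hB
  have hpi := Real.pi_pos
  have hll : 0 ≤ Real.log lam := Real.log_nonneg (by linarith)
  have hlam0 : 0 < lam := by linarith
  refine ⟨lam, C, 1 / Real.pi ^ 2 * Real.log lam + ((m + 1 : ℕ) : ℝ) ^ 2 * H ^ 2 * C + 1, T0, hlam, hC,
    by positivity, hT0,
    fun T hT a ha haL κ hκ hκ8 hκT => ⟨(hcomb T hT a ha haL κ hκ hκ8 hκT).1,
      (hcomb T hT a ha haL κ hκ hκ8 hκT).2.1⟩, ?_⟩
  intro T hT h K a k hh hhK hKB hk1 hk2 haH ha0 ha1 κ hκ hκ8 hκT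
  have hL : 0 < Real.log T := Real.log_pos (by linarith)
  have hlogκ : 0 ≤ Real.log (1 / κ) := by
    apply Real.log_nonneg
    rw [le_div_iff₀ hκ]
    linarith
  set e := 1 + Real.log (1 / κ) with he
  have he1 : 1 ≤ e := by linarith
  set l := Real.log T / lam with hl
  set X := XK κ T with hX
  set W : ℝ → ℝ := fun x => VS (rc l (2 * Real.pi * x / Real.log T)) X with hW
  have hW0 : W 0 = 0 := by
    simp only [hW]
    have e1 : 2 * Real.pi * 0 / Real.log T = 0 := by ring
    rw [e1]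
    unfold VS
    refine Finset.sum_eq_zero fun p _ => ?_
    rw [rc_zero]
    ring
  have hh0 : 0 < h := by linarith
  have key : ∀ x : ℝ, lam ≤ x → x ≤ K → |W x - 2 / Real.pi ^ 2 * Real.log x| ≤ C * e := by
    intro x h1 h2
    refine (hcomb T hT x h1 ?_ κ hκ hκ8 hκT).2.2
    refine le_trans ?_ hKB
    have h3 : 0 ≤ Real.log x := Real.log_nonneg (by linarith)
    exact mul_le_mul h2 (Real.log_le_log (by linarith) h2) h3 (by linarith)
  have hVW : ∀ k : Fin (m + 1) → ℝ, VS (dc l a (fun i => 2 * Real.pi * k i / Real.log T)) X =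
      -(1 / 2) * ∑ i, ∑ j, a i * a j * W |k i - k j| := by
    intro k
    rw [VS_dc l a _ ha0]
    congr 1
    refine Finset.sum_congr rfl fun i _ => Finset.sum_congr rfl fun j _ => ?_
    simp only [hW]
    have e1 : |2 * Real.pi * k i / Real.log T - 2 * Real.pi * k j / Real.log T| =
        2 * Real.pi * |k i - k j| / Real.log T := by
      have : 2 * Real.pi * k i / Real.log T - 2 * Real.pi * k j / Real.log T =
        2 * Real.pi / Real.log T * (k i - k j) := by ring
      rw [this, abs_mul, abs_of_pos (by positivity)]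
      ring
    rw [e1]
  have h1 := hVW k
  have h2 := hVW (fun i => lam / h * k i)
  have h3 := VS_nonneg (dc l a (fun i => 2 * Real.pi * (lam / h * k i) / Real.log T)) X
  rw [h2] at h3
  set c0 := 2 / Real.pi ^ 2 * (Real.log h - Real.log lam) with hc0
  have hdel : ∀ i j, |W |k i - k j| - W |lam / h * k i - lam / h * k j| - (if i = j then 0 else c0)| ≤
      2 * (C * e) := by
    intro i j
    have hsc : |lam / h * k i - lam / h * k j| = lam / h * |k i - k j| := by
      rw [← mul_sub, abs_mul, abs_of_pos (by positivity)]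
    rw [hsc]
    by_cases hij : i = j
    · subst hij
      rw [if_pos rfl, sub_self, abs_zero, mul_zero, hW0]
      simp
      positivity
    · rw [if_neg hij]
      have g1 := hk1 i j hij
      have g2 := hk2 i j
      have g3 : lam ≤ lam / h * |k i - k j| := by
        rw [div_mul_eq_mul_div, le_div_iff₀ hh0]
        exact mul_le_mul_of_nonneg_left g1 hlam0.le
      have g4 : lam / h * |k i - k j| ≤ K := by
        have : lam / h ≤ 1 := by rw [div_le_one hh0]; exact hh
        calc lam / h * |k i - k j| ≤ 1 * |k i - k j| := mul_le_mul_of_nonneg_right this (abs_nonneg _)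
          _ ≤ K := by rw [one_mul]; exact g2
      have k1 := abs_le.1 (key _ (hh.trans g1) g2)
      have k2 := abs_le.1 (key _ g3 g4)
      have g5 : 0 < |k i - k j| := by linarith
      have g6 : Real.log (lam / h * |k i - k j|) = Real.log lam - Real.log h + Real.log |k i - k j| := by
        rw [Real.log_mul (by positivity) g5.ne', Real.log_div hlam0.ne' hh0.ne']
      rw [g6] at k2
      have g7 : 2 / Real.pi ^ 2 * (Real.log lam - Real.log h + Real.log |k i - k j|) =
        2 / Real.pi ^ 2 * Real.log |k i - k j| - c0 := by rw [hc0]; ring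
      rw [g7] at k2
      rw [abs_le]
      constructor <;> linarith [k1.1, k1.2, k2.1, k2.2]
  -- the sums
  have hsum1 : ∑ i, ∑ j, a i * a j * (if i = j then 0 else c0) = -(c0 * ∑ i, a i ^ 2) := by
    have e1 : ∀ i j, a i * a j * (if i = j then 0 else c0) = c0 * (a i * a j) -
        (if i = j then c0 * (a i * a j) else 0) := by
      intro i j
      split_ifs <;> ring
    simp only [e1, Finset.sum_sub_distrib, Finset.sum_ite_eq, Finset.mem_univ, if_true, ← Finset.mul_sum, ha0]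
    have e2 : ∑ i, a i * a i = ∑ i, a i ^ 2 := Finset.sum_congr rfl fun i _ => (sq (a i)).symm
    simp only [mul_zero, Finset.sum_const_zero]
    rw [e2]
    ring
  have hsum2 : |∑ i, ∑ j, a i * a j * (W |k i - k j| - W |lam / h * k i - lam / h * k j| -
      (if i = j then 0 else c0))| ≤ ((m + 1 : ℕ) : ℝ) ^ 2 * H ^ 2 * (2 * (C * e)) := by
    refine (Finset.abs_sum_le_sum_abs _ _).trans ?_
    have h4 : ∀ i ∈ (Finset.univ : Finset (Fin (m + 1))), |∑ j, a i * a j * (W |k i - k j| -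
        W |lam / h * k i - lam / h * k j| - (if i = j then 0 else c0))| ≤
        ((m + 1 : ℕ) : ℝ) * (H ^ 2 * (2 * (C * e))) := by
      intro i _
      refine (Finset.abs_sum_le_sum_abs _ _).trans ?_
      have h5 : ∀ j ∈ (Finset.univ : Finset (Fin (m + 1))), |a i * a j * (W |k i - k j| -
        W |lam / h * k i - lam / h * k j| - (if i = j then 0 else c0))| ≤ H ^ 2 * (2 * (C * e)) := by
        intro j _
        rw [abs_mul, abs_mul]
        have h6 : |a i| * |a j| ≤ H ^ 2 := by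
          rw [sq]
          exact mul_le_mul (haH i) (haH j) (abs_nonneg _) hH
        exact mul_le_mul h6 (hdel i j) (abs_nonneg _) (sq_nonneg _)
      refine (Finset.sum_le_sum h5).trans (le_of_eq ?_)
      rw [Finset.sum_const, Finset.card_univ, Fintype.card_fin, nsmul_eq_mul]
    refine (Finset.sum_le_sum h4).trans (le_of_eq ?_)
    rw [Finset.sum_const, Finset.card_univ, Fintype.card_fin, nsmul_eq_mul]
    ring
  have hsum3 : ∑ i, ∑ j, a i * a j * W |k i - k j| =
      ∑ i, ∑ j, a i * a j * W |lam / h * k i - lam / h * k j| +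
      ∑ i, ∑ j, a i * a j * (if i = j then 0 else c0) +
      ∑ i, ∑ j, a i * a j * (W |k i - k j| - W |lam / h * k i - lam / h * k j| -
      (if i = j then 0 else c0)) := by
    simp only [← Finset.sum_add_distrib]
    refine Finset.sum_congr rfl fun i _ => Finset.sum_congr rfl fun j _ => by ring
  rw [h1, hsum3, hsum1]
  have h7 := abs_le.1 hsum2
  have h8 : Real.log lam ≤ Real.log h := Real.log_le_log hlam0 hh
  have h9 : 0 ≤ c0 := by
    rw [hc0]
    have : 0 ≤ Real.log h - Real.log lam := by linarith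
    positivity
  have h10 : c0 ≤ c0 * ∑ i, a i ^ 2 := by nlinarith
  have h11 : 1 / 2 * c0 = 1 / Real.pi ^ 2 * Real.log h - 1 / Real.pi ^ 2 * Real.log lam := by
    rw [hc0]; ring
  have h12 : 1 / Real.pi ^ 2 * Real.log lam ≤ 1 / Real.pi ^ 2 * Real.log lam * e := by
    have : 0 ≤ 1 / Real.pi ^ 2 * Real.log lam := by positivity
    nlinarith
  have h13 : 0 ≤ -(1 / 2) * ∑ i, ∑ j, a i * a j * W |lam / h * k i - lam / h * k j| := h3
  nlinarith [h7.1, h7.2]

theorem seq_lf (B H : ℝ) (hB : 1 ≤ B) (hH : 0 ≤ H) (m : ℕ) : ∃ A0 : ℝ, 3 ≤ A0 ∧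
    ∀ (h K T : ℕ → ℝ) (a k : ℕ → Fin (m + 1) → ℝ), (∀ j, A0 ≤ h j) →
    (∀ j, h j ≤ K j) → (∀ j, 1 ≤ T j) → Tendsto h atTop atTop →
    (∀ j, K j * Real.log (K j) ≤ B * Real.log (T j)) →
    (∀ n i j, i ≠ j → h n ≤ |k n i - k n j|) → (∀ n i j, |k n i - k n j| ≤ K n) →
    (∀ n, k n 0 = 0) → (∀ n i, 0 ≤ k n i) →
      (∀ n i, |a n i| ≤ H) → (∀ n, ∑ i, a n i = 0) → (∀ n, 1 ≤ ∑ i, a n i ^ 2) →
    ∀ x ε : ℝ, 0 < x → 0 < ε →
    ∀ᶠ j in atTop, ∀ y : ℝ, volume.real {t | t ∈ Icc (T j) (2 * T j) ∧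
      |Lf (a j) (k j) (T j) t - y| ≤ x * Real.sqrt (Real.log (h j))} ≤ (48 * x + ε) * T j := by
  obtain ⟨lam, C, C', T0, hlam, hC, hC', hT0, hcomb, hvl⟩ := V_lowL B H hB hH m
  have hev : ∀ᶠ T : ℝ in atTop, 2 * Real.log T + 14 ≤ 1 * T / 2 := by
    have h1 : (fun T : ℝ => 2 * Real.log T + 14) =o[atTop] fun T : ℝ => T :=
      (Real.isLittleO_log_id_atTop.const_mul_left 2).add (Asymptotics.isLittleO_const_id_atTop _)
    have h2 := h1.bound (c := 1 / 2) (by norm_num)
    filter_upwards [h2, eventually_ge_atTop 1] with T hT hT1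
    rw [Real.norm_of_nonneg (by linarith : (0 : ℝ) ≤ T)] at hT
    have := (le_abs_self _).trans hT
    linarith
  obtain ⟨T3, hT3⟩ := hev.exists_forall_of_atTop
  have hpi := Real.pi_pos
  refine ⟨max (max lam 3) (max (B * (Real.log (max T0 T3))) (72 * B)),
    (le_max_right _ _).trans (le_max_left _ _), ?_⟩
  intro h K T a k ha hab hT1 hat haT hk1 hk2 hk3 hk4 hH1 hH2 hH3 x ε hx hε
  -- the basic facts
  have f1 : ∀ j, lam ≤ h j := fun j => ((le_max_left _ _).trans (le_max_left _ _)).trans (ha j)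
  have f2 : ∀ j, 3 ≤ h j := fun j => ((le_max_right _ _).trans (le_max_left _ _)).trans (ha j)
  have f3 : ∀ j, B * Real.log (max T0 T3) ≤ h j := fun j =>
    ((le_max_left _ _).trans (le_max_right _ _)).trans (ha j)
  have f4 : ∀ j, 72 * B ≤ h j := fun j =>
    ((le_max_right _ _).trans (le_max_right _ _)).trans (ha j)
  have f5 : ∀ j, 1 ≤ Real.log (h j) := fun j => by
    rw [Real.le_log_iff_exp_le (by linarith [f2 j])]
    linarith [Real.exp_one_lt_d9, f2 j]
  have haT' : ∀ j, h j * Real.log (h j) ≤ B * Real.log (T j) := fun j => by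
    refine le_trans ?_ (haT j)
    have h1 := f2 j
    have h2 := hab j
    have h3 : Real.log (h j) ≤ Real.log (K j) := Real.log_le_log (by linarith) (by linarith)
    exact mul_le_mul (by linarith) h3 (by linarith [f5 j]) (by linarith)
  have f6 : ∀ j, h j / B ≤ Real.log (T j) := fun j => by
    rw [div_le_iff₀ (by linarith)]
    have := haT' j
    have h1 : h j * 1 ≤ h j * Real.log (h j) :=
      mul_le_mul_of_nonneg_left (f5 j) (by linarith [f2 j])
    linarith
  have f6' : ∀ j, Real.log (max T0 T3) ≤ Real.log (T j) := fun j => by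
    refine le_trans ?_ (f6 j)
    rw [le_div_iff₀ (by linarith)]
    linarith [f3 j]
  have f7 : ∀ j, max T0 T3 ≤ T j := fun j => by
    have h0 : 0 < max T0 T3 := lt_of_lt_of_le (by linarith) (le_max_left T0 T3)
    rw [← Real.log_le_log_iff h0 (by linarith [hT1 j])]
    exact f6' j
  have f8 : ∀ j, T0 ≤ T j := fun j => (le_max_left _ _).trans (f7 j)
  have f9 : ∀ j, 2 * Real.log (T j) + 14 ≤ T j / 2 := fun j => by
    have := hT3 (T j) ((le_max_right _ _).trans (f7 j))
    linarith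
  have f10 : ∀ j, 0 < T j := fun j => by linarith [hT1 j]
  have f11 : ∀ j, 0 < Real.log (T j) := fun j => Real.log_pos (by linarith [f8 j])
  have hTt : Tendsto T atTop atTop := by
    refine tendsto_atTop_mono (fun j => ?_) (hat.atTop_div_const (by linarith : 0 < B))
    have h1 := Real.log_le_sub_one_of_pos (f10 j)
    linarith [f6 j]
  have hLt : Tendsto (fun j => Real.log (h j)) atTop atTop := Real.tendsto_log_atTop.comp hat
  -- the parameters
  set κ : ℕ → ℝ := fun j => 1 / (8 + Real.log (h j)) with hκ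
  have k1 : ∀ j, 0 < κ j := fun j => by
    have := f5 j
    simp only [hκ]; positivity
  have k2 : ∀ j, κ j ≤ 1 / 8 := fun j => by
    have := f5 j
    simp only [hκ]
    exact one_div_le_one_div_of_le (by norm_num) (by linarith)
  have k3 : ∀ j, 8 ≤ κ j * Real.log (T j) := fun j => by
    have h1 := f5 j
    have h2 := haT' j
    simp only [hκ]
    rw [div_mul_eq_mul_div, one_mul, le_div_iff₀ (by linarith)]
    have h3 : 8 * (8 + Real.log (h j)) ≤ 72 * Real.log (h j) := by linarith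
    have h4 : 72 * B * Real.log (h j) ≤ h j * Real.log (h j) :=
      mul_le_mul_of_nonneg_right (f4 j) (by linarith)
    have h5 : B * (72 * Real.log (h j)) ≤ B * Real.log (T j) := by linarith
    have h6 := le_of_mul_le_mul_left h5 (by linarith : 0 < B)
    linarith
  have k4 : ∀ j, Real.log (1 / κ j) = Real.log (8 + Real.log (h j)) := fun j => by
    simp only [hκ]; rw [one_div_one_div]
  set L : ℕ → ℝ := fun j => Real.log (T j) with hL
  set s : ℕ → Fin (m + 1) → ℝ := fun j i => 2 * Real.pi * k j i / Real.log (T j) with hs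
  set X : ℕ → ℕ := fun j => XK (κ j) (T j) with hX
  set c : ℕ → ℕ → ℝ := fun j => dc (Real.log (T j) / lam) (a j) (s j) with hc
  set w : ℕ → ℕ → ℂ := fun j => wn (ph (Real.log (T j) / lam) (a j) (s j)) with hw
  set V : ℕ → ℝ := fun j => VS (c j) (X j) with hV
  have hkK : ∀ j i, k j i ≤ K j := fun j i => by
    have := hk2 j i 0
    rw [hk3, sub_zero] at this
    exact (le_abs_self _).trans this
  have hcb : ∀ j (i : Fin (m + 1)), i ≠ 0 → _ := fun j i hi =>
    hcomb (T j) (f8 j) (k j i) (by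
      have := hk1 j i 0 hi
      rw [hk3, sub_zero, abs_of_nonneg (hk4 j i)] at this
      linarith [f1 j]) (by
      have h0 := hk1 j i 0 hi
      rw [hk3, sub_zero, abs_of_nonneg (hk4 j i)] at h0
      have h1 : 1 ≤ k j i := by linarith [f2 j]
      refine le_trans ?_ (haT j)
      exact mul_le_mul (hkK j i) (Real.log_le_log (by linarith) (hkK j i)) (Real.log_nonneg h1)
        (by linarith [f2 j, hab j])) (κ j) (k1 j) (k2 j) (k3 j)
  have hvb := fun j => hvl (T j) (f8 j) (h j) (K j) (a j) (k j) (f1 j) (hab j) (haT j) (hk1 j) (hk2 j)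
    (hH1 j) (hH2 j) (hH3 j) (κ j) (k1 j) (k2 j) (k3 j)
  -- q → 0
  set q : ℕ → ℝ := fun j => (1 + Real.log (8 + Real.log (h j))) / Real.log (h j) with hq
  have hq0 : Tendsto q atTop (𝓝 0) := small_log.comp hLt
  have hVq : ∀ j, (1 / Real.pi ^ 2 - C' * q j) * Real.log (h j) ≤ V j := fun j => by
    have h1 := hvb j
    rw [k4] at h1
    have h2 : 0 < Real.log (h j) := by linarith [f5 j]
    refine le_trans (le_of_eq ?_) h1
    simp only [hq]
    field_simp
  have hqs : ∀ᶠ j in atTop, 1 / 16 * Real.log (h j) ≤ V j := by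
    have h1 := hq0.const_mul C'
    rw [mul_zero] at h1
    have h3 : (1 : ℝ) / 10 < 1 / Real.pi ^ 2 := by
      have := Real.pi_lt_d2
      rw [div_lt_div_iff₀ (by norm_num) (by positivity)]
      nlinarith [Real.pi_gt_three]
    filter_upwards [h1.eventually_le_const (show (0 : ℝ) < 1 / 10 - 1 / 16 by norm_num)] with j hj
    refine le_trans ?_ (hVq j)
    apply mul_le_mul_of_nonneg_right _ (by linarith [f5 j])
    linarith
  have hVt : Tendsto V atTop atTop :=
    tendsto_atTop_mono' _ hqs (hLt.const_mul_atTop (by norm_num))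
  -- the parameter η
  obtain ⟨η, hη⟩ : ∃ η : ℝ, η = x / (2 * (((m + 1 : ℕ) : ℝ) * (H + 1))) := ⟨_, rfl⟩
  have hη0 : 0 < η := by rw [hη]; positivity
  have hηx : ((m + 1 : ℕ) : ℝ) * (H * η) ≤ x / 2 := by
    have h1 : ((m + 1 : ℕ) : ℝ) * ((H + 1) * η) = x / 2 := by
      rw [hη]
      field_simp
    have h2 : ((m + 1 : ℕ) : ℝ) * (H * η) ≤ ((m + 1 : ℕ) : ℝ) * ((H + 1) * η) := by
      gcongr
      linarith
    linarith
  -- anti-concentration
  have hanti := anti_w T (fun j => T j + L j) (fun j => 2 * T j - L j - 7) X c w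
    (fun j => wn_cm _) (fun j n _ => wn_norm (ph_norm _ _ _) n)
    (M := (((m + 1 : ℕ) : ℝ) * H) ^ 2 + 1) (fun j p => dc_bd (div_pos (f11 j) (by linarith)) _ _ (hH1 j) p)
    hTt f10
    (fun j => by
      have h1 := f9 j
      simp only [hL]; linarith [f10 j])
    (by
      have h0 : Tendsto (fun j => (7 : ℝ) / T j) atTop (𝓝 0) := tendsto_const_nhds.div_atTop hTt
      have h1 : Tendsto (fun j => 1 - (2 * (Real.log (T j) / T j ^ (1:ℝ)) + 7 / T j)) atTop
          (𝓝 (1 - (2 * 0 + 0))) := by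
        refine tendsto_const_nhds.sub (Tendsto.add ?_ h0)
        exact ((isLittleO_log_rpow_atTop (by norm_num : (0:ℝ) < 1)).tendsto_div_nhds_zero.comp hTt).const_mul 2
      rw [mul_zero, add_zero, sub_zero] at h1
      refine h1.congr fun j => ?_
      have := (f10 j).ne'
      rw [Real.rpow_one]
      simp only [hL]
      field_simp
      ring)
    (fun j => by
      simp only [hX]
      unfold XK
      apply Nat.le_floor
      push_cast
      exact Real.one_le_rpow (hT1 j) (k1 j).le)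
    (fun m => by
      filter_upwards [hLt.eventually_ge_atTop (2 * (m : ℝ))] with j hj
      have h1 : ((X j ^ m : ℕ) : ℝ) ≤ (T j ^ κ j) ^ m := by
        push_cast
        exact pow_le_pow_left₀ (Nat.cast_nonneg _) (Nat.floor_le (by have := f10 j; positivity)) m
      refine h1.trans ?_
      rw [← Real.rpow_natCast, ← Real.rpow_mul (f10 j).le, Real.sqrt_eq_rpow]
      apply Real.rpow_le_rpow_of_exponent_le (hT1 j)
      simp only [hκ]
      rw [div_mul_eq_mul_div, one_mul, div_le_iff₀ (by linarith [f5 j])]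
      linarith)
    hVt (8 * x) (ε / 10) (by linarith) (by positivity)
  -- the eventual inequalities
  have e4 : ∀ᶠ j in atTop, ((m + 1 : ℕ) : ℝ) * (C * q j / η ^ 2) ≤ ε / 10 := by
    have h1 := ((hq0.const_mul C).div_const (η ^ 2)).const_mul ((m + 1 : ℕ) : ℝ)
    rw [mul_zero, zero_div, mul_zero] at h1
    exact h1.eventually_le_const (by positivity)
  have e5 : ∀ᶠ j in atTop, (2 * L j + 7) / T j ≤ ε / 10 := by
    have h1 : Tendsto (fun j => 2 * (Real.log (T j) / T j ^ (1:ℝ)) + 7 / T j) atTop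
        (𝓝 (2 * 0 + 0)) := by
      refine Tendsto.add ?_ (tendsto_const_nhds.div_atTop hTt)
      exact ((isLittleO_log_rpow_atTop (by norm_num : (0:ℝ) < 1)).tendsto_div_nhds_zero.comp hTt).const_mul 2
    rw [mul_zero, add_zero] at h1
    filter_upwards [h1.eventually_le_const (show (0 : ℝ) < ε / 10 by positivity)] with j hj
    refine le_trans (le_of_eq ?_) hj
    have := (f10 j).ne'
    rw [Real.rpow_one]
    simp only [hL]
    field_simp
  filter_upwards [hanti, e4, e5, hVt.eventually_gt_atTop 0, hqs] with j g1 g4 g5 g6 g7 y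
  have hTj := f10 j
  have hLj := f11 j
  have hla : 0 < Real.log (h j) := by linarith [f5 j]
  have hsla : 0 < Real.sqrt (Real.log (h j)) := Real.sqrt_pos.2 hla
  have hAB : T j + L j ≤ 2 * T j - L j - 7 := by
    have := f9 j
    simp only [hL]; linarith
  have hLj' : 0 < L j := hLj
  set I0 : Set ℝ := Ioc (T j + L j) (2 * T j - L j - 7) with hI0
  have hI0v : volume I0 ≠ ⊤ := by rw [hI0, Real.volume_Ioc]; exact ENNReal.ofReal_ne_top
  set E : Fin (m + 1) → Set ℝ := fun i => {t | η ^ 2 * Real.log (h j) ≤ er lam (κ j) (T j) (k j i) t ^ 2} with hE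
  have hEm : ∀ i, MeasurableSet (E i) := fun i => measurableSet_le measurable_const ((er_meas _ _ _ _).pow_const 2)
  -- Chebyshev
  have hcheb : ∀ i, volume.real (E i ∩ I0) ≤ (C * q j / η ^ 2) * T j := by
    intro i
    have hq1 : 0 ≤ q j := by
      simp only [hq]
      have : 0 ≤ Real.log (8 + Real.log (h j)) := Real.log_nonneg (by linarith)
      positivity
    by_cases hi : i = 0
    · have e : E i ∩ I0 = ∅ := by
        rw [Set.eq_empty_iff_forall_notMem]
        rintro t ⟨ht, _⟩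
        simp only [hE, mem_ofPred_eq] at ht
        rw [hi, hk3, er_zero] at ht
        have : 0 < η ^ 2 * Real.log (h j) := by positivity
        nlinarith
      rw [e, measureReal_empty]
      positivity
    obtain ⟨ci, cb⟩ := hcb j i hi
    rw [k4] at cb
    have h1 := mul_meas_ge_le_integral_of_nonneg (μ := volume.restrict I0)
      (f := fun t => er lam (κ j) (T j) (k j i) t ^ 2) (Eventually.of_forall fun _ => sq_nonneg _)
      (by
        have := ci
        rw [intervalIntegrable_iff_integrableOn_Ioc_of_le hAB] at this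
        exact this) (η ^ 2 * Real.log (h j))
    rw [measureReal_restrict_apply (hEm i)] at h1
    have h2 : ∫ t in I0, er lam (κ j) (T j) (k j i) t ^ 2 ≤
        C * (1 + Real.log (8 + Real.log (h j))) * T j := by
      rw [hI0, ← intervalIntegral.integral_of_le hAB]
      exact cb
    have h3 : volume.real (E i ∩ I0) ≤ (C * (1 + Real.log (8 + Real.log (h j))) * T j) /
        (η ^ 2 * Real.log (h j)) := by
      rw [le_div_iff₀ (by positivity), mul_comm]
      exact h1.trans h2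
    refine h3.trans (le_of_eq ?_)
    simp only [hq]
    field_simp
  have hEu : volume.real (⋃ i, E i ∩ I0) ≤ ε / 10 * T j := by
    refine (measureReal_iUnion_fintype_le _).trans ?_
    refine (Finset.sum_le_sum fun i _ => hcheb i).trans ?_
    rw [Finset.sum_const, Finset.card_univ, Fintype.card_fin, nsmul_eq_mul, ← mul_assoc]
    exact mul_le_mul_of_nonneg_right g4 hTj.le
  have g1' := g1 (∑ i, a j i * k j i - y)
  -- the inclusion
  have hsub : {t | t ∈ Icc (T j) (2 * T j) ∧ |Lf (a j) (k j) (T j) t - y| ≤ x * Real.sqrt (Real.log (h j))} ⊆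
      (Icc (T j) (T j + L j) ∪ Icc (2 * T j - L j - 7) (2 * T j)) ∪
      ((⋃ i, E i ∩ I0) ∪ {t ∈ I0 | |(Gw (c j) (w j) (X j) t).re - (∑ i, a j i * k j i - y)| <
        8 * x * Real.sqrt (V j)}) := by
    intro t ht
    obtain ⟨ht1, ht2⟩ := ht
    rcases le_or_gt t (T j + L j) with h1 | h1
    · left; left; exact ⟨ht1.1, h1⟩
    rcases lt_or_ge (2 * T j - L j - 7) t with h2 | h2
    · left; right; exact ⟨h2.le, ht1.2⟩
    right
    by_cases h3 : ∃ i, t ∈ E i
    · obtain ⟨i, hi⟩ := h3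
      left
      exact mem_iUnion.2 ⟨i, hi, h1, h2⟩
    right
    refine ⟨⟨h1, h2⟩, ?_⟩
    push Not at h3
    have a1 : ∀ i, |er lam (κ j) (T j) (k j i) t| ≤ η * Real.sqrt (Real.log (h j)) := by
      intro i
      have h4 := h3 i
      simp only [hE, mem_ofPred_eq, not_le] at h4
      apply le_of_lt
      rw [← sq_lt_sq₀ (abs_nonneg _) (by positivity), sq_abs, mul_pow, Real.sq_sqrt hla.le]
      exact h4
    have a2 : |∑ i, a j i * er lam (κ j) (T j) (k j i) t| ≤ x / 2 * Real.sqrt (Real.log (h j)) := by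
      refine (Finset.abs_sum_le_sum_abs _ _).trans ?_
      have a3 : ∀ i ∈ (Finset.univ : Finset (Fin (m + 1))), |a j i * er lam (κ j) (T j) (k j i) t| ≤
          H * (η * Real.sqrt (Real.log (h j))) := by
        intro i _
        rw [abs_mul]
        exact mul_le_mul (hH1 j i) (a1 i) (abs_nonneg _) hH
      refine (Finset.sum_le_sum a3).trans ?_
      rw [Finset.sum_const, Finset.card_univ, Fintype.card_fin, nsmul_eq_mul]
      have e : ((m + 1 : ℕ) : ℝ) * (H * (η * Real.sqrt (Real.log (h j)))) =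
        ((m + 1 : ℕ) : ℝ) * (H * η) * Real.sqrt (Real.log (h j)) := by ring
      rw [e]
      exact mul_le_mul_of_nonneg_right hηx hsla.le
    have hD := Lf_eq lam (κ j) (a j) (k j) (hH2 j) (T j) t
    set g := (Gw (c j) (w j) (X j) t).re with hg
    have hD' : Lf (a j) (k j) (T j) t = ∑ i, a j i * k j i + ∑ i, a j i * er lam (κ j) (T j) (k j i) t - g := hD
    rw [hD'] at ht2
    have b1 := abs_le.1 a2
    have b2 := abs_le.1 ht2
    have b3 : |g - (∑ i, a j i * k j i - y)| ≤ 3 / 2 * x * Real.sqrt (Real.log (h j)) := by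
      rw [abs_le]
      constructor <;> linarith [b1.1, b1.2, b2.1, b2.2]
    refine lt_of_le_of_lt b3 ?_
    have b4 : Real.sqrt (Real.log (h j)) ≤ 4 * Real.sqrt (V j) := by
      have e : 4 * Real.sqrt (V j) = Real.sqrt (16 * V j) := by
        rw [Real.sqrt_mul (by norm_num)]
        congr 1
        rw [show (16 : ℝ) = 4 ^ 2 by norm_num, Real.sqrt_sq (by norm_num)]
      rw [e]
      apply Real.sqrt_le_sqrt
      linarith
    have b5 : 0 < x * Real.sqrt (V j) := mul_pos hx (Real.sqrt_pos.2 g6)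
    have b6 := mul_le_mul_of_nonneg_left b4 (show 0 ≤ 3 / 2 * x by positivity)
    linarith
  have hfin1 : volume (Icc (T j) (T j + L j) ∪ Icc (2 * T j - L j - 7) (2 * T j)) ≠ ⊤ :=
    measure_union_ne_top (by rw [Real.volume_Icc]; exact ENNReal.ofReal_ne_top)
      (by rw [Real.volume_Icc]; exact ENNReal.ofReal_ne_top)
  have hfin2 : volume (⋃ i, E i ∩ I0) ≠ ⊤ := ne_top_of_le_ne_top hI0v
    (measure_mono (iUnion_subset fun i => inter_subset_right))
  have hfin3 : volume {t ∈ I0 | |(Gw (c j) (w j) (X j) t).re - (∑ i, a j i * k j i - y)| <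
        8 * x * Real.sqrt (V j)} ≠ ⊤ := ne_top_of_le_ne_top hI0v (measure_mono (sep_subset _ _))
  have h1 := measureReal_mono hsub (measure_union_ne_top hfin1 (measure_union_ne_top hfin2 hfin3))
  have h2 := measureReal_union_le (μ := volume) (Icc (T j) (T j + L j) ∪ Icc (2 * T j - L j - 7) (2 * T j))
    ((⋃ i, E i ∩ I0) ∪ {t ∈ I0 | |(Gw (c j) (w j) (X j) t).re - (∑ i, a j i * k j i - y)| <
        8 * x * Real.sqrt (V j)})
  have h3 := measureReal_union_le (μ := volume) (Icc (T j) (T j + L j)) (Icc (2 * T j - L j - 7) (2 * T j))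
  have h4 := measureReal_union_le (μ := volume) (⋃ i, E i ∩ I0)
    {t ∈ I0 | |(Gw (c j) (w j) (X j) t).re - (∑ i, a j i * k j i - y)| < 8 * x * Real.sqrt (V j)}
  rw [Real.volume_real_Icc_of_le (by linarith), Real.volume_real_Icc_of_le (by linarith)] at h3
  have h6 : 2 * L j + 7 ≤ ε / 10 * T j := by rwa [div_le_iff₀ hTj] at g5
  have h7 : volume.real {t ∈ I0 | |(Gw (c j) (w j) (X j) t).re - (∑ i, a j i * k j i - y)| <
        8 * x * Real.sqrt (V j)} ≤ (6 * (8 * x) + ε / 10) * T j := g1'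
  have h10 : 0 < ε * T j := by positivity
  linarith

/-- uniform version -/
theorem stat_lf (B H : ℝ) (hB : 1 ≤ B) (hH : 0 ≤ H) (m : ℕ) (x ε : ℝ) (hx : 0 < x) (hε : 0 < ε) :
    ∃ R : ℝ, 3 ≤ R ∧
    ∀ (h K T : ℝ) (a k : Fin (m + 1) → ℝ), R ≤ h → h ≤ K → 1 ≤ T → K * Real.log K ≤ B * Real.log T →
    (∀ i j, i ≠ j → h ≤ |k i - k j|) → (∀ i j, |k i - k j| ≤ K) → k 0 = 0 → (∀ i, 0 ≤ k i) →
      (∀ i, |a i| ≤ H) → ∑ i, a i = 0 → 1 ≤ ∑ i, a i ^ 2 → ∀ y : ℝ,
    volume.real {t | t ∈ Icc T (2 * T) ∧ |Lf a k T t - y| ≤ x * Real.sqrt (Real.log h)} ≤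
      (48 * x + ε) * T := by
  obtain ⟨A0, hA0, hseq⟩ := seq_lf B H hB hH m
  by_contra hcon
  push Not at hcon
  have hch : ∀ j : ℕ, ∃ p : ℝ × ℝ × ℝ × (Fin (m + 1) → ℝ) × (Fin (m + 1) → ℝ), A0 + j ≤ p.1 ∧ p.1 ≤ p.2.1 ∧
      1 ≤ p.2.2.1 ∧ p.2.1 * Real.log p.2.1 ≤ B * Real.log p.2.2.1 ∧
      (∀ i j, i ≠ j → p.1 ≤ |p.2.2.2.2 i - p.2.2.2.2 j|) ∧ (∀ i j, |p.2.2.2.2 i - p.2.2.2.2 j| ≤ p.2.1) ∧
      p.2.2.2.2 0 = 0 ∧ (∀ i, 0 ≤ p.2.2.2.2 i) ∧ (∀ i, |p.2.2.2.1 i| ≤ H) ∧ ∑ i, p.2.2.2.1 i = 0 ∧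
      1 ≤ ∑ i, p.2.2.2.1 i ^ 2 ∧ ∃ y : ℝ,
      (48 * x + ε) * p.2.2.1 < volume.real {t | t ∈ Icc p.2.2.1 (2 * p.2.2.1) ∧
        |Lf p.2.2.2.1 p.2.2.2.2 p.2.2.1 t - y| ≤ x * Real.sqrt (Real.log p.1)} := by
    intro j
    obtain ⟨h, K, T, a, k, h1, h2, h3, h4, h5, h6, h7, h8, h9, h10, h11, y, h12⟩ :=
      hcon (A0 + j) (by have : (0 : ℝ) ≤ j := Nat.cast_nonneg j; linarith)
    exact ⟨(h, K, T, a, k), h1, h2, h3, h4, h5, h6, h7, h8, h9, h10, h11, y, h12⟩
  choose p hp using hch
  have h := hseq (fun j => (p j).1) (fun j => (p j).2.1) (fun j => (p j).2.2.1)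
    (fun j => (p j).2.2.2.1) (fun j => (p j).2.2.2.2)
    (fun j => by
      have : (0 : ℝ) ≤ j := Nat.cast_nonneg j
      have := (hp j).1
      linarith) (fun j => (hp j).2.1) (fun j => (hp j).2.2.1)
    (tendsto_atTop_mono (fun j => by have := (hp j).1; linarith) tendsto_natCast_atTop_atTop)
    (fun j => (hp j).2.2.2.1) (fun j => (hp j).2.2.2.2.1) (fun j => (hp j).2.2.2.2.2.1)
    (fun j => (hp j).2.2.2.2.2.2.1) (fun j => (hp j).2.2.2.2.2.2.2.1) (fun j => (hp j).2.2.2.2.2.2.2.2.1)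
    (fun j => (hp j).2.2.2.2.2.2.2.2.2.1) (fun j => (hp j).2.2.2.2.2.2.2.2.2.2.1) x ε hx hε
  obtain ⟨j, hj⟩ := h.exists
  obtain ⟨y, hy⟩ := (hp j).2.2.2.2.2.2.2.2.2.2.2
  exact absurd hy (not_lt.2 (hj y))

end Pool.Agent.X112.LF
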