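import Pool.Agent.X112.SD.Im

/-! # Prime polynomials with complex coefficients: moments and the central limit theorem -/

set_option autoImplicit false

namespace Pool.Agent.X112.LF

open Filter Topology MeasureTheory Complex
open Pool.Agent.Y743.CL
open Pool.Agent.Y41.SW (supp_pow)

noncomputable section

/-- the sum of the values of `f` against `z` -/
def DZ (f : ℕ → ℝ) (z : ℕ → ℂ) (X : ℕ) : ℂ := ∑ n ∈ Finset.Icc 1 X, (f n : ℂ) * z n

/-- complete multiplicativity -/
structure CM (z : ℕ → ℂ) : Prop where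
  one : z 1 = 1
  mul : ∀ a b : ℕ, a ≠ 0 → b ≠ 0 → z (a * b) = z a * z b

lemma DZ_extend (f : ℕ → ℝ) (z : ℕ → ℂ) (X Y : ℕ) (hXY : X ≤ Y) (hf : ∀ n, X < n → f n = 0) :
    DZ f z X = DZ f z Y := by
  unfold DZ
  apply Finset.sum_subset
  · exact Finset.Icc_subset_Icc_right hXY
  · intro n hn hn'
    have : X < n := by
      simp only [Finset.mem_Icc, not_and, not_le] at hn hn'
      exact hn' hn.1
    rw [hf n this]; simp

lemma DZ_mul (f g : ArithmeticFunction ℝ) (M N : ℕ) (hf : ∀ n, M < n → f n = 0)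
    (hg : ∀ n, N < n → g n = 0) {z : ℕ → ℂ} (hz : CM z) :
    DZ f z M * DZ g z N = DZ ⇑(f * g) z (M * N) := by
  unfold DZ
  rw [Finset.sum_mul_sum, ← Finset.sum_product']
  have hmap : ∀ x ∈ Finset.Icc 1 M ×ˢ Finset.Icc 1 N, x.1 * x.2 ∈ Finset.Icc 1 (M * N) := by
    intro x hx
    simp only [Finset.mem_product, Finset.mem_Icc] at hx ⊢
    exact ⟨Nat.one_le_iff_ne_zero.mpr (by
      have h1 := hx.1.1; have h2 := hx.2.1
      positivity), Nat.mul_le_mul hx.1.2 hx.2.2⟩
  rw [← Finset.sum_fiberwise_of_maps_to hmap]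
  apply Finset.sum_congr rfl
  intro r hr
  rw [Finset.mem_Icc] at hr
  rw [ArithmeticFunction.mul_apply]
  push_cast
  rw [Finset.sum_mul]
  apply Finset.sum_subset_zero_on_sdiff
  · intro x hx
    simp only [Finset.mem_filter, Finset.mem_product, Finset.mem_Icc] at hx
    rw [Nat.mem_divisorsAntidiagonal]
    exact ⟨hx.2, by omega⟩
  · intro x hx
    simp only [Finset.mem_sdiff, Nat.mem_divisorsAntidiagonal, Finset.mem_filter, Finset.mem_product,
      Finset.mem_Icc] at hx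
    obtain ⟨⟨h1, h2⟩, h3⟩ := hx
    have hx1 : 1 ≤ x.1 := by
      rcases Nat.eq_zero_or_pos x.1 with h | h
      · rw [h] at h1; omega
      · exact h
    have hx2 : 1 ≤ x.2 := by
      rcases Nat.eq_zero_or_pos x.2 with h | h
      · rw [h] at h1; omega
      · exact h
    by_cases hM : M < x.1
    · rw [hf _ hM]; simp
    · by_cases hN : N < x.2
      · rw [hg _ hN]; simp
      · exfalso
        push Not at hM hN
        exact h3 ⟨⟨⟨hx1, hM⟩, ⟨hx2, hN⟩⟩, h1⟩
  · intro x hx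
    simp only [Finset.mem_filter, Finset.mem_product, Finset.mem_Icc] at hx
    rw [← hx.2, hz.mul _ _ (by omega) (by omega)]
    push_cast
    ring

lemma DZ_pow (f : ArithmeticFunction ℝ) (X : ℕ) (hf : ∀ n, X < n → f n = 0) {z : ℕ → ℂ} (hz : CM z)
    (k : ℕ) : DZ f z X ^ k = DZ ⇑(f ^ k) z (X ^ k) := by
  induction k with
  | zero =>
    rw [pow_zero, pow_zero, pow_zero]
    unfold DZ
    simp [hz.one]
  | succ k ih =>
    rw [pow_succ, ih, DZ_mul (f ^ k) f (X ^ k) X (supp_pow f X hf k) hf hz, pow_succ, pow_succ]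

/-- the twisted character -/
def zt (w : ℕ → ℂ) (t : ℝ) (n : ℕ) : ℂ := w n * (n : ℂ) ^ (-(t : ℂ) * I)

lemma zt_cm {w : ℕ → ℂ} (hw : CM w) (t : ℝ) : CM (zt w t) := by
  refine ⟨by simp [zt, hw.one], fun a b ha hb => ?_⟩
  unfold zt
  rw [hw.mul a b ha hb]
  push_cast
  rw [Complex.natCast_mul_natCast_cpow]
  ring

/-- the prime polynomial with coefficients `c p * w p` -/
def Gw (c : ℕ → ℝ) (w : ℕ → ℂ) (X : ℕ) (t : ℝ) : ℂ := DZ (pr c X) (zt w t) X

lemma Gw_pow (c : ℕ → ℝ) {w : ℕ → ℂ} (hw : CM w) (X : ℕ) (t : ℝ) (k N : ℕ) (hN : X ^ k ≤ N) :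
    Gw c w X t ^ k = DZ ⇑(pr c X ^ k) (zt w t) N := by
  unfold Gw
  rw [DZ_pow _ _ (pr_supp c X) (zt_cm hw t)]
  exact DZ_extend _ _ _ _ hN (supp_pow _ _ (pr_supp c X) k)

lemma Gw_cont (c : ℕ → ℝ) (w : ℕ → ℂ) (X : ℕ) : Continuous (Gw c w X) := by
  unfold Gw DZ zt
  refine continuous_finsetSum _ fun n hn => ?_
  have hn0 : (n : ℂ) ≠ 0 := by
    exact_mod_cast (by have := (Finset.mem_Icc.1 hn).1; omega : n ≠ 0)
  exact continuous_const.mul (continuous_const.mul (Continuous.const_cpow (by fun_prop) (Or.inl hn0)))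

/-- the moments at one height -/
lemma mom_bdw (c : ℕ → ℝ) {w : ℕ → ℂ} (hw : CM w) (hw1 : ∀ n : ℕ, n ≠ 0 → ‖w n‖ = 1)
    (X : ℕ) (hX : 1 ≤ X) (T A B : ℝ) (hT : 1 ≤ T) (hAB : A ≤ B) (k l : ℕ)
    (hXT : ((X ^ (k + l) : ℕ) : ℝ) ≤ Real.sqrt T) :
    ‖(∫ t in A..B, Gw c w X t ^ k * (starRingEnd ℂ) (Gw c w X t) ^ l) -
      ((B - A : ℝ) : ℂ) * (if k = l then (SS c X k : ℂ) else 0)‖ ≤
      8 * (Real.sqrt T * (1 + Real.log T)) *
        (Real.sqrt (k.factorial * VS c X ^ k) * Real.sqrt (l.factorial * VS c X ^ l)) := by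
  set N : ℕ := X ^ (k + l) with hNdef
  have hN1 : 1 ≤ N := Nat.one_le_pow _ _ hX
  have hkN : X ^ k ≤ N := Nat.pow_le_pow_right hX (by omega)
  have hlN : X ^ l ≤ N := Nat.pow_le_pow_right hX (by omega)
  have hint : ∀ t : ℝ, Gw c w X t ^ k * (starRingEnd ℂ) (Gw c w X t) ^ l =
      (∑ n ∈ Finset.Icc 1 N, ((((pr c X ^ k) n : ℝ) : ℂ) * w n) * (n : ℂ) ^ (-(t : ℂ) * I)) *
      (starRingEnd ℂ) (∑ n ∈ Finset.Icc 1 N, ((((pr c X ^ l) n : ℝ) : ℂ) * w n) *
        (n : ℂ) ^ (-(t : ℂ) * I)) := by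
    intro t
    rw [← map_pow, Gw_pow c hw X t k N hkN, Gw_pow c hw X t l N hlN]
    unfold DZ zt
    simp only [mul_assoc]
  have hMV := Pool.Agent.Y840.SW.t_MVB N A B hAB
    (fun n => (((pr c X ^ k) n : ℝ) : ℂ) * w n) (fun n => (((pr c X ^ l) n : ℝ) : ℂ) * w n)
  simp only [← hint] at hMV
  have hww : ∀ n ∈ Finset.Icc 1 N, w n * (starRingEnd ℂ) (w n) = 1 := by
    intro n hn
    have hn0 : n ≠ 0 := by have := (Finset.mem_Icc.1 hn).1; omega
    rw [Complex.mul_conj, Complex.normSq_eq_norm_sq, hw1 n hn0]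
    simp
  have hA : (∑ n ∈ Finset.Icc 1 N, ((((pr c X ^ k) n : ℝ) : ℂ) * w n) *
      (starRingEnd ℂ) ((((pr c X ^ l) n : ℝ) : ℂ) * w n)) = (if k = l then (SS c X k : ℂ) else 0) := by
    have e : ∀ n ∈ Finset.Icc 1 N, ((((pr c X ^ k) n : ℝ) : ℂ) * w n) *
      (starRingEnd ℂ) ((((pr c X ^ l) n : ℝ) : ℂ) * w n) =
      (((pr c X ^ k) n * (pr c X ^ l) n : ℝ) : ℂ) := by
      intro n hn
      rw [map_mul, Complex.conj_ofReal]
      push_cast
      linear_combination ((((pr c X ^ k) n : ℝ) : ℂ) * (((pr c X ^ l) n : ℝ) : ℂ)) * hww n hn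
    rw [Finset.sum_congr rfl e]
    split_ifs with h
    · subst h
      rw [← SS_eq k N hkN]
      push_cast
      refine Finset.sum_congr rfl fun n _ => ?_
      rw [sq]
    · refine Finset.sum_eq_zero fun n _ => ?_
      rw [pr_orth h n, Complex.ofReal_zero]
  rw [hA] at hMV
  have hS : ∀ i : ℕ, X ^ i ≤ N → (∑ n ∈ Finset.Icc 1 N, ‖(((pr c X ^ i) n : ℝ) : ℂ) * w n‖ ^ 2) ≤
      i.factorial * VS c X ^ i := by
    intro i hi
    refine le_trans (le_of_eq ?_) (SS_le c X i)
    rw [← SS_eq i N hi]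
    refine Finset.sum_congr rfl fun n hn => ?_
    rw [norm_mul, hw1 n (by have := (Finset.mem_Icc.1 hn).1; omega), mul_one, Complex.norm_real,
      Real.norm_eq_abs, sq_abs]
  refine hMV.trans ?_
  have hlogN : Real.log N ≤ Real.log T := by
    apply Real.log_le_log (by exact_mod_cast hN1)
    refine hXT.trans ?_
    rw [Real.sqrt_le_left (by linarith)]
    nlinarith
  have hlogN0 : 0 ≤ Real.log N := Real.log_natCast_nonneg N
  have hlogT0 : 0 ≤ Real.log T := Real.log_nonneg hT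
  have hNb : (N:ℝ) * (1 + Real.log N) ≤ Real.sqrt T * (1 + Real.log T) := by
    apply mul_le_mul hXT (by linarith) (by linarith) (Real.sqrt_nonneg _)
  have h1 := Real.sqrt_le_sqrt (hS k hkN)
  have h2 := Real.sqrt_le_sqrt (hS l hlN)
  have h3 := mul_le_mul h1 h2 (Real.sqrt_nonneg _) (Real.sqrt_nonneg _)
  have h4 : 8 * (N : ℝ) * (1 + Real.log N) ≤ 8 * (Real.sqrt T * (1 + Real.log T)) := by
    have e : 8 * (N : ℝ) * (1 + Real.log N) = 8 * (N * (1 + Real.log N)) := by ring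
    rw [e]
    linarith
  exact mul_le_mul h4 h3 (by positivity) (by positivity)

/-- the moments along a sequence -/
theorem mom_limw (T A B : ℕ → ℝ) (X : ℕ → ℕ) (c : ℕ → ℕ → ℝ) (w : ℕ → ℕ → ℂ) (hw : ∀ j, CM (w j))
    (hw1 : ∀ j, ∀ n : ℕ, n ≠ 0 → ‖w j n‖ = 1) {M : ℝ} (hM : ∀ j p, c j p ^ 2 ≤ M)
    (hT : Tendsto T atTop atTop) (hAB : ∀ j, A j ≤ B j)
    (hlen : Tendsto (fun j => (B j - A j) / T j) atTop (𝓝 1)) (hX1 : ∀ j, 1 ≤ X j)
    (hX : ∀ m : ℕ, ∀ᶠ j in atTop, ((X j ^ m : ℕ) : ℝ) ≤ Real.sqrt (T j))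
    (hV : Tendsto (fun j => VS (c j) (X j)) atTop atTop) (k l : ℕ) :
    Tendsto (fun j => (((1 / T j) * (1 / Real.sqrt (VS (c j) (X j)) ^ (k + l)) : ℝ) : ℂ) *
      ∫ t in (A j)..(B j), Gw (c j) (w j) (X j) t ^ k * (starRingEnd ℂ) (Gw (c j) (w j) (X j) t) ^ l) atTop
      (𝓝 (if k = l then (k.factorial : ℂ) else 0)) := by
  -- the main term
  have hmain : Tendsto (fun j => (((1 / T j) * (1 / Real.sqrt (VS (c j) (X j)) ^ (k + l)) : ℝ) : ℂ) *
      (((B j - A j : ℝ) : ℂ) * (if k = l then (SS (c j) (X j) k : ℂ) else 0))) atTop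
      (𝓝 (if k = l then (k.factorial : ℂ) else 0)) := by
    by_cases h : k = l
    · subst h
      simp only [if_true]
      have h1 := (hlen.mul (SS_lim c X hM hV k))
      rw [one_mul] at h1
      have h2 := (Complex.continuous_ofReal.tendsto _).comp h1
      have e : ((k.factorial : ℝ) : ℂ) = (k.factorial : ℂ) := by push_cast; rfl
      rw [e] at h2
      refine h2.congr' ?_
      filter_upwards [hV.eventually_gt_atTop 0, hT.eventually_gt_atTop 0] with j hj hTj
      simp only [Function.comp]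
      have e1 : Real.sqrt (VS (c j) (X j)) ^ (k + k) = VS (c j) (X j) ^ k := by
        rw [← two_mul, pow_mul, Real.sq_sqrt hj.le]
      rw [e1]
      push_cast
      have e2 : ((VS (c j) (X j) : ℝ) : ℂ) ≠ 0 := by exact_mod_cast hj.ne'
      have e3 : ((T j : ℝ) : ℂ) ≠ 0 := by exact_mod_cast hTj.ne'
      field_simp
    · simp only [if_neg h, mul_zero]
      exact tendsto_const_nhds
  have herr : Tendsto (fun j => (((1 / T j) * (1 / Real.sqrt (VS (c j) (X j)) ^ (k + l)) : ℝ) : ℂ) *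
      (∫ t in (A j)..(B j), Gw (c j) (w j) (X j) t ^ k * (starRingEnd ℂ) (Gw (c j) (w j) (X j) t) ^ l) -
      (((1 / T j) * (1 / Real.sqrt (VS (c j) (X j)) ^ (k + l)) : ℝ) : ℂ) *
      (((B j - A j : ℝ) : ℂ) * (if k = l then (SS (c j) (X j) k : ℂ) else 0))) atTop (𝓝 0) := by
    have hb : Tendsto (fun j => 8 * (Real.sqrt k.factorial * Real.sqrt l.factorial) *
        (Real.sqrt (T j) * (1 + Real.log (T j)) / T j)) atTop (𝓝 0) := by
      have := (Pool.Agent.Y41.SW.err_tendsto.comp hT).const_mul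
        (8 * (Real.sqrt k.factorial * Real.sqrt l.factorial))
      rwa [mul_zero] at this
    refine squeeze_zero_norm' ?_ hb
    filter_upwards [hX (k + l), hV.eventually_gt_atTop 0, hT.eventually_ge_atTop 1] with j hXj hVj hTj
    have hT0 : 0 < T j := by linarith
    have h1 := mom_bdw (c j) (hw j) (hw1 j) (X j) (hX1 j) (T j) (A j) (B j) hTj (hAB j) k l hXj
    set V := VS (c j) (X j) with hVd
    have hs : 0 < Real.sqrt V := Real.sqrt_pos.2 hVj
    rw [← mul_sub, norm_mul, Complex.norm_real, Real.norm_eq_abs, abs_of_pos (by positivity)]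
    refine (mul_le_mul_of_nonneg_left h1 (by positivity)).trans (le_of_eq ?_)
    have e1 : ∀ i : ℕ, Real.sqrt ((i.factorial : ℝ) * V ^ i) =
        Real.sqrt i.factorial * Real.sqrt V ^ i := by
      intro i
      rw [Real.sqrt_mul (by positivity)]
      congr 1
      rw [Real.sqrt_eq_iff_mul_self_eq (by positivity) (by positivity), ← pow_add, ← two_mul,
        pow_mul, Real.sq_sqrt hVj.le]
    rw [e1, e1, pow_add]
    field_simp
  have := herr.add hmain
  rw [zero_add] at this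
  refine this.congr fun j => ?_
  ring

/-- the central limit theorem -/
theorem clt_w (T A B : ℕ → ℝ) (X : ℕ → ℕ) (c : ℕ → ℕ → ℝ) (w : ℕ → ℕ → ℂ) (hw : ∀ j, CM (w j))
    (hw1 : ∀ j, ∀ n : ℕ, n ≠ 0 → ‖w j n‖ = 1) {M : ℝ} (hM : ∀ j p, c j p ^ 2 ≤ M)
    (hT : Tendsto T atTop atTop) (hT0 : ∀ j, 0 < T j) (hAB : ∀ j, A j ≤ B j)
    (hlen : Tendsto (fun j => (B j - A j) / T j) atTop (𝓝 1)) (hX1 : ∀ j, 1 ≤ X j)
    (hX : ∀ m : ℕ, ∀ᶠ j in atTop, ((X j ^ m : ℕ) : ℝ) ≤ Real.sqrt (T j))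
    (hV : Tendsto (fun j => VS (c j) (X j)) atTop atTop) (a b : ℝ) (hab : a < b) :
    Tendsto (fun j => (volume.real {t ∈ Set.Ioc (A j) (B j) |
      a < Real.sqrt 2 * ((Gw (c j) (w j) (X j) t).re / Real.sqrt (VS (c j) (X j))) ∧
      Real.sqrt 2 * ((Gw (c j) (w j) (X j) t).re / Real.sqrt (VS (c j) (X j))) < b}) / T j) atTop
      (𝓝 ((ProbabilityTheory.gaussianReal 0 1).real (Set.Ioo a b))) := by
  set μ : ℕ → Measure ℝ := fun j => ENNReal.ofReal (1 / T j) • volume.restrict (Set.Ioc (A j) (B j)) with hμ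
  set f : ℕ → ℝ → ℂ := fun j t => Gw (c j) (w j) (X j) t / (Real.sqrt (VS (c j) (X j)) : ℂ) with hf
  have hfc : ∀ j, Continuous (f j) := fun j => by
    simp only [hf]
    exact (Gw_cont _ _ _).div_const _
  have hfin : ∀ j, IsFiniteMeasure (μ j) := fun j => by
    simp only [hμ]
    refine ⟨?_⟩
    rw [Measure.smul_apply, smul_eq_mul, Measure.restrict_apply_univ, Real.volume_Ioc]
    exact ENNReal.mul_lt_top ENNReal.ofReal_lt_top ENNReal.ofReal_lt_top
  have hint : ∀ (j : ℕ) (g : ℝ → ℂ), ∫ x, g x ∂(μ j) = ((1 / T j : ℝ) : ℂ) * ∫ t in (A j)..(B j), g t := by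
    intro j g
    simp only [hμ]
    rw [integral_smul_measure, ENNReal.toReal_ofReal (by have := hT0 j; positivity),
      intervalIntegral.integral_of_le (hAB j)]
    simp
  have h := Pool.Agent.Y586.SW.t_GM μ f 1 zero_le_one hfin (fun j => (hfc j).measurable)
    (fun j k => by
      have h1 : IntegrableOn (fun x => ‖f j x‖ ^ k) (Set.Ioc (A j) (B j)) volume :=
        (((hfc j).norm.pow k).integrableOn_Icc).mono_set Set.Ioc_subset_Icc_self
      simp only [hμ]
      exact h1.smul_measure ENNReal.ofReal_ne_top)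
    (fun k l => by
      have h1 := mom_limw T A B X c w hw hw1 hM hT hAB hlen hX1 hX hV k l
      have e : (if k = l then (k.factorial : ℂ) * ((1 : ℝ) : ℂ) else 0) =
          (if k = l then (k.factorial : ℂ) else 0) := by simp
      rw [e]
      refine h1.congr fun j => ?_
      rw [hint]
      have e2 : ∀ t, f j t ^ k * (starRingEnd ℂ) (f j t) ^ l =
          ((1 / Real.sqrt (VS (c j) (X j)) ^ (k + l) : ℝ) : ℂ) *
          (Gw (c j) (w j) (X j) t ^ k * (starRingEnd ℂ) (Gw (c j) (w j) (X j) t) ^ l) := by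
        intro t
        simp only [hf]
        rw [map_div₀, Complex.conj_ofReal, div_pow, div_pow, pow_add]
        push_cast
        ring
      simp only [e2]
      rw [intervalIntegral.integral_const_mul]
      push_cast
      ring) a b hab
  rw [one_mul] at h
  refine h.congr fun j => ?_
  have e3 : ∀ x, (f j x).re = (Gw (c j) (w j) (X j) x).re / Real.sqrt (VS (c j) (X j)) := by
    intro x
    simp only [hf]
    rw [Complex.div_ofReal_re]
  simp only [e3]
  simp only [hμ]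
  rw [Measure.real, Measure.smul_apply, smul_eq_mul, ENNReal.toReal_mul,
    ENNReal.toReal_ofReal (by have := hT0 j; positivity)]
  rw [Measure.restrict_apply']
  · rw [Measure.real, one_div, div_eq_inv_mul]
    congr 3
    ext x
    simp only [Set.mem_inter_iff, Set.mem_ofPred_eq, Set.mem_Ioc]
    tauto
  · exact measurableSet_Ioc

/-- the gaussian measure of an interval -/
lemma gs_Ioo {u v : ℝ} (huv : u ≤ v) : gs.real (Set.Ioo u v) ≤ v - u := by
  have h1 : gs.real (Set.Ioo u v) ≤ Ph v - Ph u := by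
    have h2 : gs.real (Set.Iic u) + gs.real (Set.Ioo u v) ≤ gs.real (Set.Iic v) := by
      rw [← measureReal_union (by
        rw [Set.disjoint_left]
        intro y h3 h4
        exact absurd h3 (not_le.2 h4.1)) measurableSet_Ioo]
      refine measureReal_mono ?_
      rintro y (h3 | h3)
      · rw [Set.mem_Iic] at h3 ⊢
        linarith
      · exact h3.2.le
    unfold Ph
    linarith
  have h2 := Ph_lip huv
  linarith

/-- the values are not concentrated near any point -/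
theorem anti_w (T A B : ℕ → ℝ) (X : ℕ → ℕ) (c : ℕ → ℕ → ℝ) (w : ℕ → ℕ → ℂ) (hw : ∀ j, CM (w j))
    (hw1 : ∀ j, ∀ n : ℕ, n ≠ 0 → ‖w j n‖ = 1) {M : ℝ} (hM : ∀ j p, c j p ^ 2 ≤ M)
    (hT : Tendsto T atTop atTop) (hT0 : ∀ j, 0 < T j) (hAB : ∀ j, A j ≤ B j)
    (hlen : Tendsto (fun j => (B j - A j) / T j) atTop (𝓝 1)) (hX1 : ∀ j, 1 ≤ X j)
    (hX : ∀ m : ℕ, ∀ᶠ j in atTop, ((X j ^ m : ℕ) : ℝ) ≤ Real.sqrt (T j))
    (hV : Tendsto (fun j => VS (c j) (X j)) atTop atTop) (x ε : ℝ) (hx : 0 < x) (hε : 0 < ε) :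
    ∀ᶠ j in atTop, ∀ y : ℝ, volume.real {t ∈ Set.Ioc (A j) (B j) |
      |(Gw (c j) (w j) (X j) t).re - y| < x * Real.sqrt (VS (c j) (X j))} ≤ (6 * x + ε) * T j := by
  have hclt := clt_w T A B X c w hw hw1 hM hT hT0 hAB hlen hX1 hX hV
  set s2 := Real.sqrt 2 with hs2
  have hs2p : 0 < s2 := Real.sqrt_pos.2 (by norm_num)
  have hs2b : s2 ≤ 2 := by
    rw [hs2, Real.sqrt_le_left (by norm_num)]
    norm_num
  obtain ⟨z, hz⟩ : ∃ z : ℝ, z = s2 * x := ⟨_, rfl⟩
  have hz0 : 0 < z := by rw [hz]; positivity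
  obtain ⟨K1, hK1⟩ := gs_bot (show (0 : ℝ) < ε / 8 by positivity)
  obtain ⟨K2, hK2⟩ := gs_top (show (0 : ℝ) < ε / 8 by positivity)
  obtain ⟨m, hm⟩ := exists_nat_gt (max (max K1 K2) 1 / z)
  rw [div_lt_iff₀ hz0] at hm
  have hm0 : 0 < (m : ℝ) * z := lt_of_lt_of_le (by positivity) ((le_max_right (max K1 K2) 1).trans hm.le)
  have hmK1 : K1 ≤ m * z := ((le_max_left _ _).trans (le_max_left _ _)).trans hm.le
  have hmK2 : K2 ≤ m * z := ((le_max_right _ _).trans (le_max_left _ _)).trans hm.le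
  -- the outer part
  have hout : 1 - ε / 4 ≤ gs.real (Set.Ioo (-(m * z)) (m * z)) := by
    have h1 : (1 : ℝ) ≤ gs.real (Set.Iic (-(m * z))) + (gs.real (Set.Ioo (-(m * z)) (m * z)) +
        gs.real (Set.Ici (m * z))) := by
      have h2 : (1 : ℝ) = gs.real Set.univ := by
        rw [probReal_univ]
      rw [h2]
      have h3 : (Set.univ : Set ℝ) ⊆ Set.Iic (-(m * z)) ∪ (Set.Ioo (-(m * z)) (m * z) ∪ Set.Ici (m * z)) := by
        intro y _
        rcases le_or_gt y (-(m * z)) with h | h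
        · left; exact h
        · right
          rcases lt_or_ge y (m * z) with h' | h'
          · left; exact ⟨h, h'⟩
          · right; exact h'
      refine (measureReal_mono h3).trans ((measureReal_union_le _ _).trans ?_)
      gcongr
      exact measureReal_union_le _ _
    have h4 := hK1 _ hmK1
    have h5 := hK2 _ hmK2
    linarith
  have e0 := (hclt (-(m * z)) (m * z) (by linarith)).eventually_const_lt
    (show 1 - ε / 2 < gs.real (Set.Ioo (-(m * z)) (m * z)) by linarith)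
  -- the inner parts
  have e1 : ∀ᶠ j in atTop, ∀ i ∈ Finset.Icc (-((m : ℤ) + 2)) ((m : ℤ) + 2),
      volume.real {t ∈ Set.Ioc (A j) (B j) |
      ((i : ℝ) - 1) * z < s2 * ((Gw (c j) (w j) (X j) t).re / Real.sqrt (VS (c j) (X j))) ∧
      s2 * ((Gw (c j) (w j) (X j) t).re / Real.sqrt (VS (c j) (X j))) < ((i : ℝ) + 2) * z} / T j ≤
      3 * z + ε / 2 := by
    rw [Filter.eventually_all_finset]
    intro i _
    have h1 := hclt (((i : ℝ) - 1) * z) (((i : ℝ) + 2) * z) (by nlinarith)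
    refine h1.eventually_le_const ?_
    have h2 := gs_Ioo (show ((i : ℝ) - 1) * z ≤ ((i : ℝ) + 2) * z by nlinarith)
    have h3 : ((i : ℝ) + 2) * z - ((i : ℝ) - 1) * z = 3 * z := by ring
    linarith
  have e2 : ∀ᶠ j in atTop, (B j - A j) / T j ≤ 1 + ε / 4 := hlen.eventually_le_const (by linarith)
  filter_upwards [e0, e1, e2, hV.eventually_gt_atTop 0] with j g0 g1 g2 g3 y
  have hTj := hT0 j
  have hsv : 0 < Real.sqrt (VS (c j) (X j)) := Real.sqrt_pos.2 g3
  set sv := Real.sqrt (VS (c j) (X j)) with hsvd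
  set F : ℝ → ℝ := fun t => s2 * ((Gw (c j) (w j) (X j) t).re / sv) with hF
  have hFm : Measurable F := by
    simp only [hF]
    exact ((Complex.measurable_re.comp (Gw_cont _ _ _).measurable).div_const _).const_mul _
  set y' : ℝ := s2 * (y / sv) with hy'
  have hset : {t ∈ Set.Ioc (A j) (B j) | |(Gw (c j) (w j) (X j) t).re - y| < x * sv} ⊆
      {t ∈ Set.Ioc (A j) (B j) | |F t - y'| < z} := by
    rintro t ⟨ht1, ht2⟩
    refine ⟨ht1, ?_⟩
    have e : F t - y' = s2 * (((Gw (c j) (w j) (X j) t).re - y) / sv) := by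
      simp only [hF, hy']; ring
    rw [e, abs_mul, abs_of_pos hs2p, abs_div, abs_of_pos hsv, hz]
    apply mul_lt_mul_of_pos_left _ hs2p
    rwa [div_lt_iff₀ hsv]
  have hIocv : volume (Set.Ioc (A j) (B j)) ≠ ⊤ := by rw [Real.volume_Ioc]; exact ENNReal.ofReal_ne_top
  have hz2 : z ≤ 2 * x := by rw [hz]; exact mul_le_mul_of_nonneg_right hs2b hx.le
  have hbig : volume.real {t ∈ Set.Ioc (A j) (B j) | |F t - y'| < z} ≤ (3 * z + ε) * T j := by
    rcases le_or_gt |y'| ((m + 1) * z) with hy | hy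
    · -- inner
      set i : ℤ := ⌊y' / z⌋ with hi
      have i1 : (i : ℝ) * z ≤ y' := by
        have := Int.floor_le (y' / z)
        rwa [le_div_iff₀ hz0] at this
      have i2 : y' < ((i : ℝ) + 1) * z := by
        have := Int.lt_floor_add_one (y' / z)
        rwa [div_lt_iff₀ hz0] at this
      have hy2 := abs_le.1 hy
      have i3 : (i : ℝ) ≤ m + 1 := le_of_mul_le_mul_right (i1.trans hy2.2) hz0
      have i4 : -((m : ℝ) + 1) < i + 1 := by
        have : -((m : ℝ) + 1) * z < ((i : ℝ) + 1) * z := by linarith [hy2.1]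
        exact lt_of_mul_lt_mul_right this hz0.le
      have i5 : i ∈ Finset.Icc (-((m : ℤ) + 2)) ((m : ℤ) + 2) := by
        rw [Finset.mem_Icc]
        constructor
        · have : (-((m : ℤ) + 2) : ℤ) < i := by
            have : ((-((m : ℤ) + 2) : ℤ) : ℝ) < (i : ℝ) := by push_cast; linarith
            exact_mod_cast this
          exact this.le
        · have : (i : ℝ) ≤ (((m : ℤ) + 2 : ℤ) : ℝ) := by push_cast; linarith
          exact_mod_cast this
      have h1 := g1 i i5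
      rw [div_le_iff₀ hTj] at h1
      refine le_trans (measureReal_mono ?_ (ne_top_of_le_ne_top hIocv (measure_mono (Set.sep_subset _ _))))
        (h1.trans (mul_le_mul_of_nonneg_right (by linarith) hTj.le))
      rintro t ⟨ht1, ht2⟩
      have h2 := abs_lt.1 ht2
      refine ⟨ht1, ?_, ?_⟩
      · show ((i : ℝ) - 1) * z < F t
        linarith
      · show F t < ((i : ℝ) + 2) * z
        linarith
    · -- outer
      rw [lt_div_iff₀ hTj] at g0
      rw [div_le_iff₀ hTj] at g2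
      set P : Set ℝ := {t ∈ Set.Ioc (A j) (B j) | -(m * z) < F t ∧ F t < m * z} with hP
      have hPm : MeasurableSet P := by
        rw [hP]
        exact measurableSet_Ioc.inter ((measurableSet_lt measurable_const hFm).inter
          (measurableSet_lt hFm measurable_const))
      have hg0 : (1 - ε / 2) * T j < volume.real P := g0
      have hdisj : Disjoint {t ∈ Set.Ioc (A j) (B j) | |F t - y'| < z} P := by
        rw [Set.disjoint_left]
        rintro t ⟨_, ht2⟩ ⟨_, ht3, ht4⟩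
        have h1 := abs_lt.1 ht2
        rcases lt_abs.1 hy with h2 | h2 <;> nlinarith
      have h3 : volume.real {t ∈ Set.Ioc (A j) (B j) | |F t - y'| < z} + volume.real P ≤
          volume.real (Set.Ioc (A j) (B j)) := by
        rw [← measureReal_union hdisj hPm (ne_top_of_le_ne_top hIocv (measure_mono (Set.sep_subset _ _)))
          (ne_top_of_le_ne_top hIocv (measure_mono (Set.sep_subset _ _)))]
        exact measureReal_mono (Set.union_subset (Set.sep_subset _ _) (Set.sep_subset _ _)) hIocv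
      rw [Real.volume_real_Ioc_of_le (hAB j)] at h3
      have h4 : 0 < ε * T j := by positivity
      have h5 : 0 < z * T j := by positivity
      nlinarith
  refine (measureReal_mono hset (ne_top_of_le_ne_top hIocv (measure_mono (Set.sep_subset _ _)))).trans
    (hbig.trans (mul_le_mul_of_nonneg_right (by linarith) hTj.le))

end

end Pool.Agent.X112.LF
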