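import Pool.Agent.X112.LF.Tw

/-! # Linear forms: the coefficients and their variance -/

set_option autoImplicit false

namespace Pool.Agent.X112.LF

open Filter Topology MeasureTheory Complex
open Pool.Agent.Y743.CL
open Pool.Agent.Y41.SW (DP)
open Pool.Agent.X112.SD (wk rc_wk)

noncomputable section

/-- the complex coefficients of a linear form -/
def Dc {m : ℕ} (l : ℝ) (a h : Fin m → ℝ) (n : ℕ) : ℂ :=
  ∑ i, (a i : ℂ) * ((rc l (h i) n : ℂ) * (n : ℂ) ^ (-((h i / 2 : ℝ) : ℂ) * I))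

lemma npow_cs (n : ℕ) (hn : n ≠ 0) (s : ℝ) : (n : ℂ) ^ (-(s : ℂ) * I) =
    ((Real.cos (s * Real.log n) : ℝ) : ℂ) - ((Real.sin (s * Real.log n) : ℝ) : ℂ) * I := by
  have hn0 : (n : ℂ) ≠ 0 := by exact_mod_cast hn
  rw [Complex.cpow_def_of_ne_zero hn0, ← Complex.natCast_log]
  have e : (Real.log n : ℂ) * (-(s : ℂ) * I) = ((-(s * Real.log n) : ℝ) : ℂ) * I := by
    push_cast; ring
  rw [e, Complex.exp_mul_I, ← Complex.ofReal_cos, ← Complex.ofReal_sin, Real.cos_neg, Real.sin_neg]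
  push_cast
  ring

lemma Dc_eq {m : ℕ} (l : ℝ) (a h : Fin m → ℝ) (n : ℕ) (hn : n ≠ 0) : Dc l a h n =
    ((wk l n * ∑ i, a i * (Real.sin (h i / 2 * Real.log n) * Real.cos (h i / 2 * Real.log n)) : ℝ) : ℂ) -
    ((wk l n * ∑ i, a i * Real.sin (h i / 2 * Real.log n) ^ 2 : ℝ) : ℂ) * I := by
  unfold Dc
  have e : ∀ i, (a i : ℂ) * ((rc l (h i) n : ℂ) * (n : ℂ) ^ (-((h i / 2 : ℝ) : ℂ) * I)) =
      ((wk l n * (a i * (Real.sin (h i / 2 * Real.log n) * Real.cos (h i / 2 * Real.log n))) : ℝ) : ℂ) -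
      ((wk l n * (a i * Real.sin (h i / 2 * Real.log n) ^ 2) : ℝ) : ℂ) * I := by
    intro i
    rw [npow_cs n hn, rc_wk]
    push_cast
    ring
  simp only [e]
  rw [Finset.sum_sub_distrib, ← Finset.sum_mul, Finset.mul_sum, Finset.mul_sum]
  push_cast
  rfl

/-- the size of a coefficient -/
lemma Dc_sq {m : ℕ} (l : ℝ) (a h : Fin m → ℝ) (ha : ∑ i, a i = 0) (n : ℕ) (hn : n ≠ 0) :
    ‖Dc l a h n‖ ^ 2 = -(1 / 2) * ∑ i, ∑ j, a i * a j * rc l (h i - h j) n ^ 2 := by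
  rw [Dc_eq l a h n hn, ← Complex.normSq_eq_norm_sq]
  have e : ∀ u v : ℝ, Complex.normSq ((u : ℂ) - (v : ℂ) * I) = u ^ 2 + v ^ 2 := by
    intro u v
    rw [Complex.normSq_apply]
    simp
    ring
  rw [e, mul_pow, mul_pow, sq (∑ i, a i * (Real.sin (h i / 2 * Real.log n) * Real.cos (h i / 2 * Real.log n))),
    sq (∑ i, a i * Real.sin (h i / 2 * Real.log n) ^ 2), Finset.sum_mul_sum, Finset.sum_mul_sum]
  set S : Fin m → ℝ := fun i => Real.sin (h i / 2 * Real.log n) with hS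
  set C : Fin m → ℝ := fun i => Real.cos (h i / 2 * Real.log n) with hC
  have hSC : ∀ i, C i ^ 2 = 1 - S i ^ 2 := fun i => by
    have := Real.sin_sq_add_cos_sq (h i / 2 * Real.log n)
    simp only [hS, hC]
    linarith
  have hrc : ∀ i j, rc l (h i - h j) n = wk l n * (S i * C j - C i * S j) := by
    intro i j
    rw [rc_wk]
    congr 1
    have e : (h i - h j) / 2 * Real.log n = h i / 2 * Real.log n - h j / 2 * Real.log n := by ring
    rw [e, Real.sin_sub]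
  simp only [hrc]
  have hz : ∑ i, ∑ j, a i * a j * S i ^ 2 = 0 := by
    have : ∀ i, ∑ j, a i * a j * S i ^ 2 = a i * S i ^ 2 * ∑ j, a j := by
      intro i
      rw [Finset.mul_sum]
      refine Finset.sum_congr rfl fun j _ => by ring
    simp only [this, ha, mul_zero, Finset.sum_const_zero]
  have hz' : ∑ i, ∑ j, a i * a j * S j ^ 2 = 0 := by
    rw [Finset.sum_comm]
    rw [← hz]
    refine Finset.sum_congr rfl fun i _ => Finset.sum_congr rfl fun j _ => by ring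
  have key : ∀ i j, a i * a j * (wk l n * (S i * C j - C i * S j)) ^ 2 =
      wk l n ^ 2 * (a i * a j * S i ^ 2) + wk l n ^ 2 * (a i * a j * S j ^ 2) -
      2 * (wk l n ^ 2 * (a i * (S i * C i) * (a j * (S j * C j)))) -
      2 * (wk l n ^ 2 * (a i * S i ^ 2 * (a j * S j ^ 2))) := by
    intro i j
    have h1 := hSC i
    have h2 := hSC j
    have e1 : (S i * C j - C i * S j) ^ 2 = S i ^ 2 * C j ^ 2 + C i ^ 2 * S j ^ 2 -
      2 * (S i * C i) * (S j * C j) := by ring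
    rw [mul_pow, e1, h1, h2]
    ring
  simp only [key, Finset.sum_add_distrib, Finset.sum_sub_distrib, ← Finset.mul_sum, hz, hz']
  ring

/-- the phases -/
def ph {m : ℕ} (l : ℝ) (a h : Fin m → ℝ) (p : ℕ) : ℂ :=
  if Dc l a h p = 0 then 1 else Dc l a h p / ‖Dc l a h p‖

lemma ph_norm {m : ℕ} (l : ℝ) (a h : Fin m → ℝ) (p : ℕ) : ‖ph l a h p‖ = 1 := by
  unfold ph
  split_ifs with h0
  · simp
  · rw [norm_div, Complex.norm_real, norm_norm, div_self (norm_ne_zero_iff.2 h0)]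

lemma ph_mul {m : ℕ} (l : ℝ) (a h : Fin m → ℝ) (p : ℕ) : (‖Dc l a h p‖ : ℂ) * ph l a h p = Dc l a h p := by
  unfold ph
  split_ifs with h0
  · rw [h0]; simp
  · rw [mul_div_cancel₀]
    exact_mod_cast norm_ne_zero_iff.2 h0

/-- the completely multiplicative function with the given values at the primes -/
def wn (φ : ℕ → ℂ) (n : ℕ) : ℂ := n.factorization.prod fun p k => φ p ^ k

lemma wn_cm (φ : ℕ → ℂ) : CM (wn φ) := by
  refine ⟨by simp [wn], fun a b ha hb => ?_⟩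
  unfold wn
  rw [Nat.factorization_mul ha hb, Finsupp.prod_add_index']
  · intro p; simp
  · intro p k l; rw [pow_add]

lemma wn_norm {φ : ℕ → ℂ} (hφ : ∀ p, ‖φ p‖ = 1) (n : ℕ) : ‖wn φ n‖ = 1 := by
  unfold wn Finsupp.prod
  rw [norm_prod]
  refine Finset.prod_eq_one fun p _ => ?_
  rw [norm_pow, hφ, one_pow]

lemma wn_prime (φ : ℕ → ℂ) {p : ℕ} (hp : p.Prime) : wn φ p = φ p := by
  unfold wn
  rw [hp.factorization, Finsupp.prod_single_index] <;> simp

/-- the real coefficients of the twisted polynomial -/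
def dc {m : ℕ} (l : ℝ) (a h : Fin m → ℝ) (n : ℕ) : ℝ := ‖Dc l a h n‖

/-- the combination of the prime polynomials as a twisted polynomial -/
lemma G_comb {m : ℕ} (l : ℝ) (a h : Fin m → ℝ) (X : ℕ) (t : ℝ) :
    ∑ i, (a i : ℂ) * G (rc l (h i)) X (t + h i / 2) = Gw (dc l a h) (wn (ph l a h)) X t := by
  unfold G DP Gw DZ zt
  simp only [Finset.mul_sum]
  rw [Finset.sum_comm]
  refine Finset.sum_congr rfl fun n hn => ?_
  have hn0 : n ≠ 0 := by have := (Finset.mem_Icc.1 hn).1; omega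
  by_cases hp : n.Prime ∧ n ≤ X
  · rw [pr_apply, if_pos hp]
    have e1 : ∀ i, (a i : ℂ) * (((pr (rc l (h i)) X n : ℝ) : ℂ) * (n : ℂ) ^ (-((t + h i / 2 : ℝ) : ℂ) * I)) =
        (a i : ℂ) * ((rc l (h i) n : ℂ) * (n : ℂ) ^ (-((h i / 2 : ℝ) : ℂ) * I)) * (n : ℂ) ^ (-(t : ℂ) * I) := by
      intro i
      rw [pr_apply, if_pos hp]
      have e2 : -((t + h i / 2 : ℝ) : ℂ) * I = -((h i / 2 : ℝ) : ℂ) * I + -(t : ℂ) * I := by
        push_cast; ring
      rw [e2, Complex.cpow_add _ _ (by exact_mod_cast hn0)]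
      ring
    simp only [e1]
    rw [← Finset.sum_mul, wn_prime _ hp.1]
    show Dc l a h n * _ = ((dc l a h n : ℝ) : ℂ) * _
    unfold dc
    rw [← mul_assoc, ph_mul]
  · rw [pr_apply, if_neg hp]
    simp only [pr_apply, if_neg hp]
    simp

lemma rc_neg (l h : ℝ) (n : ℕ) : rc l (-h) n ^ 2 = rc l h n ^ 2 := by
  rw [rc_wk, rc_wk]
  have : -h / 2 * Real.log n = -(h / 2 * Real.log n) := by ring
  rw [this, Real.sin_neg]
  ring

lemma rc_abs (l h : ℝ) (n : ℕ) : rc l |h| n ^ 2 = rc l h n ^ 2 := by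
  rcases abs_choice h with h1 | h1
  · rw [h1]
  · rw [h1, rc_neg]

lemma rc_zero (l : ℝ) (n : ℕ) : rc l 0 n = 0 := by
  rw [rc_wk]
  simp

lemma VS_abs (l h : ℝ) (X : ℕ) : VS (rc l |h|) X = VS (rc l h) X := by
  unfold VS
  exact Finset.sum_congr rfl fun p _ => rc_abs _ _ _

/-- the variance of a linear form -/
lemma VS_dc {m : ℕ} (l : ℝ) (a h : Fin m → ℝ) (ha : ∑ i, a i = 0) (X : ℕ) :
    VS (dc l a h) X = -(1 / 2) * ∑ i, ∑ j, a i * a j * VS (rc l |h i - h j|) X := by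
  have e : ∀ p ∈ Pr X, dc l a h p ^ 2 = -(1 / 2) * ∑ i, ∑ j, a i * a j * rc l (h i - h j) p ^ 2 := by
    intro p hp
    exact Dc_sq l a h ha p (mem_Pr.1 hp).1.ne_zero
  unfold VS
  rw [Finset.sum_congr rfl e, ← Finset.mul_sum]
  congr 1
  rw [Finset.sum_comm]
  refine Finset.sum_congr rfl fun i _ => ?_
  rw [Finset.sum_comm]
  refine Finset.sum_congr rfl fun j _ => ?_
  rw [Finset.mul_sum]
  refine Finset.sum_congr rfl fun p _ => ?_
  rw [rc_abs]

lemma dc_bd {m : ℕ} {l : ℝ} (hl : 0 < l) (a h : Fin m → ℝ) {H : ℝ} (hH : ∀ i, |a i| ≤ H) (n : ℕ) :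
    dc l a h n ^ 2 ≤ (m * H) ^ 2 + 1 := by
  rcases Nat.eq_zero_or_pos n with hn | hn
  · subst hn
    have h1 : dc l a h 0 = 0 := by
      unfold dc
      have : Dc l a h 0 = 0 := by
        unfold Dc
        refine Finset.sum_eq_zero fun i _ => ?_
        rw [rc_wk]
        simp
      rw [this, norm_zero]
    rw [h1]
    have := sq_nonneg ((m : ℝ) * H)
    nlinarith
  have h1 : dc l a h n ≤ m * H := by
    unfold dc Dc
    refine (norm_sum_le _ _).trans ?_
    have h2 : ∀ i ∈ (Finset.univ : Finset (Fin m)), ‖(a i : ℂ) * ((rc l (h i) n : ℂ) *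
        (n : ℂ) ^ (-((h i / 2 : ℝ) : ℂ) * I))‖ ≤ H := by
      intro i _
      rw [norm_mul, norm_mul, Complex.norm_real, Complex.norm_real, Real.norm_eq_abs, Real.norm_eq_abs]
      have h3 : ‖(n : ℂ) ^ (-((h i / 2 : ℝ) : ℂ) * I)‖ = 1 := by
        rw [Complex.norm_natCast_cpow_of_pos hn]
        simp
      rw [h3, mul_one]
      have h4 : |rc l (h i) n| ≤ 1 := by
        have := rc_bd hl (h i) n
        rw [← sq_abs] at this
        nlinarith [abs_nonneg (rc l (h i) n)]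
      calc |a i| * |rc l (h i) n| ≤ H * 1 :=
            mul_le_mul (hH i) h4 (abs_nonneg _) ((abs_nonneg _).trans (hH i))
        _ = H := mul_one _
    refine (Finset.sum_le_sum h2).trans ?_
    rw [Finset.sum_const, Finset.card_univ, Fintype.card_fin, nsmul_eq_mul]
  have h0 : 0 ≤ dc l a h n := norm_nonneg _
  nlinarith

end

end Pool.Agent.X112.LF
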